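import Pool.Agent.H38.KT.Df

/-!
MP_8923e7_nt, project KT.  Definitions for the version with companions: tuples of `k + l + 1` elements, the first
`k + 1` in `S`, the last `l` in `H`.
-/

namespace Pool.Agent.H38.KT

open Finset Pool.Agent.H11.HM

/-- the tuples `v` with `v_0, …, v_k ∈ S` and `v_{k+1}, …, v_{k+l} ∈ H` -/
noncomputable def tupl (k l : ℕ) (S H : Finset ℤ) : Finset (Fin (k + l + 1) → ℤ) :=
  Fintype.piFinset fun j : Fin (k + l + 1) => if (j : ℕ) ≤ k then S else H

open Classical in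
/-- the number of the injective tuples of `tupl k l S H` whose difference vector is in `R` -/
noncomputable def badtl (k l : ℕ) (R : Set (Fin (k + l) → ℤ)) (S H : Finset ℤ) : ℕ :=
  ((tupl k l S H).filter (fun v => Function.Injective v ∧ dvec v ∈ R)).card

/-- every large admissible set `H` contains a set of almost `c |H|` elements in which almost no
`(k+1)`-tuples, together with `l` companions in `H`, have their difference vector in `R` -/
def NCkl (k l : ℕ) (c : ℝ) (R : Set (Fin (k + l) → ℤ)) : Prop :=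
  ∀ ε : ℝ, 0 < ε → ∃ K : ℕ, ∀ H : Finset ℤ,
    (∀ p : ℕ, p.Prime → ∃ a : ℤ, ∀ h ∈ H, ¬ (p : ℤ) ∣ a + h) → K ≤ H.card →
    ∃ S : Finset ℤ, S ⊆ H ∧ (c - ε) * (H.card : ℝ) ≤ (S.card : ℝ) ∧
      (badtl k l R S H : ℝ) ≤ ε * (H.card : ℝ) ^ (k + l + 1)

/-- subsets with few bad tuples have at most `lam |H|` elements -/
def ThinL (k l : ℕ) (R : Set (Fin (k + l) → ℤ)) (e lam : ℝ) (H : Finset ℤ) : Prop :=
  ∀ S : Finset ℤ, S ⊆ H → (badtl k l R S H : ℝ) ≤ e * (H.card : ℝ) ^ (k + l + 1) →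
    (S.card : ℝ) ≤ lam * H.card

end Pool.Agent.H38.KT
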