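import Pool.Agent.H38.KT.LemK

/-!
[H38 KT LEMKL]  Lemma K with companions (helper11).  Dimension `k + l`; the last `l` sets are the full interval `[0, L)`.

Proof.  As for `lemK` (`LemK.lean`), in dimension `d = k + l`.  The good points `p = (u_0, u)` are those with large fibres for the indices `i < k`, and with
`u i + m P ≤ L` for `i ≥ k`: then the fibre is all of `ZMod P` and `lzl` (from `lz`) applies:
the number of the popular `x = (x', x'')` is at least `((k+1) a^k - ε P^k) P^l`, because the popularity does not depend on `x''`.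
-/

namespace Pool.Agent.H38.KT

open Finset Pool.Agent.H11.HM

theorem lzl (k l : ℕ) (c ε : ℝ) (hc : 0 < c) (hε : 0 < ε) : ∃ θ : ℝ, 0 < θ ∧ ∃ P0 : ℕ, ∀ P : ℕ, P0 ≤ P →
    ∀ [Fact P.Prime] (a : ℕ), c * P ≤ a → 2 * a ≤ P → ∀ (A : Finset (ZMod P)) (B : Fin (k + l) → Finset (ZMod P)),
      a ≤ A.card → (∀ i : Fin (k + l), (i : ℕ) < k → a ≤ (B i).card) →
      (∀ i : Fin (k + l), k ≤ (i : ℕ) → B i = univ) →
      (((k : ℝ) + 1) * (a : ℝ) ^ k - ε * (P : ℝ) ^ k) * (P : ℝ) ^ l ≤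
        ((univ.filter (fun x : Fin (k + l) → ZMod P => θ * P ≤ ((lzT A B x).card : ℝ))).card : ℝ) := by
  classical
  obtain ⟨θ, hθ, P0, h⟩ := lz k c ε hc hε
  refine ⟨θ, hθ, P0, ?_⟩
  intro P hP _ a ha h2a A B hA hB hB2
  have h1 := h P hP a ha h2a A (fun i => B (Fin.castAdd l i)) hA (fun i => hB _ (by simp))
  obtain ⟨G, hG⟩ : ∃ G : Finset (Fin k → ZMod P), G = univ.filter (fun x : Fin k → ZMod P => θ * P ≤
    ((lzT A (fun i => B (Fin.castAdd l i)) x).card : ℝ)) := ⟨_, rfl⟩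
  rw [← hG] at h1
  have h2 : (G ×ˢ (univ : Finset (Fin l → ZMod P))).card ≤
      (univ.filter (fun x : Fin (k + l) → ZMod P => θ * P ≤ ((lzT A B x).card : ℝ))).card := by
    apply card_le_card_of_injOn (fun p => Fin.append p.1 p.2)
    · intro p hp
      rw [mem_coe, mem_product, hG, mem_filter] at hp
      rw [mem_coe, mem_filter]
      refine ⟨mem_univ _, hp.1.2.trans ?_⟩
      have h3 : lzT A (fun i => B (Fin.castAdd l i)) p.1 ⊆ lzT A B (Fin.append p.1 p.2) := by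
        unfold lzT
        intro v hv
        rw [mem_filter] at hv ⊢
        refine ⟨hv.1, fun i => ?_⟩
        refine Fin.addCases ?_ ?_ i
        · intro j
          rw [Fin.append_left]
          exact hv.2 j
        · intro j
          rw [hB2 _ (by simp)]
          exact mem_univ _
      exact_mod_cast card_le_card h3
    · rintro ⟨x, y⟩ _ ⟨x', y'⟩ _ h3
      simp only at h3
      refine Prod.ext ?_ ?_
      · funext i
        have := congrFun h3 (Fin.castAdd l i)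
        simpa using this
      · funext i
        have := congrFun h3 (Fin.natAdd k i)
        simpa using this
  rw [card_product, card_univ, Fintype.card_fun, ZMod.card, Fintype.card_fin] at h2
  have h3 : (G.card : ℝ) * (P : ℝ) ^ l ≤
      ((univ.filter (fun x : Fin (k + l) → ZMod P => θ * P ≤ ((lzT A B x).card : ℝ))).card : ℝ) := by
    exact_mod_cast h2
  refine le_trans (mul_le_mul_of_nonneg_right ?_ (by positivity)) h3
  linarith

theorem lemKL_core (k l : ℕ) (hkl : 1 ≤ k + l) (c e : ℝ) (hc0 : 0 < c) (hc : c ≤ 1 / 2) (he : 0 < e) :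
    ∃ (K P0 : ℕ) (kap : ℝ), 1 ≤ K ∧ 0 < kap ∧ ∀ P : ℕ, P.Prime → P0 ≤ P → ∃ L0 : ℕ, ∀ L : ℕ, L0 ≤ L →
      ∀ R : Set (Fin (k + l) → ℤ),
      (∀ m : ℕ, 1 ≤ m → m ≤ K → (((ocube (k + l) L).filter (fun w => (cntk R P m w : ℝ) <
        (1 - ((k : ℝ) + 1) * c ^ k + e) * (P : ℝ) ^ (k + l))).card : ℝ) ≤ kap * (2 * (L : ℝ)) ^ (k + l)) →
      ∀ (S0 : Finset ℤ) (S : Fin (k + l) → Finset ℤ), S0 ⊆ Ico 0 (L : ℤ) → (∀ i, S i ⊆ Ico 0 (L : ℤ)) →
        c * L ≤ (S0.card : ℝ) → (∀ i : Fin (k + l), (i : ℕ) < k → c * L ≤ ((S i).card : ℝ)) →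
        (∀ i : Fin (k + l), k ≤ (i : ℕ) → S i = Ico 0 (L : ℤ)) →
        ∃ y0 ∈ S0, ∃ y : Fin (k + l) → ℤ, (∀ i, y i ∈ S i) ∧ (fun i => y i - y0) ∈ R := by
  classical
  obtain ⟨d, hd⟩ : ∃ d : ℕ, d = k + l := ⟨_, rfl⟩
  have hdr : (1 : ℝ) ≤ ((k + l : ℕ) : ℝ) := by exact_mod_cast hkl
  obtain ⟨ε, hε⟩ : ∃ ε : ℝ, ε = min (min 1 (c / 6)) (e / (12 * (k + 1) ^ 2)) := ⟨_, rfl⟩
  have hε0 : 0 < ε := by
    rw [hε]
    exact lt_min (lt_min one_pos (by linarith)) (by positivity)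
  have hε1 : ε ≤ 1 := by rw [hε]; exact (min_le_left _ _).trans (min_le_left _ _)
  have hεc : ε ≤ c / 6 := by rw [hε]; exact (min_le_left _ _).trans (min_le_right _ _)
  have hεe : ε ≤ e / (12 * (k + 1) ^ 2) := by rw [hε]; exact min_le_right _ _
  obtain ⟨θ, hθ, P1, hlz⟩ := lzl k l (c / 2) (e / 4) (by linarith) (by linarith)
  obtain ⟨η, hη⟩ : ∃ η : ℝ, η = min 1 (ε ^ (k + l + 1) * e * θ / (8 * 4 ^ (k + l) * ((k + l : ℕ) : ℝ))) :=
    ⟨_, rfl⟩
  have hη0 : 0 < η := by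
    rw [hη]
    exact lt_min one_pos (by positivity)
  have hη1 : η ≤ 1 := by rw [hη]; exact min_le_left _ _
  have hη2 : η ≤ ε ^ (k + l + 1) * e * θ / (8 * 4 ^ (k + l) * ((k + l : ℕ) : ℝ)) := by
    rw [hη]; exact min_le_right _ _
  obtain ⟨K, hK1, hK⟩ := stab_fam (k + l) η hη0 hη1
  obtain ⟨kap, hkap⟩ : ∃ kap : ℝ, kap = ε ^ (k + l + 1) / 2 ^ (k + l + 1) := ⟨_, rfl⟩
  have hkap0 : 0 < kap := by rw [hkap]; positivity
  refine ⟨K, max P1 ⌈1 / ε⌉₊, kap, hK1, hkap0, ?_⟩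
  intro P hPp hP
  have hP1 : P1 ≤ P := (le_max_left _ _).trans hP
  have hPε : 1 ≤ ε * P := by
    have h1 : ⌈1 / ε⌉₊ ≤ P := (le_max_right _ _).trans hP
    have h2 : 1 / ε ≤ P := (Nat.le_ceil _).trans (by exact_mod_cast h1)
    rw [div_le_iff₀ hε0] at h2
    linarith
  have hPpos : 0 < P := hPp.pos
  have hPr : (0 : ℝ) < P := by exact_mod_cast hPpos
  haveI : Fact P.Prime := ⟨hPp⟩
  haveI : NeZero P := ⟨hPpos.ne'⟩
  refine ⟨⌈(K : ℝ) * P / ε ^ 2⌉₊ + 1, ?_⟩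
  intro L hL R hexc S0 S hS0 hS hc0' hci hfull
  have hL1 : 1 ≤ L := by omega
  have hLr : (1 : ℝ) ≤ L := by exact_mod_cast hL1
  have hKPL : (K : ℝ) * P ≤ ε ^ 2 * L := by
    have h1 : ⌈(K : ℝ) * P / ε ^ 2⌉₊ ≤ L := by omega
    have h2 : (K : ℝ) * P / ε ^ 2 ≤ L := (Nat.le_ceil _).trans (by exact_mod_cast h1)
    rw [div_le_iff₀ (by positivity)] at h2
    linarith
  have hε2 : ε ^ 2 ≤ 1 := pow_le_one₀ hε0.le hε1
  have hKPL' : K * P ≤ L := by
    have h2 : (K : ℝ) * P ≤ L := hKPL.trans (mul_le_of_le_one_left (by linarith) hε2)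
    exact_mod_cast h2
  by_contra hcon
  have hR : ∀ y0 ∈ S0, ∀ y : Fin (k + l) → ℤ, (∀ i, y i ∈ S i) → (fun i => y i - y0) ∉ R := by
    intro y0 hy0 y hy h
    exact hcon ⟨y0, hy0, y, hy, h⟩
  obtain ⟨m, hm1, hmK, hm⟩ := hK P L hPp.one_lt.le hKPL' S hS
  have hmP : (m : ℝ) * P ≤ ε ^ 2 * L := by
    refine le_trans ?_ hKPL
    apply mul_le_mul_of_nonneg_right _ hPr.le
    exact_mod_cast hmK
  -- the number of the unstable tuples
  have hun : ∀ D : Finset (Fin (k + l)), ((unst S0 S R (m * P) D).card : ℝ) ≤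
      ((k + l : ℕ) : ℝ) * (η * (2 * (L : ℝ)) ^ (k + l) * L) := by
    intro D
    have h1 := uns_le S0 S R (m * P) D L hS0 hS hR
    have h2 := phi_stab L hL1 (m * P) η hη0.le S0 S hS0 hm D
    refine h1.trans (h2.trans ?_)
    apply mul_le_mul_of_nonneg_right _ (by positivity)
    have : D.card ≤ k + l := by
      have := card_le_univ D
      rwa [Fintype.card_fin] at this
    exact_mod_cast this
  have hunt : ∑ D : Finset (Fin (k + l)), ((unst S0 S R (m * P) D).card : ℝ) ≤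
      4 ^ (k + l) * ((k + l : ℕ) : ℝ) * η * (L : ℝ) ^ (k + l + 1) := by
    refine (sum_le_sum fun D _ => hun D).trans (le_of_eq ?_)
    rw [sum_const, card_univ, Fintype.card_finset, Fintype.card_fin, nsmul_eq_mul]
    rw [← hd]
    push_cast
    have e4 : (4 : ℝ) ^ d = 2 ^ d * 2 ^ d := by
      rw [← mul_pow]
      norm_num
    rw [e4, mul_pow, pow_succ]
    ring
  -- the good points
  obtain ⟨X0, hX0⟩ : ∃ X0 : Finset ℤ, X0 = (Ico 0 (L : ℤ)).filter
      (fun u => ((S0.card : ℝ) / L - 2 * ε) * P ≤ ((fib S0 P m u).card : ℝ)) := ⟨_, rfl⟩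
  obtain ⟨X, hX⟩ : ∃ X : Fin (k + l) → Finset ℤ, ∀ i, X i = if (i : ℕ) < k then (Ico 0 (L : ℤ)).filter
      (fun u => (((S i).card : ℝ) / L - 2 * ε) * P ≤ ((fib (S i) P m u).card : ℝ)) else
        Ico 0 ((L - m * P : ℕ) : ℤ) := ⟨_, fun _ => rfl⟩
  have hX0c : ε * L ≤ (X0.card : ℝ) := by
    rw [hX0]
    exact many_good S0 P L m ε hε0 hε1 hPp.one_lt.le hS0 hmP
  have hmPL : m * P ≤ L := (Nat.mul_le_mul_right P hmK).trans hKPL'
  have hXc : ∀ i, ε * L ≤ ((X i).card : ℝ) := by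
    intro i
    rw [hX]
    split_ifs with hik
    · exact many_good (S i) P L m ε hε0 hε1 hPp.one_lt.le (hS i) hmP
    · rw [Int.card_Ico, sub_zero, Int.toNat_natCast, Nat.cast_sub hmPL]
      push_cast
      have h1 : ε ^ 2 * (L : ℝ) ≤ (1 / 12) * L := by
        apply mul_le_mul_of_nonneg_right _ (by linarith)
        nlinarith
      have h2 : ε * (L : ℝ) ≤ (1 / 12) * L := mul_le_mul_of_nonneg_right (by linarith) (by linarith)
      linarith
  have hXsub : ∀ i, ∀ u ∈ X i, u ∈ Ico 0 (L : ℤ) := by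
    intro i u hu
    rw [hX] at hu
    split_ifs at hu with hik
    · exact (mem_filter.1 hu).1
    · rw [mem_Ico] at hu ⊢
      have : ((L - m * P : ℕ) : ℤ) ≤ L := by
        have := Nat.sub_le L (m * P)
        exact_mod_cast this
      exact ⟨hu.1, lt_of_lt_of_le hu.2 this⟩
  obtain ⟨Z0, hZ0⟩ : ∃ Z0 : Finset (ℤ × (Fin (k + l) → ℤ)), Z0 = X0 ×ˢ Fintype.piFinset X := ⟨_, rfl⟩
  have hZ0c : ε ^ (k + l + 1) * (L : ℝ) ^ (k + l + 1) ≤ (Z0.card : ℝ) := by
    rw [hZ0, card_product, Fintype.card_piFinset]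
    push_cast
    have h1 : (ε * L) ^ (k + l) ≤ ∏ i, ((X i).card : ℝ) := by
      have h2 : ∏ _i : Fin (k + l), (ε * (L : ℝ)) ≤ ∏ i, ((X i).card : ℝ) :=
        prod_le_prod (fun i _ => by positivity) (fun i _ => hXc i)
      rw [prod_const, card_univ, Fintype.card_fin] at h2
      exact h2
    calc ε ^ (k + l + 1) * (L : ℝ) ^ (k + l + 1) = (ε * L) * (ε * L) ^ (k + l) := by
          rw [← mul_pow, pow_succ]
          ring
      _ ≤ (X0.card : ℝ) * ∏ i, ((X i).card : ℝ) := mul_le_mul hX0c h1 (by positivity) (by positivity)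
  obtain ⟨ρ, hρ⟩ : ∃ ρ : ℝ, ρ = 1 - ((k : ℝ) + 1) * c ^ k + e := ⟨_, rfl⟩
  rw [← hρ] at hexc
  obtain ⟨Bd, hBd⟩ : ∃ Bd : Finset (ℤ × (Fin (k + l) → ℤ)), Bd = (Ico 0 (L : ℤ) ×ˢ
      Fintype.piFinset (fun _ : Fin (k + l) => Ico 0 (L : ℤ))).filter
      (fun p => (cntk R P m (fun i => p.2 i - p.1) : ℝ) < ρ * (P : ℝ) ^ (k + l)) := ⟨_, rfl⟩
  have hBdc : (Bd.card : ℝ) ≤ ε ^ (k + l + 1) * (L : ℝ) ^ (k + l + 1) / 2 := by
    obtain ⟨Ex, hEx⟩ : ∃ Ex : Finset (Fin (k + l) → ℤ), Ex = (ocube (k + l) L).filter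
      (fun w => (cntk R P m w : ℝ) < ρ * (P : ℝ) ^ (k + l)) := ⟨_, rfl⟩
    have h1 : Bd.card ≤ (Ico 0 (L : ℤ) ×ˢ Ex).card := by
      apply card_le_card_of_injOn (fun p => (p.1, fun i => p.2 i - p.1))
      · intro p hp
        rw [mem_coe, hBd, mem_filter, mem_product, Fintype.mem_piFinset] at hp
        rw [mem_coe, mem_product, hEx, mem_filter, ocube, Fintype.mem_piFinset]
        simp only
        refine ⟨hp.1.1, fun i => ?_, hp.2⟩
        have h2 := mem_Ico.1 hp.1.1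
        have h3 := mem_Ico.1 (hp.1.2 i)
        rw [mem_Ioo]
        constructor <;> linarith [h2.1, h2.2, h3.1, h3.2]
      · intro a _ b _ hab
        simp only [Prod.mk.injEq] at hab
        refine Prod.ext hab.1 ?_
        funext i
        have := congrFun hab.2 i
        rw [hab.1] at this
        linarith
    rw [card_product, Int.card_Ico] at h1
    have h2 : ((L : ℤ) - 0).toNat = L := by omega
    rw [h2] at h1
    have h3 : (Bd.card : ℝ) ≤ (L : ℝ) * Ex.card := by exact_mod_cast h1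
    have h4 := hexc m hm1 hmK
    rw [← hEx] at h4
    calc (Bd.card : ℝ) ≤ (L : ℝ) * Ex.card := h3
      _ ≤ (L : ℝ) * (kap * (2 * (L : ℝ)) ^ (k + l)) := mul_le_mul_of_nonneg_left h4 (by linarith)
      _ = _ := by
        rw [hkap, mul_pow, pow_succ 2 (k + l), pow_succ (L : ℝ) (k + l)]
        field_simp
  obtain ⟨Z, hZ⟩ : ∃ Z : Finset (ℤ × (Fin (k + l) → ℤ)), Z = Z0 \ Bd := ⟨_, rfl⟩
  have hZc : ε ^ (k + l + 1) * (L : ℝ) ^ (k + l + 1) / 2 ≤ (Z.card : ℝ) := by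
    have h1 : Z0.card ≤ Z.card + Bd.card := by
      rw [hZ]
      have := card_le_card_sdiff_add_card (s := Z0) (t := Bd)
      exact this
    have h2 : (Z0.card : ℝ) ≤ Z.card + Bd.card := by exact_mod_cast h1
    linarith
  -- a lower bound for the good points
  have hlow : ∀ p ∈ Z, e / 2 * (P : ℝ) ^ (k + l) * (θ * P) ≤ ((wz P m S0 S R p).card : ℝ) := by
    rintro ⟨u0, u⟩ hp
    rw [hZ, mem_sdiff, hZ0, mem_product, Fintype.mem_piFinset] at hp
    obtain ⟨⟨hu0, hu⟩, hpB⟩ := hp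
    simp only at hu0 hu
    rw [hX0, mem_filter] at hu0
    have hu' : ∀ i : Fin (k + l), (i : ℕ) < k →
        (((S i).card : ℝ) / L - 2 * ε) * P ≤ ((fib (S i) P m (u i)).card : ℝ) := by
      intro i hik
      have := hu i
      rw [hX, if_pos hik, mem_filter] at this
      exact this.2
    obtain ⟨a, ha⟩ : ∃ a : ℕ, a = ⌊(c - 2 * ε) * P⌋₊ := ⟨_, rfl⟩
    have ha1 : (a : ℝ) ≤ (c - 2 * ε) * P := by
      rw [ha]
      exact Nat.floor_le (mul_nonneg (by linarith) hPr.le)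
    have ha2 : (c - 3 * ε) * P ≤ a := by
      have h1 : (c - 2 * ε) * P < a + 1 := by
        rw [ha]
        exact Nat.lt_floor_add_one _
      nlinarith
    have ha3 : 2 * a ≤ P := by
      have h1 : (2 : ℝ) * a ≤ P := by nlinarith
      exact_mod_cast h1
    have ha4 : c / 2 * P ≤ a := by
      refine le_trans ?_ ha2
      apply mul_le_mul_of_nonneg_right _ hPr.le
      linarith
    have hL0 : (0 : ℝ) < L := by linarith
    have hf0 : a ≤ (univ.filter (fun v : ZMod P => u0 + m * (v.val : ℤ) ∈ S0)).card := by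
      rw [zfib_card]
      have h1 : (c - 2 * ε) * P ≤ ((S0.card : ℝ) / L - 2 * ε) * P := by
        apply mul_le_mul_of_nonneg_right _ hPr.le
        have : c ≤ (S0.card : ℝ) / L := by
          rw [le_div_iff₀ hL0]
          exact hc0'
        linarith
      have h2 : (a : ℝ) ≤ ((fib S0 P m u0).card : ℝ) := ha1.trans (h1.trans hu0.2)
      exact_mod_cast h2
    have hfi : ∀ i : Fin (k + l), (i : ℕ) < k →
        a ≤ (univ.filter (fun v : ZMod P => u i + m * (v.val : ℤ) ∈ S i)).card := by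
      intro i hik
      rw [zfib_card]
      have h1 : (c - 2 * ε) * P ≤ (((S i).card : ℝ) / L - 2 * ε) * P := by
        apply mul_le_mul_of_nonneg_right _ hPr.le
        have : c ≤ ((S i).card : ℝ) / L := by
          rw [le_div_iff₀ hL0]
          exact hci i hik
        linarith
      have h2 : (a : ℝ) ≤ ((fib (S i) P m (u i)).card : ℝ) := ha1.trans (h1.trans (hu' i hik))
      exact_mod_cast h2
    have hff : ∀ i : Fin (k + l), k ≤ (i : ℕ) →
        univ.filter (fun v : ZMod P => u i + m * (v.val : ℤ) ∈ S i) = univ := by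
      intro i hik
      apply filter_true_of_mem
      intro v _
      rw [hfull i hik, mem_Ico]
      have h1 := hu i
      rw [hX, if_neg (by omega), mem_Ico] at h1
      have h2 : ((L - m * P : ℕ) : ℤ) = L - m * P := by
        rw [Nat.cast_sub hmPL]
        push_cast
        ring
      rw [h2] at h1
      have h3 : m * v.val ≤ m * P := Nat.mul_le_mul_left m (ZMod.val_lt v).le
      have h4 : (m : ℤ) * (v.val : ℤ) ≤ m * P := by exact_mod_cast h3
      have h5 : (0 : ℤ) ≤ (m : ℤ) * (v.val : ℤ) := by positivity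
      constructor
      · linarith [h1.1]
      · linarith [h1.2]
    have hz := hlz P hP1 a ha4 ha3 (univ.filter (fun v : ZMod P => u0 + m * (v.val : ℤ) ∈ S0))
      (fun i => univ.filter (fun v : ZMod P => u i + m * (v.val : ℤ) ∈ S i)) hf0 hfi hff
    obtain ⟨XX, hXX⟩ : ∃ XX : Finset (Fin (k + l) → ZMod P), XX = univ.filter (fun x : Fin (k + l) → ZMod P =>
      θ * P ≤ ((lzT (univ.filter (fun v : ZMod P => u0 + m * (v.val : ℤ) ∈ S0))
      (fun i => univ.filter (fun v : ZMod P => u i + m * (v.val : ℤ) ∈ S i)) x).card : ℝ)) := ⟨_, rfl⟩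
    rw [← hXX] at hz
    obtain ⟨Y, hY1, hY2⟩ := zcnt_card P R (m : ℤ) (fun i => u i - u0)
    have hYc : ρ * (P : ℝ) ^ (k + l) ≤ (Y.card : ℝ) := by
      rw [hY1]
      by_contra hlt
      push Not at hlt
      apply hpB
      rw [hBd, mem_filter, mem_product, Fintype.mem_piFinset]
      exact ⟨⟨hu0.1, fun i => hXsub i _ (hu i)⟩, hlt⟩
    have hfb := fibre P m S0 S R u0 u XX Y (θ * P) (by
      intro x hx
      rw [hXX, mem_filter] at hx
      exact hx.2) hY2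
    refine le_trans ?_ hfb
    apply mul_le_mul_of_nonneg_right _ (by positivity)
    have hint : XX.card + Y.card ≤ (XX ∩ Y).card + P ^ (k + l) := by
      have h1 := card_union_add_card_inter XX Y
      have h2 : (XX ∪ Y).card ≤ P ^ (k + l) := by
        have := card_le_univ (XX ∪ Y)
        rwa [Fintype.card_fun, ZMod.card, Fintype.card_fin] at this
      omega
    have hint' : (XX.card : ℝ) + Y.card ≤ (XX ∩ Y).card + (P : ℝ) ^ (k + l) := by exact_mod_cast hint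
    have hPk : (0 : ℝ) < (P : ℝ) ^ k := by positivity
    have hPl : (0 : ℝ) < (P : ℝ) ^ l := by positivity
    have h3 : ((c - 3 * ε) * P) ^ k ≤ (a : ℝ) ^ k :=
      pow_le_pow_left₀ (mul_nonneg (by linarith) hPr.le) ha2 k
    rw [mul_pow] at h3
    have h4 := pow_diff_le k c (c - 3 * ε) (by linarith) (by linarith) (by linarith)
    have h5 : ((k : ℝ) + 1) * (k * (3 * ε)) ≤ e / 4 := by
      rw [le_div_iff₀ (by positivity)] at hεe
      have hk0 : (0 : ℝ) ≤ k := Nat.cast_nonneg _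
      have h51 : (k : ℝ) * ((k : ℝ) + 1) * ε ≤ ((k : ℝ) + 1) ^ 2 * ε := by
        apply mul_le_mul_of_nonneg_right _ hε0.le
        nlinarith
      linarith
    have h6 : ((k : ℝ) + 1) * c ^ k - e / 4 ≤ ((k : ℝ) + 1) * (c - 3 * ε) ^ k := by
      have h7 : ((k : ℝ) + 1) * (c ^ k - (c - 3 * ε) ^ k) ≤ ((k : ℝ) + 1) * (k * (c - (c - 3 * ε))) :=
        mul_le_mul_of_nonneg_left h4 (by positivity)
      have e8 : c - (c - 3 * ε) = 3 * ε := by ring
      rw [e8] at h7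
      linarith
    have h7 : (((k : ℝ) + 1) * c ^ k - e / 4) * (P : ℝ) ^ k ≤ ((k : ℝ) + 1) * (a : ℝ) ^ k := by
      calc (((k : ℝ) + 1) * c ^ k - e / 4) * (P : ℝ) ^ k ≤ (((k : ℝ) + 1) * (c - 3 * ε) ^ k) * (P : ℝ) ^ k :=
            mul_le_mul_of_nonneg_right h6 hPk.le
        _ = ((k : ℝ) + 1) * ((c - 3 * ε) ^ k * (P : ℝ) ^ k) := by ring
        _ ≤ ((k : ℝ) + 1) * (a : ℝ) ^ k := mul_le_mul_of_nonneg_left h3 (by positivity)
    have h8 : ((((k : ℝ) + 1) * c ^ k - e / 4) * (P : ℝ) ^ k - e / 4 * (P : ℝ) ^ k) * (P : ℝ) ^ l ≤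
        (XX.card : ℝ) := by
      refine le_trans (mul_le_mul_of_nonneg_right ?_ hPl.le) hz
      linarith
    have e9 : (P : ℝ) ^ (k + l) = (P : ℝ) ^ k * (P : ℝ) ^ l := pow_add _ _ _
    rw [hρ] at hYc
    rw [e9] at hYc hint' ⊢
    nlinarith
  -- the end
  have hsum := uns_sum P m S0 S R Z
  have h1 : (Z.card : ℝ) * (e / 2 * (P : ℝ) ^ (k + l) * (θ * P)) ≤ ∑ p ∈ Z, ((wz P m S0 S R p).card : ℝ) := by
    have h2 := card_nsmul_le_sum Z (fun p => ((wz P m S0 S R p).card : ℝ)) _ hlow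
    rw [nsmul_eq_mul] at h2
    exact h2
  have h2 : (P : ℝ) ^ (k + l + 1) * ∑ D : Finset (Fin (k + l)), ((unst S0 S R (m * P) D).card : ℝ) ≤
      (P : ℝ) ^ (k + l + 1) * (4 ^ (k + l) * ((k + l : ℕ) : ℝ) * η * (L : ℝ) ^ (k + l + 1)) :=
    mul_le_mul_of_nonneg_left hunt (by positivity)
  have h3 : ε ^ (k + l + 1) * (L : ℝ) ^ (k + l + 1) / 2 * (e / 2 * (P : ℝ) ^ (k + l) * (θ * P)) ≤
      (Z.card : ℝ) * (e / 2 * (P : ℝ) ^ (k + l) * (θ * P)) := mul_le_mul_of_nonneg_right hZc (by positivity)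
  have h4 := h3.trans (h1.trans (hsum.trans h2))
  have h5 : 4 ^ (k + l) * ((k + l : ℕ) : ℝ) * η ≤ ε ^ (k + l + 1) * e * θ / 8 := by
    rw [le_div_iff₀ (by positivity)] at hη2
    rw [le_div_iff₀ (by norm_num)]
    linarith
  obtain ⟨Wt, hWt⟩ : ∃ Wt : ℝ, Wt = (P : ℝ) ^ (k + l + 1) * (L : ℝ) ^ (k + l + 1) := ⟨_, rfl⟩
  have hWt0 : 0 < Wt := by rw [hWt]; positivity
  have h6 : ε ^ (k + l + 1) * (L : ℝ) ^ (k + l + 1) / 2 * (e / 2 * (P : ℝ) ^ (k + l) * (θ * P)) =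
      ε ^ (k + l + 1) * e * θ / 4 * Wt := by
    rw [hWt, pow_succ (P : ℝ) (k + l)]
    ring
  have h7 : (P : ℝ) ^ (k + l + 1) * (4 ^ (k + l) * ((k + l : ℕ) : ℝ) * η * (L : ℝ) ^ (k + l + 1)) =
      (4 ^ (k + l) * ((k + l : ℕ) : ℝ) * η) * Wt := by
    rw [hWt]
    ring
  rw [h6, h7] at h4
  have h8 := le_of_mul_le_mul_right h4 hWt0
  have h9 : 0 < ε ^ (k + l + 1) * e * θ := by positivity
  linarith

/-- Lemma K with companions -/
theorem lemKL (k K : ℕ) (hkK : k ≤ K) (hK : 1 ≤ K) (c e : ℝ) (hc0 : 0 < c) (hc : c ≤ 1 / 2) (he : 0 < e) :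
    ∃ (K' P0 : ℕ) (kap : ℝ), 1 ≤ K' ∧ 0 < kap ∧ ∀ P : ℕ, P.Prime → P0 ≤ P → ∃ L0 : ℕ, ∀ L : ℕ, L0 ≤ L →
      ∀ (R : Set (Fin K → ℤ)) (s : ℤ) (x : Fin K → ℤ),
      POKk R (1 - ((k : ℝ) + 1) * c ^ k + e) kap K' P L s x →
      ∀ S : Fin (K + 1) → Finset ℤ, (∀ i, S i ⊆ Ico 0 (L : ℤ)) →
        (∀ i : Fin (K + 1), (i : ℕ) ≤ k → c * L ≤ ((S i).card : ℝ)) →
        (∀ i : Fin (K + 1), k < (i : ℕ) → S i = Ico 0 (L : ℤ)) →
        ∃ y : Fin (K + 1) → ℤ, (∀ i, y i ∈ S i) ∧ (fun i : Fin K => x i + s * (y i.succ - y 0)) ∈ R := by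
  classical
  obtain ⟨l, rfl⟩ := Nat.exists_eq_add_of_le hkK
  obtain ⟨K', P0, kap, hK', hkap, h⟩ := lemKL_core k l hK c e hc0 hc he
  refine ⟨K', P0, kap, hK', hkap, ?_⟩
  intro P hP hPP
  obtain ⟨L0, hL0⟩ := h P hP hPP
  refine ⟨L0, ?_⟩
  intro L hL R s x hpok S hS hSc hSf
  have h1 := hL0 L hL {w | (fun i => x i + s * w i) ∈ R} (by
    intro m hm1 hm2
    have h2 := hpok m hm1 hm2
    have e1 : ∀ w : Fin (k + l) → ℤ, cntk {w : Fin (k + l) → ℤ | (fun i => x i + s * w i) ∈ R} P m w =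
        cntk R P (s * m) (fun i => x i + s * w i) := by
      intro w
      unfold cntk
      congr 1
      apply filter_congr
      intro n _
      have e2 : (fun i => x i + s * w i + s * m * (n i : ℤ)) = (fun i => x i + s * (w i + m * (n i : ℤ))) := by
        funext i
        ring
      rw [e2]
      rfl
    simp_rw [e1]
    exact h2) (S 0) (fun i => S i.succ) (hS 0) (fun i => hS i.succ) (hSc 0 (by simp))
      (fun i hi => hSc i.succ (by rw [Fin.val_succ]; omega))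
      (fun i hi => hSf i.succ (by rw [Fin.val_succ]; omega))
  obtain ⟨y0, hy0, y, hy, hyR⟩ := h1
  refine ⟨Fin.cons y0 y, ?_, ?_⟩
  · intro i
    refine Fin.cases ?_ ?_ i
    · simpa using hy0
    · intro j
      simpa using hy j
  · simpa using hyR

end Pool.Agent.H38.KT
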