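import Pool.Agent.H38.KT.ClaimA
import Pool.Agent.H38.KT.StepL

/-!
MP_8923e7_nt, project KT.  The induction on the number of levels and the density theorem, version with companions
(copy of `ClaimA.lean`, helper17).
-/

namespace Pool.Agent.H38.KT

open Finset Pool.Agent.H11.HM

/-- the conclusion of the step for the parameters `c`, `e`: a level over a thin set gives a thinner set -/
def StepAtL (k l : ℕ) (c e : ℝ) : Prop :=
  ∃ (L N : ℕ) (es : ℝ), 1 ≤ L ∧ 1 ≤ N ∧ 0 < es ∧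
    ∀ (R : Set (Fin (k + l) → ℤ)) (Q : ℕ), 0 < Q → Longk R (1 - (k + 1) * c ^ k + 2 * e) Q →
    ∀ H' : Finset ℤ, H'.Nonempty → (∀ h ∈ H', ((Q * N : ℕ) : ℤ) ∣ h) →
    ∀ e' lam : ℝ, 0 ≤ e' → e' * (((k : ℝ) + l + 1) * L) ^ (k + l + 1) ≤ es →
    (∀ S : Finset ℤ, S ⊆ H' →
      (badtl k l R S H' : ℝ) ≤ (e' * (((k : ℝ) + l + 1) * L) ^ (k + l + 1)) * (H'.card : ℝ) ^ (k + l + 1) →
      (S.card : ℝ) ≤ lam * H'.card) →
    ∃ H : Finset ℤ, (∀ h ∈ H, (Q : ℤ) ∣ h) ∧ H.card = (k + l + 1) * L * H'.card ∧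
      (∀ S : Finset ℤ, S ⊆ H → (badtl k l R S H : ℝ) ≤ e' * (H.card : ℝ) ^ (k + l + 1) →
        (S.card : ℝ) ≤ (((k + l) * lam + (c + e)) / (k + l + 1)) * H.card)

/-- CLAIM(J): by induction on the number `J` of levels -/
theorem claimJL {k l : ℕ} (c e Λ : ℝ) (hΛ : Λ = c + e) (R : Set (Fin (k + l) → ℤ)) (L N : ℕ) (es : ℝ) (hL : 1 ≤ L)
    (hN : 1 ≤ N) (hes : 0 < es)
    (hbad : ∀ q : ℕ, 0 < q → ∃ Q : ℕ, 0 < Q ∧ q ∣ Q ∧ Longk R (1 - (k + 1) * c ^ k + 2 * e) Q)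
    (hst : ∀ (R : Set (Fin (k + l) → ℤ)) (Q : ℕ), 0 < Q → Longk R (1 - (k + 1) * c ^ k + 2 * e) Q →
      ∀ H' : Finset ℤ, H'.Nonempty → (∀ h ∈ H', ((Q * N : ℕ) : ℤ) ∣ h) →
      ∀ e' lam : ℝ, 0 ≤ e' → e' * (((k : ℝ) + l + 1) * L) ^ (k + l + 1) ≤ es →
      (∀ S : Finset ℤ, S ⊆ H' →
        (badtl k l R S H' : ℝ) ≤ (e' * (((k : ℝ) + l + 1) * L) ^ (k + l + 1)) * (H'.card : ℝ) ^ (k + l + 1) →
        (S.card : ℝ) ≤ lam * H'.card) →
      ∃ H : Finset ℤ, (∀ h ∈ H, (Q : ℤ) ∣ h) ∧ H.card = (k + l + 1) * L * H'.card ∧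
        (∀ S : Finset ℤ, S ⊆ H → (badtl k l R S H : ℝ) ≤ e' * (H.card : ℝ) ^ (k + l + 1) →
          (S.card : ℝ) ≤ (((k + l) * lam + (c + e)) / (k + l + 1)) * H.card)) (J : ℕ) :
    ∀ n g : ℕ, 1 ≤ n → 1 ≤ g → ∃ H : Finset ℤ, (∀ h ∈ H, (g : ℤ) ∣ h) ∧
      H.card = ((k + l + 1) * L) ^ J * n ∧
      (∀ S : Finset ℤ, S ⊆ H →
        (badtl k l R S H : ℝ) ≤ (es / ((((k : ℝ) + l + 1) * L) ^ (k + l + 1)) ^ J) * (H.card : ℝ) ^ (k + l + 1) →
        (S.card : ℝ) ≤ (Λ + (((k : ℝ) + l) / (k + l + 1)) ^ J * (1 - Λ)) * H.card) := by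
  classical
  have hC1 : (1 : ℝ) ≤ ((k : ℝ) + l + 1) * L := by
    have h1 : (1 : ℝ) ≤ L := by exact_mod_cast hL
    have h2 : (0 : ℝ) ≤ k := by positivity
    nlinarith
  have hC2 : (1 : ℝ) ≤ (((k : ℝ) + l + 1) * L) ^ (k + l + 1) := one_le_pow₀ hC1
  have hk1 : (0 : ℝ) < (k : ℝ) + 1 := by positivity
  induction J with
  | zero =>
    intro n g hn hg
    refine ⟨(range n).image (fun i : ℕ => (g : ℤ) * (i : ℤ)), ?_, ?_, ?_⟩
    · intro h hh
      rw [mem_image] at hh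
      obtain ⟨i, _, rfl⟩ := hh
      exact dvd_mul_right _ _
    · rw [card_image_of_injective, card_range]
      · simp
      · intro a b hab
        have hg0 : (g : ℤ) ≠ 0 := by exact_mod_cast (by omega : g ≠ 0)
        have := mul_left_cancel₀ hg0 hab
        exact_mod_cast this
    · intro S hS _
      have h1 : (S.card : ℝ) ≤ ((range n).image (fun i : ℕ => (g : ℤ) * (i : ℤ))).card := by
        exact_mod_cast card_le_card hS
      simpa using h1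
  | succ J ih =>
    intro n g hn hg
    obtain ⟨Q, hQ, hgQ, hlong⟩ := hbad g (by omega)
    obtain ⟨H', hdv, hcard, hthin⟩ := ih n (Q * N) hn (Nat.mul_pos hQ (by omega))
    have hne : H'.Nonempty := by
      rw [← card_pos, hcard]
      have : 0 < (k + l + 1) * L := Nat.mul_pos (by omega) (by omega)
      positivity
    have hCJ : (0 : ℝ) < ((((k : ℝ) + l + 1) * L) ^ (k + l + 1)) ^ (J + 1) := by positivity
    have hCJ' : (0 : ℝ) < ((((k : ℝ) + l + 1) * L) ^ (k + l + 1)) ^ J := by positivity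
    have he' : (es / ((((k : ℝ) + l + 1) * L) ^ (k + l + 1)) ^ (J + 1)) * (((k : ℝ) + l + 1) * L) ^ (k + l + 1) =
        es / ((((k : ℝ) + l + 1) * L) ^ (k + l + 1)) ^ J := by
      rw [pow_succ, div_mul_eq_mul_div, mul_div_mul_right]
      positivity
    obtain ⟨H, h1, h2, h3⟩ := hst R Q hQ hlong H' hne hdv
      (es / ((((k : ℝ) + l + 1) * L) ^ (k + l + 1)) ^ (J + 1)) (Λ + (((k : ℝ) + l) / (k + l + 1)) ^ J * (1 - Λ))
      (by positivity)
      (by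
        rw [he']
        apply div_le_self hes.le
        exact one_le_pow₀ hC2)
      (by
        intro S hS hb
        rw [he'] at hb
        exact hthin S hS hb)
    refine ⟨H, ?_, ?_, ?_⟩
    · intro h hh
      exact dvd_trans (by exact_mod_cast hgQ) (h1 h hh)
    · rw [h2, hcard, pow_succ]
      ring
    · intro S hS hb
      have h4 := h3 S hS hb
      refine h4.trans (le_of_eq ?_)
      congr 1
      rw [← hΛ, pow_succ]
      field_simp
      ring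

open Classical in
/-- the density theorem from the step -/
theorem density_of_stepL (k l : ℕ) (c e ε : ℝ) (he : 0 < e) (hec : 2 * e < c) (hc : c ≤ 1 / 2)
    (heε : 2 * e * ((k : ℝ) + 1) ^ 2 ≤ ε) (hst : StepAtL k l (c - 2 * e) e) (R : Set (Fin (k + l) → ℤ))
    (hNC : NCkl k l c R) :
    ∃ q : ℕ, 0 < q ∧ ∀ Q : ℕ, 0 < Q → q ∣ Q → ∃ X0 : ℕ, ∀ X : ℕ, X0 ≤ X → ∀ M : Fin (k + l) → ℤ,
      ((k + 1) * c ^ k - ε) * (X : ℝ) ^ (k + l) ≤
        (((cube X M).filter (fun n : Fin (k + l) → ℤ => (fun i => (Q : ℤ) * n i) ∉ R)).card : ℝ) := by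
  classical
  by_contra hcon
  push Not at hcon
  obtain ⟨L, N, es, hL, hN, hes, hst⟩ := hst
  have hbad : ∀ q : ℕ, 0 < q → ∃ Q : ℕ, 0 < Q ∧ q ∣ Q ∧
      Longk R (1 - (k + 1) * (c - 2 * e) ^ k + 2 * e) Q := by
    intro q hq
    obtain ⟨Q, hQ, hqQ, hX⟩ := hcon q hq
    refine ⟨Q, hQ, hqQ, ?_⟩
    have h1 : Longk R (1 - ((k + 1) * c ^ k - ε)) Q := by
      apply longk_of_not
      push Not
      exact hX
    refine h1.mono ?_
    have h2 := pow_sub_le (k := k) c (2 * e) (by linarith) hec.le (by linarith)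
    have hk0 : (0 : ℝ) ≤ k := by positivity
    nlinarith [mul_le_mul_of_nonneg_left h2 (by positivity : (0 : ℝ) ≤ (k : ℝ) + 1),
      mul_nonneg hk0 he.le]
  have hk1 : (0 : ℝ) < (k : ℝ) + 1 := by positivity
  -- the number of levels
  obtain ⟨J, hJ⟩ : ∃ J : ℕ, (((k : ℝ) + l) / (k + l + 1)) ^ J * (1 - (c - 2 * e + e)) < e / 2 := by
    have h1 : ((k : ℝ) + l) / (k + l + 1) < 1 := by
      rw [div_lt_one (by positivity)]
      linarith
    have h2 : 0 ≤ ((k : ℝ) + l) / (k + l + 1) := by positivity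
    obtain ⟨J, hJ⟩ := exists_pow_lt_of_lt_one (show (0 : ℝ) < e / 2 by positivity) h1
    refine ⟨J, lt_of_le_of_lt ?_ hJ⟩
    have h3 : 0 ≤ (((k : ℝ) + l) / (k + l + 1)) ^ J := pow_nonneg h2 J
    nlinarith
  have hC : (0 : ℝ) < ((((k : ℝ) + l + 1) * L) ^ (k + l + 1)) ^ J := by
    have : (0 : ℝ) < L := by exact_mod_cast hL
    positivity
  obtain ⟨K, hK⟩ := hNC (min (e / 2) (es / ((((k : ℝ) + l + 1) * L) ^ (k + l + 1)) ^ J))
    (lt_min (by positivity) (div_pos hes hC))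
  set m := ((k + l + 1) * L) ^ J * (K + 1) with hm
  have hCn : 0 < ((k + l + 1) * L) ^ J := pow_pos (Nat.mul_pos (by omega) (by omega)) J
  obtain ⟨H, h1, h2, h3⟩ := claimJL (k := k) (l := l) (c - 2 * e) e (c - 2 * e + e) rfl R L N es hL hN hes hbad hst J
    (K + 1) m.factorial (by omega) (Nat.factorial_pos m)
  obtain ⟨S, hSH, hS1, hS2⟩ := hK H (adm_of_fact H m (by rw [h2]) h1) (by
    rw [h2]
    have : 1 * (K + 1) ≤ ((k + l + 1) * L) ^ J * (K + 1) := Nat.mul_le_mul_right _ hCn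
    omega)
  have hHpos : (0 : ℝ) < H.card := by
    rw [h2]
    exact_mod_cast Nat.mul_pos hCn (by omega)
  have h4 := h3 S hSH (hS2.trans (mul_le_mul_of_nonneg_right (min_le_right _ _) (by positivity)))
  have h5 : (c - e / 2) * (H.card : ℝ) ≤ S.card := by
    refine le_trans ?_ hS1
    apply mul_le_mul_of_nonneg_right _ hHpos.le
    have := min_le_left (e / 2) (es / ((((k : ℝ) + l + 1) * L) ^ (k + l + 1)) ^ J)
    linarith
  have h6 : (c - 2 * e + e + (((k : ℝ) + l) / (k + l + 1)) ^ J * (1 - (c - 2 * e + e))) * (H.card : ℝ) <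
      (c - e / 2) * H.card := by
    apply mul_lt_mul_of_pos_right _ hHpos
    linarith
  linarith

open Classical in
/-- the density theorem, if the step is known for all parameters -/
theorem density_of_stepsL (k l : ℕ) (hst : ∀ c e : ℝ, 0 < c → c ≤ 1 / 2 → 0 < e → StepAtL k l c e)
    (c : ℝ) (hc0 : 0 < c) (hc : c ≤ 1 / 2) (R : Set (Fin (k + l) → ℤ)) (hNC : NCkl k l c R) (ε : ℝ) (hε : 0 < ε) :
    ∃ q : ℕ, 0 < q ∧ ∀ Q : ℕ, 0 < Q → q ∣ Q → ∃ X0 : ℕ, ∀ X : ℕ, X0 ≤ X → ∀ M : Fin (k + l) → ℤ,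
      ((k + 1) * c ^ k - ε) * (X : ℝ) ^ (k + l) ≤
        (((cube X M).filter (fun n : Fin (k + l) → ℤ => (fun i => (Q : ℤ) * n i) ∉ R)).card : ℝ) := by
  have hk1 : (0 : ℝ) < 8 * ((k : ℝ) + 1) ^ 2 := by positivity
  have he : 0 < min (ε / (8 * ((k : ℝ) + 1) ^ 2)) (c / 4) := lt_min (div_pos hε hk1) (by linarith)
  have h1 := min_le_left (ε / (8 * ((k : ℝ) + 1) ^ 2)) (c / 4)
  have h2 := min_le_right (ε / (8 * ((k : ℝ) + 1) ^ 2)) (c / 4)
  set e := min (ε / (8 * ((k : ℝ) + 1) ^ 2)) (c / 4) with hedef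
  refine density_of_stepL k l c e ε he (by linarith) hc ?_ (hst _ _ (by linarith) (by linarith) he) R hNC
  rw [le_div_iff₀ hk1] at h1
  nlinarith [sq_nonneg ((k : ℝ) + 1)]

open Classical in
/-- the density of the vectors `n` with `Q n ∉ R` in every large cube, version with companions -/
theorem densityL (k l : ℕ) (hkl : 1 ≤ k + l) (c : ℝ) (hc0 : 0 < c) (hc : c ≤ 1 / 2)
    (R : Set (Fin (k + l) → ℤ)) (hNC : NCkl k l c R) (ε : ℝ) (hε : 0 < ε) :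
    ∃ q : ℕ, 0 < q ∧ ∀ Q : ℕ, 0 < Q → q ∣ Q → ∃ X0 : ℕ, ∀ X : ℕ, X0 ≤ X → ∀ M : Fin (k + l) → ℤ,
      ((k + 1) * c ^ k - ε) * (X : ℝ) ^ (k + l) ≤
        (((cube X M).filter (fun n : Fin (k + l) → ℤ => (fun i => (Q : ℤ) * n i) ∉ R)).card : ℝ) :=
  density_of_stepsL k l (fun c e h1 h2 h3 => stepL k l hkl c e h1 h2 h3) c hc0 hc R hNC ε hε

end Pool.Agent.H38.KT
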