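import Pool.Agent.H38.KT.Df
import Pool.Agent.H21.LA.La
import Pool.Agent.H21.CP.Med

/-!
MP_8923e7_nt, project KT (density of the prime `k`-tuples).  The prime `(k+1)`-tuples of one colour with all
patterns satisfy `NCk (13/(50 r))`.
-/

namespace Pool.Agent.H38.KT

open Finset

/-- in some colour `i`, for every set `F` of indices there are infinitely many natural numbers `N` such that
`N + x_j` (with `x_0 = 0`) is a prime of colour `i` if and only if `j ∈ F` -/
def Shat {r k : ℕ} (c : ℕ → Fin r) (x : Fin k → ℤ) : Prop :=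
  ∃ i : Fin r, ∀ F : Finset (Fin (k + 1)),
    {N : ℕ | ∀ j, (∃ p : ℕ, p.Prime ∧ c p = i ∧
      (p : ℤ) = (N : ℤ) + (Fin.cons 0 x : Fin (k + 1) → ℤ) j) ↔ j ∈ F}.Infinite

/-- the vectors `x` for which `0, x_1, …, x_k` are not distinct or not shattered in one colour -/
def Rbad {r : ℕ} (k : ℕ) (c : ℕ → Fin r) : Set (Fin k → ℤ) :=
  {x | ¬ (Function.Injective (Fin.cons 0 x : Fin (k + 1) → ℤ) ∧ Shat c x)}

private theorem cons_dvec {k : ℕ} (v : Fin (k + 1) → ℤ) (j : Fin (k + 1)) :
    (Fin.cons 0 (dvec v) : Fin (k + 1) → ℤ) j = v j - v 0 := by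
  refine Fin.cases ?_ (fun i => ?_) j
  · rw [Fin.cons_zero, sub_self]
  · rw [Fin.cons_succ]
    rfl

private theorem shat_of_shat {r k : ℕ} (c : ℕ → Fin r) (i : Fin r) (H : Finset ℕ) (ε : ℝ)
    (hε : ε < 1) (v : Fin (k + 1) → ℤ) (w : Fin (k + 1) → ℕ) (T : ℤ) (hw : ∀ j, (w j : ℤ) = v j + T)
    (hinj : Function.Injective w)
    (h : Pool.Agent.H21.LA.Shat2 Pool.Agent.H21.CP.Q2 c i H 0 ε (univ.image w)) :
    Shat c (dvec v) := by
  classical
  unfold Pool.Agent.H21.LA.Shat2 at h
  rw [Nat.choose_zero_right] at h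
  have h1 : (0 : ℝ) < (((powersetCard 0 H).filter
      (fun B' => Pool.Agent.H21.LA.Real2 Pool.Agent.H21.CP.Q2 c i (univ.image w) B')).card : ℝ) := by
    refine lt_of_lt_of_le ?_ (h.trans (le_of_eq ?_))
    · push_cast; linarith
    · congr 2
  have h2 : 0 < ((powersetCard 0 H).filter
      (fun B' => Pool.Agent.H21.LA.Real2 Pool.Agent.H21.CP.Q2 c i (univ.image w) B')).card := by
    exact_mod_cast h1
  obtain ⟨B', hB'⟩ := card_pos.1 h2
  have h3 := (mem_filter.1 hB').2
  refine ⟨i, fun F => ?_⟩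
  have h4 := h3 (F.image w) (image_subset_image (subset_univ _))
  have h5 := h4.image (f := fun N => N + w 0) (fun a _ b _ hab => Nat.add_right_cancel hab)
  refine h5.mono ?_
  rintro _ ⟨N, ⟨hN, _⟩, rfl⟩
  intro j
  have hj := hN (w j) (mem_image_of_mem _ (mem_univ _))
  have e1 : (((fun N => N + w 0) N : ℕ) : ℤ) + (Fin.cons 0 (dvec v) : Fin (k + 1) → ℤ) j =
      ((N + w j : ℕ) : ℤ) := by
    rw [cons_dvec]
    push_cast
    rw [hw 0, hw j]
    ring
  rw [e1]
  have e2 : w j ∈ F.image w ↔ j ∈ F := by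
    rw [mem_image]
    constructor
    · rintro ⟨j', hj', hjj⟩
      rwa [← hinj hjj]
    · intro hj'
      exact ⟨j, hj', rfl⟩
  rw [← e2, ← hj]
  constructor
  · rintro ⟨p, hp1, hp2, hp3⟩
    have : p = N + w j := by exact_mod_cast hp3
    rw [← this]
    exact ⟨hp1, hp2⟩
  · rintro ⟨hp1, hp2⟩
    exact ⟨N + w j, hp1, hp2, rfl⟩

open Classical in
/-- the number of the injective tuples with a given set of values -/
private theorem inj_card (m : ℕ) (B : Finset ℕ) (hB : B.card = m) :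
    ((Fintype.piFinset fun _ : Fin m => B).filter (fun w => Function.Injective w)).card ≤
      m.factorial := by
  have h1 : ((Fintype.piFinset fun _ : Fin m => B).filter (fun w => Function.Injective w)) ⊆
      (univ : Finset (Fin m ↪ B)).image (fun e => fun j => ((e j : B) : ℕ)) := by
    intro w hw
    rw [mem_filter, Fintype.mem_piFinset] at hw
    rw [mem_image]
    refine ⟨⟨fun j => ⟨w j, hw.1 j⟩, ?_⟩, mem_univ _, rfl⟩
    intro a b hab
    exact hw.2 (congrArg Subtype.val hab)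
  refine (card_le_card h1).trans (card_image_le.trans ?_)
  rw [card_univ, Fintype.card_embedding_eq, Fintype.card_fin, Fintype.card_coe, hB,
    Nat.descFactorial_self]

open Classical in
theorem nck (r k : ℕ) (hk : 1 ≤ k) (c : ℕ → Fin r) : NCk (13 / (50 * (r : ℝ))) (Rbad k c) := by
  rcases Nat.eq_zero_or_pos r with hr | hr
  · subst hr
    exact (c 0).elim0
  have hr0 : (0 : ℝ) < r := by exact_mod_cast hr
  intro ε hε
  obtain ⟨e, he⟩ : ∃ e : ℝ, e = min (min ε (1 / 2)) ((13 / 50) / (2 * (r : ℝ))) := ⟨_, rfl⟩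
  have he0 : 0 < e := by rw [he]; exact lt_min (lt_min hε (by norm_num)) (by positivity)
  have heε : e ≤ ε := by rw [he]; exact (min_le_left _ _).trans (min_le_left _ _)
  have he1 : e < 1 := by
    have : e ≤ 1 / 2 := by rw [he]; exact (min_le_left _ _).trans (min_le_right _ _)
    linarith
  have her : e ≤ (13 / 50) / (2 * (r : ℝ)) := by rw [he]; exact min_le_right _ _
  have hκr : (13 / 50 : ℝ) / r = 13 / (50 * (r : ℝ)) := by rw [div_div]
  obtain ⟨K, hK⟩ := Pool.Agent.H21.LA.la_clique (13 / 50) (by norm_num) (by norm_num)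
    Pool.Agent.H21.CP.Q2 Pool.Agent.H21.CP.Q2_prime Pool.Agent.H21.CP.med r (k + 1) 0 hr
    (by omega) e he0 her
  refine ⟨K, fun H hH hcard => ?_⟩
  -- the translate
  let T : ℤ := ∑ h ∈ H, |h|
  have hT : ∀ h ∈ H, 0 ≤ h + T := by
    intro h hh
    have h1 : |h| ≤ T := single_le_sum (f := fun h : ℤ => |h|) (fun _ _ => abs_nonneg _) hh
    have h2 := neg_abs_le h
    linarith
  let f : ℤ → ℕ := fun h => (h + T).toNat
  have hf : ∀ h ∈ H, ((f h : ℕ) : ℤ) = h + T := fun h hh => Int.toNat_of_nonneg (hT h hh)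
  have hfinj : Set.InjOn f (H : Set ℤ) := by
    intro a ha b hb hab
    have h1 := hf a ha
    have h2 := hf b hb
    rw [hab, h2] at h1
    linarith
  have hcard' : (H.image f).card = H.card := card_image_of_injOn hfinj
  have hadm : ∀ p : ℕ, p.Prime → ∃ a : ℕ, ∀ h ∈ H.image f, ¬ p ∣ a + h := by
    intro p hp
    obtain ⟨a, ha⟩ := hH p hp
    have hp0 : (p : ℤ) ≠ 0 := by exact_mod_cast hp.ne_zero
    refine ⟨((a - T) % (p : ℤ)).toNat, ?_⟩
    intro h hh
    rw [mem_image] at hh
    obtain ⟨h', hh', rfl⟩ := hh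
    intro hdiv
    apply ha h' hh'
    have h1 : (p : ℤ) ∣ ((((a - T) % (p : ℤ)).toNat + f h' : ℕ) : ℤ) := by exact_mod_cast hdiv
    have h2 : ((((a - T) % (p : ℤ)).toNat : ℕ) : ℤ) = (a - T) % (p : ℤ) :=
      Int.toNat_of_nonneg (Int.emod_nonneg _ hp0)
    rw [Nat.cast_add, h2, hf h' hh'] at h1
    have h3 : (p : ℤ) ∣ (a - T) - (a - T) % (p : ℤ) := Int.dvd_self_sub_emod
    have h4 := dvd_add h1 h3
    have h5 : (a - T) % (p : ℤ) + (h' + T) + ((a - T) - (a - T) % (p : ℤ)) = a + h' := by ring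
    rwa [h5] at h4
  obtain ⟨i, S0, hS, hS1, hS2⟩ := hK (H.image f) hadm (by rw [hcard']; exact hcard) c
  rw [hκr, hcard'] at hS1
  obtain ⟨S, hSd⟩ : ∃ S : Finset ℤ, S = H.filter (fun h => f h ∈ S0) := ⟨_, rfl⟩
  have hSH : S ⊆ H := by rw [hSd]; exact filter_subset _ _
  have himg : S.image f = S0 := by
    ext b
    rw [mem_image]
    constructor
    · rintro ⟨a, ha, rfl⟩
      rw [hSd, mem_filter] at ha
      exact ha.2
    · intro hb
      obtain ⟨a, ha, rfl⟩ := mem_image.1 (hS hb)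
      exact ⟨a, by rw [hSd, mem_filter]; exact ⟨ha, hb⟩, rfl⟩
  have hScard : S.card = S0.card := by
    rw [← himg, card_image_of_injOn (hfinj.mono (by exact_mod_cast hSH))]
  refine ⟨S, hSH, ?_, ?_⟩
  · rw [hScard]
    exact le_trans (mul_le_mul_of_nonneg_right (by linarith) (Nat.cast_nonneg _)) hS1
  -- the subsets which are not shattered
  set Bad : Finset (Finset ℕ) := (powersetCard (k + 1) S0).filter
    (fun B => ¬ Pool.Agent.H21.LA.Shat2 Pool.Agent.H21.CP.Q2 c i (H.image f) 0 e B) with hBad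
  have h1 : (Bad.card : ℝ) ≤ e * (S0.card.choose (k + 1) : ℝ) := by
    have h2 := card_filter_add_card_filter_not (s := powersetCard (k + 1) S0)
      (fun B => Pool.Agent.H21.LA.Shat2 Pool.Agent.H21.CP.Q2 c i (H.image f) 0 e B)
    rw [card_powersetCard] at h2
    have h3 : (((powersetCard (k + 1) S0).filter
        (fun B => Pool.Agent.H21.LA.Shat2 Pool.Agent.H21.CP.Q2 c i (H.image f) 0 e B)).card : ℝ) +
        (Bad.card : ℝ) = (S0.card.choose (k + 1) : ℝ) := by
      rw [hBad]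
      exact_mod_cast h2
    linarith
  -- the bad tuples
  set V : Finset (Fin (k + 1) → ℤ) := (Fintype.piFinset fun _ : Fin (k + 1) => S).filter
    (fun v => Function.Injective v ∧ dvec v ∈ Rbad k c) with hV
  have hVmem : ∀ v ∈ V, (∀ j, v j ∈ S) ∧ Function.Injective v ∧ dvec v ∈ Rbad k c := by
    intro v hv
    rw [hV, mem_filter, Fintype.mem_piFinset] at hv
    exact hv
  have hwinj : ∀ v ∈ V, Function.Injective (fun j => f (v j)) := by
    intro v hv a b hab
    obtain ⟨hv1, hv2, -⟩ := hVmem v hv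
    exact hv2 (hfinj (hSH (hv1 a)) (hSH (hv1 b)) hab)
  have hmaps : ∀ v ∈ V, univ.image (fun j => f (v j)) ∈ Bad := by
    intro v hv
    obtain ⟨hv1, hv2, hv3⟩ := hVmem v hv
    rw [hBad, mem_filter, mem_powersetCard]
    refine ⟨⟨?_, ?_⟩, ?_⟩
    · intro b hb
      obtain ⟨j, -, rfl⟩ := mem_image.1 hb
      rw [← himg]
      exact mem_image_of_mem _ (hv1 j)
    · rw [card_image_of_injective _ (hwinj v hv), card_univ, Fintype.card_fin]
    · intro hsh
      apply hv3
      refine ⟨?_, shat_of_shat c i (H.image f) e he1 v (fun j => f (v j)) T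
        (fun j => hf _ (hSH (hv1 j))) (hwinj v hv) hsh⟩
      intro a b hab
      rw [cons_dvec, cons_dvec] at hab
      exact hv2 (by linarith)
  have hfib : ∀ B ∈ Bad, (V.filter (fun v => univ.image (fun j => f (v j)) = B)).card ≤
      (k + 1).factorial := by
    intro B hB
    rw [hBad, mem_filter, mem_powersetCard] at hB
    refine le_trans ?_ (inj_card (k + 1) B hB.1.2)
    apply card_le_card_of_injOn (fun v => fun j => f (v j))
    · intro v hv
      have hv' := mem_filter.1 (mem_coe.1 hv)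
      apply mem_coe.2
      rw [mem_filter, Fintype.mem_piFinset]
      refine ⟨fun j => ?_, hwinj v hv'.1⟩
      rw [← hv'.2]
      exact mem_image_of_mem _ (mem_univ _)
    · intro v hv v' hv' h
      have hv1 := (hVmem v (mem_filter.1 (mem_coe.1 hv)).1).1
      have hv1' := (hVmem v' (mem_filter.1 (mem_coe.1 hv')).1).1
      funext j
      exact hfinj (hSH (hv1 j)) (hSH (hv1' j)) (congrFun h j)
  have h2 : V.card ≤ (k + 1).factorial * Bad.card :=
    card_le_mul_card_image_of_maps_to hmaps _ hfib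
  have h3 : ((k + 1).factorial : ℝ) * (S0.card.choose (k + 1) : ℝ) ≤ (H.card : ℝ) ^ (k + 1) := by
    have h4 : (k + 1).factorial * S0.card.choose (k + 1) ≤ H.card ^ (k + 1) := by
      rw [← Nat.descFactorial_eq_factorial_mul_choose]
      refine (Nat.descFactorial_le_pow _ _).trans (Nat.pow_le_pow_left ?_ _)
      rw [← hScard]
      exact card_le_card hSH
    exact_mod_cast h4
  have h5 : (badt (Rbad k c) S : ℝ) = (V.card : ℝ) := by
    rw [hV]
    unfold badt
    congr 2
  rw [h5]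
  calc (V.card : ℝ) ≤ ((k + 1).factorial : ℝ) * (Bad.card : ℝ) := by exact_mod_cast h2
    _ ≤ ((k + 1).factorial : ℝ) * (e * (S0.card.choose (k + 1) : ℝ)) :=
        mul_le_mul_of_nonneg_left h1 (Nat.cast_nonneg _)
    _ = e * (((k + 1).factorial : ℝ) * (S0.card.choose (k + 1) : ℝ)) := by ring
    _ ≤ ε * (H.card : ℝ) ^ (k + 1) :=
        mul_le_mul heε h3 (by positivity) hε.le

end Pool.Agent.H38.KT
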