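import Pool.Agent.H38.KT.DfL
import Pool.Agent.H38.KT.Nc

/-!
MP_8923e7_nt, project KT (density of the prime `k`-tuples).  The prime `(k+1)`-tuples of one colour with all
patterns and with `l` almost prime companions satisfy `NCkl k l (13/(50 r))`.
-/

namespace Pool.Agent.H38.KT

open Finset

/-- in some colour `i`, for every set `F` of indices there are infinitely many natural numbers `N` such that, with
`x_0 = 0`, for `j ≤ k` the number `N + x_j` is a prime of colour `i` if and only if `j ∈ F`, and for `j > k` the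
number `N + x_j` has property `Q` -/
def ShatL {r : ℕ} (k l : ℕ) (Q : ℕ → Prop) (c : ℕ → Fin r) (x : Fin (k + l) → ℤ) : Prop :=
  ∃ i : Fin r, ∀ F : Finset (Fin (k + l + 1)),
    {N : ℕ | ∀ j : Fin (k + l + 1),
      ((j : ℕ) ≤ k → ((∃ p : ℕ, p.Prime ∧ c p = i ∧
        (p : ℤ) = (N : ℤ) + (Fin.cons 0 x : Fin (k + l + 1) → ℤ) j) ↔ j ∈ F)) ∧
      (k < (j : ℕ) → ∃ n : ℕ, Q n ∧
        (n : ℤ) = (N : ℤ) + (Fin.cons 0 x : Fin (k + l + 1) → ℤ) j)}.Infinite

/-- the vectors `x` for which `0, x_1, …` are not distinct or do not have the property `ShatL` -/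
def RbadL {r : ℕ} (k l : ℕ) (Q : ℕ → Prop) (c : ℕ → Fin r) : Set (Fin (k + l) → ℤ) :=
  {x | ¬ (Function.Injective (Fin.cons 0 x : Fin (k + l + 1) → ℤ) ∧ ShatL k l Q c x)}

private theorem cons_dvecL {K : ℕ} (v : Fin (K + 1) → ℤ) (j : Fin (K + 1)) :
    (Fin.cons 0 (dvec v) : Fin (K + 1) → ℤ) j = v j - v 0 := by
  refine Fin.cases ?_ (fun i => ?_) j
  · rw [Fin.cons_zero, sub_self]
  · rw [Fin.cons_succ]
    rfl

/-- the first `k + 1` entries -/
private def fst {k l : ℕ} {α : Type} (w : Fin (k + l + 1) → α) : Fin (k + 1) → α :=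
  fun a => w ⟨a, by omega⟩

/-- the last `l` entries -/
private def snd {k l : ℕ} {α : Type} (w : Fin (k + l + 1) → α) : Fin l → α :=
  fun b => w ⟨k + 1 + b, by omega⟩

private theorem shatL_of_real {r k l : ℕ} (Q : ℕ → Prop) (c : ℕ → Fin r) (i : Fin r)
    (v : Fin (k + l + 1) → ℤ) (w : Fin (k + l + 1) → ℕ) (T : ℤ) (hw : ∀ j, (w j : ℤ) = v j + T)
    (hinj : Function.Injective w)
    (h : Pool.Agent.H21.LA.Real2 Q c i (univ.image (fst w)) (univ.image (snd w))) :
    ShatL k l Q c (dvec v) := by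
  classical
  refine ⟨i, fun F => ?_⟩
  have h4 := h ((F.filter (fun j : Fin (k + l + 1) => (j : ℕ) ≤ k)).image w) (by
    intro b hb
    obtain ⟨j, hj, rfl⟩ := mem_image.1 hb
    rw [mem_filter] at hj
    exact mem_image.2 ⟨⟨j, by omega⟩, mem_univ _, rfl⟩)
  have h5 := h4.image (f := fun N => N + w 0) (fun a _ b _ hab => Nat.add_right_cancel hab)
  refine h5.mono ?_
  rintro _ ⟨N, ⟨hN, hN'⟩, rfl⟩
  intro j
  have e1 : (((fun N => N + w 0) N : ℕ) : ℤ) + (Fin.cons 0 (dvec v) : Fin (k + l + 1) → ℤ) j =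
      ((N + w j : ℕ) : ℤ) := by
    rw [cons_dvecL]
    push_cast
    rw [hw 0, hw j]
    ring
  rw [e1]
  constructor
  · intro hjk
    have hj := hN (w j) (mem_image.2 ⟨⟨j, by omega⟩, mem_univ _, rfl⟩)
    have e2 : w j ∈ (F.filter (fun j : Fin (k + l + 1) => (j : ℕ) ≤ k)).image w ↔ j ∈ F := by
      rw [mem_image]
      constructor
      · rintro ⟨j', hj', hjj⟩
        rw [← hinj hjj]
        exact (mem_filter.1 hj').1
      · intro hj'
        exact ⟨j, mem_filter.2 ⟨hj', hjk⟩, rfl⟩
    rw [← e2, ← hj]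
    constructor
    · rintro ⟨p, hp1, hp2, hp3⟩
      have : p = N + w j := by exact_mod_cast hp3
      rw [← this]
      exact ⟨hp1, hp2⟩
    · rintro ⟨hp1, hp2⟩
      exact ⟨N + w j, hp1, hp2, rfl⟩
  · intro hjk
    refine ⟨N + w j, hN' (w j) (mem_image.2 ⟨⟨j - (k + 1), by omega⟩, mem_univ _, ?_⟩), rfl⟩
    show w _ = w j
    congr 1
    apply Fin.ext
    show k + 1 + ((j : ℕ) - (k + 1)) = j
    omega

open Classical in
/-- the number of the injective tuples with a given set of values -/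
private theorem inj_cardL (m : ℕ) (B : Finset ℕ) (hB : B.card = m) :
    ((Fintype.piFinset fun _ : Fin m => B).filter (fun w => Function.Injective w)).card ≤
      m.factorial := by
  have h1 : ((Fintype.piFinset fun _ : Fin m => B).filter (fun w => Function.Injective w)) ⊆
      (univ : Finset (Fin m ↪ B)).image (fun e => fun j => ((e j : B) : ℕ)) := by
    intro w hw
    rw [mem_filter, Fintype.mem_piFinset] at hw
    rw [mem_image]
    refine ⟨⟨fun j => ⟨w j, hw.1 j⟩, ?_⟩, mem_univ _, rfl⟩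
    intro a b hab
    exact hw.2 (congrArg Subtype.val hab)
  refine (card_le_card h1).trans (card_image_le.trans ?_)
  rw [card_univ, Fintype.card_embedding_eq, Fintype.card_fin, Fintype.card_coe, hB,
    Nat.descFactorial_self]

theorem real_mono {Q : ℕ → Prop} {r : ℕ} {c : ℕ → Fin r} {i : Fin r} {B B1 C : Finset ℕ}
    (h : Pool.Agent.H21.LA.Real2 Q c i B C) (hB : B1 ⊆ B) : Pool.Agent.H21.LA.Real2 Q c i B1 C := by
  intro F hF
  refine (h F (hF.trans hB)).mono ?_
  rintro N ⟨hN, hN'⟩
  exact ⟨fun b hb => hN b (hB hb), hN'⟩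

theorem shat_mono {Q : ℕ → Prop} {r : ℕ} {c : ℕ → Fin r} {i : Fin r} {H : Finset ℕ} {l : ℕ} {e : ℝ}
    {B B1 : Finset ℕ} (h : Pool.Agent.H21.LA.Shat2 Q c i H l e B) (hB : B1 ⊆ B) :
    Pool.Agent.H21.LA.Shat2 Q c i H l e B1 := by
  classical
  unfold Pool.Agent.H21.LA.Shat2 at h ⊢
  refine h.trans ?_
  have : ((powersetCard l H).filter (fun B' => Pool.Agent.H21.LA.Real2 Q c i B B')) ⊆
      ((powersetCard l H).filter (fun B' => Pool.Agent.H21.LA.Real2 Q c i B1 B')) := by
    intro C hC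
    rw [mem_filter] at hC ⊢
    exact ⟨hC.1, real_mono hC.2 hB⟩
  refine le_trans (le_of_eq ?_) ((Nat.cast_le (α := ℝ)).2 (card_le_card this) |>.trans (le_of_eq ?_))
  · congr 2
  · congr 2

open Classical in
/-- few bad pairs give few bad single elements -/
private theorem single_bad (P : Finset ℕ → Prop) (hP : ∀ B B1 : Finset ℕ, P B → B1 ⊆ B → P B1)
    (S : Finset ℕ) (hS : 2 ≤ S.card) (e : ℝ)
    (h : (((powersetCard 2 S).filter (fun B => ¬ P B)).card : ℝ) ≤ e * (S.card.choose 2 : ℝ)) :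
    (((powersetCard 1 S).filter (fun B => ¬ P B)).card : ℝ) ≤ e * (S.card.choose 1 : ℝ) := by
  set G : Finset ℕ := S.filter (fun b => ¬ P {b}) with hG
  have h1 : ((powersetCard 1 S).filter (fun B => ¬ P B)).card ≤ G.card := by
    have : ((powersetCard 1 S).filter (fun B => ¬ P B)) ⊆ G.image (fun b => {b}) := by
      intro B hB
      rw [mem_filter, mem_powersetCard] at hB
      obtain ⟨b, rfl⟩ := card_eq_one.1 hB.1.2
      rw [mem_image]
      refine ⟨b, ?_, rfl⟩
      rw [hG, mem_filter]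
      exact ⟨hB.1.1 (mem_singleton_self b), hB.2⟩
    exact (card_le_card this).trans card_image_le
  -- pairs
  have h2 : ((G ×ˢ S).filter (fun p => ¬ p.1 = p.2)).card ≤
      2 * ((powersetCard 2 S).filter (fun B => ¬ P B)).card := by
    refine card_le_mul_card_image_of_maps_to (f := fun p : ℕ × ℕ => ({p.1, p.2} : Finset ℕ)) ?_ 2 ?_
    · intro p hp
      rw [mem_filter, mem_product, hG, mem_filter] at hp
      rw [mem_filter, mem_powersetCard]
      refine ⟨⟨?_, card_pair hp.2⟩, ?_⟩
      · intro z hz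
        rw [mem_insert, mem_singleton] at hz
        rcases hz with rfl | rfl
        · exact hp.1.1.1
        · exact hp.1.2
      · intro hPB
        exact hp.1.1.2 (hP _ _ hPB (by simp))
    · intro B hB
      rw [mem_filter, mem_powersetCard] at hB
      have h3 : (((G ×ˢ S).filter (fun p => ¬ p.1 = p.2)).filter
          (fun p : ℕ × ℕ => ({p.1, p.2} : Finset ℕ) = B)) ⊆ B.offDiag := by
        intro p hp
        rw [mem_filter, mem_filter] at hp
        rw [mem_offDiag]
        refine ⟨?_, ?_, hp.1.2⟩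
        · rw [← hp.2]; simp
        · rw [← hp.2]; simp
      refine (card_le_card h3).trans ?_
      rw [offDiag_card, hB.1.2]
  have h4 : G.card * S.card ≤ ((G ×ˢ S).filter (fun p => ¬ p.1 = p.2)).card + G.card := by
    have h5 := card_filter_add_card_filter_not (s := G ×ˢ S) (fun p : ℕ × ℕ => p.1 = p.2)
    rw [card_product] at h5
    have h6 : ((G ×ˢ S).filter (fun p => p.1 = p.2)).card ≤ G.card := by
      apply card_le_card_of_injOn (fun p => p.1)
      · intro p hp
        have hp' := mem_filter.1 (mem_coe.1 hp)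
        exact mem_coe.2 (mem_product.1 hp'.1).1
      · intro p hp q hq hpq
        have hp' := (mem_filter.1 (mem_coe.1 hp)).2
        have hq' := (mem_filter.1 (mem_coe.1 hq)).2
        have hpq' : p.1 = q.1 := hpq
        exact Prod.ext hpq' (by rw [← hp', ← hq', hpq'])
    omega
  have hs : (2 : ℝ) ≤ S.card := by exact_mod_cast hS
  have h7 : (G.card : ℝ) * S.card ≤ 2 * (((powersetCard 2 S).filter (fun B => ¬ P B)).card : ℝ) +
      G.card := by
    have : G.card * S.card ≤ 2 * ((powersetCard 2 S).filter (fun B => ¬ P B)).card + G.card := by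
      omega
    exact_mod_cast this
  rw [Nat.cast_choose_two] at h
  rw [Nat.choose_one_right]
  have h8 : (G.card : ℝ) * (S.card - 1) ≤ (e * S.card) * (S.card - 1) := by nlinarith
  have h9 : (G.card : ℝ) ≤ e * S.card := le_of_mul_le_mul_right h8 (by linarith)
  exact le_trans (by exact_mod_cast h1) h9

open Classical in
theorem nckl (r k l : ℕ) (c : ℕ → Fin r) :
    NCkl k l (13 / (50 * (r : ℝ))) (RbadL k l Pool.Agent.H21.CP.Q2 c) := by
  rcases Nat.eq_zero_or_pos r with hr | hr
  · subst hr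
    exact (c 0).elim0
  have hr0 : (0 : ℝ) < r := by exact_mod_cast hr
  intro ε hε
  obtain ⟨e, he⟩ : ∃ e : ℝ, e = min (ε / 2) ((13 / 50) / (2 * (r : ℝ))) := ⟨_, rfl⟩
  have he0 : 0 < e := by rw [he]; exact lt_min (by linarith) (by positivity)
  have heε : e ≤ ε / 2 := by rw [he]; exact min_le_left _ _
  have her : e ≤ (13 / 50) / (2 * (r : ℝ)) := by rw [he]; exact min_le_right _ _
  have hκr : (13 / 50 : ℝ) / r = 13 / (50 * (r : ℝ)) := by rw [div_div]
  obtain ⟨K, hK⟩ := Pool.Agent.H21.LA.la_clique (13 / 50) (by norm_num) (by norm_num)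
    Pool.Agent.H21.CP.Q2 Pool.Agent.H21.CP.Q2_prime Pool.Agent.H21.CP.med r (max (k + 1) 2) l hr
    (le_max_right _ _) e he0 her
  refine ⟨max K (8 * r + 1), fun H hH hcard => ?_⟩
  -- the translate
  let T : ℤ := ∑ h ∈ H, |h|
  have hT : ∀ h ∈ H, 0 ≤ h + T := by
    intro h hh
    have h1 : |h| ≤ T := single_le_sum (f := fun h : ℤ => |h|) (fun _ _ => abs_nonneg _) hh
    have h2 := neg_abs_le h
    linarith
  let f : ℤ → ℕ := fun h => (h + T).toNat
  have hf : ∀ h ∈ H, ((f h : ℕ) : ℤ) = h + T := fun h hh => Int.toNat_of_nonneg (hT h hh)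
  have hfinj : Set.InjOn f (H : Set ℤ) := by
    intro a ha b hb hab
    have h1 := hf a ha
    have h2 := hf b hb
    rw [hab, h2] at h1
    linarith
  have hcard' : (H.image f).card = H.card := card_image_of_injOn hfinj
  have hadm : ∀ p : ℕ, p.Prime → ∃ a : ℕ, ∀ h ∈ H.image f, ¬ p ∣ a + h := by
    intro p hp
    obtain ⟨a, ha⟩ := hH p hp
    have hp0 : (p : ℤ) ≠ 0 := by exact_mod_cast hp.ne_zero
    refine ⟨((a - T) % (p : ℤ)).toNat, ?_⟩
    intro h hh
    rw [mem_image] at hh
    obtain ⟨h', hh', rfl⟩ := hh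
    intro hdiv
    apply ha h' hh'
    have h1 : (p : ℤ) ∣ ((((a - T) % (p : ℤ)).toNat + f h' : ℕ) : ℤ) := by exact_mod_cast hdiv
    have h2 : ((((a - T) % (p : ℤ)).toNat : ℕ) : ℤ) = (a - T) % (p : ℤ) :=
      Int.toNat_of_nonneg (Int.emod_nonneg _ hp0)
    rw [Nat.cast_add, h2, hf h' hh'] at h1
    have h3 : (p : ℤ) ∣ (a - T) - (a - T) % (p : ℤ) := Int.dvd_self_sub_emod
    have h4 := dvd_add h1 h3
    have h5 : (a - T) % (p : ℤ) + (h' + T) + ((a - T) - (a - T) % (p : ℤ)) = a + h' := by ring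
    rwa [h5] at h4
  obtain ⟨i, S0, hS, hS1, hS2⟩ := hK (H.image f) hadm
    (by rw [hcard']; exact (le_max_left _ _).trans hcard) c
  rw [hcard'] at hS1
  obtain ⟨S, hSd⟩ : ∃ S : Finset ℤ, S = H.filter (fun h => f h ∈ S0) := ⟨_, rfl⟩
  have hSH : S ⊆ H := by rw [hSd]; exact filter_subset _ _
  have himg : S.image f = S0 := by
    ext b
    rw [mem_image]
    constructor
    · rintro ⟨a, ha, rfl⟩
      rw [hSd, mem_filter] at ha
      exact ha.2
    · intro hb
      obtain ⟨a, ha, rfl⟩ := mem_image.1 (hS hb)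
      exact ⟨a, by rw [hSd, mem_filter]; exact ⟨ha, hb⟩, rfl⟩
  have hScard : S.card = S0.card := by
    rw [← himg, card_image_of_injOn (hfinj.mono (by exact_mod_cast hSH))]
  -- at least two elements
  have hS2' : 2 ≤ S0.card := by
    have h1 : ((8 * r + 1 : ℕ) : ℝ) ≤ H.card := by
      exact_mod_cast (le_max_right _ _).trans hcard
    have h2 : 13 / 50 / (r : ℝ) - e ≥ 13 / 50 / (2 * (r : ℝ)) := by
      have : 13 / 50 / (r : ℝ) = 2 * (13 / 50 / (2 * (r : ℝ))) := by field_simp
      linarith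
    have h3 : 13 / 50 / (2 * (r : ℝ)) * ((8 * r + 1 : ℕ) : ℝ) ≤ S0.card := by
      refine le_trans ?_ hS1
      exact mul_le_mul h2 h1 (by positivity) (by linarith [show (0 : ℝ) < 13 / 50 / (2 * (r : ℝ)) by positivity])
    have h4 : (1 : ℝ) < 13 / 50 / (2 * (r : ℝ)) * ((8 * r + 1 : ℕ) : ℝ) := by
      push_cast
      rw [div_mul_eq_mul_div, lt_div_iff₀ (by positivity)]
      linarith
    have h5 : (1 : ℝ) < S0.card := h4.trans_le h3
    have h6 : 1 < S0.card := by exact_mod_cast h5
    omega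
  refine ⟨S, hSH, ?_, ?_⟩
  · rw [hScard]
    rw [hκr] at hS1
    exact le_trans (mul_le_mul_of_nonneg_right (by linarith) (Nat.cast_nonneg _)) hS1
  set H0 : Finset ℕ := H.image f with hH0
  -- the subsets which are not shattered
  have bad0 : (((powersetCard (max (k + 1) 2) S0).filter
      (fun B => ¬ Pool.Agent.H21.LA.Shat2 Pool.Agent.H21.CP.Q2 c i H0 l e B)).card : ℝ) ≤
      e * (S0.card.choose (max (k + 1) 2) : ℝ) := by
    have h2 := card_filter_add_card_filter_not (s := powersetCard (max (k + 1) 2) S0)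
      (fun B => Pool.Agent.H21.LA.Shat2 Pool.Agent.H21.CP.Q2 c i H0 l e B)
    rw [card_powersetCard] at h2
    have h3 : (((powersetCard (max (k + 1) 2) S0).filter
        (fun B => Pool.Agent.H21.LA.Shat2 Pool.Agent.H21.CP.Q2 c i H0 l e B)).card : ℝ) +
        (((powersetCard (max (k + 1) 2) S0).filter
        (fun B => ¬ Pool.Agent.H21.LA.Shat2 Pool.Agent.H21.CP.Q2 c i H0 l e B)).card : ℝ) =
        (S0.card.choose (max (k + 1) 2) : ℝ) := by
      exact_mod_cast h2
    linarith
  have bad1 : (((powersetCard (k + 1) S0).filter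
      (fun B => ¬ Pool.Agent.H21.LA.Shat2 Pool.Agent.H21.CP.Q2 c i H0 l e B)).card : ℝ) ≤
      e * (S0.card.choose (k + 1) : ℝ) := by
    rcases Nat.eq_zero_or_pos k with hk | hk
    · subst hk
      have h1 : max (0 + 1) 2 = 2 := rfl
      rw [h1] at bad0
      exact single_bad _ (fun B B1 hB hB1 => shat_mono hB hB1) S0 hS2' e bad0
    · have h1 : max (k + 1) 2 = k + 1 := max_eq_left (by omega)
      rwa [h1] at bad0
  -- the bad pairs of subsets
  set P1 : Finset (Finset ℕ) := powersetCard (k + 1) S0 with hP1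
  set P2 : Finset (Finset ℕ) := powersetCard l H0 with hP2
  set Bad : Finset (Finset ℕ × Finset ℕ) := (P1 ×ˢ P2).filter
    (fun p => ¬ Pool.Agent.H21.LA.Real2 Pool.Agent.H21.CP.Q2 c i p.1 p.2) with hBad
  have hN2 : (P2.card : ℝ) = (H0.card.choose l : ℝ) := by rw [hP2, card_powersetCard]
  have hN1 : (P1.card : ℝ) = (S0.card.choose (k + 1) : ℝ) := by rw [hP1, card_powersetCard]
  have h1 : (Bad.card : ℝ) ≤ 2 * e * (P1.card : ℝ) * (P2.card : ℝ) := by
    have e1 : (Bad.card : ℝ) = ∑ B ∈ P1, ((P2.filter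
        (fun C => ¬ Pool.Agent.H21.LA.Real2 Pool.Agent.H21.CP.Q2 c i B C)).card : ℝ) := by
      rw [hBad, card_filter, sum_product]
      push_cast
      refine sum_congr rfl fun B _ => ?_
      rw [card_filter]
      push_cast
      rfl
    rw [e1]
    have e2 : ∀ B ∈ P1, ((P2.filter
        (fun C => ¬ Pool.Agent.H21.LA.Real2 Pool.Agent.H21.CP.Q2 c i B C)).card : ℝ) ≤
        e * (P2.card : ℝ) +
        if ¬ Pool.Agent.H21.LA.Shat2 Pool.Agent.H21.CP.Q2 c i H0 l e B then (P2.card : ℝ) else 0 := by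
      intro B _
      have e3 := card_filter_add_card_filter_not (s := P2)
        (fun C => Pool.Agent.H21.LA.Real2 Pool.Agent.H21.CP.Q2 c i B C)
      have e4 : ((P2.filter (fun C => Pool.Agent.H21.LA.Real2 Pool.Agent.H21.CP.Q2 c i B C)).card : ℝ) +
          ((P2.filter (fun C => ¬ Pool.Agent.H21.LA.Real2 Pool.Agent.H21.CP.Q2 c i B C)).card : ℝ) =
          (P2.card : ℝ) := by exact_mod_cast e3
      by_cases hB : Pool.Agent.H21.LA.Shat2 Pool.Agent.H21.CP.Q2 c i H0 l e B
      · rw [if_neg (not_not.2 hB), add_zero]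
        unfold Pool.Agent.H21.LA.Shat2 at hB
        rw [← hN2] at hB
        have hB' : (1 - e) * (P2.card : ℝ) ≤
            ((P2.filter (fun C => Pool.Agent.H21.LA.Real2 Pool.Agent.H21.CP.Q2 c i B C)).card : ℝ) := by
          refine hB.trans (le_of_eq ?_)
          congr 2
        linarith
      · rw [if_pos hB]
        have e5 : (0 : ℝ) ≤ e * (P2.card : ℝ) := by positivity
        have e6 : (0 : ℝ) ≤
            ((P2.filter (fun C => Pool.Agent.H21.LA.Real2 Pool.Agent.H21.CP.Q2 c i B C)).card : ℝ) :=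
          Nat.cast_nonneg _
        linarith
    refine (sum_le_sum e2).trans ?_
    rw [sum_add_distrib, sum_const, nsmul_eq_mul, ← sum_filter, sum_const, nsmul_eq_mul]
    have e7 : ((P1.filter (fun B =>
        ¬ Pool.Agent.H21.LA.Shat2 Pool.Agent.H21.CP.Q2 c i H0 l e B)).card : ℝ) * (P2.card : ℝ) ≤
        (e * (P1.card : ℝ)) * (P2.card : ℝ) := by
      refine mul_le_mul_of_nonneg_right ?_ (Nat.cast_nonneg _)
      rw [hN1]
      exact bad1
    nlinarith
  -- the bad tuples
  set V : Finset (Fin (k + l + 1) → ℤ) := (tupl k l S H).filter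
    (fun v => Function.Injective v ∧ dvec v ∈ RbadL k l Pool.Agent.H21.CP.Q2 c) with hV
  have hVmem : ∀ v ∈ V, (∀ j : Fin (k + l + 1), (j : ℕ) ≤ k → v j ∈ S) ∧ (∀ j, v j ∈ H) ∧
      Function.Injective v ∧ dvec v ∈ RbadL k l Pool.Agent.H21.CP.Q2 c := by
    intro v hv
    rw [hV, mem_filter, tupl, Fintype.mem_piFinset] at hv
    refine ⟨fun j hj => ?_, fun j => ?_, hv.2⟩
    · have := hv.1 j
      rwa [if_pos hj] at this
    · have := hv.1 j
      split_ifs at this
      · exact hSH this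
      · exact this
  have hwinj : ∀ v ∈ V, Function.Injective (fun j => f (v j)) := by
    intro v hv a b hab
    obtain ⟨-, hv1, hv2, -⟩ := hVmem v hv
    exact hv2 (hfinj (hv1 a) (hv1 b) hab)
  have hfst : ∀ v ∈ V, Function.Injective (fst (fun j => f (v j))) := by
    intro v hv a b hab
    have := congrArg Fin.val (hwinj v hv hab)
    exact Fin.ext this
  have hsnd : ∀ v ∈ V, Function.Injective (snd (fun j => f (v j))) := by
    intro v hv a b hab
    have h2 := congrArg Fin.val (hwinj v hv hab)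
    have h3 : k + 1 + (a : ℕ) = k + 1 + (b : ℕ) := h2
    exact Fin.ext (by omega)
  have hmaps : ∀ v ∈ V, ((univ.image (fst (fun j => f (v j))), univ.image (snd (fun j => f (v j)))) :
      Finset ℕ × Finset ℕ) ∈ Bad := by
    intro v hv
    obtain ⟨hv0, hv1, hv2, hv3⟩ := hVmem v hv
    rw [hBad, mem_filter, mem_product, hP1, hP2, mem_powersetCard, mem_powersetCard]
    refine ⟨⟨⟨?_, ?_⟩, ?_, ?_⟩, ?_⟩
    · intro b hb
      obtain ⟨j, -, rfl⟩ := mem_image.1 hb
      rw [← himg]
      exact mem_image_of_mem _ (hv0 _ (by show (j : ℕ) ≤ k; omega))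
    · show (univ.image (fst (fun j => f (v j)))).card = k + 1
      rw [card_image_of_injective _ (hfst v hv), card_univ, Fintype.card_fin]
    · intro b hb
      obtain ⟨j, -, rfl⟩ := mem_image.1 hb
      exact mem_image_of_mem _ (hv1 _)
    · show (univ.image (snd (fun j => f (v j)))).card = l
      rw [card_image_of_injective _ (hsnd v hv), card_univ, Fintype.card_fin]
    · intro hsh
      apply hv3
      refine ⟨?_, shatL_of_real Pool.Agent.H21.CP.Q2 c i v (fun j => f (v j)) T
        (fun j => hf _ (hv1 j)) (hwinj v hv) hsh⟩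
      intro a b hab
      rw [cons_dvecL, cons_dvecL] at hab
      exact hv2 (by linarith)
  have hfib : ∀ p ∈ Bad, (V.filter (fun v => ((univ.image (fst (fun j => f (v j))),
      univ.image (snd (fun j => f (v j)))) : Finset ℕ × Finset ℕ) = p)).card ≤
      (k + 1).factorial * l.factorial := by
    intro p hp
    rw [hBad, mem_filter, mem_product, hP1, hP2, mem_powersetCard, mem_powersetCard] at hp
    have h3 := Nat.mul_le_mul (inj_cardL (k + 1) p.1 hp.1.1.2) (inj_cardL l p.2 hp.1.2.2)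
    rw [← card_product] at h3
    refine le_trans ?_ h3
    apply card_le_card_of_injOn (fun v => (fst (fun j => f (v j)), snd (fun j => f (v j))))
    · intro v hv
      have hv' := mem_filter.1 (mem_coe.1 hv)
      have hp1 : univ.image (fst (fun j => f (v j))) = p.1 := congrArg Prod.fst hv'.2
      have hp2 : univ.image (snd (fun j => f (v j))) = p.2 := congrArg Prod.snd hv'.2
      apply mem_coe.2
      rw [mem_product, mem_filter, mem_filter, Fintype.mem_piFinset, Fintype.mem_piFinset]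
      refine ⟨⟨fun j => ?_, hfst v hv'.1⟩, fun j => ?_, hsnd v hv'.1⟩
      · rw [← hp1]
        exact mem_image_of_mem _ (mem_univ _)
      · rw [← hp2]
        exact mem_image_of_mem _ (mem_univ _)
    · intro v hv v' hv' h
      have hv1 := (hVmem v (mem_filter.1 (mem_coe.1 hv)).1).2.1
      have hv1' := (hVmem v' (mem_filter.1 (mem_coe.1 hv')).1).2.1
      have g1 : fst (fun j => f (v j)) = fst (fun j => f (v' j)) := congrArg Prod.fst h
      have g2 : snd (fun j => f (v j)) = snd (fun j => f (v' j)) := congrArg Prod.snd h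
      funext j
      apply hfinj (hv1 j) (hv1' j)
      by_cases hj : (j : ℕ) ≤ k
      · exact congrFun g1 ⟨j, by omega⟩
      · have g3 := congrFun g2 ⟨j - (k + 1), by omega⟩
        have g4 : (⟨k + 1 + ((j : ℕ) - (k + 1)), by omega⟩ : Fin (k + l + 1)) = j :=
          Fin.ext (by show k + 1 + ((j : ℕ) - (k + 1)) = j; omega)
        have g5 : f (v ⟨k + 1 + ((j : ℕ) - (k + 1)), by omega⟩) =
            f (v' ⟨k + 1 + ((j : ℕ) - (k + 1)), by omega⟩) := g3
        rwa [g4] at g5
  have h2 : V.card ≤ ((k + 1).factorial * l.factorial) * Bad.card :=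
    card_le_mul_card_image_of_maps_to hmaps _ hfib
  have h3 : ((k + 1).factorial : ℝ) * (P1.card : ℝ) ≤ (H.card : ℝ) ^ (k + 1) := by
    have h4 : (k + 1).factorial * S0.card.choose (k + 1) ≤ H.card ^ (k + 1) := by
      rw [← Nat.descFactorial_eq_factorial_mul_choose]
      refine (Nat.descFactorial_le_pow _ _).trans (Nat.pow_le_pow_left ?_ _)
      rw [← hScard]
      exact card_le_card hSH
    rw [hN1]
    exact_mod_cast h4
  have h3' : (l.factorial : ℝ) * (P2.card : ℝ) ≤ (H.card : ℝ) ^ l := by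
    have h4 : l.factorial * H0.card.choose l ≤ H.card ^ l := by
      rw [← Nat.descFactorial_eq_factorial_mul_choose, hcard']
      exact Nat.descFactorial_le_pow _ _
    rw [hN2]
    exact_mod_cast h4
  have h5 : (badtl k l (RbadL k l Pool.Agent.H21.CP.Q2 c) S H : ℝ) = (V.card : ℝ) := by
    rw [hV]
    unfold badtl
    congr 2
  rw [h5]
  have h6 : (V.card : ℝ) ≤ (((k + 1).factorial : ℝ) * (l.factorial : ℝ)) * (Bad.card : ℝ) := by
    exact_mod_cast h2
  calc (V.card : ℝ) ≤ (((k + 1).factorial : ℝ) * (l.factorial : ℝ)) * (Bad.card : ℝ) := h6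
    _ ≤ (((k + 1).factorial : ℝ) * (l.factorial : ℝ)) * (2 * e * (P1.card : ℝ) * (P2.card : ℝ)) :=
        mul_le_mul_of_nonneg_left h1 (by positivity)
    _ = (2 * e) * ((((k + 1).factorial : ℝ) * (P1.card : ℝ)) * ((l.factorial : ℝ) * (P2.card : ℝ))) := by
        ring
    _ ≤ ε * ((H.card : ℝ) ^ (k + 1) * (H.card : ℝ) ^ l) :=
        mul_le_mul (by linarith) (mul_le_mul h3 h3' (by positivity) (by positivity)) (by positivity)
          hε.le
    _ = ε * (H.card : ℝ) ^ (k + l + 1) := by
        rw [← pow_add]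
        congr 2
        omega

end Pool.Agent.H38.KT
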