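import Pool.Agent.H38.KT.Lsum

/-!
[H38 KT ALIGN]  Aligned cubes of almost the same density.

Proof.  If `r0 - τ ≤ 0` the left side is `≤ 0`: any `T ≥ T0`, `a` will do (`indk ≥ 0`).  Otherwise `r0 > 0`, and `r0 ≤ 1` (from a cube with
`X ≥ 1`).  Take `X0` large and `X ≥ X0`, `M` from `hR`, `T = X / l0 - 1` (`≥ T0`), `a i = ⌈M i/l0⌉ = (M i + l0 - 1)/l0` (so
`M i ≤ l0 a_i ≤ M i + l0 - 1`): `acube l0 T a ⊆ cube X M` (`l0 T ≤ X - l0`), `Y = l0 T ≥ X - 2 l0`.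
`∑_{acube} ≥ ∑_{cube} - (X^k - Y^k) ≥ r0 X^k - (X^k - Y^k)` (`card_cube`, `card_acube`) and this is `≥ (r0 - τ) Y^k` iff
`(1 - r0)(X^k - Y^k) ≤ τ Y^k`-like: `r0 X^k - (X^k - Y^k) ≥ r0 Y^k - (X^k - Y^k)` and `X^k - Y^k ≤ τ Y^k` if `X^k ≤ (1 + τ) Y^k`; Bernoulli:
`Y^k ≥ X^k (1 - 2 l0/X)^k ≥ X^k (1 - 2 k l0/X)` (`one_add_mul_le_pow`), so it suffices that `2 k l0/X ≤ τ/(1 + τ)`.
-/

namespace Pool.Agent.H38.KT

open Finset Pool.Agent.H11.HM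

private lemma indk_nonneg' {k : ℕ} (R : Set (Fin k → ℤ)) (z : Fin k → ℤ) : 0 ≤ indk R z := by
  unfold indk; split_ifs <;> norm_num

private lemma indk_le_one' {k : ℕ} (R : Set (Fin k → ℤ)) (z : Fin k → ℤ) : indk R z ≤ 1 := by
  unfold indk; split_ifs <;> norm_num

private lemma pow_cmp (k l0 X Y : ℕ) (τ : ℝ) (hτ : 0 < τ) (hX : 2 * l0 ≤ X) (hX1 : 1 ≤ X)
    (hXk : 2 * (k : ℝ) * l0 * (1 + τ) / τ ≤ X) (hY : X ≤ Y + 2 * l0) :
    (X : ℝ) ^ k ≤ (1 + τ) * (Y : ℝ) ^ k := by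
  have hXp : (0 : ℝ) < X := by exact_mod_cast hX1
  have hX' : 2 * (l0 : ℝ) ≤ X := by exact_mod_cast hX
  have hY' : (X : ℝ) - 2 * l0 ≤ Y := by
    have : (X : ℝ) ≤ Y + 2 * l0 := by exact_mod_cast hY
    linarith
  have hb := one_add_mul_le_pow (a := -(2 * (l0 : ℝ) / X)) (by
    have : 2 * (l0 : ℝ) / X ≤ 1 := by rw [div_le_one hXp]; exact hX'
    linarith) k
  have h1 : (X : ℝ) * (1 + -(2 * (l0 : ℝ) / X)) = X - 2 * l0 := by
    field_simp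
    ring
  have h2 : ((X : ℝ) - 2 * l0) ^ k ≤ (Y : ℝ) ^ k := by
    apply pow_le_pow_left₀ (by linarith) hY'
  have h3 : (X : ℝ) ^ k * (1 + -(2 * (l0 : ℝ) / X)) ^ k ≤ (Y : ℝ) ^ k := by
    rw [← mul_pow, h1]; exact h2
  have h4 : (k : ℝ) * (2 * (l0 : ℝ) / X) * (1 + τ) ≤ τ := by
    rw [div_le_iff₀ hτ] at hXk
    have : (k : ℝ) * (2 * (l0 : ℝ) / X) * (1 + τ) = (2 * (k : ℝ) * l0 * (1 + τ)) / X := by ring
    rw [this, div_le_iff₀ hXp]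
    linarith
  have h5 : (1 : ℝ) ≤ (1 + τ) * (1 + (k : ℝ) * -(2 * (l0 : ℝ) / X)) := by nlinarith
  have h6 : (0 : ℝ) ≤ (X : ℝ) ^ k := by positivity
  calc (X : ℝ) ^ k = (X : ℝ) ^ k * 1 := by ring
    _ ≤ (X : ℝ) ^ k * ((1 + τ) * (1 + (k : ℝ) * -(2 * (l0 : ℝ) / X))) :=
        mul_le_mul_of_nonneg_left h5 h6
    _ ≤ (X : ℝ) ^ k * ((1 + τ) * (1 + -(2 * (l0 : ℝ) / X)) ^ k) := by
        apply mul_le_mul_of_nonneg_left _ h6
        apply mul_le_mul_of_nonneg_left hb (by linarith)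
    _ = (1 + τ) * ((X : ℝ) ^ k * (1 + -(2 * (l0 : ℝ) / X)) ^ k) := by ring
    _ ≤ (1 + τ) * (Y : ℝ) ^ k := mul_le_mul_of_nonneg_left h3 (by linarith)

theorem align {k : ℕ} (R : Set (Fin k → ℤ)) (r0 τ : ℝ) (hτ : 0 < τ)
    (hR : ∀ X0 : ℕ, ∃ (X : ℕ) (M : Fin k → ℤ), X0 ≤ X ∧
      r0 * (X : ℝ) ^ k ≤ ∑ z ∈ cube X M, indk R z) (l0 : ℕ) (hl0 : 1 ≤ l0) (T0 : ℕ) :
    ∃ (T : ℕ) (a : Fin k → ℤ), T0 ≤ T ∧
      (r0 - τ) * (((l0 * T : ℕ)) : ℝ) ^ k ≤ ∑ z ∈ acube l0 T a, indk R z := by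
  classical
  rcases le_or_gt (r0 - τ) 0 with h0 | h0
  · refine ⟨T0, 0, le_rfl, ?_⟩
    refine le_trans ?_ (Finset.sum_nonneg fun z _ => indk_nonneg' R z)
    exact mul_nonpos_of_nonpos_of_nonneg h0 (by positivity)
  obtain ⟨X, M, hX0, hX⟩ := hR (l0 * (T0 + 2) + ⌈2 * (k : ℝ) * l0 * (1 + τ) / τ⌉₊)
  have hXl : l0 * (T0 + 2) ≤ X := le_trans (Nat.le_add_right _ _) hX0
  have hXk : 2 * (k : ℝ) * l0 * (1 + τ) / τ ≤ X := by
    refine le_trans (Nat.le_ceil _) ?_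
    exact_mod_cast le_trans (Nat.le_add_left _ _) hX0
  have hdiv : T0 + 2 ≤ X / l0 := by
    rw [Nat.le_div_iff_mul_le (by omega)]
    linarith [hXl, mul_comm l0 (T0 + 2)]
  have hmod : l0 * (X / l0) + X % l0 = X := Nat.div_add_mod X l0
  have hlt : X % l0 < l0 := Nat.mod_lt _ (by omega)
  obtain ⟨T, hT⟩ : ∃ T, X / l0 = T + 1 := ⟨X / l0 - 1, by omega⟩
  rw [hT] at hmod hdiv
  have hexp : l0 * (T + 1) = l0 * T + l0 := by ring
  have hlT : l0 * T + l0 ≤ X := by omega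
  have hTX : X ≤ l0 * T + 2 * l0 := by omega
  have hexp2 : l0 * (T0 + 2) = l0 * T0 + 2 * l0 := by ring
  have h2X : 2 * l0 ≤ X := by omega
  have h1X : 1 ≤ X := by omega
  set a : Fin k → ℤ := fun i => (M i + l0 - 1) / l0 with ha
  have hl0' : (0 : ℤ) < l0 := by exact_mod_cast hl0
  have ha1 : ∀ i, M i ≤ l0 * a i := by
    intro i
    have h1 := Int.emod_add_mul_ediv (M i + l0 - 1) l0
    have h2 := Int.emod_lt_of_pos (M i + l0 - 1) hl0'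
    show M i ≤ l0 * ((M i + l0 - 1) / l0)
    linarith
  have ha2 : ∀ i, l0 * a i ≤ M i + l0 - 1 := by
    intro i
    have h1 := Int.emod_add_mul_ediv (M i + l0 - 1) l0
    have h2 := Int.emod_nonneg (M i + l0 - 1) hl0'.ne'
    show l0 * ((M i + l0 - 1) / l0) ≤ M i + l0 - 1
    linarith
  have hsub : acube l0 T a ⊆ cube X M := by
    intro z hz
    unfold acube at hz
    unfold cube
    rw [Fintype.mem_piFinset] at hz ⊢
    intro i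
    have := hz i
    rw [mem_Ico] at this ⊢
    have h1 := ha1 i
    have h2 := ha2 i
    have h3 : (l0 : ℤ) * T + l0 ≤ X := by exact_mod_cast hlT
    refine ⟨le_trans h1 this.1, lt_of_lt_of_le this.2 ?_⟩
    have : (l0 : ℤ) * (a i + T) = l0 * a i + l0 * T := by ring
    rw [this]
    linarith
  refine ⟨T, a, by omega, ?_⟩
  have hsplit : ∑ z ∈ cube X M \ acube l0 T a, indk R z + ∑ z ∈ acube l0 T a, indk R z =
      ∑ z ∈ cube X M, indk R z := Finset.sum_sdiff hsub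
  have hrest : ∑ z ∈ cube X M \ acube l0 T a, indk R z ≤
      (X : ℝ) ^ k - (((l0 * T : ℕ)) : ℝ) ^ k := by
    calc ∑ z ∈ cube X M \ acube l0 T a, indk R z ≤ ∑ z ∈ cube X M \ acube l0 T a, (1 : ℝ) :=
          Finset.sum_le_sum fun z _ => indk_le_one' R z
      _ = ((cube X M \ acube l0 T a).card : ℝ) := by simp
      _ = ((cube X M).card : ℝ) - ((acube l0 T a).card : ℝ) := by
          rw [Finset.card_sdiff_of_subset hsub, Nat.cast_sub (Finset.card_le_card hsub)]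
      _ = _ := by rw [card_cube, card_acube]
  have hpow := pow_cmp k l0 X (l0 * T) τ hτ h2X h1X hXk hTX
  set Yk : ℝ := (((l0 * T : ℕ)) : ℝ) ^ k
  set Xk : ℝ := (X : ℝ) ^ k
  have hYk : Yk ≤ Xk := by
    apply pow_le_pow_left₀ (by positivity)
    exact_mod_cast (by omega : l0 * T ≤ X)
  have hr0 : 0 ≤ r0 := by linarith
  nlinarith [mul_nonneg hr0 (sub_nonneg.2 hYk)]

end Pool.Agent.H38.KT
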