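import Pool.Agent.H38.KT.Lsum
import Pool.Agent.H11.HM.Rh

/-!
[H38 KT AVA]  The averages `Av` and `Ex`: bounds, linearity, commutation.

Proofs.  `Av`: average of `P` terms.  `Ex t l i F z`: `t/l` times a sum over the class of `z i`, which has `l/t` elements
(`card_class`, `Pool/Agent/H11/HM/Rh.lean`; `blk l z = Ico ..`).  Linearity: `Finset.sum_sub_distrib`.  Commutation for `i ≠ j`: in
`Av P s i (Ex t l j F) z` the inner class is that of `(update z i _) j = z j`, and `update (update z i u) j c = update (update z j c) i u`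
(`Function.update_comm`); exchange the two finite sums (`Finset.sum_comm`).
`ex_congr`: if `c` is in the block and in the class of `z i` then the two classes are equal (`blk_eq`) and
`update (update z i c) i c' = update z i c'` (`Function.update_idem`).
-/

namespace Pool.Agent.H38.KT

open Finset Pool.Agent.H11.HM

theorem av_abs {k : ℕ} (P : ℕ) (s : ℤ) (i : Fin k) (F : (Fin k → ℤ) → ℝ) (hF : ∀ z, |F z| ≤ 1)
    (z : Fin k → ℤ) : |Av P s i F z| ≤ 1 := by
  unfold Av
  rcases Nat.eq_zero_or_pos P with hP | hP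
  · subst hP
    simp
  have hPr : (0 : ℝ) < P := by exact_mod_cast hP
  rw [abs_div, abs_of_pos hPr, div_le_one hPr]
  refine (abs_sum_le_sum_abs _ _).trans ?_
  refine (sum_le_sum fun n _ => hF _).trans (le_of_eq ?_)
  simp

theorem ex_mono {k : ℕ} (t l : ℕ) (i : Fin k) (F G : (Fin k → ℤ) → ℝ) (h : ∀ z, F z ≤ G z)
    (z : Fin k → ℤ) : Ex t l i F z ≤ Ex t l i G z := by
  unfold Ex
  exact mul_le_mul_of_nonneg_left (sum_le_sum fun c _ => h _) (by positivity)

/-- the average of a constant -/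
theorem ex_const {k : ℕ} (t l : ℕ) (ht : t ∣ l) (hl : 1 ≤ l) (i : Fin k) (c : ℝ) (z : Fin k → ℤ) :
    Ex t l i (fun _ => c) z = c := by
  unfold Ex
  have ht0 : 0 < t := Nat.pos_of_dvd_of_pos ht hl
  have ht1 : (0 : ℝ) < t := by exact_mod_cast ht0
  have hl1 : (0 : ℝ) < l := by exact_mod_cast hl
  rw [sum_const, nsmul_eq_mul, card_class t l ht hl]
  field_simp

theorem ex_abs_le {k : ℕ} (t l : ℕ) (i : Fin k) (F : (Fin k → ℤ) → ℝ) (z : Fin k → ℤ) :
    |Ex t l i F z| ≤ Ex t l i (fun z => |F z|) z := by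
  unfold Ex
  rw [abs_mul, abs_of_nonneg (by positivity : (0 : ℝ) ≤ (t : ℝ) / l)]
  exact mul_le_mul_of_nonneg_left (abs_sum_le_sum_abs _ _) (by positivity)

theorem ex_abs {k : ℕ} (t l : ℕ) (ht : t ∣ l) (hl : 1 ≤ l) (i : Fin k) (F : (Fin k → ℤ) → ℝ)
    (hF : ∀ z, |F z| ≤ 1) (z : Fin k → ℤ) : |Ex t l i F z| ≤ 1 := by
  refine (ex_abs_le t l i F z).trans ?_
  refine (ex_mono t l i _ (fun _ => 1) hF z).trans (le_of_eq ?_)
  exact ex_const t l ht hl i 1 z

theorem av_sub {k : ℕ} (P : ℕ) (s : ℤ) (i : Fin k) (F G : (Fin k → ℤ) → ℝ) :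
    Av P s i (fun z => F z - G z) = fun z => Av P s i F z - Av P s i G z := by
  funext z
  unfold Av
  rw [sum_sub_distrib, sub_div]

theorem ex_sub {k : ℕ} (t l : ℕ) (i : Fin k) (F G : (Fin k → ℤ) → ℝ) :
    Ex t l i (fun z => F z - G z) = fun z => Ex t l i F z - Ex t l i G z := by
  funext z
  unfold Ex
  rw [sum_sub_distrib, mul_sub]

theorem av_ex_comm {k : ℕ} (P : ℕ) (s : ℤ) (t l : ℕ) (i j : Fin k) (hij : i ≠ j)
    (F : (Fin k → ℤ) → ℝ) : Av P s i (Ex t l j F) = Ex t l j (Av P s i F) := by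
  funext z
  unfold Av Ex
  simp only [Function.update_of_ne hij, Function.update_of_ne hij.symm]
  rw [← mul_sum, mul_div_assoc, sum_comm, sum_div]
  congr 1
  refine sum_congr rfl fun c _ => ?_
  congr 1
  refine sum_congr rfl fun n _ => ?_
  rw [Function.update_comm hij]

theorem ex_comm {k : ℕ} (t l : ℕ) (i j : Fin k) (F : (Fin k → ℤ) → ℝ) :
    Ex t l i (Ex t l j F) = Ex t l j (Ex t l i F) := by
  rcases eq_or_ne i j with hij | hij
  · rw [hij]
  funext z
  unfold Ex
  simp only [Function.update_of_ne hij, Function.update_of_ne hij.symm]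
  rw [← mul_sum, ← mul_sum, sum_comm]
  congr 2
  refine sum_congr rfl fun c _ => ?_
  refine sum_congr rfl fun n _ => ?_
  rw [Function.update_comm hij]

theorem ex_congr {k : ℕ} (t l : ℕ) (i : Fin k) (F : (Fin k → ℤ) → ℝ) (z : Fin k → ℤ) (c : ℤ)
    (h1 : c / l = z i / l) (h2 : c ≡ z i [ZMOD t]) :
    Ex t l i F (Function.update z i c) = Ex t l i F z := by
  unfold Ex
  simp only [Function.update_self, Function.update_idem]
  rw [blk_eq h1]
  congr 2
  ext c'
  simp only [mem_filter]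
  exact ⟨fun h => ⟨h.1, h.2.trans h2⟩, fun h => ⟨h.1, h.2.trans h2.symm⟩⟩

end Pool.Agent.H38.KT
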