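import Pool.Agent.H38.KT.AvA
import Pool.Agent.H11.HM.Apb

/-!
[H38 KT AVB]  The averages `Av` and `Ex` in the mean over an aligned cube.

`W = acube l0 T a`, `Y = l0 T`, `|W| = Y^k` (`card_acube`).
* `one_sum` (one variable): on a union of blocks the sum of the class averages is the sum: exchange the two sums; each `c'` of the
  interval occurs for the `l/t` elements `c` of its own class (`card_class`; `c' ∈ blk l c ↔ c ∈ blk l c'` and the congruence is
  symmetric; all of them are in the interval because it is a union of blocks, `mem_blk`).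
* `ex_sum`: by `line_sum` (`I i = Ico (l0 a_i) (l0 (a_i + T)) = Ico (l (c a_i)) (l (c (a_i + T)))`, `l0 = l c`) it suffices to compare
  `∑_{u ∈ I i} Ex t l i F (update z i u) = ∑_{u ∈ I i} F (update z i u)` for every `z`: `one_sum` for `f u = F (update z i u)`.
* `ex_l1`: `ex_abs_le` and `ex_sum`.
* `av_l1`: `∑_{z ∈ W} |Av F z| ≤ (1/P) ∑_n ∑_{z ∈ W} g (update z i (z i + s n))`, `g = |F|`.  By `line_sum` for
  `F' z = g (update z i (z i + s n))`: `Y ∑_{z ∈ W} F' z = ∑_{z ∈ W} ∑_{u ∈ I i} g (update z i (u + s n)) ≤ ∑_{z ∈ W} (∑_{u ∈ I i} g (update z i u) + s n)`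
  (`apb_shift`, `Pool/Agent/H11/HM/Apb.lean`) `= Y ∑_W g + s n |W|`.  So `∑_{z ∈ W} F' z ≤ ∑_W g + s P |W|/Y`.
-/

namespace Pool.Agent.H38.KT

open Finset Pool.Agent.H11.HM

theorem one_sum (t l : ℕ) (ht : t ∣ l) (hl : 1 ≤ l) (a b : ℤ) (f : ℤ → ℝ) :
    ∑ c ∈ Ico ((l : ℤ) * a) (l * b),
      (t : ℝ) / l * ∑ c' ∈ (blk l c).filter (fun c' => c' ≡ c [ZMOD t]), f c' =
      ∑ c ∈ Ico ((l : ℤ) * a) (l * b), f c := by
  have ht0 : 0 < t := Nat.pos_of_dvd_of_pos ht hl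
  have htR : (t : ℝ) ≠ 0 := by positivity
  have hlR : (l : ℝ) ≠ 0 := by positivity
  have hl0 : (0 : ℤ) < l := by exact_mod_cast hl
  have hcls : ∀ z ∈ Ico ((l : ℤ) * a) (l * b), (blk l z).filter (fun z' => z' ≡ z [ZMOD t]) =
      (Ico ((l : ℤ) * a) (l * b)).filter (fun z' => z' / l = z / l ∧ z' ≡ z [ZMOD t]) := by
    intro z hz
    rw [mem_Ico] at hz
    have hza : a ≤ z / l := by
      rw [Int.le_ediv_iff_mul_le hl0]; linarith [mul_comm (l : ℤ) a]
    have hzb : z / l < b := by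
      rw [Int.ediv_lt_iff_lt_mul hl0]; linarith [mul_comm (l : ℤ) b]
    ext z'
    rw [mem_filter, mem_filter, mem_blk hl, mem_Ico]
    constructor
    · rintro ⟨h1, h2⟩
      refine ⟨⟨?_, ?_⟩, h1, h2⟩
      · have h3 : a ≤ z' / l := by rw [h1]; exact hza
        rw [Int.le_ediv_iff_mul_le hl0] at h3
        linarith [mul_comm (l : ℤ) a]
      · have h3 : z' / l < b := by rw [h1]; exact hzb
        rw [Int.ediv_lt_iff_lt_mul hl0] at h3
        linarith [mul_comm (l : ℤ) b]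
    · rintro ⟨_, h1, h2⟩
      exact ⟨h1, h2⟩
  have h1 : ∀ z ∈ Ico ((l : ℤ) * a) (l * b),
      (t : ℝ) / l * ∑ c' ∈ (blk l z).filter (fun c' => c' ≡ z [ZMOD t]), f c' =
      ∑ z' ∈ Ico ((l : ℤ) * a) (l * b), if z' / l = z / l ∧ z' ≡ z [ZMOD t] then
        (t : ℝ) / l * f z' else 0 := by
    intro z hz
    rw [hcls z hz, ← sum_filter, mul_sum]
  rw [sum_congr rfl h1, sum_comm]
  apply sum_congr rfl
  intro z' hz'
  have h2 : ∀ z ∈ Ico ((l : ℤ) * a) (l * b), (if z' / l = z / l ∧ z' ≡ z [ZMOD t] then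
        (t : ℝ) / l * f z' else 0) =
        (if z / l = z' / l ∧ z ≡ z' [ZMOD t] then (t : ℝ) / l * f z' else 0) := by
    intro z _
    have : (z' / l = z / l ∧ z' ≡ z [ZMOD t]) ↔ (z / l = z' / l ∧ z ≡ z' [ZMOD t]) :=
      ⟨fun h => ⟨h.1.symm, h.2.symm⟩, fun h => ⟨h.1.symm, h.2.symm⟩⟩
    simp only [this]
  rw [sum_congr rfl h2, ← sum_filter, ← hcls z' hz', sum_const, nsmul_eq_mul, card_class t l ht hl]
  field_simp

/-- sums over an aligned cube as averages over lines -/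
theorem line_acube {k : ℕ} (l0 T : ℕ) (hl0 : 1 ≤ l0) (hT : 1 ≤ T) (a : Fin k → ℤ) (i : Fin k)
    (F : (Fin k → ℤ) → ℝ) :
    ∑ z ∈ acube l0 T a, F z = (∑ z ∈ acube l0 T a,
      ∑ u ∈ Ico ((l0 : ℤ) * a i) (l0 * (a i + T)), F (Function.update z i u)) / ((l0 * T : ℕ) : ℝ) := by
  have h := line_sum (fun i => Ico ((l0 : ℤ) * a i) (l0 * (a i + T))) i F
  have hY : (0 : ℝ) < ((l0 * T : ℕ) : ℝ) := by
    have : 0 < l0 * T := Nat.mul_pos hl0 hT
    exact_mod_cast this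
  have hc : ((Ico ((l0 : ℤ) * a i) (l0 * (a i + T))).card : ℝ) = ((l0 * T : ℕ) : ℝ) := by
    rw [Int.card_Ico]
    congr 1
    have : (l0 : ℤ) * (a i + T) - l0 * a i = ((l0 * T : ℕ) : ℤ) := by push_cast; ring
    rw [this, Int.toNat_natCast]
  rw [hc] at h
  rw [eq_div_iff hY.ne', mul_comm]
  exact h.symm

theorem ex_sum {k : ℕ} (t l l0 T : ℕ) (ht : t ∣ l) (hl : l ∣ l0) (hl0 : 1 ≤ l0) (hT : 1 ≤ T)
    (a : Fin k → ℤ) (i : Fin k) (F : (Fin k → ℤ) → ℝ) :
    ∑ z ∈ acube l0 T a, Ex t l i F z = ∑ z ∈ acube l0 T a, F z := by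
  have hl1 : 1 ≤ l := Nat.pos_of_dvd_of_pos hl hl0
  rw [line_acube l0 T hl0 hT a i (Ex t l i F), line_acube l0 T hl0 hT a i F]
  congr 1
  refine sum_congr rfl fun z _ => ?_
  obtain ⟨c, hc⟩ := hl
  have hI : Ico ((l0 : ℤ) * a i) (l0 * (a i + T)) = Ico ((l : ℤ) * (c * a i)) (l * (c * (a i + T))) := by
    have : (l0 : ℤ) = l * c := by rw [hc]; push_cast; ring
    rw [this, mul_assoc, mul_assoc]
  rw [hI, ← one_sum t l ht hl1 (c * a i) (c * (a i + T)) (fun u => F (Function.update z i u))]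
  refine sum_congr rfl fun u _ => ?_
  unfold Ex
  simp only [Function.update_self, Function.update_idem]

theorem ex_l1 {k : ℕ} (t l l0 T : ℕ) (ht : t ∣ l) (hl : l ∣ l0) (hl0 : 1 ≤ l0) (hT : 1 ≤ T)
    (a : Fin k → ℤ) (i : Fin k) (F : (Fin k → ℤ) → ℝ) :
    ∑ z ∈ acube l0 T a, |Ex t l i F z| ≤ ∑ z ∈ acube l0 T a, |F z| := by
  rw [← ex_sum t l l0 T ht hl hl0 hT a i (fun z => |F z|)]
  exact sum_le_sum fun z _ => ex_abs_le t l i F z

theorem av_l1 {k : ℕ} (P s l0 T : ℕ) (hP : 1 ≤ P) (hl0 : 1 ≤ l0) (hT : 1 ≤ T) (a : Fin k → ℤ)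
    (i : Fin k) (F : (Fin k → ℤ) → ℝ) (hF : ∀ z, |F z| ≤ 1) :
    ∑ z ∈ acube l0 T a, |Av P s i F z| ≤ ∑ z ∈ acube l0 T a, |F z| +
      (s : ℝ) * P * (((l0 * T : ℕ)) : ℝ) ^ k / (l0 * T) := by
  have hPr : (0 : ℝ) < P := by exact_mod_cast hP
  have hY : (0 : ℝ) < ((l0 * T : ℕ) : ℝ) := by
    have : 0 < l0 * T := Nat.mul_pos hl0 hT
    exact_mod_cast this
  have hl0T : (0 : ℤ) ≤ l0 * T := by positivity
  have hn : ∀ n ∈ range P, ∑ z ∈ acube l0 T a, |F (Function.update z i (z i + s * n))| ≤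
      ∑ z ∈ acube l0 T a, |F z| + (s : ℝ) * P * (((l0 * T : ℕ)) : ℝ) ^ k / (l0 * T) := by
    intro n hn
    have hnP : n ≤ P := (mem_range.1 hn).le
    rw [line_acube l0 T hl0 hT a i (fun z => |F (Function.update z i (z i + s * n))|),
      line_acube l0 T hl0 hT a i (fun z => |F z|)]
    have h1 : ∀ z : Fin k → ℤ, ∑ u ∈ Ico ((l0 : ℤ) * a i) (l0 * (a i + T)),
        |F (Function.update (Function.update z i u) i ((Function.update z i u) i + s * n))| ≤
        ∑ u ∈ Ico ((l0 : ℤ) * a i) (l0 * (a i + T)), |F (Function.update z i u)| + s * P := by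
      intro z
      simp only [Function.update_self, Function.update_idem]
      have h2 := apb_shift (fun u => |F (Function.update z i u)|) (fun _ => abs_nonneg _)
        (fun _ => hF _) ((l0 : ℤ) * a i) (l0 * (a i + T)) (by nlinarith) (s * n)
      push_cast at h2
      refine h2.trans ?_
      have h3 : (s : ℝ) * n ≤ s * P :=
        mul_le_mul_of_nonneg_left (by exact_mod_cast hnP) (Nat.cast_nonneg _)
      linarith
    have h4 : (s : ℝ) * P * (((l0 * T : ℕ)) : ℝ) ^ k / (l0 * T) =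
        (∑ _z ∈ acube l0 T a, ((s : ℝ) * P)) / ((l0 * T : ℕ) : ℝ) := by
      rw [sum_const, nsmul_eq_mul, card_acube, mul_comm]
      push_cast
      ring
    rw [h4, ← add_div, ← sum_add_distrib]
    exact div_le_div_of_nonneg_right (sum_le_sum fun z _ => h1 z) hY.le
  have h5 : ∀ z, |Av P s i F z| ≤
      (∑ n ∈ range P, |F (Function.update z i (z i + s * n))|) / P := by
    intro z
    unfold Av
    rw [abs_div, abs_of_pos hPr]
    exact div_le_div_of_nonneg_right (abs_sum_le_sum_abs _ _) hPr.le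
  refine (sum_le_sum fun z _ => h5 z).trans ?_
  rw [← sum_div, sum_comm, div_le_iff₀ hPr]
  refine (sum_le_sum hn).trans (le_of_eq ?_)
  rw [sum_const, card_range, nsmul_eq_mul, mul_comm]

end Pool.Agent.H38.KT
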