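import Pool.Agent.H38.KT.AvA

/-!
[H38 KT AVCNT]  The composition of all the averages `Av` is the average over the box `z + s [0,P)^k`.

Proof.  `avl_list`: for a list `D` without repetitions
`AvL P s D F z = (∑_{n ∈ piFinset (i ↦ if i ∈ D then range P else {0})} F (z + s n)) / P^|D|`, by induction on `D`: for `D = i :: D'`,
`Av P s i G z = (1/P) ∑_{n < P} G (update z i (z i + s n))` and the points `n ∈ piFinset` for `i :: D'` are the `update n' i n` with `n'` in the
`piFinset` for `D'` (so `n' i = 0`, `i ∉ D'`) and `n < P`: bijection `(n, n') ↦ update n' i n`, inverse `n'' ↦ (n'' i, update n'' i 0)`.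
`D = List.finRange k`: all `i` are in `D`, `|D| = k`.  `cntk` is the sum of the indicators.
-/

namespace Pool.Agent.H38.KT

open Finset Pool.Agent.H11.HM

theorem avl_list {k : ℕ} (F : (Fin k → ℤ) → ℝ) (P : ℕ) (s : ℤ) (D : List (Fin k)) (hD : D.Nodup)
    (z : Fin k → ℤ) :
    AvL P s D F z = (∑ n ∈ Fintype.piFinset (fun i => if i ∈ D then range P else {0}),
      F (fun i => z i + s * (n i : ℤ))) / (P : ℝ) ^ D.length := by
  induction D generalizing z with
  | nil =>
    have h1 : (Fintype.piFinset fun i : Fin k => if i ∈ ([] : List (Fin k)) then range P else {0}) =
        {fun _ => 0} := by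
      ext n
      simp only [Fintype.mem_piFinset, List.not_mem_nil, if_false, mem_singleton]
      exact ⟨fun h => funext h, fun h i => congrFun h i⟩
    rw [h1, sum_singleton]
    simp [AvL]
  | cons i D ih =>
    obtain ⟨hi, hD'⟩ := List.nodup_cons.1 hD
    have h0 : AvL P s (i :: D) F z = Av P s i (AvL P s D F) z := rfl
    rw [h0, Av, List.length_cons, pow_succ]
    have h1 : ∀ m ∈ range P, AvL P s D F (Function.update z i (z i + s * m)) =
        (∑ n ∈ Fintype.piFinset (fun j => if j ∈ D then range P else {0}),
          F (fun j => z j + s * (Function.update n i m j : ℤ))) / (P : ℝ) ^ D.length := by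
      intro m _
      rw [ih hD']
      congr 1
      refine sum_congr rfl fun n hn => ?_
      congr 1
      funext j
      rcases eq_or_ne j i with hj | hj
      · subst hj
        have h2 := Fintype.mem_piFinset.1 hn j
        rw [if_neg hi, mem_singleton] at h2
        rw [Function.update_self, Function.update_self, h2]
        simp
      · rw [Function.update_of_ne hj, Function.update_of_ne hj]
    rw [sum_congr rfl h1, ← sum_div, div_div]
    congr 1
    rw [← sum_product']
    refine sum_nbij' (fun p => Function.update p.2 i p.1) (fun n => (n i, Function.update n i 0))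
      ?_ ?_ ?_ ?_ ?_
    · rintro ⟨m, n⟩ hp
      rw [mem_product, Fintype.mem_piFinset] at hp
      rw [Fintype.mem_piFinset]
      intro j
      rcases eq_or_ne j i with hj | hj
      · subst hj
        rw [Function.update_self, if_pos List.mem_cons_self]
        exact hp.1
      · rw [Function.update_of_ne hj]
        have h2 := hp.2 j
        have h3 : (j ∈ i :: D) ↔ j ∈ D := by
          rw [List.mem_cons]
          exact or_iff_right hj
        rw [if_congr h3 rfl rfl]
        exact h2
    · intro n hn
      rw [Fintype.mem_piFinset] at hn
      rw [mem_product, Fintype.mem_piFinset]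
      constructor
      · have h2 := hn i
        rw [if_pos List.mem_cons_self] at h2
        exact h2
      · intro j
        rcases eq_or_ne j i with hj | hj
        · subst hj
          show Function.update n j 0 j ∈ _
          rw [Function.update_self, if_neg hi, mem_singleton]
        · show Function.update n i 0 j ∈ _
          rw [Function.update_of_ne hj]
          have h2 := hn j
          have h3 : (j ∈ i :: D) ↔ j ∈ D := by
            rw [List.mem_cons]
            exact or_iff_right hj
          rw [if_congr h3 rfl rfl] at h2
          exact h2
    · rintro ⟨m, n⟩ hp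
      rw [mem_product, Fintype.mem_piFinset] at hp
      have h2 := hp.2 i
      rw [if_neg hi, mem_singleton] at h2
      show (Function.update n i m i, Function.update (Function.update n i m) i 0) = (m, n)
      rw [Function.update_self, Function.update_idem, ← h2]
      congr 1
      exact Function.update_eq_self i n
    · intro n _
      show Function.update (Function.update n i 0) i (n i) = n
      rw [Function.update_idem, Function.update_eq_self]
    · intro p _
      rfl

theorem avl_cnt {k : ℕ} (R : Set (Fin k → ℤ)) (P : ℕ) (s : ℤ) (z : Fin k → ℤ) :
    AvL P s (List.finRange k) (indk R) z = (cntk R P s z : ℝ) / (P : ℝ) ^ k := by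
  classical
  rw [avl_list _ _ _ _ (List.nodup_finRange k), List.length_finRange]
  congr 1
  have h1 : (Fintype.piFinset fun i : Fin k => if i ∈ List.finRange k then range P else {0}) =
      Fintype.piFinset fun _ : Fin k => range P := by
    congr 1
    funext i
    rw [if_pos (List.mem_finRange i)]
  rw [h1]
  unfold indk cntk
  rw [sum_boole]

end Pool.Agent.H38.KT
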