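import Pool.Agent.H38.KT.Uns

/-!
[H38 KT LEMK]  Lemma K (helper11): `k + 1` sets of density at least `c ≤ 1/2` in `[0, L)` have a tuple of differences in `R`, if `R` has density at
least `1 - (k+1) c^k + e` in most of the boxes `w + m [0,P)^k`, for each `m ≤ K`.

Proof.  `ε = min 1 (c/6) (e/(12 k (k+1)))`, `θ` from `lz` for `(c/2, e/4)`, `η = min 1 (ε^(k+1) e θ/(8 4^k k))`, `K` from `stab_fam k η`,
`κ = ε^(k+1)/2^(k+1)`.  Suppose that there is no tuple.  Let `m` be the common almost period `m P`.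
* By `uns_le`, `phi_stab`: `|unst D| ≤ k η (2L)^k L` for each `D`; `uns_sum`: the sum of `|wz p|` over all `p = (u_0, u) ∈ [0,L)^(k+1)` is at most
  `P^(k+1) 4^k k η L^(k+1)`.
* At least `ε^(k+1) L^(k+1)/2` points `p` are good: all fibres have at least `(c - 2ε) P` elements (`many_good`) and `u - u_0` is not
  exceptional.
* For a good `p` with `a = ⌊(c - 2ε) P⌋`, `lz` and `fibre` give `|wz p| ≥ (e/2) P^k θ P`.
So `ε^(k+1) e θ/4 ≤ 4^k k η ≤ ε^(k+1) e θ/8`, a contradiction.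
-/

namespace Pool.Agent.H38.KT

open Finset Pool.Agent.H11.HM

theorem pow_diff_le (k : ℕ) (a b : ℝ) (hb : 0 ≤ b) (hab : b ≤ a) (ha : a ≤ 1) :
    a ^ k - b ^ k ≤ k * (a - b) := by
  induction k with
  | zero => simp
  | succ k ih =>
    have h1 : b ^ k ≤ 1 := pow_le_one₀ hb (by linarith)
    have h2 : 0 ≤ a - b := by linarith
    have h3 : a ^ (k + 1) - b ^ (k + 1) = a * (a ^ k - b ^ k) + b ^ k * (a - b) := by ring
    rw [h3]
    have h4 : 0 ≤ a ^ k - b ^ k := by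
      have := pow_le_pow_left₀ hb hab k
      linarith
    have h5 : a * (a ^ k - b ^ k) ≤ 1 * (a ^ k - b ^ k) := mul_le_mul_of_nonneg_right ha h4
    have h6 : b ^ k * (a - b) ≤ 1 * (a - b) := mul_le_mul_of_nonneg_right h1 h2
    push_cast
    linarith

theorem lemK_core (k : ℕ) (hk : 1 ≤ k) (c e : ℝ) (hc0 : 0 < c) (hc : c ≤ 1 / 2) (he : 0 < e) :
    ∃ (K P0 : ℕ) (kap : ℝ), 1 ≤ K ∧ 0 < kap ∧ ∀ P : ℕ, P.Prime → P0 ≤ P → ∃ L0 : ℕ, ∀ L : ℕ, L0 ≤ L →
      ∀ R : Set (Fin k → ℤ),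
      (∀ m : ℕ, 1 ≤ m → m ≤ K → (((ocube k L).filter (fun w => (cntk R P m w : ℝ) <
        (1 - ((k : ℝ) + 1) * c ^ k + e) * (P : ℝ) ^ k)).card : ℝ) ≤ kap * (2 * (L : ℝ)) ^ k) →
      ∀ (S0 : Finset ℤ) (S : Fin k → Finset ℤ), S0 ⊆ Ico 0 (L : ℤ) → (∀ i, S i ⊆ Ico 0 (L : ℤ)) →
        c * L ≤ (S0.card : ℝ) → (∀ i, c * L ≤ ((S i).card : ℝ)) →
        ∃ y0 ∈ S0, ∃ y : Fin k → ℤ, (∀ i, y i ∈ S i) ∧ (fun i => y i - y0) ∈ R := by
  classical
  have hkr : (1 : ℝ) ≤ k := by exact_mod_cast hk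
  obtain ⟨ε, hε⟩ : ∃ ε : ℝ, ε = min (min 1 (c / 6)) (e / (12 * k * (k + 1))) := ⟨_, rfl⟩
  have hε0 : 0 < ε := by
    rw [hε]
    exact lt_min (lt_min one_pos (by linarith)) (by positivity)
  have hε1 : ε ≤ 1 := by rw [hε]; exact (min_le_left _ _).trans (min_le_left _ _)
  have hεc : ε ≤ c / 6 := by rw [hε]; exact (min_le_left _ _).trans (min_le_right _ _)
  have hεe : ε ≤ e / (12 * k * (k + 1)) := by rw [hε]; exact min_le_right _ _
  obtain ⟨θ, hθ, P1, hlz⟩ := lz k (c / 2) (e / 4) (by linarith) (by linarith)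
  obtain ⟨η, hη⟩ : ∃ η : ℝ, η = min 1 (ε ^ (k + 1) * e * θ / (8 * 4 ^ k * k)) := ⟨_, rfl⟩
  have hη0 : 0 < η := by
    rw [hη]
    exact lt_min one_pos (by positivity)
  have hη1 : η ≤ 1 := by rw [hη]; exact min_le_left _ _
  have hη2 : η ≤ ε ^ (k + 1) * e * θ / (8 * 4 ^ k * k) := by rw [hη]; exact min_le_right _ _
  obtain ⟨K, hK1, hK⟩ := stab_fam k η hη0 hη1
  obtain ⟨kap, hkap⟩ : ∃ kap : ℝ, kap = ε ^ (k + 1) / 2 ^ (k + 1) := ⟨_, rfl⟩
  have hkap0 : 0 < kap := by rw [hkap]; positivity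
  refine ⟨K, max P1 ⌈1 / ε⌉₊, kap, hK1, hkap0, ?_⟩
  intro P hPp hP
  have hP1 : P1 ≤ P := (le_max_left _ _).trans hP
  have hPε : 1 ≤ ε * P := by
    have h1 : ⌈1 / ε⌉₊ ≤ P := (le_max_right _ _).trans hP
    have h2 : 1 / ε ≤ P := (Nat.le_ceil _).trans (by exact_mod_cast h1)
    rw [div_le_iff₀ hε0] at h2
    linarith
  have hPpos : 0 < P := hPp.pos
  have hPr : (0 : ℝ) < P := by exact_mod_cast hPpos
  haveI : Fact P.Prime := ⟨hPp⟩
  haveI : NeZero P := ⟨hPpos.ne'⟩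
  refine ⟨⌈(K : ℝ) * P / ε ^ 2⌉₊ + 1, ?_⟩
  intro L hL R hexc S0 S hS0 hS hc0' hci
  have hL1 : 1 ≤ L := by omega
  have hLr : (1 : ℝ) ≤ L := by exact_mod_cast hL1
  have hKPL : (K : ℝ) * P ≤ ε ^ 2 * L := by
    have h1 : ⌈(K : ℝ) * P / ε ^ 2⌉₊ ≤ L := by omega
    have h2 : (K : ℝ) * P / ε ^ 2 ≤ L := (Nat.le_ceil _).trans (by exact_mod_cast h1)
    rw [div_le_iff₀ (by positivity)] at h2
    linarith
  have hε2 : ε ^ 2 ≤ 1 := pow_le_one₀ hε0.le hε1
  have hKPL' : K * P ≤ L := by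
    have h2 : (K : ℝ) * P ≤ L := hKPL.trans (mul_le_of_le_one_left (by linarith) hε2)
    exact_mod_cast h2
  by_contra hcon
  have hR : ∀ y0 ∈ S0, ∀ y : Fin k → ℤ, (∀ i, y i ∈ S i) → (fun i => y i - y0) ∉ R := by
    intro y0 hy0 y hy h
    exact hcon ⟨y0, hy0, y, hy, h⟩
  obtain ⟨m, hm1, hmK, hm⟩ := hK P L hPp.one_lt.le hKPL' S hS
  have hmP : (m : ℝ) * P ≤ ε ^ 2 * L := by
    refine le_trans ?_ hKPL
    apply mul_le_mul_of_nonneg_right _ hPr.le
    exact_mod_cast hmK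
  -- the number of the unstable tuples
  have hun : ∀ D : Finset (Fin k), ((unst S0 S R (m * P) D).card : ℝ) ≤ k * (η * (2 * (L : ℝ)) ^ k * L) := by
    intro D
    have h1 := uns_le S0 S R (m * P) D L hS0 hS hR
    have h2 := phi_stab L hL1 (m * P) η hη0.le S0 S hS0 hm D
    refine h1.trans (h2.trans ?_)
    apply mul_le_mul_of_nonneg_right _ (by positivity)
    have : D.card ≤ k := by
      have := card_le_univ D
      rwa [Fintype.card_fin] at this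
    exact_mod_cast this
  have hunt : ∑ D : Finset (Fin k), ((unst S0 S R (m * P) D).card : ℝ) ≤
      4 ^ k * k * η * (L : ℝ) ^ (k + 1) := by
    refine (sum_le_sum fun D _ => hun D).trans (le_of_eq ?_)
    rw [sum_const, card_univ, Fintype.card_finset, Fintype.card_fin, nsmul_eq_mul]
    push_cast
    have e4 : (4 : ℝ) ^ k = 2 ^ k * 2 ^ k := by
      rw [← mul_pow]
      norm_num
    rw [e4, mul_pow, pow_succ]
    ring
  -- the good points
  obtain ⟨X0, hX0⟩ : ∃ X0 : Finset ℤ, X0 = (Ico 0 (L : ℤ)).filter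
      (fun u => ((S0.card : ℝ) / L - 2 * ε) * P ≤ ((fib S0 P m u).card : ℝ)) := ⟨_, rfl⟩
  obtain ⟨X, hX⟩ : ∃ X : Fin k → Finset ℤ, ∀ i, X i = (Ico 0 (L : ℤ)).filter
      (fun u => (((S i).card : ℝ) / L - 2 * ε) * P ≤ ((fib (S i) P m u).card : ℝ)) := ⟨_, fun _ => rfl⟩
  have hX0c : ε * L ≤ (X0.card : ℝ) := by
    rw [hX0]
    exact many_good S0 P L m ε hε0 hε1 hPp.one_lt.le hS0 hmP
  have hXc : ∀ i, ε * L ≤ ((X i).card : ℝ) := by
    intro i
    rw [hX]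
    exact many_good (S i) P L m ε hε0 hε1 hPp.one_lt.le (hS i) hmP
  obtain ⟨Z0, hZ0⟩ : ∃ Z0 : Finset (ℤ × (Fin k → ℤ)), Z0 = X0 ×ˢ Fintype.piFinset X := ⟨_, rfl⟩
  have hZ0c : ε ^ (k + 1) * (L : ℝ) ^ (k + 1) ≤ (Z0.card : ℝ) := by
    rw [hZ0, card_product, Fintype.card_piFinset]
    push_cast
    have h1 : (ε * L) ^ k ≤ ∏ i, ((X i).card : ℝ) := by
      have h2 : ∏ _i : Fin k, (ε * (L : ℝ)) ≤ ∏ i, ((X i).card : ℝ) :=
        prod_le_prod (fun i _ => by positivity) (fun i _ => hXc i)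
      rw [prod_const, card_univ, Fintype.card_fin] at h2
      exact h2
    calc ε ^ (k + 1) * (L : ℝ) ^ (k + 1) = (ε * L) * (ε * L) ^ k := by
          rw [← mul_pow, pow_succ]
          ring
      _ ≤ (X0.card : ℝ) * ∏ i, ((X i).card : ℝ) := mul_le_mul hX0c h1 (by positivity) (by positivity)
  obtain ⟨ρ, hρ⟩ : ∃ ρ : ℝ, ρ = 1 - ((k : ℝ) + 1) * c ^ k + e := ⟨_, rfl⟩
  rw [← hρ] at hexc
  obtain ⟨Bd, hBd⟩ : ∃ Bd : Finset (ℤ × (Fin k → ℤ)), Bd = (Ico 0 (L : ℤ) ×ˢ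
      Fintype.piFinset (fun _ : Fin k => Ico 0 (L : ℤ))).filter
      (fun p => (cntk R P m (fun i => p.2 i - p.1) : ℝ) < ρ * (P : ℝ) ^ k) := ⟨_, rfl⟩
  have hBdc : (Bd.card : ℝ) ≤ ε ^ (k + 1) * (L : ℝ) ^ (k + 1) / 2 := by
    obtain ⟨Ex, hEx⟩ : ∃ Ex : Finset (Fin k → ℤ), Ex = (ocube k L).filter (fun w => (cntk R P m w : ℝ) <
      ρ * (P : ℝ) ^ k) := ⟨_, rfl⟩
    have h1 : Bd.card ≤ (Ico 0 (L : ℤ) ×ˢ Ex).card := by
      apply card_le_card_of_injOn (fun p => (p.1, fun i => p.2 i - p.1))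
      · intro p hp
        rw [mem_coe, hBd, mem_filter, mem_product, Fintype.mem_piFinset] at hp
        rw [mem_coe, mem_product, hEx, mem_filter, ocube, Fintype.mem_piFinset]
        simp only
        refine ⟨hp.1.1, fun i => ?_, hp.2⟩
        have h2 := mem_Ico.1 hp.1.1
        have h3 := mem_Ico.1 (hp.1.2 i)
        rw [mem_Ioo]
        constructor <;> linarith [h2.1, h2.2, h3.1, h3.2]
      · intro a _ b _ hab
        simp only [Prod.mk.injEq] at hab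
        refine Prod.ext hab.1 ?_
        funext i
        have := congrFun hab.2 i
        rw [hab.1] at this
        linarith
    rw [card_product, Int.card_Ico] at h1
    have h2 : ((L : ℤ) - 0).toNat = L := by omega
    rw [h2] at h1
    have h3 : (Bd.card : ℝ) ≤ (L : ℝ) * Ex.card := by exact_mod_cast h1
    have h4 := hexc m hm1 hmK
    rw [← hEx] at h4
    calc (Bd.card : ℝ) ≤ (L : ℝ) * Ex.card := h3
      _ ≤ (L : ℝ) * (kap * (2 * (L : ℝ)) ^ k) := mul_le_mul_of_nonneg_left h4 (by linarith)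
      _ = _ := by
        rw [hkap, mul_pow, pow_succ 2 k, pow_succ (L : ℝ) k]
        field_simp
  obtain ⟨Z, hZ⟩ : ∃ Z : Finset (ℤ × (Fin k → ℤ)), Z = Z0 \ Bd := ⟨_, rfl⟩
  have hZc : ε ^ (k + 1) * (L : ℝ) ^ (k + 1) / 2 ≤ (Z.card : ℝ) := by
    have h1 : Z0.card ≤ Z.card + Bd.card := by
      rw [hZ]
      have := card_le_card_sdiff_add_card (s := Z0) (t := Bd)
      exact this
    have h2 : (Z0.card : ℝ) ≤ Z.card + Bd.card := by exact_mod_cast h1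
    linarith
  -- a lower bound for the good points
  have hlow : ∀ p ∈ Z, e / 2 * (P : ℝ) ^ k * (θ * P) ≤ ((wz P m S0 S R p).card : ℝ) := by
    rintro ⟨u0, u⟩ hp
    rw [hZ, mem_sdiff, hZ0, mem_product, Fintype.mem_piFinset] at hp
    obtain ⟨⟨hu0, hu⟩, hpB⟩ := hp
    simp only at hu0 hu
    rw [hX0, mem_filter] at hu0
    have hu' : ∀ i, u i ∈ Ico 0 (L : ℤ) ∧ (((S i).card : ℝ) / L - 2 * ε) * P ≤ ((fib (S i) P m (u i)).card : ℝ) := by
      intro i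
      have := hu i
      rw [hX, mem_filter] at this
      exact this
    obtain ⟨a, ha⟩ : ∃ a : ℕ, a = ⌊(c - 2 * ε) * P⌋₊ := ⟨_, rfl⟩
    have ha1 : (a : ℝ) ≤ (c - 2 * ε) * P := by
      rw [ha]
      exact Nat.floor_le (mul_nonneg (by linarith) hPr.le)
    have ha2 : (c - 3 * ε) * P ≤ a := by
      have h1 : (c - 2 * ε) * P < a + 1 := by
        rw [ha]
        exact Nat.lt_floor_add_one _
      nlinarith
    have ha3 : 2 * a ≤ P := by
      have h1 : (2 : ℝ) * a ≤ P := by nlinarith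
      exact_mod_cast h1
    have ha4 : c / 2 * P ≤ a := by
      refine le_trans ?_ ha2
      apply mul_le_mul_of_nonneg_right _ hPr.le
      linarith
    have hL0 : (0 : ℝ) < L := by linarith
    have hf0 : a ≤ (univ.filter (fun v : ZMod P => u0 + m * (v.val : ℤ) ∈ S0)).card := by
      rw [zfib_card]
      have h1 : (c - 2 * ε) * P ≤ ((S0.card : ℝ) / L - 2 * ε) * P := by
        apply mul_le_mul_of_nonneg_right _ hPr.le
        have : c ≤ (S0.card : ℝ) / L := by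
          rw [le_div_iff₀ hL0]
          exact hc0'
        linarith
      have h2 : (a : ℝ) ≤ ((fib S0 P m u0).card : ℝ) := ha1.trans (h1.trans hu0.2)
      exact_mod_cast h2
    have hfi : ∀ i, a ≤ (univ.filter (fun v : ZMod P => u i + m * (v.val : ℤ) ∈ S i)).card := by
      intro i
      rw [zfib_card]
      have h1 : (c - 2 * ε) * P ≤ (((S i).card : ℝ) / L - 2 * ε) * P := by
        apply mul_le_mul_of_nonneg_right _ hPr.le
        have : c ≤ ((S i).card : ℝ) / L := by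
          rw [le_div_iff₀ hL0]
          exact hci i
        linarith
      have h2 : (a : ℝ) ≤ ((fib (S i) P m (u i)).card : ℝ) := ha1.trans (h1.trans (hu' i).2)
      exact_mod_cast h2
    have hz := hlz P hP1 a ha4 ha3 (univ.filter (fun v : ZMod P => u0 + m * (v.val : ℤ) ∈ S0))
      (fun i => univ.filter (fun v : ZMod P => u i + m * (v.val : ℤ) ∈ S i)) hf0 hfi
    obtain ⟨XX, hXX⟩ : ∃ XX : Finset (Fin k → ZMod P), XX = univ.filter (fun x : Fin k → ZMod P =>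
      θ * P ≤ ((lzT (univ.filter (fun v : ZMod P => u0 + m * (v.val : ℤ) ∈ S0))
      (fun i => univ.filter (fun v : ZMod P => u i + m * (v.val : ℤ) ∈ S i)) x).card : ℝ)) := ⟨_, rfl⟩
    rw [← hXX] at hz
    obtain ⟨Y, hY1, hY2⟩ := zcnt_card P R (m : ℤ) (fun i => u i - u0)
    have hYc : ρ * (P : ℝ) ^ k ≤ (Y.card : ℝ) := by
      rw [hY1]
      by_contra hlt
      push Not at hlt
      apply hpB
      rw [hBd, mem_filter, mem_product, Fintype.mem_piFinset]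
      exact ⟨⟨hu0.1, fun i => (hu' i).1⟩, hlt⟩
    have hfb := fibre P m S0 S R u0 u XX Y (θ * P) (by
      intro x hx
      rw [hXX, mem_filter] at hx
      exact hx.2) hY2
    refine le_trans ?_ hfb
    apply mul_le_mul_of_nonneg_right _ (by positivity)
    have hint : XX.card + Y.card ≤ (XX ∩ Y).card + P ^ k := by
      have h1 := card_union_add_card_inter XX Y
      have h2 : (XX ∪ Y).card ≤ P ^ k := by
        have := card_le_univ (XX ∪ Y)
        rwa [Fintype.card_fun, ZMod.card, Fintype.card_fin] at this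
      omega
    have hint' : (XX.card : ℝ) + Y.card ≤ (XX ∩ Y).card + (P : ℝ) ^ k := by exact_mod_cast hint
    have hPk : (0 : ℝ) < (P : ℝ) ^ k := by positivity
    have h3 : ((c - 3 * ε) * P) ^ k ≤ (a : ℝ) ^ k :=
      pow_le_pow_left₀ (mul_nonneg (by linarith) hPr.le) ha2 k
    rw [mul_pow] at h3
    have h4 := pow_diff_le k c (c - 3 * ε) (by linarith) (by linarith) (by linarith)
    have h5 : ((k : ℝ) + 1) * (k * (3 * ε)) ≤ e / 4 := by
      rw [le_div_iff₀ (by positivity)] at hεe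
      nlinarith
    have h6 : ((k : ℝ) + 1) * c ^ k - e / 4 ≤ ((k : ℝ) + 1) * (c - 3 * ε) ^ k := by
      have h7 : ((k : ℝ) + 1) * (c ^ k - (c - 3 * ε) ^ k) ≤ ((k : ℝ) + 1) * (k * (c - (c - 3 * ε))) :=
        mul_le_mul_of_nonneg_left h4 (by positivity)
      have e8 : c - (c - 3 * ε) = 3 * ε := by ring
      rw [e8] at h7
      linarith
    have h7 : (((k : ℝ) + 1) * c ^ k - e / 4) * (P : ℝ) ^ k ≤ ((k : ℝ) + 1) * (a : ℝ) ^ k := by
      calc (((k : ℝ) + 1) * c ^ k - e / 4) * (P : ℝ) ^ k ≤ (((k : ℝ) + 1) * (c - 3 * ε) ^ k) * (P : ℝ) ^ k :=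
            mul_le_mul_of_nonneg_right h6 hPk.le
        _ = ((k : ℝ) + 1) * ((c - 3 * ε) ^ k * (P : ℝ) ^ k) := by ring
        _ ≤ ((k : ℝ) + 1) * (a : ℝ) ^ k := mul_le_mul_of_nonneg_left h3 (by positivity)
    rw [hρ] at hYc
    linarith
  -- the end
  have hsum := uns_sum P m S0 S R Z
  have h1 : (Z.card : ℝ) * (e / 2 * (P : ℝ) ^ k * (θ * P)) ≤ ∑ p ∈ Z, ((wz P m S0 S R p).card : ℝ) := by
    have h2 := card_nsmul_le_sum Z (fun p => ((wz P m S0 S R p).card : ℝ)) _ hlow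
    rw [nsmul_eq_mul] at h2
    exact h2
  have h2 : (P : ℝ) ^ (k + 1) * ∑ D : Finset (Fin k), ((unst S0 S R (m * P) D).card : ℝ) ≤
      (P : ℝ) ^ (k + 1) * (4 ^ k * k * η * (L : ℝ) ^ (k + 1)) :=
    mul_le_mul_of_nonneg_left hunt (by positivity)
  have h3 : ε ^ (k + 1) * (L : ℝ) ^ (k + 1) / 2 * (e / 2 * (P : ℝ) ^ k * (θ * P)) ≤
      (Z.card : ℝ) * (e / 2 * (P : ℝ) ^ k * (θ * P)) := mul_le_mul_of_nonneg_right hZc (by positivity)
  have h4 := h3.trans (h1.trans (hsum.trans h2))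
  have h5 : 4 ^ k * (k : ℝ) * η ≤ ε ^ (k + 1) * e * θ / 8 := by
    rw [le_div_iff₀ (by positivity)] at hη2
    rw [le_div_iff₀ (by norm_num)]
    linarith
  obtain ⟨Wt, hWt⟩ : ∃ Wt : ℝ, Wt = (P : ℝ) ^ (k + 1) * (L : ℝ) ^ (k + 1) := ⟨_, rfl⟩
  have hWt0 : 0 < Wt := by rw [hWt]; positivity
  have h6 : ε ^ (k + 1) * (L : ℝ) ^ (k + 1) / 2 * (e / 2 * (P : ℝ) ^ k * (θ * P)) =
      ε ^ (k + 1) * e * θ / 4 * Wt := by
    rw [hWt, pow_succ (P : ℝ) k]
    ring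
  have h7 : (P : ℝ) ^ (k + 1) * (4 ^ k * k * η * (L : ℝ) ^ (k + 1)) = (4 ^ k * k * η) * Wt := by
    rw [hWt]
    ring
  rw [h6, h7] at h4
  have h8 := le_of_mul_le_mul_right h4 hWt0
  have h9 : 0 < ε ^ (k + 1) * e * θ := by positivity
  linarith

theorem lemK (k : ℕ) (hk : 1 ≤ k) (c e : ℝ) (hc0 : 0 < c) (hc : c ≤ 1 / 2) (he : 0 < e) :
    ∃ (K P0 : ℕ) (kap : ℝ), 1 ≤ K ∧ 0 < kap ∧ ∀ P : ℕ, P.Prime → P0 ≤ P → ∃ L0 : ℕ, ∀ L : ℕ, L0 ≤ L →
      ∀ (R : Set (Fin k → ℤ)) (s : ℤ) (x : Fin k → ℤ),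
      POKk R (1 - ((k : ℝ) + 1) * c ^ k + e) kap K P L s x →
      ∀ S : Fin (k + 1) → Finset ℤ, (∀ i, S i ⊆ Ico 0 (L : ℤ)) → (∀ i, c * L ≤ ((S i).card : ℝ)) →
        ∃ y : Fin (k + 1) → ℤ, (∀ i, y i ∈ S i) ∧ (fun i : Fin k => x i + s * (y i.succ - y 0)) ∈ R := by
  classical
  obtain ⟨K, P0, kap, hK, hkap, h⟩ := lemK_core k hk c e hc0 hc he
  refine ⟨K, P0, kap, hK, hkap, ?_⟩
  intro P hP hPP
  obtain ⟨L0, hL0⟩ := h P hP hPP
  refine ⟨L0, ?_⟩
  intro L hL R s x hpok S hS hSc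
  have h1 := hL0 L hL {w | (fun i => x i + s * w i) ∈ R} (by
    intro m hm1 hm2
    have h2 := hpok m hm1 hm2
    have e1 : ∀ w : Fin k → ℤ, cntk {w : Fin k → ℤ | (fun i => x i + s * w i) ∈ R} P m w =
        cntk R P (s * m) (fun i => x i + s * w i) := by
      intro w
      unfold cntk
      congr 1
      apply filter_congr
      intro n _
      have e2 : (fun i => x i + s * w i + s * m * (n i : ℤ)) = (fun i => x i + s * (w i + m * (n i : ℤ))) := by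
        funext i
        ring
      rw [e2]
      rfl
    simp_rw [e1]
    exact h2) (S 0) (fun i => S i.succ) (hS 0) (fun i => hS i.succ) (hSc 0) (fun i => hSc i.succ)
  obtain ⟨y0, hy0, y, hy, hyR⟩ := h1
  refine ⟨Fin.cons y0 y, ?_, ?_⟩
  · intro i
    refine Fin.cases ?_ ?_ i
    · simpa using hy0
    · intro j
      simpa using hy j
  · simpa using hyR

end Pool.Agent.H38.KT
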