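import Pool.Agent.H38.KT.Level
import Pool.Agent.H38.KT.LemK

/-!
[H38 KT STEP]  One step of the density increment.

Proof.  `K, P0, κ` from `lemK k c e`; `η = es = e^(k+1)/3` (for `e ≤ 1`; replace `e` in these definitions by `min e 1`); `P1` from `level` (`κ`, `η`, `γ = e`); `P` a prime `≥ max P0 P1`,
`L = max 1 L0`, `N` from `level`.  Given `R`, `Q`, `H'`, `e'`, `lam`: `x`, `s` from `level` (`r0 = 1 - (k+1) c^k + 2e`, so `r0 - γ` is the density of `lemK`).
`H` = the image of `Fin (k+1) × Ico 0 L × H'` under `(i, y, h) ↦ x i + s y + h`: `|H| = (k+1) L |H'|` by injectivity; all elements are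
multiples of `Q`.
`Thin`: let `S ⊆ H`, `badt R S ≤ e' |H|^(k+1)`.  For `(i, y)` let `S_{i,y} = {h ∈ H' | x i + s y + h ∈ S}`.  The translation `v ↦ x i + s y + v` maps the injective bad
tuples of `S_{i,y}` injectively to those of `S` (same `dvec`): `badt R S_{i,y} ≤ e' |H|^(k+1) = e' ((k+1) L)^(k+1) |H'|^(k+1)`, so `|S_{i,y}| ≤ lam |H'|` by `Thin` for
`H'`.  Let `A_i = ∑_y |S_{i,y}| ≤ lam L |H'|`; `|S| = ∑_i A_i`.
CLAIM: some `i` has `A_i ≤ (c + e) L |H'|`.  Then `|S| ≤ (k lam + (c + e)) L |H'| = ((k lam + (c+e))/(k+1)) |H|`.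
Suppose `A_i > (c + e) L |H'|` for all `i`.  `G_i = {h ∈ H' | #{y | x i + s y + h ∈ S} ≥ c L}`: `A_i ≤ |G_i| L + c L |H'|`, so `|G_i| ≥ e |H'|`, and
`∏ |G_i| ≥ e^(k+1) |H'|^(k+1)`.  The number of the `g ∈ H'^(k+1)` with `¬ POKk` is at most `η |H'|^(k+1)`; the number of the `g` for which
there is `y ∈ [0,L)^(k+1)` with all `x i + s y_i + g_i ∈ S` and difference vector in `R` is at most
`badt R S ≤ e' ((k+1)L)^(k+1) |H'|^(k+1) ≤ es |H'|^(k+1)` (choose such a `y`; `g ↦ (x i + s y_i + g_i)_i` is injective, and the tuples are injective, by the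
injectivity of `level`).  As `η + es < e^(k+1)` there is a `g` in `∏ G_i` of neither kind.  `lemK` for the position
`i ↦ x (i+1) - x 0 + (g (i+1) - g 0)` and `S_i = {y ∈ [0,L) | x i + s y + g i ∈ S}` gives a `y` of the second kind: contradiction.
-/

namespace Pool.Agent.H38.KT

open Finset Pool.Agent.H11.HM

/-- subsets with few bad tuples have at most `lam |H|` elements -/
def Thin {k : ℕ} (R : Set (Fin k → ℤ)) (e lam : ℝ) (H : Finset ℤ) : Prop :=
  ∀ S : Finset ℤ, S ⊆ H → (badt R S : ℝ) ≤ e * (H.card : ℝ) ^ (k + 1) → (S.card : ℝ) ≤ lam * H.card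

/-- translation of the bad tuples -/
theorem badt_shift {k : ℕ} (R : Set (Fin k → ℤ)) (S T : Finset ℤ) (c : ℤ) (h : ∀ z ∈ T, c + z ∈ S) :
    badt R T ≤ badt R S := by
  classical
  unfold badt
  apply card_le_card_of_injOn (fun v i => c + v i)
  · intro v hv
    rw [mem_coe, mem_filter, Fintype.mem_piFinset] at hv
    rw [mem_coe, mem_filter, Fintype.mem_piFinset]
    refine ⟨fun i => h _ (hv.1 i), ?_, ?_⟩
    · intro a b hab
      have hab' : c + v a = c + v b := hab
      exact hv.2.1 (add_left_cancel hab')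
    · have : dvec (fun i => c + v i) = dvec v := by
        funext i
        unfold dvec
        ring
      rw [this]
      exact hv.2.2
  · intro v _ w _ hvw
    funext i
    have := congrFun hvw i
    exact add_left_cancel this

theorem step (k : ℕ) (hk : 1 ≤ k) (c e : ℝ) (hc0 : 0 < c) (hc : c ≤ 1 / 2) (he : 0 < e) :
    ∃ (L N : ℕ) (es : ℝ), 1 ≤ L ∧ 1 ≤ N ∧ 0 < es ∧ ∀ (R : Set (Fin k → ℤ)) (Q : ℕ), 0 < Q →
      Longk R (1 - (k + 1) * c ^ k + 2 * e) Q → ∀ H' : Finset ℤ, H'.Nonempty →
      (∀ h ∈ H', ((Q * N : ℕ) : ℤ) ∣ h) → ∀ e' lam : ℝ, 0 ≤ e' →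
      e' * (((k : ℝ) + 1) * L) ^ (k + 1) ≤ es →
      Thin R (e' * (((k : ℝ) + 1) * L) ^ (k + 1)) lam H' →
      ∃ H : Finset ℤ, (∀ h ∈ H, (Q : ℤ) ∣ h) ∧ H.card = (k + 1) * L * H'.card ∧
        Thin R e' ((k * lam + (c + e)) / (k + 1)) H := by
  classical
  obtain ⟨K, P0, kap, hK, hkap, hlem⟩ := lemK k hk c e hc0 hc he
  obtain ⟨e1, he1⟩ : ∃ e1 : ℝ, e1 = min e 1 := ⟨_, rfl⟩
  have he10 : 0 < e1 := by rw [he1]; exact lt_min he one_pos
  have he1e : e1 ≤ e := by rw [he1]; exact min_le_left _ _
  obtain ⟨es, hes⟩ : ∃ es : ℝ, es = e1 ^ (k + 1) / 3 := ⟨_, rfl⟩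
  have hes0 : 0 < es := by rw [hes]; positivity
  obtain ⟨P1, hP1, hlev⟩ := level k K hk hK kap es e hkap hes0 he
  obtain ⟨P, hPge, hPp⟩ := Nat.exists_infinite_primes (max P0 P1)
  obtain ⟨L0, hL0⟩ := hlem P hPp ((le_max_left _ _).trans hPge)
  obtain ⟨L, hL⟩ : ∃ L : ℕ, L = max 1 L0 := ⟨_, rfl⟩
  have hL1 : 1 ≤ L := by rw [hL]; exact le_max_left _ _
  have hLL0 : L0 ≤ L := by rw [hL]; exact le_max_right _ _
  obtain ⟨N, hN, hlev'⟩ := hlev P L ((le_max_right _ _).trans hPge) hL1
  refine ⟨L, N, es, hL1, hN, hes0, ?_⟩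
  intro R Q hQ hlong H' hH' hdiv e' lam he' hes' hthin
  obtain ⟨x, s, hx, hs, hinj, hpok⟩ := hlev' _ R Q hQ hlong H' hH' hdiv
  have hr : 1 - ((k : ℝ) + 1) * c ^ k + 2 * e - e = 1 - ((k : ℝ) + 1) * c ^ k + e := by ring
  rw [hr] at hpok
  obtain ⟨h', hh'⟩ : ∃ h' : ℝ, h' = (H'.card : ℝ) := ⟨_, rfl⟩
  have hh'0 : 0 < h' := by rw [hh']; exact_mod_cast card_pos.2 hH'
  have hLr : (1 : ℝ) ≤ L := by exact_mod_cast hL1
  obtain ⟨I, hI⟩ : ∃ I : Finset ℤ, I = Ico 0 (L : ℤ) := ⟨_, rfl⟩
  have hIc : I.card = L := by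
    rw [hI, Int.card_Ico]
    omega
  obtain ⟨J, hJ⟩ : ∃ J : Finset (Fin (k + 1) × ℤ × ℤ), J = univ ×ˢ I ×ˢ H' := ⟨_, rfl⟩
  obtain ⟨f, hf⟩ : ∃ f : Fin (k + 1) × ℤ × ℤ → ℤ, ∀ p, f p = x p.1 + s * p.2.1 + p.2.2 := ⟨_, fun _ => rfl⟩
  have hfinj : Set.InjOn f (J : Set (Fin (k + 1) × ℤ × ℤ)) := by
    rintro ⟨i, y, h⟩ hp ⟨i', y', g⟩ hp' hpp
    rw [mem_coe, hJ, mem_product, mem_product] at hp hp'
    rw [hf, hf] at hpp
    rw [hI] at hp hp'
    have := hinj i i' y y' h g hp.2.1 hp'.2.1 hp.2.2 hp'.2.2 hpp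
    obtain ⟨h1, h2, h3⟩ := this
    subst h1
    subst h2
    subst h3
    rfl
  obtain ⟨H, hH⟩ : ∃ H : Finset ℤ, H = J.image f := ⟨_, rfl⟩
  have hHc : H.card = (k + 1) * L * H'.card := by
    rw [hH, card_image_of_injOn hfinj, hJ, card_product, card_product, card_univ, Fintype.card_fin, hIc]
    ring
  refine ⟨H, ?_, hHc, ?_⟩
  · intro z hz
    rw [hH, mem_image] at hz
    obtain ⟨⟨i, y, h⟩, hp, rfl⟩ := hz
    rw [hJ, mem_product, mem_product] at hp
    rw [hf]
    refine dvd_add (dvd_add (hx i) (hs.mul_right _)) ?_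
    have h1 : (Q : ℤ) ∣ ((Q * N : ℕ) : ℤ) := by
      push_cast
      exact dvd_mul_right _ _
    exact h1.trans (hdiv _ hp.2.2)
  · intro S hSH hbad
    have hbad' : (badt R S : ℝ) ≤ e' * (((k : ℝ) + 1) * L) ^ (k + 1) * h' ^ (k + 1) := by
      refine hbad.trans (le_of_eq ?_)
      rw [hHc]
      push_cast
      rw [hh', mul_pow]
      ring
    obtain ⟨Sy, hSy⟩ : ∃ Sy : Fin (k + 1) → ℤ → Finset ℤ, ∀ i y, Sy i y =
        H'.filter (fun h => x i + s * y + h ∈ S) := ⟨_, fun _ _ => rfl⟩
    have hSyc : ∀ i y, ((Sy i y).card : ℝ) ≤ lam * h' := by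
      intro i y
      rw [hh']
      apply hthin (Sy i y)
      · rw [hSy]
        exact filter_subset _ _
      · have h1 : badt R (Sy i y) ≤ badt R S := by
          apply badt_shift R S (Sy i y) (x i + s * y)
          intro z hz
          rw [hSy, mem_filter] at hz
          exact hz.2
        have h2 : (badt R (Sy i y) : ℝ) ≤ badt R S := by exact_mod_cast h1
        rw [← hh']
        exact h2.trans hbad'
    obtain ⟨A, hA⟩ : ∃ A : Fin (k + 1) → ℝ, ∀ i, A i = ∑ y ∈ I, ((Sy i y).card : ℝ) := ⟨_, fun _ => rfl⟩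
    have hAle : ∀ i, A i ≤ lam * (L * h') := by
      intro i
      rw [hA]
      refine (sum_le_sum fun y _ => hSyc i y).trans (le_of_eq ?_)
      rw [sum_const, hIc, nsmul_eq_mul]
      ring
    have hScard : (S.card : ℝ) = ∑ i, A i := by
      have h1 : S.card = (J.filter (fun p => f p ∈ S)).card := by
        symm
        apply card_bij (fun p _ => f p)
        · intro p hp
          exact (mem_filter.1 hp).2
        · intro p hp q hq hpq
          exact hfinj (mem_coe.2 (mem_filter.1 hp).1) (mem_coe.2 (mem_filter.1 hq).1) hpq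
        · intro z hz
          have h2 := hSH hz
          rw [hH, mem_image] at h2
          obtain ⟨p, hp, rfl⟩ := h2
          exact ⟨p, mem_filter.2 ⟨hp, hz⟩, rfl⟩
      rw [h1, card_filter, hJ, sum_product]
      push_cast
      apply sum_congr rfl
      intro i _
      rw [hA, sum_product]
      apply sum_congr rfl
      intro y _
      rw [hSy, card_filter]
      push_cast
      apply sum_congr rfl
      intro h _
      rw [hf]
    -- the claim
    have hclaim : ∃ i, A i ≤ (c + e) * (L * h') := by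
      by_contra hcon
      push Not at hcon
      obtain ⟨G, hG⟩ : ∃ G : Fin (k + 1) → Finset ℤ, ∀ i, G i = H'.filter
          (fun h => c * L ≤ ((I.filter (fun y => x i + s * y + h ∈ S)).card : ℝ)) := ⟨_, fun _ => rfl⟩
      have hGc : ∀ i, e1 * h' ≤ ((G i).card : ℝ) := by
        intro i
        have h1 : A i = ∑ h ∈ H', ((I.filter (fun y => x i + s * y + h ∈ S)).card : ℝ) := by
          rw [hA]
          have e1 : ∀ y ∈ I, ((Sy i y).card : ℝ) = ∑ h ∈ H', (if x i + s * y + h ∈ S then (1 : ℝ) else 0) := by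
            intro y _
            rw [hSy, card_filter]
            push_cast
            rfl
          rw [sum_congr rfl e1, sum_comm]
          apply sum_congr rfl
          intro h _
          rw [card_filter]
          push_cast
          rfl
        have h2 : A i ≤ ((G i).card : ℝ) * L + h' * (c * L) := by
          rw [h1]
          have h3 : ∀ h ∈ H', ((I.filter (fun y => x i + s * y + h ∈ S)).card : ℝ) ≤
              (if c * L ≤ ((I.filter (fun y => x i + s * y + h ∈ S)).card : ℝ) then (L : ℝ) else 0) + c * L := by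
            intro h _
            have h4 : 0 ≤ c * (L : ℝ) := by positivity
            split_ifs with h5
            · have h6 : (I.filter (fun y => x i + s * y + h ∈ S)).card ≤ L := by
                rw [← hIc]
                exact card_filter_le _ _
              have h7 : ((I.filter (fun y => x i + s * y + h ∈ S)).card : ℝ) ≤ L := by exact_mod_cast h6
              linarith
            · push Not at h5
              linarith
          refine (sum_le_sum h3).trans (le_of_eq ?_)
          rw [sum_add_distrib, ← sum_filter, sum_const, sum_const, nsmul_eq_mul, nsmul_eq_mul, hG, hh']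
        have h3 := hcon i
        have h4 : e * (L * h') ≤ ((G i).card : ℝ) * L := by linarith
        have h5 : L * (e * h') ≤ L * ((G i).card : ℝ) := by linarith
        have h6 := le_of_mul_le_mul_left h5 (by linarith)
        have h7 : e1 * h' ≤ e * h' := mul_le_mul_of_nonneg_right he1e hh'0.le
        linarith
      obtain ⟨GG, hGG⟩ : ∃ GG : Finset (Fin (k + 1) → ℤ), GG = Fintype.piFinset G := ⟨_, rfl⟩
      have hGGc : e1 ^ (k + 1) * h' ^ (k + 1) ≤ (GG.card : ℝ) := by
        rw [hGG, Fintype.card_piFinset]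
        push_cast
        have h2 : ∏ _i : Fin (k + 1), (e1 * h') ≤ ∏ i, ((G i).card : ℝ) :=
          prod_le_prod (fun i _ => by positivity) (fun i _ => hGc i)
        rw [prod_const, card_univ, Fintype.card_fin, mul_pow] at h2
        exact h2
      obtain ⟨B1, hB1⟩ : ∃ B1 : Finset (Fin (k + 1) → ℤ), B1 = (Fintype.piFinset fun _ : Fin (k + 1) => H').filter
        (fun g => ¬ POKk R (1 - ((k : ℝ) + 1) * c ^ k + e) kap K P L s
            (fun i => x i.succ - x 0 + (g i.succ - g 0))) := ⟨_, rfl⟩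
      rw [← hB1, ← hh'] at hpok
      obtain ⟨B2, hB2⟩ : ∃ B2 : Finset (Fin (k + 1) → ℤ), B2 = (Fintype.piFinset fun _ : Fin (k + 1) => H').filter
        (fun g => ∃ y : Fin (k + 1) → ℤ, (∀ i, y i ∈ I ∧ x i + s * y i + g i ∈ S) ∧
          dvec (fun i => x i + s * y i + g i) ∈ R) := ⟨_, rfl⟩
      have hB2c : (B2.card : ℝ) ≤ es * h' ^ (k + 1) := by
        have h1 : B2.card ≤ badt R S := by
          have hch : ∀ g : Fin (k + 1) → ℤ, ∃ y : Fin (k + 1) → ℤ, g ∈ B2 →
              (∀ i, y i ∈ I ∧ x i + s * y i + g i ∈ S) ∧ dvec (fun i => x i + s * y i + g i) ∈ R := by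
            intro g
            by_cases hg : g ∈ B2
            · have hg' := hg
              rw [hB2, mem_filter] at hg'
              obtain ⟨y, hy⟩ := hg'.2
              exact ⟨y, fun _ => hy⟩
            · exact ⟨fun _ => 0, fun h => absurd h hg⟩
          choose yy hyy using hch
          have hgH : ∀ g ∈ B2, ∀ i, g i ∈ H' := by
            intro g hg
            rw [hB2, mem_filter, Fintype.mem_piFinset] at hg
            exact hg.1
          unfold badt
          apply card_le_card_of_injOn (fun g i => x i + s * yy g i + g i)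
          · intro g hg
            rw [mem_coe] at hg
            rw [mem_coe, mem_filter, Fintype.mem_piFinset]
            refine ⟨fun i => ((hyy g hg).1 i).2, ?_, (hyy g hg).2⟩
            intro i j hij
            have h2 := ((hyy g hg).1 i).1
            have h3 := ((hyy g hg).1 j).1
            rw [hI] at h2 h3
            exact (hinj i j _ _ _ _ h2 h3 (hgH g hg i) (hgH g hg j) hij).1
          · intro g hg g' hg' hgg
            rw [mem_coe] at hg hg'
            funext i
            have h2 := ((hyy g hg).1 i).1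
            have h3 := ((hyy g' hg').1 i).1
            rw [hI] at h2 h3
            exact (hinj i i _ _ _ _ h2 h3 (hgH g hg i) (hgH g' hg' i) (congrFun hgg i)).2.2
        have h2 : (B2.card : ℝ) ≤ badt R S := by exact_mod_cast h1
        refine h2.trans (hbad'.trans ?_)
        exact mul_le_mul_of_nonneg_right hes' (by positivity)
      obtain ⟨g, hgG, hg1, hg2⟩ : ∃ g ∈ GG, g ∉ B1 ∧ g ∉ B2 := by
        by_contra hno
        push Not at hno
        have h1 : GG ⊆ B1 ∪ B2 := by
          intro g hg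
          rw [mem_union]
          by_cases h2 : g ∈ B1
          · exact Or.inl h2
          · exact Or.inr (hno g hg h2)
        have h2 := (card_le_card h1).trans (card_union_le _ _)
        have h3 : (GG.card : ℝ) ≤ (B1.card : ℝ) + B2.card := by exact_mod_cast h2
        have h4 : 0 < h' ^ (k + 1) := by positivity
        have h5 : e1 ^ (k + 1) * h' ^ (k + 1) ≤ (es + es) * h' ^ (k + 1) := by linarith
        have h6 := le_of_mul_le_mul_right h5 h4
        have h7 : 0 < e1 ^ (k + 1) := by positivity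
        rw [hes] at h6
        linarith
      rw [hGG, Fintype.mem_piFinset] at hgG
      have hgG' : ∀ i, g i ∈ H' ∧ c * L ≤ ((I.filter (fun y => x i + s * y + g i ∈ S)).card : ℝ) := by
        intro i
        have := hgG i
        rw [hG, mem_filter] at this
        exact this
      have hgH : g ∈ Fintype.piFinset fun _ : Fin (k + 1) => H' := by
        rw [Fintype.mem_piFinset]
        exact fun i => (hgG' i).1
      have hgpok : POKk R (1 - ((k : ℝ) + 1) * c ^ k + e) kap K P L s
            (fun i => x i.succ - x 0 + (g i.succ - g 0)) := by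
        by_contra h1
        apply hg1
        rw [hB1, mem_filter]
        exact ⟨hgH, h1⟩
      obtain ⟨y, hy, hyR⟩ := hL0 L hLL0 R s _ hgpok (fun i => I.filter (fun y => x i + s * y + g i ∈ S))
        (fun i => by rw [hI]; exact filter_subset _ _) (fun i => (hgG' i).2)
      apply hg2
      rw [hB2, mem_filter]
      refine ⟨hgH, y, ?_, ?_⟩
      · intro i
        have := hy i
        rw [mem_filter] at this
        exact this
      · have e1 : dvec (fun i => x i + s * y i + g i) =
            (fun i : Fin k => x i.succ - x 0 + (g i.succ - g 0) + s * (y i.succ - y 0)) := by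
          funext i
          unfold dvec
          ring
        rw [e1]
        exact hyR
    obtain ⟨i0, hi0⟩ := hclaim
    have hsum : ∑ i, A i ≤ (k * lam + (c + e)) * (L * h') := by
      rw [← add_sum_erase univ A (mem_univ i0)]
      have h1 : ∑ i ∈ univ.erase i0, A i ≤ ∑ _i ∈ univ.erase i0, lam * (L * h') :=
        sum_le_sum fun i _ => hAle i
      rw [sum_const, card_erase_of_mem (mem_univ i0), card_univ, Fintype.card_fin, Nat.add_sub_cancel,
        nsmul_eq_mul] at h1
      linarith
    rw [hScard]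
    refine hsum.trans (le_of_eq ?_)
    rw [hHc, hh']
    push_cast
    field_simp

end Pool.Agent.H38.KT
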