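import Pool.Agent.H38.KT.ClaimA
import Pool.Agent.H38.KT.StepA

/-!
MP_8923e7_nt, project KT.  The density theorem for an abstract translation invariant family of bad tuples.
-/

namespace Pool.Agent.H38.KT

open Finset Pool.Agent.H11.HM

theorem stepAt (k : ℕ) (hk : 1 ≤ k) (c e : ℝ) (hc0 : 0 < c) (hc : c ≤ 1 / 2) (he : 0 < e) :
    StepAt k c e :=
  step k hk c e hc0 hc he

open Classical in
/-- the density theorem: if every large admissible set contains a set of density almost `c` with almost no bad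
`(k+1)`-tuples, then for all multiples `Q` of some `q` the points `n` of every large cube of `ℤ^k` for which
`Q n` is not bad have density at least `(k+1) c^k - ε` -/
theorem density (k : ℕ) (hk : 1 ≤ k) (c : ℝ) (hc0 : 0 < c) (hc : c ≤ 1 / 2) (R : Set (Fin k → ℤ))
    (hNC : NCk c R) (ε : ℝ) (hε : 0 < ε) :
    ∃ q : ℕ, 0 < q ∧ ∀ Q : ℕ, 0 < Q → q ∣ Q → ∃ X0 : ℕ, ∀ X : ℕ, X0 ≤ X → ∀ M : Fin k → ℤ,
      ((k + 1) * c ^ k - ε) * (X : ℝ) ^ k ≤
        (((cube X M).filter (fun n : Fin k → ℤ => (fun i => (Q : ℤ) * n i) ∉ R)).card : ℝ) :=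
  density_of_steps k (fun c e h1 h2 h3 => stepAt k hk c e h1 h2 h3) c hc0 hc R hNC ε hε

end Pool.Agent.H38.KT
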