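import Pool.Agent.H38.KT.Df

/-!
MP_8923e7_nt, project KT.  The induction on the number of levels and the density theorem, from the step.

`step` is passed as a hypothesis (`StepAt`); `Claim.lean` combines it with `Step.lean`.
-/

namespace Pool.Agent.H38.KT

open Finset Pool.Agent.H11.HM

/-- the conclusion of the step for the parameters `c`, `e`: a level over a thin set gives a thinner set -/
def StepAt (k : ℕ) (c e : ℝ) : Prop :=
  ∃ (L N : ℕ) (es : ℝ), 1 ≤ L ∧ 1 ≤ N ∧ 0 < es ∧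
    ∀ (R : Set (Fin k → ℤ)) (Q : ℕ), 0 < Q → Longk R (1 - (k + 1) * c ^ k + 2 * e) Q →
    ∀ H' : Finset ℤ, H'.Nonempty → (∀ h ∈ H', ((Q * N : ℕ) : ℤ) ∣ h) →
    ∀ e' lam : ℝ, 0 ≤ e' → e' * (((k : ℝ) + 1) * L) ^ (k + 1) ≤ es →
    (∀ S : Finset ℤ, S ⊆ H' →
      (badt R S : ℝ) ≤ (e' * (((k : ℝ) + 1) * L) ^ (k + 1)) * (H'.card : ℝ) ^ (k + 1) →
      (S.card : ℝ) ≤ lam * H'.card) →
    ∃ H : Finset ℤ, (∀ h ∈ H, (Q : ℤ) ∣ h) ∧ H.card = (k + 1) * L * H'.card ∧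
      (∀ S : Finset ℤ, S ⊆ H → (badt R S : ℝ) ≤ e' * (H.card : ℝ) ^ (k + 1) →
        (S.card : ℝ) ≤ ((k * lam + (c + e)) / (k + 1)) * H.card)

theorem pow_sub_le {k : ℕ} (c d : ℝ) (hd : 0 ≤ d) (hdc : d ≤ c) (hc : c ≤ 1) :
    c ^ k - (c - d) ^ k ≤ k * d := by
  induction k with
  | zero => simp
  | succ k ih =>
    have h1 : (0 : ℝ) ≤ (c - d) := by linarith
    have h2 : (c - d) ^ k ≤ 1 := pow_le_one₀ h1 (by linarith)
    have h3 : (0 : ℝ) ≤ (c - d) ^ k := pow_nonneg h1 k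
    have h4 : (c - d) ^ k ≤ c ^ k := pow_le_pow_left₀ h1 (by linarith) k
    have h5 : c ^ (k + 1) - (c - d) ^ (k + 1) = c * (c ^ k - (c - d) ^ k) + d * (c - d) ^ k := by ring
    rw [h5]
    push_cast
    nlinarith [mul_le_mul_of_nonneg_right hc (sub_nonneg.2 h4)]

theorem claimA_card_cube {k : ℕ} (X : ℕ) (M : Fin k → ℤ) : (cube X M).card = X ^ k := by
  rw [cube, Fintype.card_piFinset]
  simp

open Classical in
/-- the negation of the density bound for `Q` gives `Longk` -/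
theorem longk_of_not {k : ℕ} (R : Set (Fin k → ℤ)) (δ : ℝ) (Q : ℕ)
    (h : ¬ ∃ X0 : ℕ, ∀ X : ℕ, X0 ≤ X → ∀ M : Fin k → ℤ, δ * (X : ℝ) ^ k ≤
      (((cube X M).filter (fun n : Fin k → ℤ => (fun i => (Q : ℤ) * n i) ∉ R)).card : ℝ)) :
    Longk R (1 - δ) Q := by
  intro X0
  push Not at h
  obtain ⟨X, hX, M, hM⟩ := h X0
  refine ⟨X, M, hX, ?_⟩
  have h1 := Finset.card_filter_add_card_filter_not (s := cube X M)
    (p := fun n : Fin k → ℤ => (fun i => (Q : ℤ) * n i) ∈ R)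
  rw [claimA_card_cube] at h1
  have h2 : (((cube X M).filter (fun n : Fin k → ℤ => (fun i => (Q : ℤ) * n i) ∈ R)).card : ℝ) +
      (((cube X M).filter (fun n => ¬ (fun i => (Q : ℤ) * n i) ∈ R)).card : ℝ) = (X : ℝ) ^ k := by
    exact_mod_cast h1
  have h3 : (((cube X M).filter (fun n => ¬ (fun i => (Q : ℤ) * n i) ∈ R)).card : ℝ) < δ * (X : ℝ) ^ k := by
    convert hM
  have h4 : (1 - δ) * (X : ℝ) ^ k ≤
      (((cube X M).filter (fun n : Fin k → ℤ => (fun i => (Q : ℤ) * n i) ∈ R)).card : ℝ) := by linarith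
  convert h4

theorem Longk.mono {k : ℕ} {R : Set (Fin k → ℤ)} {r r' : ℝ} {Q : ℕ} (h : Longk R r Q) (hr : r' ≤ r) :
    Longk R r' Q := by
  intro X0
  obtain ⟨X, M, hX, h1⟩ := h X0
  refine ⟨X, M, hX, le_trans ?_ h1⟩
  have : (0 : ℝ) ≤ (X : ℝ) ^ k := by positivity
  nlinarith

/-- a set of multiples of `(card H)!` is admissible -/
theorem adm_of_fact (H : Finset ℤ) (m : ℕ) (hm : H.card ≤ m) (hH : ∀ h ∈ H, ((m.factorial : ℕ) : ℤ) ∣ h) :
    ∀ p : ℕ, p.Prime → ∃ a : ℤ, ∀ h ∈ H, ¬ (p : ℤ) ∣ a + h := by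
  classical
  intro p hp
  by_cases hpm : p ≤ m
  · refine ⟨1, fun h hh hd => ?_⟩
    have h1 : (p : ℤ) ∣ h := by
      refine dvd_trans ?_ (hH h hh)
      exact_mod_cast (Nat.dvd_factorial hp.pos hpm)
    have h2 : (p : ℤ) ∣ 1 := (dvd_add_left h1).1 hd
    have h3 : p ∣ 1 := by exact_mod_cast h2
    exact hp.one_lt.ne' (Nat.dvd_one.1 h3)
  · push Not at hpm
    have : Fact p.Prime := ⟨hp⟩
    -- the classes of `-h` do not cover `ZMod p`
    have h1 : (H.image (fun h : ℤ => (-(h : ZMod p)))).card < Fintype.card (ZMod p) := by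
      rw [ZMod.card]
      exact (card_image_le.trans hm).trans_lt hpm
    obtain ⟨x, hx⟩ : ∃ x : ZMod p, x ∉ H.image (fun h : ℤ => (-(h : ZMod p))) := by
      by_contra hcon
      push Not at hcon
      have : (H.image (fun h : ℤ => (-(h : ZMod p)))) = univ := by
        ext y
        simp only [mem_univ, iff_true]
        exact hcon y
      rw [this, card_univ] at h1
      exact lt_irrefl _ h1
    refine ⟨(x.val : ℤ), fun h hh hd => hx ?_⟩
    rw [mem_image]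
    refine ⟨h, hh, ?_⟩
    have h2 : (((x.val : ℤ) + h : ℤ) : ZMod p) = 0 := (ZMod.intCast_zmod_eq_zero_iff_dvd _ p).2 hd
    push_cast at h2
    rw [ZMod.natCast_zmod_val] at h2
    exact (eq_neg_of_add_eq_zero_left h2).symm

/-- CLAIM(J): by induction on the number `J` of levels -/
theorem claimJ {k : ℕ} (c e Λ : ℝ) (hΛ : Λ = c + e) (R : Set (Fin k → ℤ)) (L N : ℕ) (es : ℝ) (hL : 1 ≤ L)
    (hN : 1 ≤ N) (hes : 0 < es)
    (hbad : ∀ q : ℕ, 0 < q → ∃ Q : ℕ, 0 < Q ∧ q ∣ Q ∧ Longk R (1 - (k + 1) * c ^ k + 2 * e) Q)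
    (hst : ∀ (R : Set (Fin k → ℤ)) (Q : ℕ), 0 < Q → Longk R (1 - (k + 1) * c ^ k + 2 * e) Q →
      ∀ H' : Finset ℤ, H'.Nonempty → (∀ h ∈ H', ((Q * N : ℕ) : ℤ) ∣ h) →
      ∀ e' lam : ℝ, 0 ≤ e' → e' * (((k : ℝ) + 1) * L) ^ (k + 1) ≤ es →
      (∀ S : Finset ℤ, S ⊆ H' →
        (badt R S : ℝ) ≤ (e' * (((k : ℝ) + 1) * L) ^ (k + 1)) * (H'.card : ℝ) ^ (k + 1) →
        (S.card : ℝ) ≤ lam * H'.card) →
      ∃ H : Finset ℤ, (∀ h ∈ H, (Q : ℤ) ∣ h) ∧ H.card = (k + 1) * L * H'.card ∧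
        (∀ S : Finset ℤ, S ⊆ H → (badt R S : ℝ) ≤ e' * (H.card : ℝ) ^ (k + 1) →
          (S.card : ℝ) ≤ ((k * lam + (c + e)) / (k + 1)) * H.card)) (J : ℕ) :
    ∀ n g : ℕ, 1 ≤ n → 1 ≤ g → ∃ H : Finset ℤ, (∀ h ∈ H, (g : ℤ) ∣ h) ∧
      H.card = ((k + 1) * L) ^ J * n ∧
      (∀ S : Finset ℤ, S ⊆ H →
        (badt R S : ℝ) ≤ (es / ((((k : ℝ) + 1) * L) ^ (k + 1)) ^ J) * (H.card : ℝ) ^ (k + 1) →
        (S.card : ℝ) ≤ (Λ + ((k : ℝ) / (k + 1)) ^ J * (1 - Λ)) * H.card) := by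
  classical
  have hC1 : (1 : ℝ) ≤ ((k : ℝ) + 1) * L := by
    have h1 : (1 : ℝ) ≤ L := by exact_mod_cast hL
    have h2 : (0 : ℝ) ≤ k := by positivity
    nlinarith
  have hC2 : (1 : ℝ) ≤ (((k : ℝ) + 1) * L) ^ (k + 1) := one_le_pow₀ hC1
  have hk1 : (0 : ℝ) < (k : ℝ) + 1 := by positivity
  induction J with
  | zero =>
    intro n g hn hg
    refine ⟨(range n).image (fun i : ℕ => (g : ℤ) * (i : ℤ)), ?_, ?_, ?_⟩
    · intro h hh
      rw [mem_image] at hh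
      obtain ⟨i, _, rfl⟩ := hh
      exact dvd_mul_right _ _
    · rw [card_image_of_injective, card_range]
      · simp
      · intro a b hab
        have hg0 : (g : ℤ) ≠ 0 := by exact_mod_cast (by omega : g ≠ 0)
        have := mul_left_cancel₀ hg0 hab
        exact_mod_cast this
    · intro S hS _
      have h1 : (S.card : ℝ) ≤ ((range n).image (fun i : ℕ => (g : ℤ) * (i : ℤ))).card := by
        exact_mod_cast card_le_card hS
      simpa using h1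
  | succ J ih =>
    intro n g hn hg
    obtain ⟨Q, hQ, hgQ, hlong⟩ := hbad g (by omega)
    obtain ⟨H', hdv, hcard, hthin⟩ := ih n (Q * N) hn (Nat.mul_pos hQ (by omega))
    have hne : H'.Nonempty := by
      rw [← card_pos, hcard]
      have : 0 < (k + 1) * L := Nat.mul_pos (by omega) (by omega)
      positivity
    have hCJ : (0 : ℝ) < ((((k : ℝ) + 1) * L) ^ (k + 1)) ^ (J + 1) := by positivity
    have hCJ' : (0 : ℝ) < ((((k : ℝ) + 1) * L) ^ (k + 1)) ^ J := by positivity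
    have he' : (es / ((((k : ℝ) + 1) * L) ^ (k + 1)) ^ (J + 1)) * (((k : ℝ) + 1) * L) ^ (k + 1) =
        es / ((((k : ℝ) + 1) * L) ^ (k + 1)) ^ J := by
      rw [pow_succ, div_mul_eq_mul_div, mul_div_mul_right]
      positivity
    obtain ⟨H, h1, h2, h3⟩ := hst R Q hQ hlong H' hne hdv
      (es / ((((k : ℝ) + 1) * L) ^ (k + 1)) ^ (J + 1)) (Λ + ((k : ℝ) / (k + 1)) ^ J * (1 - Λ))
      (by positivity)
      (by
        rw [he']
        apply div_le_self hes.le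
        exact one_le_pow₀ hC2)
      (by
        intro S hS hb
        rw [he'] at hb
        exact hthin S hS hb)
    refine ⟨H, ?_, ?_, ?_⟩
    · intro h hh
      exact dvd_trans (by exact_mod_cast hgQ) (h1 h hh)
    · rw [h2, hcard, pow_succ]
      ring
    · intro S hS hb
      have h4 := h3 S hS hb
      refine h4.trans (le_of_eq ?_)
      congr 1
      rw [← hΛ, pow_succ]
      field_simp
      ring

open Classical in
/-- the density theorem from the step -/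
theorem density_of_step (k : ℕ) (c e ε : ℝ) (he : 0 < e) (hec : 2 * e < c) (hc : c ≤ 1 / 2)
    (heε : 2 * e * ((k : ℝ) + 1) ^ 2 ≤ ε) (hst : StepAt k (c - 2 * e) e) (R : Set (Fin k → ℤ))
    (hNC : NCk c R) :
    ∃ q : ℕ, 0 < q ∧ ∀ Q : ℕ, 0 < Q → q ∣ Q → ∃ X0 : ℕ, ∀ X : ℕ, X0 ≤ X → ∀ M : Fin k → ℤ,
      ((k + 1) * c ^ k - ε) * (X : ℝ) ^ k ≤
        (((cube X M).filter (fun n : Fin k → ℤ => (fun i => (Q : ℤ) * n i) ∉ R)).card : ℝ) := by
  classical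
  by_contra hcon
  push Not at hcon
  obtain ⟨L, N, es, hL, hN, hes, hst⟩ := hst
  have hbad : ∀ q : ℕ, 0 < q → ∃ Q : ℕ, 0 < Q ∧ q ∣ Q ∧
      Longk R (1 - (k + 1) * (c - 2 * e) ^ k + 2 * e) Q := by
    intro q hq
    obtain ⟨Q, hQ, hqQ, hX⟩ := hcon q hq
    refine ⟨Q, hQ, hqQ, ?_⟩
    have h1 : Longk R (1 - ((k + 1) * c ^ k - ε)) Q := by
      apply longk_of_not
      push Not
      exact hX
    refine h1.mono ?_
    have h2 := pow_sub_le (k := k) c (2 * e) (by linarith) hec.le (by linarith)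
    have hk0 : (0 : ℝ) ≤ k := by positivity
    nlinarith [mul_le_mul_of_nonneg_left h2 (by positivity : (0 : ℝ) ≤ (k : ℝ) + 1),
      mul_nonneg hk0 he.le]
  have hk1 : (0 : ℝ) < (k : ℝ) + 1 := by positivity
  -- the number of levels
  obtain ⟨J, hJ⟩ : ∃ J : ℕ, ((k : ℝ) / (k + 1)) ^ J * (1 - (c - 2 * e + e)) < e / 2 := by
    have h1 : (k : ℝ) / (k + 1) < 1 := by
      rw [div_lt_one hk1]
      linarith
    have h2 : 0 ≤ (k : ℝ) / (k + 1) := by positivity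
    obtain ⟨J, hJ⟩ := exists_pow_lt_of_lt_one (show (0 : ℝ) < e / 2 by positivity) h1
    refine ⟨J, lt_of_le_of_lt ?_ hJ⟩
    have h3 : 0 ≤ ((k : ℝ) / (k + 1)) ^ J := pow_nonneg h2 J
    nlinarith
  have hC : (0 : ℝ) < ((((k : ℝ) + 1) * L) ^ (k + 1)) ^ J := by
    have : (0 : ℝ) < L := by exact_mod_cast hL
    positivity
  obtain ⟨K, hK⟩ := hNC (min (e / 2) (es / ((((k : ℝ) + 1) * L) ^ (k + 1)) ^ J))
    (lt_min (by positivity) (div_pos hes hC))
  set m := ((k + 1) * L) ^ J * (K + 1) with hm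
  have hCn : 0 < ((k + 1) * L) ^ J := pow_pos (Nat.mul_pos (by omega) (by omega)) J
  obtain ⟨H, h1, h2, h3⟩ := claimJ (k := k) (c - 2 * e) e (c - 2 * e + e) rfl R L N es hL hN hes hbad hst J
    (K + 1) m.factorial (by omega) (Nat.factorial_pos m)
  obtain ⟨S, hSH, hS1, hS2⟩ := hK H (adm_of_fact H m (by rw [h2]) h1) (by
    rw [h2]
    have : 1 * (K + 1) ≤ ((k + 1) * L) ^ J * (K + 1) := Nat.mul_le_mul_right _ hCn
    omega)
  have hHpos : (0 : ℝ) < H.card := by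
    rw [h2]
    exact_mod_cast Nat.mul_pos hCn (by omega)
  have h4 := h3 S hSH (hS2.trans (mul_le_mul_of_nonneg_right (min_le_right _ _) (by positivity)))
  have h5 : (c - e / 2) * (H.card : ℝ) ≤ S.card := by
    refine le_trans ?_ hS1
    apply mul_le_mul_of_nonneg_right _ hHpos.le
    have := min_le_left (e / 2) (es / ((((k : ℝ) + 1) * L) ^ (k + 1)) ^ J)
    linarith
  have h6 : (c - 2 * e + e + ((k : ℝ) / (k + 1)) ^ J * (1 - (c - 2 * e + e))) * (H.card : ℝ) <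
      (c - e / 2) * H.card := by
    apply mul_lt_mul_of_pos_right _ hHpos
    linarith
  linarith

open Classical in
/-- the density theorem, if the step is known for all parameters -/
theorem density_of_steps (k : ℕ) (hst : ∀ c e : ℝ, 0 < c → c ≤ 1 / 2 → 0 < e → StepAt k c e)
    (c : ℝ) (hc0 : 0 < c) (hc : c ≤ 1 / 2) (R : Set (Fin k → ℤ)) (hNC : NCk c R) (ε : ℝ) (hε : 0 < ε) :
    ∃ q : ℕ, 0 < q ∧ ∀ Q : ℕ, 0 < Q → q ∣ Q → ∃ X0 : ℕ, ∀ X : ℕ, X0 ≤ X → ∀ M : Fin k → ℤ,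
      ((k + 1) * c ^ k - ε) * (X : ℝ) ^ k ≤
        (((cube X M).filter (fun n : Fin k → ℤ => (fun i => (Q : ℤ) * n i) ∉ R)).card : ℝ) := by
  have hk1 : (0 : ℝ) < 8 * ((k : ℝ) + 1) ^ 2 := by positivity
  have he : 0 < min (ε / (8 * ((k : ℝ) + 1) ^ 2)) (c / 4) := lt_min (div_pos hε hk1) (by linarith)
  have h1 := min_le_left (ε / (8 * ((k : ℝ) + 1) ^ 2)) (c / 4)
  have h2 := min_le_right (ε / (8 * ((k : ℝ) + 1) ^ 2)) (c / 4)
  set e := min (ε / (8 * ((k : ℝ) + 1) ^ 2)) (c / 4) with hedef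
  refine density_of_step k c e ε he (by linarith) hc ?_ (hst _ _ (by linarith) (by linarith) he) R hNC
  rw [le_div_iff₀ hk1] at h1
  nlinarith [sq_nonneg ((k : ℝ) + 1)]

end Pool.Agent.H38.KT
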