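import Pool.Agent.H38.KT.AvB

/-!
[H38 KT COMP]  Composition of the averages in the `k` directions.

`W = acube l0 T a`, `b = s P |W|/(l0 T)`, `‖G‖ = ∑_{z ∈ W} |G z|`.

Proof.  Induction on `D`.  `D = []`: both sides are `0`.  `D = i :: D'`, `i ∉ D'`: `A = AvL D' F`, `E = ExL D' F` (both bounded by `1`),
`Av i A - Ex i E = Av i (A - E) + (Av i E - Ex i E)`.
* `‖Av i (A - E)‖ ≤ ‖A - E‖ + 2 b`: apply `av_l1` to `(A - E)/2`, bounded by `1` (homogeneity of `Av`), or prove it with the constant `2`.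
* `Av i E = ExL D' (Av i F)` and `Ex i E = ExL D' (Ex i F)` (`av_ex_comm`, `ex_comm`, induction on `D'`, `i ∉ D'`), so
  `Av i E - Ex i E = ExL D' (Av i F - Ex i F)` (linearity), whose norm is at most `‖Av i F - Ex i F‖` (`ex_l1` for every direction of `D'`).
-/

namespace Pool.Agent.H38.KT

open Finset Pool.Agent.H11.HM

theorem exl_cons {k : ℕ} (t l : ℕ) (i : Fin k) (D : List (Fin k)) (F : (Fin k → ℤ) → ℝ) :
    ExL t l (i :: D) F = Ex t l i (ExL t l D F) := rfl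

theorem avl_cons {k : ℕ} (P : ℕ) (s : ℤ) (i : Fin k) (D : List (Fin k)) (F : (Fin k → ℤ) → ℝ) :
    AvL P s (i :: D) F = Av P s i (AvL P s D F) := rfl

theorem exl_abs {k : ℕ} (t l : ℕ) (ht : t ∣ l) (hl : 1 ≤ l) (D : List (Fin k))
    (F : (Fin k → ℤ) → ℝ) (hF : ∀ z, |F z| ≤ 1) (z : Fin k → ℤ) : |ExL t l D F z| ≤ 1 := by
  induction D generalizing z with
  | nil => exact hF z
  | cons i D ih => rw [exl_cons]; exact ex_abs t l ht hl i _ ih z

theorem avl_abs {k : ℕ} (P : ℕ) (s : ℤ) (D : List (Fin k)) (F : (Fin k → ℤ) → ℝ)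
    (hF : ∀ z, |F z| ≤ 1) (z : Fin k → ℤ) : |AvL P s D F z| ≤ 1 := by
  induction D generalizing z with
  | nil => exact hF z
  | cons i D ih => rw [avl_cons]; exact av_abs P s i _ ih z

theorem exl_sub {k : ℕ} (t l : ℕ) (D : List (Fin k)) (F G : (Fin k → ℤ) → ℝ) :
    ExL t l D (fun z => F z - G z) = fun z => ExL t l D F z - ExL t l D G z := by
  induction D with
  | nil => rfl
  | cons i D ih => rw [exl_cons, ih, ex_sub]; rfl

theorem exl_l1 {k : ℕ} (t l l0 T : ℕ) (ht : t ∣ l) (hl : l ∣ l0) (hl0 : 1 ≤ l0) (hT : 1 ≤ T)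
    (a : Fin k → ℤ) (D : List (Fin k)) (F : (Fin k → ℤ) → ℝ) :
    ∑ z ∈ acube l0 T a, |ExL t l D F z| ≤ ∑ z ∈ acube l0 T a, |F z| := by
  induction D with
  | nil => exact le_rfl
  | cons i D ih => rw [exl_cons]; exact (ex_l1 t l l0 T ht hl hl0 hT a i _).trans ih

theorem av_exl {k : ℕ} (P : ℕ) (s : ℤ) (t l : ℕ) (i : Fin k) (D : List (Fin k)) (hi : i ∉ D)
    (F : (Fin k → ℤ) → ℝ) : Av P s i (ExL t l D F) = ExL t l D (Av P s i F) := by
  induction D with
  | nil => rfl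
  | cons j D ih =>
    rw [List.mem_cons, not_or] at hi
    rw [exl_cons, exl_cons, av_ex_comm P s t l i j hi.1, ih hi.2]

theorem ex_exl {k : ℕ} (t l : ℕ) (i : Fin k) (D : List (Fin k)) (F : (Fin k → ℤ) → ℝ) :
    Ex t l i (ExL t l D F) = ExL t l D (Ex t l i F) := by
  induction D with
  | nil => rfl
  | cons j D ih => rw [exl_cons, exl_cons, ex_comm t l i j, ih]

/-- `av_l1` for functions bounded by `2` -/
private theorem av_l2 {k : ℕ} (P s l0 T : ℕ) (hP : 1 ≤ P) (hl0 : 1 ≤ l0) (hT : 1 ≤ T)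
    (a : Fin k → ℤ) (i : Fin k) (F : (Fin k → ℤ) → ℝ) (hF : ∀ z, |F z| ≤ 2) :
    ∑ z ∈ acube l0 T a, |Av P s i F z| ≤ ∑ z ∈ acube l0 T a, |F z| +
      2 * ((s : ℝ) * P * (((l0 * T : ℕ)) : ℝ) ^ k / (l0 * T)) := by
  have h := av_l1 P s l0 T hP hl0 hT a i (fun z => F z / 2) (fun z => by
    rw [abs_div, abs_of_pos (by norm_num : (0 : ℝ) < 2)]
    linarith [hF z])
  have h1 : ∀ z, Av P s i (fun z => F z / 2) z = Av P s i F z / 2 := by
    intro z
    unfold Av
    rw [← sum_div]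
    ring
  have h2 : ∀ x : ℝ, |x / 2| = |x| / 2 := fun x => by
    rw [abs_div, abs_of_pos (by norm_num : (0 : ℝ) < 2)]
  simp only [h1, h2, ← sum_div] at h
  linarith

theorem comp_bound {k : ℕ} (P s t l l0 T : ℕ) (hP : 1 ≤ P) (ht : t ∣ l) (hl : l ∣ l0) (hl0 : 1 ≤ l0)
    (hT : 1 ≤ T) (a : Fin k → ℤ) (F : (Fin k → ℤ) → ℝ) (hF : ∀ z, |F z| ≤ 1) (D : List (Fin k))
    (hD : D.Nodup) :
    ∑ z ∈ acube l0 T a, |AvL P s D F z - ExL t l D F z| ≤
      (D.map (fun i => ∑ z ∈ acube l0 T a, |Av P s i F z - Ex t l i F z|)).sum +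
        D.length * (2 * ((s : ℝ) * P * (((l0 * T : ℕ)) : ℝ) ^ k / (l0 * T))) := by
  have hl1 : 1 ≤ l := Nat.pos_of_dvd_of_pos hl hl0
  induction D with
  | nil =>
    have : ∀ z ∈ acube l0 T a, |AvL P s [] F z - ExL t l [] F z| = 0 := by
      intro z _
      change |F z - F z| = 0
      rw [sub_self, abs_zero]
    rw [sum_congr rfl this]
    simp
  | cons i D ih =>
    rw [List.nodup_cons] at hD
    have ih' := ih hD.2
    rw [List.map_cons, List.sum_cons, List.length_cons]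
    push_cast
    have h1 : ∀ z ∈ acube l0 T a, |AvL P s (i :: D) F z - ExL t l (i :: D) F z| ≤
        |Av P s i (fun z => AvL P s D F z - ExL t l D F z) z| +
          |ExL t l D (fun z => Av P s i F z - Ex t l i F z) z| := by
      intro z _
      have e1 : AvL P s (i :: D) F z - ExL t l (i :: D) F z =
          Av P s i (fun z => AvL P s D F z - ExL t l D F z) z +
            ExL t l D (fun z => Av P s i F z - Ex t l i F z) z := by
        rw [av_sub, exl_sub, avl_cons, exl_cons, ex_exl, av_exl P s t l i D hD.1]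
        ring
      rw [e1]
      exact abs_add_le _ _
    have h2 : ∑ z ∈ acube l0 T a, |Av P s i (fun z => AvL P s D F z - ExL t l D F z) z| ≤
        ∑ z ∈ acube l0 T a, |AvL P s D F z - ExL t l D F z| +
          2 * ((s : ℝ) * P * (((l0 * T : ℕ)) : ℝ) ^ k / (l0 * T)) := by
      refine av_l2 P s l0 T hP hl0 hT a i _ fun z => ?_
      have e2 := avl_abs P s D F hF z
      have e3 := exl_abs t l ht hl1 D F hF z
      rw [abs_le] at e2 e3 ⊢
      constructor <;> linarith [e2.1, e2.2, e3.1, e3.2]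
    have h3 := exl_l1 t l l0 T ht hl hl0 hT a D (fun z => Av P s i F z - Ex t l i F z)
    have h4 := sum_le_sum h1
    rw [sum_add_distrib] at h4
    have h5 : ((D.length : ℝ) + 1) * (2 * ((s : ℝ) * P * (((l0 * T : ℕ)) : ℝ) ^ k / (l0 * T))) =
        D.length * (2 * ((s : ℝ) * P * (((l0 * T : ℕ)) : ℝ) ^ k / (l0 * T))) +
          2 * ((s : ℝ) * P * (((l0 * T : ℕ)) : ℝ) ^ k / (l0 * T)) := by ring
    push_cast at h5 h2 ih' ⊢
    linarith

end Pool.Agent.H38.KT
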