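import Pool.Agent.H11.HM.Df

/-!
MP_8923e7_nt, project KT (density of the prime `k`-tuples).  Definitions.
-/

namespace Pool.Agent.H38.KT

open Finset Pool.Agent.H11.HM

open Classical in
/-- the indicator of a set of points of `ℤ^k` -/
noncomputable def indk {k : ℕ} (R : Set (Fin k → ℤ)) (z : Fin k → ℤ) : ℝ := if z ∈ R then 1 else 0

/-- the cube of side `X` with corner `M` -/
noncomputable def cube {k : ℕ} (X : ℕ) (M : Fin k → ℤ) : Finset (Fin k → ℤ) :=
  Fintype.piFinset fun i => Ico (M i) (M i + X)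

/-- a cube composed of `T^k` blocks of side `l` -/
noncomputable def acube {k : ℕ} (l T : ℕ) (a : Fin k → ℤ) : Finset (Fin k → ℤ) :=
  Fintype.piFinset fun i => Ico ((l : ℤ) * a i) (l * (a i + T))

/-- the open cube `(-L, L)^k` -/
noncomputable def ocube (k L : ℕ) : Finset (Fin k → ℤ) := Fintype.piFinset fun _ => Ioo (-(L : ℤ)) L

open Classical in
/-- the number of the `n ∈ [0,P)^k` with `z + s n ∈ R` -/
noncomputable def cntk {k : ℕ} (R : Set (Fin k → ℤ)) (P : ℕ) (s : ℤ) (z : Fin k → ℤ) : ℕ :=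
  ((Fintype.piFinset fun _ : Fin k => range P).filter
    (fun n => (fun i => z i + s * (n i : ℤ)) ∈ R)).card

open Classical in
/-- for all steps `s m`, `1 ≤ m ≤ K`, the boxes `x + s w + s m [0,P)^k`, `w ∈ (-L, L)^k`, contain at least
`ρ P^k` elements of `R`, with at most `κ (2L)^k` exceptions `w` -/
def POKk {k : ℕ} (R : Set (Fin k → ℤ)) (ρ κ : ℝ) (K P L : ℕ) (s : ℤ) (x : Fin k → ℤ) : Prop :=
  ∀ m : ℕ, 1 ≤ m → m ≤ K →
    (((ocube k L).filter (fun w => (cntk R P (s * m) (fun i => x i + s * w i) : ℝ) <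
      ρ * (P : ℝ) ^ k)).card : ℝ) ≤ κ * (2 * (L : ℝ)) ^ k

open Classical in
/-- in arbitrarily large cubes the proportion of the `n` with `Q n ∈ R` is at least `r` -/
def Longk {k : ℕ} (R : Set (Fin k → ℤ)) (r : ℝ) (Q : ℕ) : Prop :=
  ∀ X0 : ℕ, ∃ (X : ℕ) (M : Fin k → ℤ), X0 ≤ X ∧
    r * (X : ℝ) ^ k ≤ (((cube X M).filter (fun n => (fun i => (Q : ℤ) * n i) ∈ R)).card : ℝ)

/-- the vector of the differences `v (i+1) - v 0` -/
def dvec {k : ℕ} (v : Fin (k + 1) → ℤ) : Fin k → ℤ := fun i => v i.succ - v 0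

open Classical in
/-- the number of the injective `(k+1)`-tuples in `S` whose difference vector is in `R` -/
noncomputable def badt {k : ℕ} (R : Set (Fin k → ℤ)) (S : Finset ℤ) : ℕ :=
  ((Fintype.piFinset fun _ : Fin (k + 1) => S).filter
    (fun v => Function.Injective v ∧ dvec v ∈ R)).card

/-- every large admissible set `H` contains a set of almost `c |H|` elements in which almost no
`(k+1)`-tuples have their difference vector in `R` -/
def NCk {k : ℕ} (c : ℝ) (R : Set (Fin k → ℤ)) : Prop :=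
  ∀ ε : ℝ, 0 < ε → ∃ K : ℕ, ∀ H : Finset ℤ,
    (∀ p : ℕ, p.Prime → ∃ a : ℤ, ∀ h ∈ H, ¬ (p : ℤ) ∣ a + h) → K ≤ H.card →
    ∃ S : Finset ℤ, S ⊆ H ∧ (c - ε) * (H.card : ℝ) ≤ (S.card : ℝ) ∧
      (badt R S : ℝ) ≤ ε * (H.card : ℝ) ^ (k + 1)

/-- the average of `F` over the `P` points `z + s n e_i` -/
noncomputable def Av {k : ℕ} (P : ℕ) (s : ℤ) (i : Fin k) (F : (Fin k → ℤ) → ℝ) (z : Fin k → ℤ) : ℝ :=
  (∑ n ∈ range P, F (Function.update z i (z i + s * n))) / P

/-- the average of `F` over the line through `z` in direction `i`, restricted to the block of length `l` and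
the class modulo `t` of `z i` (for `t ∣ l`) -/
noncomputable def Ex {k : ℕ} (t l : ℕ) (i : Fin k) (F : (Fin k → ℤ) → ℝ) (z : Fin k → ℤ) : ℝ :=
  (t : ℝ) / l * ∑ c ∈ (blk l (z i)).filter (fun c => c ≡ z i [ZMOD t]), F (Function.update z i c)

/-- the averages `Av` in the directions of a list -/
noncomputable def AvL {k : ℕ} (P : ℕ) (s : ℤ) (D : List (Fin k)) (F : (Fin k → ℤ) → ℝ) :
    (Fin k → ℤ) → ℝ := D.foldr (fun i G => Av P s i G) F

/-- the averages `Ex` in the directions of a list -/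
noncomputable def ExL {k : ℕ} (t l : ℕ) (D : List (Fin k)) (F : (Fin k → ℤ) → ℝ) :
    (Fin k → ℤ) → ℝ := D.foldr (fun i G => Ex t l i G) F

/-- the points of the line through `z` in direction `i` -/
def line {k : ℕ} (R : Set (Fin k → ℤ)) (i : Fin k) (z : Fin k → ℤ) : Set ℤ :=
  {c | Function.update z i c ∈ R}

end Pool.Agent.H38.KT
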