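import Pool.Agent.H38.KT.Comp

/-!
[H38 KT EXP]  Properties of the composed averages `ExL`.

* `exl_sum`: induction on `D`, `ex_sum`.
* `exl_nonneg`, `exl_le_one`: `ex_mono`, `ex_const`.
* `exl_one`: if `j ∈ D` and `c` is in the block and class of `z j` then `ExL D F (update z j c) = ExL D F z`: for `D = i :: D'`: if `i = j` this is
  `ex_congr`; if `i ≠ j`, `j ∈ D'`: `Ex i (ExL D' F) = ` average of `ExL D' F` over points `update z i c'`, and
  `update (update z j c) i c' = update (update z i c') j c`, induction.
* `exl_congr`: pass from `z` to `z'` by changing one coordinate after the other (induction over a finset `S` of coordinates, the points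
  `fun i => if i ∈ S then z' i else z i`).
-/

namespace Pool.Agent.H38.KT

open Finset Pool.Agent.H11.HM

theorem exl_sum {k : ℕ} (t l l0 T : ℕ) (ht : t ∣ l) (hl : l ∣ l0) (hl0 : 1 ≤ l0) (hT : 1 ≤ T)
    (a : Fin k → ℤ) (D : List (Fin k)) (F : (Fin k → ℤ) → ℝ) :
    ∑ z ∈ acube l0 T a, ExL t l D F z = ∑ z ∈ acube l0 T a, F z := by
  induction D with
  | nil => rfl
  | cons i D ih => rw [exl_cons, ex_sum t l l0 T ht hl hl0 hT a i, ih]

theorem exl_nonneg {k : ℕ} (t l : ℕ) (D : List (Fin k)) (F : (Fin k → ℤ) → ℝ) (hF : ∀ z, 0 ≤ F z)
    (z : Fin k → ℤ) : 0 ≤ ExL t l D F z := by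
  induction D generalizing z with
  | nil => exact hF z
  | cons i D ih =>
    rw [exl_cons]
    unfold Ex
    exact mul_nonneg (by positivity) (sum_nonneg fun c _ => ih _)

theorem exl_le_one {k : ℕ} (t l : ℕ) (ht : t ∣ l) (hl : 1 ≤ l) (D : List (Fin k))
    (F : (Fin k → ℤ) → ℝ) (hF : ∀ z, F z ≤ 1) (z : Fin k → ℤ) : ExL t l D F z ≤ 1 := by
  induction D generalizing z with
  | nil => exact hF z
  | cons i D ih =>
    rw [exl_cons]
    exact (ex_mono t l i _ (fun _ => 1) ih z).trans (ex_const t l ht hl i 1 z).le

theorem exl_one {k : ℕ} (t l : ℕ) (D : List (Fin k)) (F : (Fin k → ℤ) → ℝ) (j : Fin k) (hj : j ∈ D)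
    (z : Fin k → ℤ) (c : ℤ) (h1 : c / l = z j / l) (h2 : c ≡ z j [ZMOD t]) :
    ExL t l D F (Function.update z j c) = ExL t l D F z := by
  induction D generalizing z with
  | nil => simp at hj
  | cons i D ih =>
    rw [exl_cons]
    rcases eq_or_ne i j with hij | hij
    · subst hij
      exact ex_congr t l i _ z c h1 h2
    · have hj' : j ∈ D := by
        rcases List.mem_cons.1 hj with h | h
        · exact absurd h.symm hij
        · exact h
      unfold Ex
      rw [Function.update_of_ne hij]
      congr 1
      refine sum_congr rfl fun c' _ => ?_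
      rw [Function.update_comm hij.symm]
      refine ih hj' (Function.update z i c') ?_ ?_
      · rw [Function.update_of_ne hij.symm]; exact h1
      · rw [Function.update_of_ne hij.symm]; exact h2

theorem exl_congr {k : ℕ} (t l : ℕ) (F : (Fin k → ℤ) → ℝ) (z z' : Fin k → ℤ)
    (h : ∀ i, z' i / l = z i / l ∧ z' i ≡ z i [ZMOD t]) :
    ExL t l (List.finRange k) F z' = ExL t l (List.finRange k) F z := by
  classical
  have key : ∀ S : Finset (Fin k),
      ExL t l (List.finRange k) F (fun i => if i ∈ S then z' i else z i) =
        ExL t l (List.finRange k) F z := by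
    intro S
    induction S using Finset.induction_on with
    | empty => simp
    | insert j S hj ih =>
      have e1 : (fun i => if i ∈ insert j S then z' i else z i) =
          Function.update (fun i => if i ∈ S then z' i else z i) j (z' j) := by
        funext i
        rcases eq_or_ne i j with hij | hij
        · subst hij
          simp
        · rw [Function.update_of_ne hij]
          simp [hij]
      rw [e1, exl_one t l _ F j (List.mem_finRange j), ih]
      · simp only [hj, if_false]
        exact (h j).1
      · simp only [hj, if_false]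
        exact (h j).2
  have := key univ
  simpa using this

end Pool.Agent.H38.KT
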