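import Pool.Agent.H38.KT.Kpig
import Pool.Agent.H11.HM.ApcB

/-!
[H38 KT KMOM]  The second moments of all lines; choice of the step `d`.

Proof.  `W = acube l0 T a`, `Y = l0 T`, `l0 = l c`; `I i = Ico (l0 a_i) (l0 (a_i + T)) = Ico (l (c a_i)) (l (c (a_i + T)))`.  For `1 ≤ m ≤ K`, `i`, `z` apply
`second_moment` (`Pool/Agent/H11/HM/ApcB.lean`) to `line R i z`, `N = (K P)!` (`m k' ∣ N` for `1 ≤ k' < P`: `Nat.dvd_factorial`), `t`, `l`, `l1`, the interval `I i`
(`b - a = c T ≥ 1`, `l (b - a) = Y`, `6 t m P D (1 + c T) ≤ 12 t K P D c T = 12 t K P D Y/l`).  Sum over `z ∈ W` and divide by `Y` (`line_sum`, `ex_ind`,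
`av_ind`, `line_update`): for every `i`, `m`
`∑_{d ∈ Ioc D 2D} ∑_{z ∈ W} (Av - Ex)^2 ≤ D (|W|/P + ∑_{z ∈ W} |Ex1 - Ex| + 2 |W| l1/D + 12 t K P D |W|/l)`.
Sum over `i` and `m ∈ Icc 1 K` (`K` values, the bound does not depend on `m`); one of the `D` values of `d` is at most the average.
-/

namespace Pool.Agent.H38.KT

open Finset Pool.Agent.H11.HM

private theorem av_ind_update {k : ℕ} (R : Set (Fin k → ℤ)) (i : Fin k) (P : ℕ) (s : ℤ)
    (z : Fin k → ℤ) (u : ℤ) :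
    Av P s i (indk R) (Function.update z i u) = (cnt (line R i z) P s u : ℝ) / P := by
  rw [av_ind, line_update, Function.update_self]

private theorem ex_ind_update' {k : ℕ} (R : Set (Fin k → ℤ)) (i : Fin k) (t l : ℕ)
    (z : Fin k → ℤ) (u : ℤ) :
    Ex t l i (indk R) (Function.update z i u) = rho (line R i z) t l u := by
  rw [ex_ind, line_update, Function.update_self]

/-- one direction and one multiple -/
private theorem kmom_one {k : ℕ} (R : Set (Fin k → ℤ)) (t l l1 l0 K P D T : ℕ) (ht : 1 ≤ t)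
    (hP : 1 ≤ P) (h3 : t * (K * P).factorial ∣ l1) (h4 : l1 ∣ l) (h5 : l ∣ l0) (hl0 : 1 ≤ l0)
    (hD : 1 ≤ D) (hT : 1 ≤ T) (a : Fin k → ℤ) (m : ℕ) (hm : 1 ≤ m) (hmK : m ≤ K) (i : Fin k) :
    ∑ d ∈ Ioc D (2 * D), ∑ z ∈ acube l0 T a,
      (Av P (t * d * m) i (indk R) z - Ex t l i (indk R) z) ^ 2 ≤
      D * ((((l0 * T : ℕ)) : ℝ) ^ k / P + ∑ z ∈ acube l0 T a,
          |Ex (t * (K * P).factorial) l1 i (indk R) z - Ex t l i (indk R) z| +
        2 * (((l0 * T : ℕ)) : ℝ) ^ k * l1 / D +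
        12 * t * K * P * D * (((l0 * T : ℕ)) : ℝ) ^ k / l) := by
  have hl : 1 ≤ l := Nat.pos_of_dvd_of_pos h5 hl0
  have hDr : (0 : ℝ) < D := by exact_mod_cast hD
  have hPr : (0 : ℝ) < P := by exact_mod_cast hP
  have hlr : (0 : ℝ) < l := by exact_mod_cast hl
  have hT1 : (1 : ℝ) ≤ T := by exact_mod_cast hT
  obtain ⟨c, hc⟩ := h5
  have hc1 : 1 ≤ c := by
    rcases Nat.eq_zero_or_pos c with h | h
    · rw [h, mul_zero] at hc
      omega
    · exact h
  have hc1r : (1 : ℝ) ≤ c := by exact_mod_cast hc1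
  obtain ⟨Y, hYdef⟩ : ∃ Y : ℝ, Y = ((l0 * T : ℕ) : ℝ) := ⟨_, rfl⟩
  have hYl : Y = l * (c * T) := by
    rw [hYdef, hc]
    push_cast
    ring
  have hY0 : 0 < Y := by
    rw [hYl]
    positivity
  obtain ⟨W, hW⟩ : ∃ W : Finset (Fin k → ℤ), W = acube l0 T a := ⟨_, rfl⟩
  have hWc : (W.card : ℝ) = Y ^ k := by rw [hW, hYdef]; exact card_acube l0 T a
  obtain ⟨I, hI⟩ : ∃ I : Finset ℤ, I = Ico ((l0 : ℤ) * a i) (l0 * (a i + T)) := ⟨_, rfl⟩
  have hI2 : I = Ico ((l : ℤ) * (c * a i)) (l * (c * (a i + T))) := by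
    have : (l0 : ℤ) = l * c := by rw [hc]; push_cast; ring
    rw [hI, this, mul_assoc, mul_assoc]
  have hline : ∀ F : (Fin k → ℤ) → ℝ, ∑ z ∈ W, F z =
      (∑ z ∈ W, ∑ u ∈ I, F (Function.update z i u)) / Y := by
    intro F
    rw [hW, hI, hYdef]
    exact line_acube l0 T hl0 hT a i F
  rw [← hW, ← hYdef]
  -- second moment for one line
  have hone : ∀ z : Fin k → ℤ, ∑ d ∈ Ioc D (2 * D), ∑ u ∈ I,
      ((cnt (line R i z) P (t * d * m) u : ℝ) / P - rho (line R i z) t l u) ^ 2 ≤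
      D * (Y / P + ∑ u ∈ I, |rho (line R i z) (t * (K * P).factorial) l1 u -
        rho (line R i z) t l u| + 2 * Y * l1 / D + 12 * t * K * P * D * (Y / l)) := by
    intro z
    have e := second_moment (line R i z) t l (K * P).factorial l1 m P D ht hm hP (by
      intro k' hk' hk'P
      exact Nat.dvd_factorial (Nat.mul_pos hm hk') (Nat.mul_le_mul hmK hk'P.le)) h3 h4 hl hD
      (c * a i) (c * (a i + T)) (by
        have h1 : (0 : ℤ) ≤ c := by positivity
        have h2 : (0 : ℤ) ≤ T := by positivity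
        nlinarith)
    rw [← hI2, div_le_iff₀ hDr] at e
    refine e.trans ?_
    rw [mul_comm]
    apply mul_le_mul_of_nonneg_left _ hDr.le
    have e1 : (l : ℝ) * (((c * (a i + T) : ℤ) : ℝ) - ((c * a i : ℤ) : ℝ)) = Y := by
      rw [hYl]
      push_cast
      ring
    have e2 : (((c * (a i + T) : ℤ) : ℝ) - ((c * a i : ℤ) : ℝ)) = c * T := by
      push_cast
      ring
    rw [e1, e2]
    have e3 : Y / l = c * T := by
      rw [hYl]
      field_simp
    rw [e3]
    have e4 : (1 : ℝ) ≤ c * T := by nlinarith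
    have hmK' : (m : ℝ) ≤ K := by exact_mod_cast hmK
    have e5 : 6 * (t : ℝ) * m * P * D * (1 + c * T) ≤ 12 * t * K * P * D * (c * T) := by
      have e6 : 6 * (t : ℝ) * m * P * D * (1 + c * T) ≤ 6 * (t : ℝ) * m * P * D * (2 * (c * T)) := by
        apply mul_le_mul_of_nonneg_left _ (by positivity)
        linarith
      have e7 : (t : ℝ) * m * P * D ≤ t * K * P * D := by
        apply mul_le_mul_of_nonneg_right _ hDr.le
        apply mul_le_mul_of_nonneg_right _ hPr.le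
        apply mul_le_mul_of_nonneg_left hmK' (Nat.cast_nonneg _)
      have e8 := mul_le_mul_of_nonneg_right e7 (show (0 : ℝ) ≤ 12 * (c * T) by positivity)
      calc _ ≤ _ := e6
        _ = (t : ℝ) * m * P * D * (12 * (c * T)) := by ring
        _ ≤ _ := e8
        _ = _ := by ring
    linarith
  calc ∑ d ∈ Ioc D (2 * D), ∑ z ∈ W, (Av P (t * d * m) i (indk R) z - Ex t l i (indk R) z) ^ 2
      = (∑ z ∈ W, ∑ d ∈ Ioc D (2 * D), ∑ u ∈ I,
        ((cnt (line R i z) P (t * d * m) u : ℝ) / P - rho (line R i z) t l u) ^ 2) / Y := by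
        rw [Finset.sum_comm (s := W), Finset.sum_div]
        refine Finset.sum_congr rfl fun d _ => ?_
        rw [hline]
        simp only [av_ind_update, ex_ind_update']
    _ ≤ (∑ z ∈ W, D * (Y / P + ∑ u ∈ I, |rho (line R i z) (t * (K * P).factorial) l1 u -
        rho (line R i z) t l u| + 2 * Y * l1 / D + 12 * t * K * P * D * (Y / l))) / Y :=
        div_le_div_of_nonneg_right (Finset.sum_le_sum fun z _ => hone z) hY0.le
    _ = _ := by
        rw [hline (fun z => |Ex (t * (K * P).factorial) l1 i (indk R) z - Ex t l i (indk R) z|)]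
        simp only [ex_ind_update']
        rw [← Finset.mul_sum]
        simp only [Finset.sum_add_distrib, Finset.sum_const, nsmul_eq_mul]
        rw [hWc]
        field_simp

theorem kmom {k : ℕ} (R : Set (Fin k → ℤ)) (t l l1 l0 K P D T : ℕ) (ht : 1 ≤ t) (hK : 1 ≤ K)
    (hP : 1 ≤ P) (h3 : t * (K * P).factorial ∣ l1) (h4 : l1 ∣ l) (h5 : l ∣ l0) (hl0 : 1 ≤ l0)
    (hD : 1 ≤ D) (hT : 1 ≤ T) (a : Fin k → ℤ) :
    ∃ d ∈ Ioc D (2 * D), ∑ m ∈ Icc 1 K, ∑ i : Fin k, ∑ z ∈ acube l0 T a,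
      (Av P (t * d * m) i (indk R) z - Ex t l i (indk R) z) ^ 2 ≤
      K * (k * (((l0 * T : ℕ)) : ℝ) ^ k / P + ∑ i : Fin k, ∑ z ∈ acube l0 T a,
          |Ex (t * (K * P).factorial) l1 i (indk R) z - Ex t l i (indk R) z| +
        2 * k * (((l0 * T : ℕ)) : ℝ) ^ k * l1 / D +
        12 * k * t * K * P * D * (((l0 * T : ℕ)) : ℝ) ^ k / l) := by
  have hcD : (Ioc D (2 * D)).card = D := by
    rw [Nat.card_Ioc]
    omega
  apply Finset.exists_le_of_sum_le (by
    rw [Finset.nonempty_Ioc]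
    omega)
  rw [Finset.sum_const, hcD, nsmul_eq_mul, Finset.sum_comm]
  have h1 : ∀ m ∈ Icc 1 K, ∑ d ∈ Ioc D (2 * D), ∑ i : Fin k, ∑ z ∈ acube l0 T a,
      (Av P (t * d * m) i (indk R) z - Ex t l i (indk R) z) ^ 2 ≤
      D * (k * (((l0 * T : ℕ)) : ℝ) ^ k / P + ∑ i : Fin k, ∑ z ∈ acube l0 T a,
          |Ex (t * (K * P).factorial) l1 i (indk R) z - Ex t l i (indk R) z| +
        2 * k * (((l0 * T : ℕ)) : ℝ) ^ k * l1 / D +
        12 * k * t * K * P * D * (((l0 * T : ℕ)) : ℝ) ^ k / l) := by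
    intro m hm
    rw [Finset.mem_Icc] at hm
    rw [Finset.sum_comm]
    refine (Finset.sum_le_sum fun i _ => kmom_one R t l l1 l0 K P D T ht hP h3 h4 h5 hl0 hD hT a m
      hm.1 hm.2 i).trans (le_of_eq ?_)
    rw [← Finset.mul_sum]
    simp only [Finset.sum_add_distrib, Finset.sum_const, nsmul_eq_mul, Finset.card_univ,
      Fintype.card_fin]
    ring
  refine (Finset.sum_le_sum h1).trans (le_of_eq ?_)
  rw [Finset.sum_const, Nat.card_Icc, nsmul_eq_mul, Nat.add_sub_cancel]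
  ring

end Pool.Agent.H38.KT
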