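import Pool.Agent.H38.KT.AvB
import Pool.Agent.H11.HM.Ort

/-!
[H38 KT KPIG]  The pigeonhole principle for the sum of the energies of all lines.

`ex_ind`, `av_ind`: unfold (`line R i (update z i c) = line R i z`, `(update z i c) i = c`).

Proof of `kpig`.  `W = acube (l 0) T a`, `Y = l 0 * T`, `|W| = Y^k`, `I i = Ico (l0 a_i) (l0 (a_i + T))`, `ρ_j(i,z) = Ex (N^j) (l j) i (indk R) z`.
For fixed `i` and `z`, `line_sum` and `rho_orth` (`Pool/Agent/H11/HM/Ort.lean`, for `line R i z`, the interval `I i` is also a union of blocks of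
length `l j`) give `∑_{z ∈ W} (ρ_{j+1}(i,z) - ρ_j(i,z))^2 = ∑_{z ∈ W} ρ_{j+1}(i,z)^2 - ∑_{z ∈ W} ρ_j(i,z)^2`.  Sum over `i` and over `j < J`: telescopes to at
most `k |W|` (`0 ≤ ρ ≤ 1`).  So some `j < J` has `∑_i ∑_z (ρ_{j+1} - ρ_j)^2 ≤ k |W|/J`, and by Cauchy-Schwarz (`k |W|` terms)
`∑_i ∑_z |ρ_{j+1} - ρ_j| ≤ √(k |W| · k |W|/J) = k |W|/√J`.
-/

namespace Pool.Agent.H38.KT

open Finset Pool.Agent.H11.HM

private theorem ind_line {k : ℕ} (R : Set (Fin k → ℤ)) (i : Fin k) (z : Fin k → ℤ) (c : ℤ) :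
    ind (line R i z) c = indk R (Function.update z i c) := by
  rfl

theorem ex_ind {k : ℕ} (R : Set (Fin k → ℤ)) (i : Fin k) (t l : ℕ) (z : Fin k → ℤ) :
    Ex t l i (indk R) z = rho (line R i z) t l (z i) := by
  unfold Ex rho
  simp only [ind_line]

theorem av_ind {k : ℕ} (R : Set (Fin k → ℤ)) (i : Fin k) (P : ℕ) (s : ℤ) (z : Fin k → ℤ) :
    Av P s i (indk R) z = (cnt (line R i z) P s (z i) : ℝ) / P := by
  have h : (cnt (line R i z) P s (z i) : ℝ) = ∑ n ∈ range P, ind (line R i z) (z i + s * n) := by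
    unfold cnt ind
    rw [← Finset.sum_boole]
  rw [h]
  unfold Av
  simp only [ind_line]

theorem line_update {k : ℕ} (R : Set (Fin k → ℤ)) (i : Fin k) (z : Fin k → ℤ) (c : ℤ) :
    line R i (Function.update z i c) = line R i z := by
  unfold line
  simp only [Function.update_idem]

private theorem ex_ind_update {k : ℕ} (R : Set (Fin k → ℤ)) (i : Fin k) (t l : ℕ) (z : Fin k → ℤ)
    (u : ℤ) : Ex t l i (indk R) (Function.update z i u) = rho (line R i z) t l u := by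
  rw [ex_ind, line_update, Function.update_self]

private theorem ex_orth {k : ℕ} (R : Set (Fin k → ℤ)) (t l t' l' l0 T : ℕ) (h1 : t ∣ t')
    (h2 : t' ∣ l') (h3 : l' ∣ l) (h4 : l ∣ l0) (hl0 : 1 ≤ l0) (hT : 1 ≤ T) (a : Fin k → ℤ)
    (i : Fin k) :
    ∑ z ∈ acube l0 T a, (Ex t' l' i (indk R) z - Ex t l i (indk R) z) ^ 2 =
      ∑ z ∈ acube l0 T a, (Ex t' l' i (indk R) z) ^ 2 -
        ∑ z ∈ acube l0 T a, (Ex t l i (indk R) z) ^ 2 := by
  have hl : 1 ≤ l := Nat.pos_of_dvd_of_pos h4 hl0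
  rw [line_acube l0 T hl0 hT a i (fun z => (Ex t' l' i (indk R) z - Ex t l i (indk R) z) ^ 2),
    line_acube l0 T hl0 hT a i (fun z => (Ex t' l' i (indk R) z) ^ 2),
    line_acube l0 T hl0 hT a i (fun z => (Ex t l i (indk R) z) ^ 2), ← sub_div,
    ← Finset.sum_sub_distrib]
  congr 1
  refine Finset.sum_congr rfl fun z _ => ?_
  simp only [ex_ind_update]
  obtain ⟨c, hc⟩ := h4
  have hI : Ico ((l0 : ℤ) * a i) (l0 * (a i + T)) = Ico ((l : ℤ) * (c * a i)) (l * (c * (a i + T))) := by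
    have : (l0 : ℤ) = l * c := by rw [hc]; push_cast; ring
    rw [this, mul_assoc, mul_assoc]
  rw [hI]
  exact rho_orth (line R i z) t l t' l' h1 h2 h3 hl (c * a i) (c * (a i + T))

theorem kpig {k : ℕ} (R : Set (Fin k → ℤ)) (N J : ℕ) (hJ : 1 ≤ J) (l : ℕ → ℕ) (hl0 : 1 ≤ l 0)
    (hN : N ^ J ∣ l J) (hl : ∀ j, j < J → l (j + 1) ∣ l j) (T : ℕ) (hT : 1 ≤ T) (a : Fin k → ℤ) :
    ∃ j, j < J ∧ ∑ i : Fin k, ∑ z ∈ acube (l 0) T a,
      |Ex (N ^ (j + 1)) (l (j + 1)) i (indk R) z - Ex (N ^ j) (l j) i (indk R) z| ≤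
        k * (((l 0 * T : ℕ)) : ℝ) ^ k / Real.sqrt J := by
  have hdiv : ∀ i k, i + k ≤ J → l (i + k) ∣ l i := by
    intro i k
    induction k with
    | zero => intro _; exact dvd_rfl
    | succ k ih =>
      intro hik
      have h1 := hl (i + k) (by omega)
      exact (by simpa [add_assoc] using h1 : l (i + (k + 1)) ∣ l (i + k)).trans (ih (by omega))
  have hd0 : ∀ j, j ≤ J → l j ∣ l 0 := by
    intro j hj
    have := hdiv 0 j (by omega)
    rwa [zero_add] at this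
  have hdJ : ∀ j, j ≤ J → l J ∣ l j := by
    intro j hj
    have := hdiv j (J - j) (by omega)
    rwa [Nat.add_sub_cancel' hj] at this
  have hpos : ∀ j, j ≤ J → 1 ≤ l j := fun j hj => Nat.pos_of_dvd_of_pos (hd0 j hj) hl0
  set W := acube (l 0) T a with hW
  set C : ℝ := k * (((l 0 * T : ℕ)) : ℝ) ^ k with hC
  set D : ℕ → ℝ := fun j => ∑ i : Fin k, ∑ z ∈ W,
    (Ex (N ^ (j + 1)) (l (j + 1)) i (indk R) z - Ex (N ^ j) (l j) i (indk R) z) ^ 2 with hD
  set E : ℕ → ℝ := fun j => ∑ i : Fin k, ∑ z ∈ W, (Ex (N ^ j) (l j) i (indk R) z) ^ 2 with hE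
  have hDE : ∀ j ∈ range J, D j = E (j + 1) - E j := by
    intro j hj
    have hj' : j < J := mem_range.1 hj
    simp only [hD, hE]
    rw [← Finset.sum_sub_distrib]
    refine Finset.sum_congr rfl fun i _ => ?_
    exact ex_orth R (N ^ j) (l j) (N ^ (j + 1)) (l (j + 1)) (l 0) T (pow_dvd_pow N (by omega))
      ((pow_dvd_pow N (by omega)).trans (hN.trans (hdJ (j + 1) (by omega)))) (hl j hj')
      (hd0 j hj'.le) hl0 hT a i
  have hcard : (W.card : ℝ) = (((l 0 * T : ℕ)) : ℝ) ^ k := card_acube (l 0) T a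
  have hC0 : 0 ≤ C := by positivity
  have hEJ : E J ≤ C := by
    have h1 : ∀ i : Fin k, ∑ z ∈ W, (Ex (N ^ J) (l J) i (indk R) z) ^ 2 ≤ (W.card : ℝ) := by
      intro i
      rw [Finset.card_eq_sum_ones, Nat.cast_sum]
      refine Finset.sum_le_sum fun z _ => ?_
      rw [ex_ind]
      have h1 := rho_le_one (line R i z) (N ^ J) (l J) hN (hpos J le_rfl) (z i)
      have h2 := rho_nonneg (line R i z) (N ^ J) (l J) (z i)
      rw [Nat.cast_one]
      nlinarith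
    calc E J ≤ ∑ _i : Fin k, (W.card : ℝ) := Finset.sum_le_sum fun i _ => h1 i
      _ = C := by rw [Finset.sum_const, Finset.card_univ, Fintype.card_fin, nsmul_eq_mul, hcard]
  have hE0 : 0 ≤ E 0 := Finset.sum_nonneg fun i _ => Finset.sum_nonneg fun z _ => sq_nonneg _
  have hJpos : (0 : ℝ) < J := by exact_mod_cast hJ
  have hsum : ∑ j ∈ range J, D j ≤ ∑ _j ∈ range J, C / J := by
    rw [Finset.sum_congr rfl hDE, Finset.sum_range_sub, Finset.sum_const, Finset.card_range,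
      nsmul_eq_mul, mul_div_cancel₀ _ hJpos.ne']
    linarith
  obtain ⟨j, hj, hjD⟩ := Finset.exists_le_of_sum_le (Finset.nonempty_range_iff.2 (by omega)) hsum
  refine ⟨j, Finset.mem_range.1 hj, ?_⟩
  -- Cauchy-Schwarz over pairs
  set A := ∑ i : Fin k, ∑ z ∈ W,
    |Ex (N ^ (j + 1)) (l (j + 1)) i (indk R) z - Ex (N ^ j) (l j) i (indk R) z| with hA
  have hcs : A ^ 2 ≤ C * D j := by
    have e1 : A = ∑ p ∈ (Finset.univ : Finset (Fin k)) ×ˢ W,
        |Ex (N ^ (j + 1)) (l (j + 1)) p.1 (indk R) p.2 - Ex (N ^ j) (l j) p.1 (indk R) p.2| := by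
      rw [Finset.sum_product]
    have e2 : D j = ∑ p ∈ (Finset.univ : Finset (Fin k)) ×ˢ W,
        (Ex (N ^ (j + 1)) (l (j + 1)) p.1 (indk R) p.2 - Ex (N ^ j) (l j) p.1 (indk R) p.2) ^ 2 := by
      rw [Finset.sum_product]
    have e3 : (((Finset.univ : Finset (Fin k)) ×ˢ W).card : ℝ) = C := by
      rw [Finset.card_product, Finset.card_univ, Fintype.card_fin]
      push_cast
      rw [hcard]
    have h1 := sq_sum_le_card_mul_sum_sq (s := (Finset.univ : Finset (Fin k)) ×ˢ W)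
      (f := fun p => |Ex (N ^ (j + 1)) (l (j + 1)) p.1 (indk R) p.2 -
        Ex (N ^ j) (l j) p.1 (indk R) p.2|)
    simp only [sq_abs] at h1
    rw [e3, ← e1, ← e2] at h1
    exact h1
  have h5 : A ^ 2 ≤ (C / Real.sqrt J) ^ 2 := by
    rw [div_pow, Real.sq_sqrt hJpos.le]
    calc A ^ 2 ≤ C * D j := hcs
      _ ≤ C * (C / J) := mul_le_mul_of_nonneg_left hjD hC0
      _ = C ^ 2 / J := by ring
  have h6 := abs_le_of_sq_le_sq h5 (by positivity)
  exact le_of_abs_le h6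

end Pool.Agent.H38.KT
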