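import Pool.Agent.H11.HM.Pol

/-!
[H38 KT LZ]  The inequality for `k + 1` sets in `ZMod P` (helper11).

`lzT A B x` is the set of the `v ∈ A` with `v + x i ∈ B i` for all `i < k`.  If `|A|, |B i| ≥ a`, `2 a ≤ P`, then for all but few `x` ...:
`(k + 1) a^k ≤ #{x | θ P ≤ |lzT A B x|} + ε P^k` for some `θ = θ(k, c, ε) > 0`, all `a ≥ c P` and all large primes `P`.

Proof.  We may assume that all the sets have exactly `a` elements.  Induction on `k`; `k = 0` is trivial (`θ = c`).  Step: let `σ = min θ_k(ε/2) (ε/12)`,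
`θ = σ ε/4`, `s = ⌈σ P⌉`.  For `x` with `σ P ≤ |T_x|`, `T_x = lzT A (tail B) x`, Pollard's theorem for `T_x` and `B 0` gives
`s (|T_x| + a - s) ≤ ∑_y min s r(y) ≤ s #{y | θ P ≤ r(y)} + θ P P`, `r(y) = #{v ∈ T_x | v + y ∈ B 0}`
(`|T_x| + a ≤ 2 a ≤ P`), so `#{y | θ P ≤ r(y)} ≥ |T_x| + a - (5/12) ε P`.  Sum over these `x`, with `∑_x |T_x| = a^(k+1)`:
`≥ a^(k+1) - σ P P^k + a #{x | σ P ≤ |T_x|} - (5/12) ε P^(k+1) ≥ a^(k+1) + a ((k+1) a^k - (ε/2) P^k) - (ε/2) P^(k+1)`.
-/

namespace Pool.Agent.H38.KT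

open Finset Pool.Agent.H11.HM

/-- the `v ∈ A` with `v + x i ∈ B i` for all `i` -/
def lzT {P k : ℕ} (A : Finset (ZMod P)) (B : Fin k → Finset (ZMod P)) (x : Fin k → ZMod P) :
    Finset (ZMod P) := A.filter (fun v => ∀ i, v + x i ∈ B i)

theorem lz_pol (P : ℕ) [Fact P.Prime] (T B : Finset (ZMod P)) (s : ℕ) (hs : 0 < s) (hT : s ≤ T.card)
    (hB : s ≤ B.card) (h2 : T.card + B.card ≤ P) (τ : ℝ) (hτ : 0 ≤ τ) :
    (T.card : ℝ) + B.card - s - τ * P / s ≤
      ((univ.filter (fun y : ZMod P => τ ≤ ((T.filter (fun v => v + y ∈ B)).card : ℝ))).card : ℝ) := by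
  classical
  have hc : (T.image (fun a => -a)).card = T.card := card_image_of_injective _ neg_injective
  have h1 := pollard P B (T.image (fun a => -a)) s hB (by rw [hc]; exact hT)
  rw [hc] at h1
  have hr : ∀ y, rep B (T.image (fun a => -a)) y = (T.filter (fun v => v + y ∈ B)).card := by
    intro y
    rw [rep]
    symm
    apply card_bij (fun v _ => -v)
    · intro v hv
      rw [mem_filter] at hv ⊢
      refine ⟨mem_image_of_mem _ hv.1, ?_⟩
      rw [sub_neg_eq_add, add_comm]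
      exact hv.2
    · intro v _ w _ h
      exact neg_injective h
    · intro b hb
      rw [mem_filter, mem_image] at hb
      obtain ⟨⟨v, hv, rfl⟩, h⟩ := hb
      refine ⟨v, ?_, rfl⟩
      rw [mem_filter]
      refine ⟨hv, ?_⟩
      rw [sub_neg_eq_add, add_comm] at h
      exact h
  have h3 : min P (B.card + T.card - s) = T.card + B.card - s := by omega
  rw [h3] at h1
  set G := univ.filter (fun y : ZMod P => τ ≤ ((T.filter (fun v => v + y ∈ B)).card : ℝ)) with hG
  have h4 : ((s * (T.card + B.card - s) : ℕ) : ℝ) ≤ (s : ℝ) * G.card + τ * P := by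
    have h5 : ((s * (T.card + B.card - s) : ℕ) : ℝ) ≤
        ∑ y : ZMod P, ((min s (rep B (T.image (fun a => -a)) y) : ℕ) : ℝ) := by
      rw [← Nat.cast_sum]
      exact_mod_cast h1
    refine h5.trans ?_
    have h6 : ∀ y : ZMod P, ((min s (rep B (T.image (fun a => -a)) y) : ℕ) : ℝ) ≤
        (if τ ≤ ((T.filter (fun v => v + y ∈ B)).card : ℝ) then (s : ℝ) else 0) + τ := by
      intro y
      rw [hr]
      split_ifs with h
      · have : ((min s ((T.filter (fun v => v + y ∈ B)).card) : ℕ) : ℝ) ≤ s := by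
          exact_mod_cast min_le_left _ _
        linarith
      · push Not at h
        have : ((min s ((T.filter (fun v => v + y ∈ B)).card) : ℕ) : ℝ) ≤
            ((T.filter (fun v => v + y ∈ B)).card : ℝ) := by
          exact_mod_cast min_le_right _ _
        linarith
    refine (sum_le_sum fun y _ => h6 y).trans (le_of_eq ?_)
    rw [sum_add_distrib, ← sum_filter, sum_const, sum_const, card_univ, ZMod.card, nsmul_eq_mul, nsmul_eq_mul]
    ring
  have hs' : (0 : ℝ) < s := by exact_mod_cast hs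
  rw [Nat.cast_mul, Nat.cast_sub (by omega), Nat.cast_add] at h4
  have h7 : (s : ℝ) * ((T.card : ℝ) + B.card - s - τ * P / s) ≤ s * G.card := by
    have : (s : ℝ) * (τ * P / s) = τ * P := by field_simp
    nlinarith
  exact le_of_mul_le_mul_left h7 hs'

theorem lz_sum (P k : ℕ) [NeZero P] (A : Finset (ZMod P)) (B : Fin k → Finset (ZMod P)) :
    ∑ x : Fin k → ZMod P, (lzT A B x).card = A.card * ∏ i, (B i).card := by
  classical
  unfold lzT
  simp_rw [card_filter]
  rw [sum_comm]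
  rw [sum_const_nat (m := ∏ i, (B i).card)]
  intro v _
  rw [← card_filter]
  have h : (univ.filter (fun x : Fin k → ZMod P => ∀ i, v + x i ∈ B i)) =
      Fintype.piFinset (fun i => (B i).image (fun b => b - v)) := by
    ext x
    rw [mem_filter, Fintype.mem_piFinset]
    constructor
    · rintro ⟨_, h⟩ i
      rw [mem_image]
      exact ⟨v + x i, h i, by ring⟩
    · intro h
      refine ⟨mem_univ _, fun i => ?_⟩
      have := h i
      rw [mem_image] at this
      obtain ⟨b, hb, hbx⟩ := this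
      rw [← hbx]
      have e : v + (b - v) = b := by ring
      rw [e]
      exact hb
  rw [h, Fintype.card_piFinset]
  apply prod_congr rfl
  intro i _
  exact card_image_of_injective _ (sub_left_injective)

theorem lz_cons {P k : ℕ} (A : Finset (ZMod P)) (B : Fin (k + 1) → Finset (ZMod P)) (y : ZMod P)
    (x : Fin k → ZMod P) :
    lzT A B (Fin.cons y x : Fin (k + 1) → ZMod P) =
      (lzT A (fun i => B i.succ) x).filter (fun v => v + y ∈ B 0) := by
  unfold lzT
  rw [filter_filter]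
  apply filter_congr
  intro v _
  rw [Fin.forall_fin_succ]
  simp only [Fin.cons_zero, Fin.cons_succ]
  tauto

theorem lz_eq (k : ℕ) : ∀ c ε : ℝ, 0 < c → 0 < ε → ∃ θ : ℝ, 0 < θ ∧ ∃ P0 : ℕ, ∀ P : ℕ, P0 ≤ P →
    ∀ [Fact P.Prime] (a : ℕ), c * P ≤ a → 2 * a ≤ P → ∀ (A : Finset (ZMod P)) (B : Fin k → Finset (ZMod P)),
      A.card = a → (∀ i, (B i).card = a) →
      ((k : ℝ) + 1) * (a : ℝ) ^ k ≤
        ((univ.filter (fun x : Fin k → ZMod P => θ * P ≤ ((lzT A B x).card : ℝ))).card : ℝ) +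
          ε * (P : ℝ) ^ k := by
  induction k with
  | zero =>
    intro c ε hc hε
    refine ⟨c, hc, 0, ?_⟩
    intro P _ _ a ha _ A B hA _
    have h1 : (univ.filter (fun x : Fin 0 → ZMod P => c * P ≤ ((lzT A B x).card : ℝ))) = univ := by
      apply filter_true_of_mem
      intro x _
      have h2 : lzT A B x = A := by
        unfold lzT
        apply filter_true_of_mem
        intro v _ i
        exact i.elim0
      rw [h2, hA]
      exact ha
    rw [h1, card_univ]
    simp
    linarith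
  | succ k ih =>
    intro c ε hc hε
    obtain ⟨θ1, hθ1, P1, hP1⟩ := ih c (ε / 2) hc (by linarith)
    obtain ⟨σ, hσ⟩ : ∃ σ, σ = min θ1 (ε / 12) := ⟨_, rfl⟩
    have hσ0 : 0 < σ := by rw [hσ]; exact lt_min hθ1 (by linarith)
    have hσ1 : σ ≤ θ1 := by rw [hσ]; exact min_le_left _ _
    have hσ2 : σ ≤ ε / 12 := by rw [hσ]; exact min_le_right _ _
    refine ⟨σ * ε / 4, by positivity, max P1 ⌈1 / σ⌉₊, ?_⟩
    intro P hP hPp a ha h2a A B hA hB
    have hPP1 : P1 ≤ P := (le_max_left _ _).trans hP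
    have hP1' := hP1 P hPP1 a ha h2a A (fun i => B i.succ) hA (fun i => hB i.succ)
    have hPσ : 1 ≤ σ * P := by
      have h1 : ⌈1 / σ⌉₊ ≤ P := (le_max_right _ _).trans hP
      have h2 : 1 / σ ≤ P := (Nat.le_ceil _).trans (by exact_mod_cast h1)
      rw [div_le_iff₀ hσ0] at h2
      linarith
    have hPpos : (0 : ℝ) < P := by
      by_contra hcon
      push Not at hcon
      nlinarith
    obtain ⟨T, hT⟩ : ∃ T : (Fin k → ZMod P) → Finset (ZMod P), ∀ x, T x = lzT A (fun i => B i.succ) x :=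
      ⟨_, fun _ => rfl⟩
    have hTa : ∀ x, (T x).card ≤ a := by
      intro x
      rw [hT, ← hA]
      exact card_filter_le _ _
    obtain ⟨s, hs⟩ : ∃ s : ℕ, s = ⌈σ * P⌉₊ := ⟨_, rfl⟩
    have hs1 : σ * P ≤ s := by rw [hs]; exact Nat.le_ceil _
    have hs2 : (s : ℝ) ≤ 2 * σ * P := by
      have : (s : ℝ) < σ * P + 1 := by rw [hs]; exact Nat.ceil_lt_add_one (by positivity)
      linarith
    have hs0 : 0 < s := by
      have : (0 : ℝ) < s := by linarith
      exact_mod_cast this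
    have hsr : (0 : ℝ) < s := by exact_mod_cast hs0
    obtain ⟨τ, hτ⟩ : ∃ τ : ℝ, τ = σ * ε / 4 * P := ⟨_, rfl⟩
    have hτ0 : 0 ≤ τ := by rw [hτ]; positivity
    obtain ⟨G, hG⟩ : ∃ G : Finset (Fin k → ZMod P), G = univ.filter (fun x => σ * P ≤ ((T x).card : ℝ)) :=
      ⟨_, rfl⟩
    -- the fibres
    have hfib : ∀ x ∈ G, ((T x).card : ℝ) + a - 5 / 12 * ε * P ≤
        ((univ.filter (fun y : ZMod P => τ ≤ (((T x).filter (fun v => v + y ∈ B 0)).card : ℝ))).card : ℝ) := by
      intro x hx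
      rw [hG, mem_filter] at hx
      have h1 : s ≤ (T x).card := by
        rw [hs]
        exact Nat.ceil_le.2 hx.2
      have h2 := lz_pol P (T x) (B 0) s hs0 h1 (by rw [hB 0]; exact h1.trans (hTa x))
        (by rw [hB 0]; have := hTa x; omega) τ hτ0
      rw [hB 0] at h2
      refine le_trans ?_ h2
      have h3 : τ * P / s ≤ ε / 4 * P := by
        rw [div_le_iff₀ hsr, hτ]
        have : ε / 4 * P * (σ * P) ≤ ε / 4 * P * s := mul_le_mul_of_nonneg_left hs1 (by positivity)
        linarith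
      have h4 : 2 * σ * P ≤ ε / 6 * P := by
        have : σ * P ≤ ε / 12 * P := mul_le_mul_of_nonneg_right hσ2 hPpos.le
        linarith
      linarith
    have hcard : ((univ.filter (fun x : Fin (k + 1) → ZMod P => σ * ε / 4 * P ≤ ((lzT A B x).card : ℝ))).card : ℝ) =
        ∑ x : Fin k → ZMod P,
          ((univ.filter (fun y : ZMod P => τ ≤ (((T x).filter (fun v => v + y ∈ B 0)).card : ℝ))).card : ℝ) := by
      rw [card_filter]
      push_cast
      rw [← (Fin.consEquiv (fun _ : Fin (k + 1) => ZMod P)).sum_comp, Fintype.sum_prod_type, sum_comm]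
      apply sum_congr rfl
      intro x _
      rw [card_filter]
      push_cast
      apply sum_congr rfl
      intro y _
      rw [hT, hτ, ← lz_cons]
      rfl
    rw [hcard]
    have hsum : ∑ x ∈ G, (((T x).card : ℝ) + a - 5 / 12 * ε * P) ≤
        ∑ x : Fin k → ZMod P,
          ((univ.filter (fun y : ZMod P => τ ≤ (((T x).filter (fun v => v + y ∈ B 0)).card : ℝ))).card : ℝ) :=
      (sum_le_sum hfib).trans (sum_le_sum_of_subset_of_nonneg (subset_univ _) fun x _ _ => Nat.cast_nonneg _)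
    have hGc : (G.card : ℝ) ≤ (P : ℝ) ^ k := by
      have h1 : G.card ≤ (univ : Finset (Fin k → ZMod P)).card := card_le_univ _
      rw [card_univ, Fintype.card_fun, ZMod.card, Fintype.card_fin] at h1
      exact_mod_cast h1
    have htot : ∑ x : Fin k → ZMod P, ((T x).card : ℝ) = (a : ℝ) ^ (k + 1) := by
      have h1 := lz_sum P k A (fun i => B i.succ)
      rw [hA] at h1
      have h2 : ∏ i : Fin k, (B i.succ).card = a ^ k := by
        rw [prod_congr rfl fun i _ => hB i.succ, prod_const, card_univ, Fintype.card_fin]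
      rw [h2] at h1
      have h3 : ((∑ x : Fin k → ZMod P, (T x).card : ℕ) : ℝ) = ((a * a ^ k : ℕ) : ℝ) := by
        rw [← h1]
        simp_rw [hT]
      push_cast at h3
      rw [h3, pow_succ]
      ring
    have hsplit : ∑ x : Fin k → ZMod P, ((T x).card : ℝ) ≤ ∑ x ∈ G, ((T x).card : ℝ) + ε / 12 * P * (P : ℝ) ^ k := by
      rw [← sum_add_sum_compl G]
      have h1 : ∑ x ∈ Gᶜ, ((T x).card : ℝ) ≤ ∑ _x ∈ Gᶜ, ε / 12 * (P : ℝ) := by
        apply sum_le_sum
        intro x hx
        rw [mem_compl, hG, mem_filter] at hx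
        have h2 : ¬ (σ * P ≤ ((T x).card : ℝ)) := fun h => hx ⟨mem_univ _, h⟩
        push Not at h2
        have : σ * P ≤ ε / 12 * P := mul_le_mul_of_nonneg_right hσ2 hPpos.le
        linarith
      rw [sum_const, nsmul_eq_mul] at h1
      have h2 : ((Gᶜ : Finset (Fin k → ZMod P)).card : ℝ) ≤ (P : ℝ) ^ k := by
        have h1 : (Gᶜ : Finset (Fin k → ZMod P)).card ≤ (univ : Finset (Fin k → ZMod P)).card := card_le_univ _
        rw [card_univ, Fintype.card_fun, ZMod.card, Fintype.card_fin] at h1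
        exact_mod_cast h1
      have h3 : ((Gᶜ : Finset (Fin k → ZMod P)).card : ℝ) * (ε / 12 * P) ≤ (P : ℝ) ^ k * (ε / 12 * P) :=
        mul_le_mul_of_nonneg_right h2 (by positivity)
      linarith
    have hGσ : ((univ.filter (fun x : Fin k → ZMod P => θ1 * P ≤
        ((lzT A (fun i => B i.succ) x).card : ℝ))).card : ℝ) ≤ G.card := by
      have : univ.filter (fun x : Fin k → ZMod P => θ1 * P ≤
        ((lzT A (fun i => B i.succ) x).card : ℝ)) ⊆ G := by
        intro x hx
        rw [mem_filter] at hx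
        rw [hG, mem_filter]
        refine ⟨mem_univ _, ?_⟩
        rw [hT]
        have : σ * P ≤ θ1 * P := mul_le_mul_of_nonneg_right hσ1 hPpos.le
        linarith [hx.2]
      exact_mod_cast card_le_card this
    rw [sum_sub_distrib, sum_add_distrib, sum_const, sum_const, nsmul_eq_mul, nsmul_eq_mul] at hsum
    rw [htot] at hsplit
    have haP : (a : ℝ) ≤ P := by
      have : a ≤ P := by omega
      exact_mod_cast this
    have ha0 : (0 : ℝ) ≤ a := Nat.cast_nonneg _
    have h1 : (a : ℝ) * (((k : ℝ) + 1) * (a : ℝ) ^ k - ε / 2 * (P : ℝ) ^ k) ≤ a * G.card :=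
      mul_le_mul_of_nonneg_left (by linarith) ha0
    have h2 : (a : ℝ) * (ε / 2 * (P : ℝ) ^ k) ≤ P * (ε / 2 * (P : ℝ) ^ k) :=
      mul_le_mul_of_nonneg_right haP (by positivity)
    have h3 : (G.card : ℝ) * (5 / 12 * ε * P) ≤ (P : ℝ) ^ k * (5 / 12 * ε * P) :=
      mul_le_mul_of_nonneg_right hGc (by positivity)
    have e1 : (a : ℝ) * (((k : ℝ) + 1) * (a : ℝ) ^ k - ε / 2 * (P : ℝ) ^ k) =
      ((k : ℝ) + 1) * (a : ℝ) ^ (k + 1) - a * (ε / 2 * (P : ℝ) ^ k) := by ring
    have e2 : (P : ℝ) ^ (k + 1) = P * (P : ℝ) ^ k := by ring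
    rw [e1] at h1
    push_cast
    rw [e2]
    nlinarith

theorem lz (k : ℕ) (c ε : ℝ) (hc : 0 < c) (hε : 0 < ε) : ∃ θ : ℝ, 0 < θ ∧ ∃ P0 : ℕ, ∀ P : ℕ, P0 ≤ P →
    ∀ [Fact P.Prime] (a : ℕ), c * P ≤ a → 2 * a ≤ P → ∀ (A : Finset (ZMod P)) (B : Fin k → Finset (ZMod P)),
      a ≤ A.card → (∀ i, a ≤ (B i).card) →
      ((k : ℝ) + 1) * (a : ℝ) ^ k ≤
        ((univ.filter (fun x : Fin k → ZMod P => θ * P ≤ ((lzT A B x).card : ℝ))).card : ℝ) +
          ε * (P : ℝ) ^ k := by
  obtain ⟨θ, hθ, P0, h⟩ := lz_eq k c ε hc hε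
  refine ⟨θ, hθ, P0, ?_⟩
  intro P hP _ a ha h2a A B hA hB
  obtain ⟨A', hA', hA'c⟩ := exists_subset_card_eq hA
  choose B' hB' hB'c using fun i => exists_subset_card_eq (hB i)
  refine (h P hP a ha h2a A' B' hA'c hB'c).trans ?_
  have h1 : (univ.filter (fun x : Fin k → ZMod P => θ * P ≤ ((lzT A' B' x).card : ℝ))) ⊆
      (univ.filter (fun x : Fin k → ZMod P => θ * P ≤ ((lzT A B x).card : ℝ))) := by
    intro x hx
    rw [mem_filter] at hx ⊢
    refine ⟨mem_univ _, hx.2.trans ?_⟩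
    have : lzT A' B' x ⊆ lzT A B x := by
      unfold lzT
      intro v hv
      rw [mem_filter] at hv ⊢
      exact ⟨hA' hv.1, fun i => hB' i (hv.2 i)⟩
    exact_mod_cast card_le_card this
  have h2 : ((univ.filter (fun x : Fin k → ZMod P => θ * P ≤ ((lzT A' B' x).card : ℝ))).card : ℝ) ≤
      ((univ.filter (fun x : Fin k → ZMod P => θ * P ≤ ((lzT A B x).card : ℝ))).card : ℝ) := by
    exact_mod_cast card_le_card h1
  linarith

end Pool.Agent.H38.KT
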