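import Pool.Agent.H38.KT.Struct

/-!
[H38 KT LEVEL]  One level of the configuration.

Proof.  `P1`, `N` from `struct`.  Given `R`, `Q`, `H'`: `R_Q = {n | Q n ∈ R}`; `Longk R r0 Q` is the hypothesis of `struct` for `R_Q`.
`ι` = the functions `g : Fin (k+1) → H'` (subtype; or the subtype of `piFinset`), `|ι| = |H'|^(k+1)`, `v g i = (g (i+1) - g 0)/Q`, an integer multiple of `N`
(`Q N` divides every element of `H'`).  `B ≥ |h|` for all differences `h` of elements of `H'` (e.g. `B = ∑ 2|h|`).  `struct` gives `d`, `z`.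
Put `s = Q d`, `x 0 = 0`, `x (i+1) = Q z i` (`Fin.cons 0 (fun i => Q * z i)`).
* `cntk R_Q P (d m) (z + v + d w) = cntk R P (s m) (Q z + Q v + s w)`, so `POKk R_Q ρ κ K P L d (z + v g) ↔ POKk R ρ κ K P L s (i ↦ x (i+1) - x 0 + (g (i+1) - g 0))`.
* Injectivity: let `x i + s y + h = x i' + s y' + h'`.  If `i ≠ i'` then `|x i - x i'| > Q (B + d L)` while
  `|s (y - y')| < Q d L` and `|h - h'| ≤ B ≤ Q B`: contradiction.  So `i = i'`, `s (y - y') = h' - h`; if `y ≠ y'` the left side has absolute value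
  `≥ s = Q d > B`: contradiction.  So `y = y'`, `h = h'`.
-/

namespace Pool.Agent.H38.KT

open Finset Pool.Agent.H11.HM

theorem pok_scale {k : ℕ} (R : Set (Fin k → ℤ)) (ρ κ : ℝ) (K P L : ℕ) (Q d : ℤ) (z z' : Fin k → ℤ)
    (hz : ∀ i, z' i = Q * z i) :
    POKk R ρ κ K P L (Q * d) z' ↔ POKk {n : Fin k → ℤ | (fun i => Q * n i) ∈ R} ρ κ K P L d z := by
  classical
  have e : ∀ (m : ℕ) (w : Fin k → ℤ), cntk R P (Q * d * m) (fun i => z' i + Q * d * w i) =
      cntk {n : Fin k → ℤ | (fun i => Q * n i) ∈ R} P (d * m) (fun i => z i + d * w i) := by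
    intro m w
    unfold cntk
    congr 1
    apply filter_congr
    intro n _
    have e2 : (fun i => z' i + Q * d * w i + Q * d * m * (n i : ℤ)) =
        (fun i => Q * (z i + d * w i + d * m * (n i : ℤ))) := by
      funext i
      rw [hz]
      ring
    rw [e2]
    rfl
  unfold POKk
  simp_rw [e]

open Classical in
theorem level (k K : ℕ) (hk : 1 ≤ k) (hK : 1 ≤ K) (κ η γ : ℝ) (hκ : 0 < κ) (hη : 0 < η)
    (hγ : 0 < γ) : ∃ P1 : ℕ, 1 ≤ P1 ∧ ∀ P L : ℕ, P1 ≤ P → 1 ≤ L → ∃ N : ℕ, 1 ≤ N ∧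
      ∀ (r0 : ℝ) (R : Set (Fin k → ℤ)) (Q : ℕ), 0 < Q → Longk R r0 Q →
      ∀ H' : Finset ℤ, H'.Nonempty → (∀ h ∈ H', ((Q * N : ℕ) : ℤ) ∣ h) →
        ∃ (x : Fin (k + 1) → ℤ) (s : ℤ), (∀ i, (Q : ℤ) ∣ x i) ∧ (Q : ℤ) ∣ s ∧
          (∀ (i i' : Fin (k + 1)) (y y' h h' : ℤ), y ∈ Ico 0 (L : ℤ) → y' ∈ Ico 0 (L : ℤ) → h ∈ H' →
            h' ∈ H' → x i + s * y + h = x i' + s * y' + h' → i = i' ∧ y = y' ∧ h = h') ∧
          (((Fintype.piFinset fun _ : Fin (k + 1) => H').filter (fun g => ¬ POKk R (r0 - γ) κ K P L s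
            (fun i => x i.succ - x 0 + (g i.succ - g 0)))).card : ℝ) ≤
              η * (H'.card : ℝ) ^ (k + 1) := by
  obtain ⟨P1, hP1, hst⟩ := struct k K hk hK κ η γ hκ hη hγ
  refine ⟨P1, hP1, ?_⟩
  intro P L hP hL
  obtain ⟨N, hN, h⟩ := hst P L hP hL
  refine ⟨N, hN, ?_⟩
  intro r0 R Q hQ hlong H' hne hdiv
  obtain ⟨RQ, hRQ⟩ : ∃ RQ : Set (Fin k → ℤ), RQ = {n | (fun i => (Q : ℤ) * n i) ∈ R} := ⟨_, rfl⟩
  have hl : ∀ X0 : ℕ, ∃ (X : ℕ) (M : Fin k → ℤ), X0 ≤ X ∧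
        r0 * (X : ℝ) ^ k ≤ ∑ z ∈ cube X M, indk RQ z := by
    intro X0
    obtain ⟨X, M, hX, hM⟩ := hlong X0
    refine ⟨X, M, hX, hM.trans (le_of_eq ?_)⟩
    rw [card_filter]
    push_cast
    apply sum_congr rfl
    intro n _
    unfold indk
    rw [hRQ]
    rfl
  have hQz : (0 : ℤ) < Q := by exact_mod_cast hQ
  obtain ⟨PH, hPH⟩ : ∃ PH : Finset (Fin (k + 1) → ℤ), PH = Fintype.piFinset fun _ : Fin (k + 1) => H' :=
    ⟨_, rfl⟩
  have hPHc : (PH.card : ℝ) = (H'.card : ℝ) ^ (k + 1) := by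
    rw [hPH, Fintype.card_piFinset]
    simp
  obtain ⟨v, hv⟩ : ∃ v : PH → Fin k → ℤ, ∀ g i, v g i = (g.1 i.succ - g.1 0) / Q := ⟨_, fun _ _ => rfl⟩
  have hPHm : ∀ g : Fin (k + 1) → ℤ, g ∈ PH → ∀ i, g i ∈ H' := by
    intro g h1
    rw [hPH, Fintype.mem_piFinset] at h1
    exact h1
  have hgH : ∀ g : PH, ∀ i, g.1 i ∈ H' := fun g => hPHm g.1 g.2
  have hvQ : ∀ g i, (Q : ℤ) * v g i = g.1 i.succ - g.1 0 ∧ (N : ℤ) ∣ v g i := by
    intro g i
    have h1 := dvd_sub (hdiv _ (hgH g i.succ)) (hdiv _ (hgH g 0))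
    obtain ⟨c, hc⟩ := h1
    rw [hv, hc]
    push_cast
    rw [mul_assoc, Int.mul_ediv_cancel_left _ hQz.ne']
    exact ⟨rfl, dvd_mul_right _ _⟩
  obtain ⟨B, hB⟩ : ∃ B : ℕ, B = ∑ h ∈ H', 2 * h.natAbs := ⟨_, rfl⟩
  have hBh : ∀ h ∈ H', ∀ h' ∈ H', |h - h'| ≤ B := by
    have h1 : ∀ h ∈ H', 2 * h.natAbs ≤ B := by
      intro h hh
      rw [hB]
      exact single_le_sum (f := fun h : ℤ => 2 * h.natAbs) (fun _ _ => Nat.zero_le _) hh
    intro h hh h' hh'
    have h2 := h1 h hh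
    have h3 := h1 h' hh'
    rw [abs_le]
    omega
  obtain ⟨d, z, hBd, hz1, hz2, hcount⟩ := h r0 RQ hl PH v (fun g i => (hvQ g i).2) B
  refine ⟨Fin.cons 0 (fun i => (Q : ℤ) * z i), (Q : ℤ) * d, ?_, dvd_mul_right _ _, ?_, ?_⟩
  · intro i
    refine Fin.cases ?_ ?_ i
    · simp
    · intro j
      simp
  · intro i i' y y' g g' hy hy' hg hg' heq
    rw [mem_Ico] at hy hy'
    have hgg := hBh g' hg' g hg
    have hQ1 : (1 : ℤ) ≤ Q := hQz
    have hd0 : (0 : ℤ) ≤ d := Int.natCast_nonneg _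
    have hB0 : (0 : ℤ) ≤ B := Int.natCast_nonneg _
    have hBQ : (B : ℤ) ≤ Q * B := by nlinarith
    have hQd : (0 : ℤ) ≤ Q * d := mul_nonneg hQz.le hd0
    have hyy : |(Q : ℤ) * d * (y' - y)| ≤ Q * (d * L) := by
      rw [abs_mul, abs_of_nonneg hQd, mul_assoc]
      apply mul_le_mul_of_nonneg_left _ hQz.le
      apply mul_le_mul_of_nonneg_left _ hd0
      rw [abs_le]
      constructor <;> linarith [hy.1, hy.2, hy'.1, hy'.2]
    by_cases hii : i = i'
    · subst hii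
      refine ⟨rfl, ?_⟩
      have h1 : (Q : ℤ) * d * (y - y') = g' - g := by linarith
      by_cases hyy' : y = y'
      · subst hyy'
        refine ⟨rfl, ?_⟩
        rw [sub_self, mul_zero] at h1
        linarith
      · exfalso
        have h2 : 1 ≤ |y - y'| := Int.one_le_abs (sub_ne_zero.2 hyy')
        have h3 : |(Q : ℤ) * d * (y - y')| ≤ B := by rw [h1]; exact hgg
        rw [abs_mul, abs_of_nonneg hQd] at h3
        have h4 : (B : ℤ) < d := by exact_mod_cast hBd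
        have h5 : (Q : ℤ) * d * 1 ≤ Q * d * |y - y'| := mul_le_mul_of_nonneg_left h2 hQd
        nlinarith
    · exfalso
      have hfar : ∀ i i' : Fin (k + 1), i ≠ i' → (Q : ℤ) * (B + d * L) <
          |(Fin.cons 0 (fun i => (Q : ℤ) * z i) : Fin (k + 1) → ℤ) i -
            (Fin.cons 0 (fun i => (Q : ℤ) * z i) : Fin (k + 1) → ℤ) i'| := by
        intro i i'
        refine Fin.cases ?_ ?_ i
        · refine Fin.cases ?_ ?_ i'
          · intro h1
            exact absurd rfl h1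
          · intro j _
            rw [Fin.cons_zero, Fin.cons_succ, zero_sub, abs_neg, abs_mul, abs_of_pos hQz]
            exact mul_lt_mul_of_pos_left (hz1 j) hQz
        · intro j
          refine Fin.cases ?_ ?_ i'
          · intro _
            rw [Fin.cons_zero, Fin.cons_succ, sub_zero, abs_mul, abs_of_pos hQz]
            exact mul_lt_mul_of_pos_left (hz1 j) hQz
          · intro j' hjj
            rw [Fin.cons_succ, Fin.cons_succ, ← mul_sub, abs_mul, abs_of_pos hQz]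
            refine mul_lt_mul_of_pos_left (hz2 j j' ?_) hQz
            intro h1
            exact hjj (by rw [h1])
      have h1 := hfar i i' hii
      have h2 : (Fin.cons 0 (fun i => (Q : ℤ) * z i) : Fin (k + 1) → ℤ) i -
            (Fin.cons 0 (fun i => (Q : ℤ) * z i) : Fin (k + 1) → ℤ) i' =
            (Q : ℤ) * d * (y' - y) + (g' - g) := by linarith
      rw [h2] at h1
      have h3 := abs_add_le ((Q : ℤ) * d * (y' - y)) (g' - g)
      nlinarith
  · rw [← hPH, ← hPHc]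
    have hcard : (Fintype.card PH : ℝ) = PH.card := by
      rw [Fintype.card_coe]
    rw [hcard] at hcount
    refine le_trans ?_ hcount
    have h1 : (PH.filter (fun g => ¬ POKk R (r0 - γ) κ K P L ((Q : ℤ) * d)
            (fun i => (Fin.cons 0 (fun i => (Q : ℤ) * z i) : Fin (k + 1) → ℤ) i.succ -
              (Fin.cons 0 (fun i => (Q : ℤ) * z i) : Fin (k + 1) → ℤ) 0 + (g i.succ - g 0)))) ⊆
        (((univ : Finset PH).filter
            (fun j => ¬ POKk RQ (r0 - γ) κ K P L d (fun i => z i + v j i))).image (fun j => j.1)) := by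
      intro g hg
      rw [mem_filter] at hg
      rw [mem_image]
      refine ⟨⟨g, hg.1⟩, ?_, rfl⟩
      rw [mem_filter]
      refine ⟨mem_univ _, ?_⟩
      intro h2
      apply hg.2
      rw [pok_scale R (r0 - γ) κ K P L Q d (fun i => z i + v ⟨g, hg.1⟩ i), ← hRQ]
      · exact h2
      · intro i
        have h3 := (hvQ ⟨g, hg.1⟩ i).1
        simp only [Fin.cons_succ, Fin.cons_zero] at h3 ⊢
        rw [mul_add, h3]
        ring
    exact_mod_cast (card_le_card h1).trans card_image_le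

end Pool.Agent.H38.KT
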