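import Pool.Agent.H38.KT.Df

/-!
[H38 KT LSUM]  Sums over boxes as averages over lines.

Proof.  `(z, t) ↦ (update z i t, z i)` is an involution of `(piFinset I) × (I i)`, so
`∑_{(z,t)} F (update z i t) = ∑_{(z',t')} F z'`.
-/

namespace Pool.Agent.H38.KT

open Finset Pool.Agent.H11.HM

theorem line_sum {k : ℕ} (I : Fin k → Finset ℤ) (i : Fin k) (F : (Fin k → ℤ) → ℝ) :
    ∑ z ∈ Fintype.piFinset I, ∑ t ∈ I i, F (Function.update z i t) =
      (I i).card * ∑ z ∈ Fintype.piFinset I, F z := by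
  classical
  have h : ∑ x ∈ Fintype.piFinset I ×ˢ I i, F x.1 = (I i).card * ∑ z ∈ Fintype.piFinset I, F z := by
    rw [Finset.sum_product, Finset.mul_sum]
    refine Finset.sum_congr rfl fun z _ => ?_
    simp only [Finset.sum_const, nsmul_eq_mul]
  rw [← h, ← Finset.sum_product']
  refine Finset.sum_nbij' (fun x => (Function.update x.1 i x.2, x.1 i))
    (fun x => (Function.update x.1 i x.2, x.1 i)) ?_ ?_ ?_ ?_ ?_
  · rintro ⟨z, t⟩ hx
    rw [mem_product, Fintype.mem_piFinset] at hx ⊢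
    refine ⟨fun j => ?_, hx.1 i⟩
    by_cases hj : j = i
    · subst hj
      simpa using hx.2
    · simpa [Function.update_of_ne hj] using hx.1 j
  · rintro ⟨z, t⟩ hx
    rw [mem_product, Fintype.mem_piFinset] at hx ⊢
    refine ⟨fun j => ?_, hx.1 i⟩
    by_cases hj : j = i
    · subst hj
      simpa using hx.2
    · simpa [Function.update_of_ne hj] using hx.1 j
  · rintro ⟨z, t⟩ _
    simp
  · rintro ⟨z, t⟩ _
    simp
  · rintro ⟨z, t⟩ _
    rfl

theorem card_acube {k : ℕ} (l T : ℕ) (a : Fin k → ℤ) :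
    ((acube l T a).card : ℝ) = (((l * T : ℕ)) : ℝ) ^ k := by
  unfold acube
  rw [Fintype.card_piFinset]
  simp only [Int.card_Ico]
  have h : ∀ i : Fin k, ((l : ℤ) * (a i + T) - l * a i).toNat = l * T := by
    intro i
    have : (l : ℤ) * (a i + T) - l * a i = ((l * T : ℕ) : ℤ) := by push_cast; ring
    rw [this, Int.toNat_natCast]
  simp only [h, prod_const, card_univ, Fintype.card_fin]
  push_cast
  rfl

theorem card_cube {k : ℕ} (X : ℕ) (M : Fin k → ℤ) : ((cube X M).card : ℝ) = (X : ℝ) ^ k := by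
  unfold cube
  rw [Fintype.card_piFinset]
  simp

end Pool.Agent.H38.KT
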