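import Pool.Agent.H38.KT.Df
import Pool.Agent.H21.GH.Apf
import Pool.Agent.H21.GH.Cor
import Pool.Agent.H21.GH.Bil

/-!
[H38 KT PHI]  Stability of the `k`-dimensional correlations under the common almost period (helper11).

`phi S0 S n = #{y ∈ S0 | y + n i ∈ S i for all i < k}`.

* `cor_stab`: by the bilinear inequality (GH/Bil) with `N = 2L`, `u a = 1_T(L - a)`, `v b = ±1`:
  `(∑_n |cor T S (n+q) - cor T S n|)^2 ≤ (2L)^2 ∑_(|n| < 2L) |2 c(n) - c(n+q) - c(n-q)|`, `c = cor S S`.
* `stab_fam`: common almost period (GH/Apf) of the autocorrelations of the `F i`.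
* `phi_stab`: telescoping over the coordinates in `D`; for fixed `n i` (`i ≠ j`) the function `phi` of `n j` is a correlation `cor T (S j)`.
-/

namespace Pool.Agent.H38.KT

open Finset Pool.Agent.H11.HM

theorem cor_ind (T S : Finset ℤ) (n : ℤ) : (cor T S n : ℝ) = ∑ y ∈ T, ind (S : Set ℤ) (y + n) := by
  unfold cor ind
  rw [card_filter]
  push_cast
  apply sum_congr rfl
  intro y _
  congr 1

theorem cor_stab (S T : Finset ℤ) (L : ℕ) (q : ℤ) (hT : T ⊆ Ico 0 (L : ℤ)) :
    (∑ n ∈ Ioo (-(L : ℤ)) L, |(cor T S (n + q) : ℝ) - cor T S n|) ^ 2 ≤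
      ((2 * L : ℕ) : ℝ) ^ 2 * (2 * ∑ n ∈ Ioo (-((2 * L : ℕ) : ℤ)) ((2 * L : ℕ) : ℤ),
        |(cor S S (n + q) : ℝ) - cor S S n|) := by
  classical
  obtain ⟨sg, hsg⟩ : ∃ sg : ℤ → ℝ, ∀ n, sg n = if 0 ≤ (cor T S (n + q) : ℝ) - cor T S n then 1 else -1 :=
    ⟨_, fun _ => rfl⟩
  obtain ⟨u, hu⟩ : ∃ u : ℕ → ℝ, ∀ a, u a = if (L : ℤ) - a ∈ T then 1 else 0 := ⟨_, fun _ => rfl⟩
  obtain ⟨v, hv⟩ : ∃ v : ℕ → ℝ, ∀ b, v b = if (b : ℤ) - L ∈ Ioo (-(L : ℤ)) L then sg ((b : ℤ) - L) else 0 :=
    ⟨_, fun _ => rfl⟩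
  have hu1 : ∀ a, |u a| ≤ 1 := by
    intro a
    rw [hu]
    split_ifs <;> simp
  have hv1 : ∀ b, |v b| ≤ 1 := by
    intro b
    rw [hv]
    split_ifs
    · rw [hsg]
      split_ifs <;> simp
    · simp
  have hbil := H21.GH.bilinear S (2 * L) q u v hu1 hv1
  have h2 := H21.GH.cor_second S (2 * L) q
  have h3 : ∑ n ∈ Ioo (-(L : ℤ)) L, |(cor T S (n + q) : ℝ) - cor T S n| =
      ∑ a ∈ range (2 * L), ∑ b ∈ range (2 * L),
        (ind (S : Set ℤ) ((b : ℤ) - a + q) - ind (S : Set ℤ) ((b : ℤ) - a)) * u a * v b := by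
    rw [sum_comm]
    have e1 : ∀ n : ℤ, |(cor T S (n + q) : ℝ) - cor T S n| =
        sg n * ∑ y ∈ T, (ind (S : Set ℤ) (y + (n + q)) - ind (S : Set ℤ) (y + n)) := by
      intro n
      rw [sum_sub_distrib, ← cor_ind, ← cor_ind, hsg]
      split_ifs with h
      · rw [abs_of_nonneg h, one_mul]
      · push Not at h
        rw [abs_of_neg h, neg_one_mul]
    rw [sum_congr rfl fun n _ => e1 n]
    have e2 : ∀ n : ℤ, ∑ y ∈ T, (ind (S : Set ℤ) (y + (n + q)) - ind (S : Set ℤ) (y + n)) =
        ∑ a ∈ range (2 * L), (ind (S : Set ℤ) (n + L - a + q) - ind (S : Set ℤ) (n + L - a)) * u a := by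
      intro n
      have e3 : ∑ a ∈ range (2 * L), (ind (S : Set ℤ) (n + L - a + q) - ind (S : Set ℤ) (n + L - a)) * u a =
          ∑ a ∈ (range (2 * L)).filter (fun a : ℕ => (L : ℤ) - a ∈ T),
            (ind (S : Set ℤ) (n + L - a + q) - ind (S : Set ℤ) (n + L - a)) := by
        rw [sum_filter]
        apply sum_congr rfl
        intro a _
        rw [hu]
        split_ifs <;> simp
      rw [e3]
      symm
      apply sum_bij (fun (a : ℕ) _ => (L : ℤ) - a)
      · intro a ha
        exact (mem_filter.1 ha).2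
      · intro a _ b _ h
        have : (a : ℤ) = b := by linarith
        exact_mod_cast this
      · intro y hy
        have hy' := hT hy
        rw [mem_Ico] at hy'
        refine ⟨((L : ℤ) - y).toNat, ?_, ?_⟩
        · rw [mem_filter, mem_range]
          have e4 : (((L : ℤ) - y).toNat : ℤ) = L - y := Int.toNat_of_nonneg (by linarith)
          constructor
          · omega
          · rw [e4]
            have : (L : ℤ) - (L - y) = y := by ring
            rw [this]
            exact hy
        · have e4 : (((L : ℤ) - y).toNat : ℤ) = L - y := Int.toNat_of_nonneg (by linarith)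
          rw [e4]
          ring
      · intro a _
        have e5 : (L : ℤ) - a + (n + q) = n + L - a + q := by ring
        have e6 : (L : ℤ) - a + n = n + L - a := by ring
        rw [e5, e6]
    rw [sum_congr rfl fun n _ => by rw [e2 n]]
    have e7 : ∑ b ∈ range (2 * L), ∑ a ∈ range (2 * L),
        (ind (S : Set ℤ) ((b : ℤ) - a + q) - ind (S : Set ℤ) ((b : ℤ) - a)) * u a * v b =
        ∑ b ∈ (range (2 * L)).filter (fun b : ℕ => (b : ℤ) - L ∈ Ioo (-(L : ℤ)) L),
          sg ((b : ℤ) - L) * ∑ a ∈ range (2 * L),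
            (ind (S : Set ℤ) ((b : ℤ) - a + q) - ind (S : Set ℤ) ((b : ℤ) - a)) * u a := by
      rw [sum_filter]
      apply sum_congr rfl
      intro b _
      rw [← sum_mul, hv]
      split_ifs
      · ring
      · ring
    rw [e7]
    symm
    apply sum_bij (fun (b : ℕ) _ => (b : ℤ) - L)
    · intro b hb
      exact (mem_filter.1 hb).2
    · intro a _ b _ h
      have : (a : ℤ) = b := by linarith
      exact_mod_cast this
    · intro n hn
      have hn' := mem_Ioo.1 hn
      have e4 : ((n + L).toNat : ℤ) = n + L := Int.toNat_of_nonneg (by linarith)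
      refine ⟨(n + L).toNat, ?_, ?_⟩
      · rw [mem_filter, mem_range]
        constructor
        · omega
        · rw [e4]
          have : n + (L : ℤ) - L = n := by ring
          rw [this]
          exact hn
      · rw [e4]
        ring
    · intro b _
      have e5 : (b : ℤ) - L + L = b := by ring
      rw [e5]
  rw [h3]
  refine hbil.trans ?_
  exact mul_le_mul_of_nonneg_left h2 (by positivity)

/-- a common almost period -/
theorem stab_fam (j : ℕ) (η : ℝ) (h0 : 0 < η) (h1 : η ≤ 1) : ∃ K : ℕ, 1 ≤ K ∧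
    ∀ P L : ℕ, 1 ≤ P → K * P ≤ L → ∀ F : Fin j → Finset ℤ, (∀ i, F i ⊆ Ico 0 (L : ℤ)) →
      ∃ m : ℕ, 1 ≤ m ∧ m ≤ K ∧ ∀ i, ∀ T : Finset ℤ, T ⊆ Ico 0 (L : ℤ) →
        ∑ n ∈ Ioo (-(L : ℤ)) L, |(cor T (F i) (n + m * P) : ℝ) - (cor T (F i) n : ℝ)| ≤
          η * (L : ℝ) ^ 2 := by
  obtain ⟨K, hK1, hK⟩ := H21.GH.ap_fam j (η ^ 2 / 36) (by positivity) (by nlinarith)
  refine ⟨K, hK1, ?_⟩
  intro P L hP hKP F hF
  obtain ⟨m, hm1, hmK, hm⟩ := hK P (2 * L) hP (hKP.trans (by omega)) F (fun i => (hF i).trans (by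
    intro y hy
    rw [mem_Ico] at hy ⊢
    push_cast
    constructor
    · exact hy.1
    · linarith [hy.1, hy.2]))
  refine ⟨m, hm1, hmK, ?_⟩
  intro i T hT
  have h2 := cor_stab (F i) T L (m * P) hT
  have h3 := hm i
  have h4 : (∑ n ∈ Ioo (-(L : ℤ)) L, |(cor T (F i) (n + m * P) : ℝ) - (cor T (F i) n : ℝ)|) ^ 2 ≤
      (η * (L : ℝ) ^ 2) ^ 2 := by
    refine h2.trans ?_
    have h5 : ((2 * L : ℕ) : ℝ) ^ 2 * (2 * ∑ n ∈ Ioo (-((2 * L : ℕ) : ℤ)) ((2 * L : ℕ) : ℤ),
        |(cor (F i) (F i) (n + m * P) : ℝ) - cor (F i) (F i) n|) ≤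
        ((2 * L : ℕ) : ℝ) ^ 2 * (2 * (η ^ 2 / 36 * ((2 * L : ℕ) : ℝ) ^ 2)) := by
      apply mul_le_mul_of_nonneg_left _ (by positivity)
      linarith
    refine h5.trans ?_
    push_cast
    have : 0 ≤ η ^ 2 * (L : ℝ) ^ 4 := by positivity
    nlinarith
  exact le_of_sq_le_sq h4 (by positivity)

/-- the `k`-dimensional correlation -/
def phi {k : ℕ} (S0 : Finset ℤ) (S : Fin k → Finset ℤ) (n : Fin k → ℤ) : ℕ :=
  (S0.filter (fun y => ∀ i, y + n i ∈ S i)).card

/-- sums over the lines in direction `j` -/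
theorem phi_line_sum {k : ℕ} (I : Finset ℤ) (j : Fin k) (g : (Fin k → ℤ) → ℝ) (B : ℝ)
    (h : ∀ n ∈ Fintype.piFinset (fun _ : Fin k => I), ∑ c ∈ I, g (Function.update n j c) ≤ B) :
    (I.card : ℝ) * ∑ n ∈ Fintype.piFinset (fun _ : Fin k => I), g n ≤ (I.card : ℝ) ^ k * B := by
  classical
  obtain ⟨O, hO⟩ : ∃ O : Finset (Fin k → ℤ), O = Fintype.piFinset (fun _ : Fin k => I) := ⟨_, rfl⟩
  have hOc : O.card = I.card ^ k := by
    rw [hO, Fintype.card_piFinset]
    simp
  rw [← hO] at h ⊢
  have h1 : ∑ p ∈ O ×ˢ I, g (Function.update p.1 j p.2) = ∑ p ∈ O ×ˢ I, g p.1 := by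
    apply sum_nbij' (fun p => (Function.update p.1 j p.2, p.1 j)) (fun p => (Function.update p.1 j p.2, p.1 j))
    · intro p hp
      rw [mem_product, hO, Fintype.mem_piFinset] at hp ⊢
      refine ⟨?_, hp.1 j⟩
      intro i
      by_cases hi : i = j
      · subst hi
        simp only [Function.update_self]
        exact hp.2
      · simp only
        rw [Function.update_of_ne hi]
        exact hp.1 i
    · intro p hp
      rw [mem_product, hO, Fintype.mem_piFinset] at hp ⊢
      refine ⟨?_, hp.1 j⟩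
      intro i
      by_cases hi : i = j
      · subst hi
        simp only [Function.update_self]
        exact hp.2
      · simp only
        rw [Function.update_of_ne hi]
        exact hp.1 i
    · intro p _
      simp
    · intro p _
      simp
    · intro p _
      rfl
  rw [sum_product, sum_product] at h1
  have h2 : ∑ n ∈ O, ∑ c ∈ I, g (Function.update n j c) ≤ ∑ _n ∈ O, B := sum_le_sum h
  rw [h1] at h2
  simp only [sum_const, nsmul_eq_mul] at h2
  rw [← mul_sum, hOc] at h2
  push_cast at h2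
  exact h2

theorem phi_line {k : ℕ} (S0 : Finset ℤ) (S : Fin k → Finset ℤ) (n : Fin k → ℤ) (j : Fin k) (c : ℤ) :
    phi S0 S (Function.update n j c) =
      cor (S0.filter (fun y => ∀ i, i ≠ j → y + n i ∈ S i)) (S j) c := by
  unfold phi cor
  rw [filter_filter]
  congr 1
  apply filter_congr
  intro y _
  constructor
  · intro h
    constructor
    · intro i hi
      have := h i
      rw [Function.update_of_ne hi] at this
      exact this
    · have := h j
      rw [Function.update_self] at this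
      exact this
  · rintro ⟨h1, h2⟩ i
    by_cases hi : i = j
    · subst hi
      rw [Function.update_self]
      exact h2
    · rw [Function.update_of_ne hi]
      exact h1 i hi

open Classical in
/-- the shift by `q` in the directions of `D` -/
noncomputable def shf {k : ℕ} (q : ℤ) (D : Finset (Fin k)) (n : Fin k → ℤ) : Fin k → ℤ :=
  fun i => n i + if i ∈ D then q else 0

theorem phi_stab {k : ℕ} (L : ℕ) (hL : 1 ≤ L) (q : ℤ) (η : ℝ) (h0 : 0 ≤ η) (S0 : Finset ℤ) (S : Fin k → Finset ℤ)
    (hS0 : S0 ⊆ Ico 0 (L : ℤ))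
    (H : ∀ i, ∀ T : Finset ℤ, T ⊆ Ico 0 (L : ℤ) →
      ∑ n ∈ Ioo (-(L : ℤ)) L, |(cor T (S i) (n + q) : ℝ) - (cor T (S i) n : ℝ)| ≤ η * (L : ℝ) ^ 2)
    (D : Finset (Fin k)) :
    ∑ n ∈ ocube k L, |(phi S0 S (shf q D n) : ℝ) - phi S0 S n| ≤ D.card * (η * (2 * (L : ℝ)) ^ k * L) := by
  classical
  induction D using Finset.induction_on with
  | empty =>
    rw [sum_eq_zero]
    · simp
    · intro n _
      have : shf q ∅ n = n := by
        funext i
        simp [shf]
      rw [this, sub_self, abs_zero]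
  | insert j D hj ih =>
    rw [card_insert_of_notMem hj]
    have h1 : ∑ n ∈ ocube k L, |(phi S0 S (shf q (insert j D) n) : ℝ) - phi S0 S n| ≤
        ∑ n ∈ ocube k L, |(phi S0 S (shf q (insert j D) n) : ℝ) - phi S0 S (shf q D n)| +
          ∑ n ∈ ocube k L, |(phi S0 S (shf q D n) : ℝ) - phi S0 S n| := by
      rw [← sum_add_distrib]
      exact sum_le_sum fun n _ => abs_sub_le _ _ _
    have h2 : ∑ n ∈ ocube k L, |(phi S0 S (shf q (insert j D) n) : ℝ) - phi S0 S (shf q D n)| ≤
        η * (2 * (L : ℝ)) ^ k * L := by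
      have h3 := phi_line_sum (Ioo (-(L : ℤ)) L) j
        (fun n => |(phi S0 S (shf q (insert j D) n) : ℝ) - phi S0 S (shf q D n)|) (η * (L : ℝ) ^ 2) (by
          intro n _
          have h4 := H j (S0.filter (fun y => ∀ i, i ≠ j → y + shf q D n i ∈ S i))
            ((filter_subset _ _).trans hS0)
          refine le_trans (le_of_eq ?_) h4
          apply sum_congr rfl
          intro c _
          have e1 : shf q (insert j D) (Function.update n j c) = Function.update (shf q D n) j (c + q) := by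
            funext i
            by_cases hi : i = j
            · subst hi
              simp [shf]
            · simp only [shf, mem_insert]
              rw [Function.update_of_ne hi, Function.update_of_ne hi]
              simp [hi, shf]
          have e2 : shf q D (Function.update n j c) = Function.update (shf q D n) j c := by
            funext i
            by_cases hi : i = j
            · subst hi
              simp [shf, hj]
            · simp only [shf]
              rw [Function.update_of_ne hi, Function.update_of_ne hi]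
              rfl
          rw [e1, e2, phi_line, phi_line])
      have hIc : ((Ioo (-(L : ℤ)) L).card : ℝ) = 2 * L - 1 := by
        rw [Int.card_Ioo]
        have : ((L : ℤ) - -L - 1).toNat = 2 * L - 1 := by omega
        rw [this, Nat.cast_sub (by omega)]
        push_cast
        ring
      have hLr : (1 : ℝ) ≤ L := by exact_mod_cast hL
      rw [hIc] at h3
      have h5 : (2 * (L : ℝ) - 1) ^ k ≤ (2 * (L : ℝ)) ^ k :=
        pow_le_pow_left₀ (by linarith) (by linarith) k
      have h6 : (2 * (L : ℝ) - 1) ^ k * (η * (L : ℝ) ^ 2) ≤ (2 * (L : ℝ) - 1) * (η * (2 * (L : ℝ)) ^ k * L) := by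
        calc (2 * (L : ℝ) - 1) ^ k * (η * (L : ℝ) ^ 2) ≤ (2 * (L : ℝ)) ^ k * (η * (L : ℝ) ^ 2) :=
              mul_le_mul_of_nonneg_right h5 (by positivity)
          _ = L * (η * (2 * (L : ℝ)) ^ k * L) := by ring
          _ ≤ (2 * (L : ℝ) - 1) * (η * (2 * (L : ℝ)) ^ k * L) :=
              mul_le_mul_of_nonneg_right (by linarith) (by positivity)
      have h7 := h3.trans h6
      exact le_of_mul_le_mul_left h7 (by linarith)
    push_cast
    linarith

end Pool.Agent.H38.KT
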