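import Pool.Agent.H38.KT.Lsum

/-!
[H38 KT RARE]  Rare positions in an aligned cube.  `W = acube l0 T a`, `Y = l0 T`, `|W| = Y^k`.

* `rare_blk`: the number of the `z ∈ W` such that some `z i` has `z i % l < B` or `l ≤ z i % l + B` is at most `k · 2 B |W|/l`: for fixed `i` the
  number of the `u ∈ Ico (l0 a_i) (l0 (a_i + T))` with this property is at most `2 B · Y/l` (an interval which is a union of `Y/l` blocks
  of length `l`, each with at most `2 B` such elements: injection `u ↦ (u / l, u % l)` into `Ico (c a_i) (c (a_i + T)) × (Ico 0 B ∪ Ico (l - B) l)`, `l0 = l c`),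
  times `Y^(k-1)` for the other coordinates (`Fintype.card_piFinset`, or `line_sum`).
* `rare_pos`: the number of the `z ∈ W` with `|z i| ≤ B` for some `i` or `|z i - z j| ≤ B` for some `i ≠ j` is at most
  `(k + k^2)(2B + 1) |W|/Y`: for fixed `i` (and `j`) and fixed other coordinates at most `2 B + 1` values of `z i` (`line_sum` with the indicator
  function; for `i ≠ j` the value `z j` is not changed by `update z i u`).
-/

namespace Pool.Agent.H38.KT

open Finset Pool.Agent.H11.HM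

private theorem rare_union {α ι : Type*} [DecidableEq α] (W : Finset α) (S : Finset ι)
    (P : ι → α → Prop) [∀ i, DecidablePred (P i)] [DecidablePred fun z => ∃ i ∈ S, P i z] (b : ℝ)
    (h : ∀ i ∈ S, ((W.filter (P i)).card : ℝ) ≤ b) :
    ((W.filter (fun z => ∃ i ∈ S, P i z)).card : ℝ) ≤ S.card * b := by
  have h1 : W.filter (fun z => ∃ i ∈ S, P i z) = S.biUnion (fun i => W.filter (P i)) := by
    ext z
    simp only [mem_filter, mem_biUnion]
    constructor
    · rintro ⟨h1, i, hi, h2⟩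
      exact ⟨i, hi, h1, h2⟩
    · rintro ⟨i, hi, h1, h2⟩
      exact ⟨h1, i, hi, h2⟩
  rw [h1]
  have h2 : ((S.biUnion (fun i => W.filter (P i))).card : ℝ) ≤
      ∑ i ∈ S, ((W.filter (P i)).card : ℝ) := by exact_mod_cast card_biUnion_le
  refine h2.trans ((Finset.sum_le_card_nsmul S _ b h).trans ?_)
  rw [nsmul_eq_mul]

private theorem rare_line {k : ℕ} (I : Fin k → Finset ℤ) (i : Fin k) (P : (Fin k → ℤ) → Prop)
    [DecidablePred P] (m : ℝ) (h : ∀ z ∈ Fintype.piFinset I,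
      (((I i).filter (fun t => P (Function.update z i t))).card : ℝ) ≤ m) :
    ((I i).card : ℝ) * (((Fintype.piFinset I).filter P).card : ℝ) ≤
      m * ((Fintype.piFinset I).card : ℝ) := by
  have h1 := line_sum I i (fun z => if P z then (1 : ℝ) else 0)
  have h2 : ∑ z ∈ Fintype.piFinset I, (if P z then (1 : ℝ) else 0) =
      (((Fintype.piFinset I).filter P).card : ℝ) := by
    rw [Finset.sum_boole]
  rw [h2] at h1
  rw [← h1]
  have h3 : ∀ z ∈ Fintype.piFinset I,
      (∑ t ∈ I i, if P (Function.update z i t) then (1 : ℝ) else 0) ≤ m := by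
    intro z hz
    rw [Finset.sum_boole]
    exact h z hz
  refine (Finset.sum_le_card_nsmul _ _ m h3).trans ?_
  rw [nsmul_eq_mul, mul_comm]

private theorem rare_acube {k : ℕ} (l0 T : ℕ) (hl0 : 1 ≤ l0) (hT : 1 ≤ T) (a : Fin k → ℤ)
    (i : Fin k) (P : (Fin k → ℤ) → Prop) [DecidablePred P] (m : ℝ)
    (h : ∀ z : Fin k → ℤ, (((Ico ((l0 : ℤ) * a i) (l0 * (a i + T))).filter
      (fun t => P (Function.update z i t))).card : ℝ) ≤ m) :
    (((acube l0 T a).filter P).card : ℝ) ≤ m * (((l0 * T : ℕ)) : ℝ) ^ k / ((l0 * T : ℕ)) := by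
  have h1 := rare_line (fun i => Ico ((l0 : ℤ) * a i) (l0 * (a i + T))) i P m (fun z _ => h z)
  have h2 := card_acube l0 T a
  have hc : ((Ico ((l0 : ℤ) * a i) (l0 * (a i + T))).card : ℝ) = ((l0 * T : ℕ) : ℝ) := by
    rw [Int.card_Ico]
    have h3 : (l0 : ℤ) * (a i + T) - l0 * a i = ((l0 * T : ℕ) : ℤ) := by
      push_cast
      ring
    rw [h3, Int.toNat_natCast]
  have hY : (0 : ℝ) < ((l0 * T : ℕ) : ℝ) := by
    have : 0 < l0 * T := Nat.mul_pos hl0 hT
    exact_mod_cast this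
  unfold acube at h2 ⊢
  rw [hc, h2] at h1
  rw [le_div_iff₀ hY]
  linarith

private theorem rare_card (l c T B : ℕ) (hl : 1 ≤ l) (a : ℤ) :
    ((Ico (((l * c : ℕ) : ℤ) * a) (((l * c : ℕ) : ℤ) * (a + T))).filter
      (fun t => t % l < (B : ℤ) ∨ (l : ℤ) ≤ t % l + (B : ℤ))).card ≤ c * T * (2 * B) := by
  have hl' : (0 : ℤ) < l := by exact_mod_cast hl
  have h1 : ((Ico (((l * c : ℕ) : ℤ) * a) (((l * c : ℕ) : ℤ) * (a + T))).filter
      (fun t => t % l < (B : ℤ) ∨ (l : ℤ) ≤ t % l + (B : ℤ))).card ≤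
      ((Ico ((c : ℤ) * a) ((c : ℤ) * (a + T))) ×ˢ (Ico (0 : ℤ) B ∪ Ico ((l : ℤ) - B) l)).card := by
    refine Finset.card_le_card_of_injOn (fun t => (t / l, t % l)) ?_ ?_
    · intro t ht
      rw [Finset.mem_coe, mem_filter, mem_Ico] at ht
      obtain ⟨⟨h1, h2⟩, h3⟩ := ht
      rw [Finset.mem_coe, mem_product, mem_Ico, mem_union, mem_Ico, mem_Ico]
      have h4 : 0 ≤ t % l := Int.emod_nonneg _ hl'.ne'
      have h5 : t % l < l := Int.emod_lt_of_pos _ hl'
      have e1 : ((l * c : ℕ) : ℤ) * a = (c : ℤ) * a * l := by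
        push_cast
        ring
      have e2 : ((l * c : ℕ) : ℤ) * (a + T) = (c : ℤ) * (a + T) * l := by
        push_cast
        ring
      rw [e1] at h1
      rw [e2] at h2
      refine ⟨⟨?_, ?_⟩, ?_⟩
      · exact (Int.le_ediv_iff_mul_le hl').2 h1
      · exact (Int.ediv_lt_iff_lt_mul hl').2 h2
      · rcases h3 with h3 | h3
        · left
          exact ⟨h4, h3⟩
        · right
          exact ⟨by linarith, h5⟩
    · intro t _ t' _ h
      simp only [Prod.mk.injEq] at h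
      have h1 := Int.emod_add_mul_ediv t l
      have h2 := Int.emod_add_mul_ediv t' l
      rw [h.1, h.2] at h1
      rw [← h1, h2]
  refine h1.trans ?_
  rw [card_product]
  refine Nat.mul_le_mul ?_ ?_
  · rw [Int.card_Ico]
    have h3 : (c : ℤ) * (a + T) - c * a = ((c * T : ℕ) : ℤ) := by
      push_cast
      ring
    rw [h3, Int.toNat_natCast]
  · refine (card_union_le _ _).trans ?_
    rw [Int.card_Ico, Int.card_Ico]
    have h3 : ((l : ℤ) - ((l : ℤ) - B)).toNat = B := by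
      have : (l : ℤ) - ((l : ℤ) - B) = (B : ℤ) := by ring
      rw [this, Int.toNat_natCast]
    rw [h3, sub_zero, Int.toNat_natCast]
    omega

open Classical in
theorem rare_blk {k : ℕ} (l l0 T B : ℕ) (hl : l ∣ l0) (hl0 : 1 ≤ l0) (hT : 1 ≤ T) (a : Fin k → ℤ) :
    (((acube l0 T a).filter (fun z => ∃ i, z i % l < (B : ℤ) ∨ (l : ℤ) ≤ z i % l + (B : ℤ))).card : ℝ) ≤
      k * (2 * B) * (((l0 * T : ℕ)) : ℝ) ^ k / l := by
  obtain ⟨c, rfl⟩ := hl
  have hl1 : 1 ≤ l := by
    rcases Nat.eq_zero_or_pos l with h | h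
    · subst h
      simp at hl0
    · exact h
  have hl' : (0 : ℝ) < l := by exact_mod_cast hl1
  have hc1 : 1 ≤ c := by
    rcases Nat.eq_zero_or_pos c with h | h
    · subst h
      simp at hl0
    · exact h
  have hc' : (0 : ℝ) < c := by exact_mod_cast hc1
  have hT' : (0 : ℝ) < T := by exact_mod_cast hT
  have h1 : ∀ i ∈ (univ : Finset (Fin k)), (((acube (l * c) T a).filter
      (fun z => z i % l < (B : ℤ) ∨ (l : ℤ) ≤ z i % l + (B : ℤ))).card : ℝ) ≤
      (2 * B) * (((l * c * T : ℕ)) : ℝ) ^ k / l := by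
    intro i _
    have h2 := rare_acube (l * c) T hl0 hT a i
      (fun z => z i % l < (B : ℤ) ∨ (l : ℤ) ≤ z i % l + (B : ℤ)) ((c * T * (2 * B) : ℕ) : ℝ)
      (fun z => by
        have h3 := rare_card l c T B hl1 (a i)
        have h4 : (fun t : ℤ => Function.update z i t i % (l : ℤ) < (B : ℤ) ∨
            (l : ℤ) ≤ Function.update z i t i % (l : ℤ) + (B : ℤ)) =
            fun t : ℤ => t % (l : ℤ) < (B : ℤ) ∨ (l : ℤ) ≤ t % (l : ℤ) + (B : ℤ) := by
          funext t
          rw [Function.update_self]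
        have h5 : ((Ico (((l * c : ℕ) : ℤ) * a i) (((l * c : ℕ) : ℤ) * (a i + T))).filter
            (fun t : ℤ => Function.update z i t i % (l : ℤ) < (B : ℤ) ∨
            (l : ℤ) ≤ Function.update z i t i % (l : ℤ) + (B : ℤ))).card ≤ c * T * (2 * B) := by
          refine le_trans (le_of_eq ?_) h3
          congr 1
          ext t
          simp only [mem_filter, Function.update_self]
        exact_mod_cast h5)
    refine h2.trans (le_of_eq ?_)
    push_cast
    field_simp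
  have h2 := rare_union (acube (l * c) T a) (univ : Finset (Fin k))
    (fun i z => z i % l < (B : ℤ) ∨ (l : ℤ) ≤ z i % l + (B : ℤ)) _ h1
  have h3 : (acube (l * c) T a).filter
      (fun z => ∃ i, z i % l < (B : ℤ) ∨ (l : ℤ) ≤ z i % l + (B : ℤ)) =
      (acube (l * c) T a).filter
      (fun z => ∃ i ∈ (univ : Finset (Fin k)),
        (z i % l < (B : ℤ) ∨ (l : ℤ) ≤ z i % l + (B : ℤ))) := by
    ext z
    simp only [mem_filter, mem_univ, true_and]
  rw [h3]
  refine h2.trans (le_of_eq ?_)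
  rw [card_univ, Fintype.card_fin]
  ring

private theorem rare_near (S : Finset ℤ) (B : ℕ) (c : ℤ) :
    (S.filter (fun t => |t - c| ≤ (B : ℤ))).card ≤ 2 * B + 1 := by
  have h1 : S.filter (fun t => |t - c| ≤ (B : ℤ)) ⊆ Icc (c - B) (c + B) := by
    intro t ht
    rw [mem_filter, abs_le] at ht
    rw [mem_Icc]
    constructor <;> linarith [ht.2.1, ht.2.2]
  refine (card_le_card h1).trans (le_of_eq ?_)
  rw [Int.card_Icc]
  have h3 : c + (B : ℤ) + 1 - (c - B) = ((2 * B + 1 : ℕ) : ℤ) := by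
    push_cast
    ring
  rw [h3, Int.toNat_natCast]

open Classical in
theorem rare_pos {k : ℕ} (l0 T B : ℕ) (hl0 : 1 ≤ l0) (hT : 1 ≤ T) (a : Fin k → ℤ) :
    (((acube l0 T a).filter (fun z => (∃ i, |z i| ≤ (B : ℤ)) ∨
      ∃ i j, i ≠ j ∧ |z i - z j| ≤ (B : ℤ))).card : ℝ) ≤
      (k + k ^ 2) * (2 * B + 1) * (((l0 * T : ℕ)) : ℝ) ^ k / ((l0 * T : ℕ)) := by
  have h1 : ∀ i ∈ (univ : Finset (Fin k)), (((acube l0 T a).filter
      (fun z => |z i| ≤ (B : ℤ))).card : ℝ) ≤
      (2 * B + 1) * (((l0 * T : ℕ)) : ℝ) ^ k / ((l0 * T : ℕ)) := by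
    intro i _
    refine rare_acube l0 T hl0 hT a i (fun z => |z i| ≤ (B : ℤ)) _ (fun z => ?_)
    have h2 := rare_near (Ico ((l0 : ℤ) * a i) (l0 * (a i + T))) B 0
    have h3 : (Ico ((l0 : ℤ) * a i) (l0 * (a i + T))).filter
        (fun t => |Function.update z i t i| ≤ (B : ℤ)) =
        (Ico ((l0 : ℤ) * a i) (l0 * (a i + T))).filter (fun t => |t - 0| ≤ (B : ℤ)) := by
      ext t
      simp only [mem_filter, Function.update_self, sub_zero]
    have h4 : ((Ico ((l0 : ℤ) * a i) (l0 * (a i + T))).filter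
        (fun t => |Function.update z i t i| ≤ (B : ℤ))).card ≤ 2 * B + 1 := by
      rw [h3]
      convert h2
    exact_mod_cast h4
  have h2 : ∀ q ∈ ((univ : Finset (Fin k × Fin k)).filter fun q => q.1 ≠ q.2),
      (((acube l0 T a).filter (fun z => |z q.1 - z q.2| ≤ (B : ℤ))).card : ℝ) ≤
      (2 * B + 1) * (((l0 * T : ℕ)) : ℝ) ^ k / ((l0 * T : ℕ)) := by
    rintro ⟨i, j⟩ hq
    rw [mem_filter] at hq
    have hij : i ≠ j := hq.2
    refine rare_acube l0 T hl0 hT a i (fun z => |z i - z j| ≤ (B : ℤ)) _ (fun z => ?_)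
    have h2 := rare_near (Ico ((l0 : ℤ) * a i) (l0 * (a i + T))) B (z j)
    have h3 : (Ico ((l0 : ℤ) * a i) (l0 * (a i + T))).filter
        (fun t => |Function.update z i t i - Function.update z i t j| ≤ (B : ℤ)) =
        (Ico ((l0 : ℤ) * a i) (l0 * (a i + T))).filter (fun t => |t - z j| ≤ (B : ℤ)) := by
      ext t
      simp only [mem_filter, Function.update_self, Function.update_of_ne hij.symm]
    have h4 : ((Ico ((l0 : ℤ) * a i) (l0 * (a i + T))).filter
        (fun t => |Function.update z i t i - Function.update z i t j| ≤ (B : ℤ))).card ≤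
        2 * B + 1 := by
      rw [h3]
      convert h2
    exact_mod_cast h4
  have h3 := rare_union (acube l0 T a) (univ : Finset (Fin k)) (fun i z => |z i| ≤ (B : ℤ)) _ h1
  have h4 := rare_union (acube l0 T a) ((univ : Finset (Fin k × Fin k)).filter fun q => q.1 ≠ q.2)
    (fun q z => |z q.1 - z q.2| ≤ (B : ℤ)) _ h2
  have h5 : (acube l0 T a).filter (fun z => (∃ i, |z i| ≤ (B : ℤ)) ∨
      ∃ i j, i ≠ j ∧ |z i - z j| ≤ (B : ℤ)) ⊆
      (acube l0 T a).filter (fun z => ∃ i ∈ (univ : Finset (Fin k)), |z i| ≤ (B : ℤ)) ∪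
      (acube l0 T a).filter (fun z => ∃ q ∈ ((univ : Finset (Fin k × Fin k)).filter
        fun q => q.1 ≠ q.2), |z q.1 - z q.2| ≤ (B : ℤ)) := by
    intro z hz
    rw [mem_filter] at hz
    rw [mem_union, mem_filter, mem_filter]
    rcases hz.2 with ⟨i, h⟩ | ⟨i, j, hij, h⟩
    · left
      exact ⟨hz.1, i, mem_univ _, h⟩
    · right
      exact ⟨hz.1, (i, j), by rw [mem_filter]; exact ⟨mem_univ _, hij⟩, h⟩
  have h6 : (((univ : Finset (Fin k × Fin k)).filter fun q => q.1 ≠ q.2).card : ℝ) ≤ (k : ℝ) ^ 2 := by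
    have h7 : ((univ : Finset (Fin k × Fin k)).filter fun q => q.1 ≠ q.2).card ≤ k ^ 2 := by
      refine (card_filter_le _ _).trans (le_of_eq ?_)
      rw [card_univ, Fintype.card_prod, Fintype.card_fin]
      ring
    exact_mod_cast h7
  have hb : (0 : ℝ) ≤ (2 * B + 1) * (((l0 * T : ℕ)) : ℝ) ^ k / ((l0 * T : ℕ)) := by positivity
  have h8 : (((acube l0 T a).filter (fun z => (∃ i, |z i| ≤ (B : ℤ)) ∨
      ∃ i j, i ≠ j ∧ |z i - z j| ≤ (B : ℤ))).card : ℝ) ≤
      (((acube l0 T a).filter (fun z => ∃ i ∈ (univ : Finset (Fin k)), |z i| ≤ (B : ℤ))).card : ℝ) +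
      (((acube l0 T a).filter (fun z => ∃ q ∈ ((univ : Finset (Fin k × Fin k)).filter
        fun q => q.1 ≠ q.2), |z q.1 - z q.2| ≤ (B : ℤ))).card : ℝ) := by
    exact_mod_cast (card_le_card h5).trans (card_union_le _ _)
  rw [card_univ, Fintype.card_fin] at h3
  calc _ ≤ _ := h8
    _ ≤ (k : ℝ) * ((2 * B + 1) * (((l0 * T : ℕ)) : ℝ) ^ k / ((l0 * T : ℕ))) +
        (k : ℝ) ^ 2 * ((2 * B + 1) * (((l0 * T : ℕ)) : ℝ) ^ k / ((l0 * T : ℕ))) :=
        add_le_add h3 (h4.trans (mul_le_mul_of_nonneg_right h6 hb))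
    _ = _ := by ring

end Pool.Agent.H38.KT
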