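import Pool.Agent.H38.KT.ExP
import Pool.Agent.H38.KT.Rare

/-!
[H38 KT POS]  Choice of the position `z`.

`W = acube l0 T a`, `|W| = (l0 T)^k`; `t ∣ l ∣ l0`; `G = ExL t l (List.finRange k) (indk R)`, `A_m(z) = cntk R P (s m) z / P^k`; `Bs = B + s L`.

Proof.  Let `Z` be the set of the `z ∈ W` with `G z ≥ r0 - γ/2`, no `z i % l` in `[0, Bs) ∪ [l - Bs, l)`, `|z i| > Bs`, `|z i - z j| > Bs` (`i ≠ j`).
* `|Z| ≥ (γ/8) |W|`: `∑_W G = ∑_W indk R ≥ (r0 - γ/4) |W|` (`exl_sum`, `h2`), `G ≤ 1` (`exl_le_one`), so if `f` is the number of the `z ∈ W` with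
  `G z ≥ r0 - γ/2` then `(r0 - γ/4)|W| ≤ f + (r0 - γ/2)(|W| - f) ≤ f + (r0 - γ/2)|W|` if `r0 - γ/2 ≥ 0`, so `f ≥ (γ/4) |W|` (if `r0 - γ/2 < 0`, `f = |W|` as `G ≥ 0`;
  `γ ≤ 1`).  Remove the rare positions: `rare_blk` (`k 2 Bs/l ≤ γ/16` by `h3`), `rare_pos` (`≤ γ/16 |W|` by `h4`).
* For `z ∈ Z` and a shift `u` with `|u i| < Bs`... precisely `|u i| ≤ Bs`, `t ∣ u i`: `z i + u i` is in the block of `z i` (`z i % l ≥ Bs`, `z i % l + Bs < l`), so
  `z + u ∈ W` (`W` is a union of blocks) and `G (z + u) = G z` (`exl_congr`).  This applies to `u i = v j i + s w i` with `w ∈ (-L, L)^k` (`t ∣ s`).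
* `Ψ(z) = ∑_j ∑_{w ∈ ocube} ∑_m |A_m - G|(z + v j + s w)`.  For fixed `j, w` the map `z ↦ z + v j + s w` is injective from `Z` to `W`:
  `∑_{z ∈ Z} Ψ(z) ≤ |ι| |ocube| η1 |W| ≤ |ι| (2L)^k η1 |W|`.  So some `z ∈ Z` has `Ψ(z) ≤ (8 η1/γ) |ι| (2L)^k`.
* For this `z`: if `cntk R P (s m) (z + v j + s w) < (r0 - γ) P^k` then `|A_m - G|(z + v j + s w) ≥ γ/2`.  So the number of the triples `(j, m, w)` with this
  property is at most `(16 η1/γ^2) |ι| (2L)^k`, and each `j` with `¬ POKk` has more than `κ (2L)^k` of them (for some `m`).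
-/

namespace Pool.Agent.H38.KT

open Finset Pool.Agent.H11.HM

theorem blk_shift (l : ℕ) (hl : 1 ≤ l) (z u Bs : ℤ) (h1 : Bs ≤ z % l) (h2 : z % l + Bs < l)
    (hu : |u| ≤ Bs) : (z + u) / l = z / l := by
  have h3 := Int.emod_add_mul_ediv z l
  have h4 := abs_le.1 hu
  have h5 : (0 : ℤ) < l := by exact_mod_cast hl
  exact ((Int.ediv_emod_unique (r := z % l + u) (q := z / l) h5).2
    ⟨by linarith, by linarith, by linarith⟩).1

theorem mem_acube_of {k : ℕ} {l l0 T : ℕ} (hl1 : 1 ≤ l) (hl : l ∣ l0) {a : Fin k → ℤ}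
    {z z' : Fin k → ℤ} (h : ∀ i, z' i / l = z i / l) (hz : z ∈ acube l0 T a) :
    z' ∈ acube l0 T a := by
  obtain ⟨c, rfl⟩ := hl
  unfold acube at hz ⊢
  rw [Fintype.mem_piFinset] at hz ⊢
  intro i
  have h1 := hz i
  rw [mem_Ico] at h1 ⊢
  have h5 : (0 : ℤ) < l := by exact_mod_cast hl1
  have e1 : ((l * c : ℕ) : ℤ) * a i = (c * a i) * l := by push_cast; ring
  have e2 : ((l * c : ℕ) : ℤ) * (a i + T) = (c * (a i + T)) * l := by push_cast; ring
  rw [e1, e2] at h1 ⊢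
  rw [← Int.le_ediv_iff_mul_le h5, ← Int.ediv_lt_iff_lt_mul h5] at h1 ⊢
  rw [h i]
  exact h1

theorem card_ocube (k L : ℕ) : ((ocube k L).card : ℝ) ≤ (2 * (L : ℝ)) ^ k := by
  unfold ocube
  rw [Fintype.card_piFinset]
  simp only [Int.card_Ioo, prod_const, card_univ, Fintype.card_fin]
  push_cast
  refine pow_le_pow_left₀ (by positivity) ?_ k
  have h : ((L : ℤ) - -(L : ℤ) - 1).toNat ≤ 2 * L := by omega
  exact_mod_cast h

theorem sum_shift {k : ℕ} (Z W : Finset (Fin k → ℤ)) (g : (Fin k → ℤ) → ℝ) (hg : ∀ z, 0 ≤ g z)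
    (u : Fin k → ℤ) (h : ∀ z ∈ Z, (fun i => z i + u i) ∈ W) :
    ∑ z ∈ Z, g (fun i => z i + u i) ≤ ∑ z ∈ W, g z := by
  classical
  have hinj : Set.InjOn (fun (z : Fin k → ℤ) (i : Fin k) => z i + u i) Z := by
    intro z _ z' _ hzz
    funext i
    have := congrFun hzz i
    simp only [add_left_inj] at this
    exact this
  rw [← Finset.sum_image (f := g) (g := fun (z : Fin k → ℤ) (i : Fin k) => z i + u i) hinj]
  refine Finset.sum_le_sum_of_subset_of_nonneg ?_ fun z _ _ => hg z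
  intro y hy
  obtain ⟨z, hz, rfl⟩ := Finset.mem_image.1 hy
  exact h z hz

/-- the number of the points with a large average -/
theorem card_large {α : Type*} (W : Finset α) (G : α → ℝ) (r γ : ℝ) (hγ : 0 < γ) (hγ1 : γ ≤ 1)
    (h0 : ∀ z, 0 ≤ G z) (h1 : ∀ z, G z ≤ 1) (h : (r - γ / 4) * W.card ≤ ∑ z ∈ W, G z) :
    γ / 4 * (W.card : ℝ) ≤ ((W.filter (fun z => r - γ / 2 ≤ G z)).card : ℝ) := by
  classical
  by_cases hr : r - γ / 2 < 0
  · have e : W.filter (fun z => r - γ / 2 ≤ G z) = W :=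
      Finset.filter_true_of_mem fun z _ => hr.le.trans (h0 z)
    rw [e]
    have : (0 : ℝ) ≤ W.card := by positivity
    nlinarith
  · rw [not_lt] at hr
    have e := Finset.sum_filter_add_sum_filter_not W (fun z => r - γ / 2 ≤ G z) G
    have h2 : ∑ z ∈ W.filter (fun z => r - γ / 2 ≤ G z), G z ≤
        ((W.filter (fun z => r - γ / 2 ≤ G z)).card : ℝ) := by
      have := Finset.sum_le_card_nsmul (W.filter (fun z => r - γ / 2 ≤ G z)) G 1 fun z _ => h1 z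
      simpa using this
    have h3 : ∑ z ∈ W.filter (fun z => ¬ r - γ / 2 ≤ G z), G z ≤
        ((W.filter (fun z => ¬ r - γ / 2 ≤ G z)).card : ℝ) * (r - γ / 2) := by
      have := Finset.sum_le_card_nsmul (W.filter (fun z => ¬ r - γ / 2 ≤ G z)) G (r - γ / 2)
        fun z hz => (not_le.1 (Finset.mem_filter.1 hz).2).le
      rw [nsmul_eq_mul] at this
      exact this
    have h4 : ((W.filter (fun z => ¬ r - γ / 2 ≤ G z)).card : ℝ) ≤ W.card := by
      exact_mod_cast Finset.card_filter_le _ _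
    have h5 : ((W.filter (fun z => ¬ r - γ / 2 ≤ G z)).card : ℝ) * (r - γ / 2) ≤
        W.card * (r - γ / 2) := mul_le_mul_of_nonneg_right h4 hr
    nlinarith

/-- one element with a value at most the average -/
theorem exists_avg {α : Type*} (Z : Finset α) (F : α → ℝ) (X c : ℝ) (hc : 0 < c) (hX : 0 ≤ X)
    (hZ : c ≤ Z.card) (h : ∑ z ∈ Z, F z ≤ X * c) : ∃ z ∈ Z, F z ≤ X := by
  by_contra hcon
  push Not at hcon
  have hne : Z.Nonempty := by
    rw [← Finset.card_pos]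
    have : (0 : ℝ) < Z.card := lt_of_lt_of_le hc hZ
    exact_mod_cast this
  have h1 : ∑ _z ∈ Z, X < ∑ z ∈ Z, F z := Finset.sum_lt_sum_of_nonempty hne hcon
  rw [Finset.sum_const, nsmul_eq_mul] at h1
  have h2 : X * c ≤ Z.card * X := by
    rw [mul_comm]
    exact mul_le_mul_of_nonneg_right hZ hX
  linarith

open Classical in
/-- the final count -/
theorem bad_count {k : ℕ} (K P L s : ℕ) (hL : 1 ≤ L) (κ γ r0 X : ℝ) (hκ : 0 < κ) (hγ : 0 < γ)
    (R : Set (Fin k → ℤ)) (G : (Fin k → ℤ) → ℝ) (hP : 1 ≤ P) (ι : Type) [Fintype ι]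
    (x : ι → Fin k → ℤ)
    (hG : ∀ j, ∀ w ∈ ocube k L, r0 - γ / 2 ≤ G (fun i => x j i + s * w i))
    (hX : ∑ j : ι, ∑ w ∈ ocube k L, ∑ m ∈ Icc 1 K,
      |(cntk R P (s * m : ℕ) (fun i => x j i + s * w i) : ℝ) / (P : ℝ) ^ k -
        G (fun i => x j i + s * w i)| ≤ X * (2 * (L : ℝ)) ^ k) :
    (((univ : Finset ι).filter (fun j => ¬ POKk R (r0 - γ) κ K P L s (x j))).card : ℝ) ≤
      2 * X / (γ * κ) := by
  have hL2 : (0 : ℝ) < (2 * (L : ℝ)) ^ k := by
    have : (0 : ℝ) < L := by exact_mod_cast hL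
    positivity
  have hPk : (0 : ℝ) < (P : ℝ) ^ k := by
    have : (0 : ℝ) < P := by exact_mod_cast hP
    positivity
  set Bad := (univ : Finset ι).filter (fun j => ¬ POKk R (r0 - γ) κ K P L s (x j)) with hBad
  have key : ∀ j ∈ Bad, κ * (2 * (L : ℝ)) ^ k * (γ / 2) ≤ ∑ w ∈ ocube k L, ∑ m ∈ Icc 1 K,
      |(cntk R P (s * m : ℕ) (fun i => x j i + s * w i) : ℝ) / (P : ℝ) ^ k -
        G (fun i => x j i + s * w i)| := by
    intro j hj
    have h1 := (Finset.mem_filter.1 hj).2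
    unfold POKk at h1
    push Not at h1
    obtain ⟨m, hm1, hmK, hm⟩ := h1
    set E := (ocube k L).filter (fun w => (cntk R P (s * m) (fun i => x j i + s * w i) : ℝ) <
      (r0 - γ) * (P : ℝ) ^ k) with hE
    have h2 : ∀ w ∈ E, γ / 2 ≤ ∑ m ∈ Icc 1 K,
        |(cntk R P (s * m : ℕ) (fun i => x j i + s * w i) : ℝ) / (P : ℝ) ^ k -
          G (fun i => x j i + s * w i)| := by
      intro w hw
      rw [hE, Finset.mem_filter] at hw
      have h3 := hG j w hw.1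
      have h4 : (cntk R P (s * m : ℕ) (fun i => x j i + s * w i) : ℝ) / (P : ℝ) ^ k < r0 - γ := by
        rw [div_lt_iff₀ hPk]
        have h5 := hw.2
        have h6 : ((s * m : ℕ) : ℤ) = (s : ℤ) * m := by push_cast; ring
        rw [h6]
        exact h5
      have h7 : γ / 2 ≤ |(cntk R P (s * m : ℕ) (fun i => x j i + s * w i) : ℝ) / (P : ℝ) ^ k -
          G (fun i => x j i + s * w i)| := by
        rw [le_abs]
        right
        linarith
      refine h7.trans (Finset.single_le_sum (f := fun m : ℕ =>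
        |(cntk R P (s * m : ℕ) (fun i => x j i + s * w i) : ℝ) / (P : ℝ) ^ k -
          G (fun i => x j i + s * w i)|) (fun i _ => abs_nonneg _) (Finset.mem_Icc.2 ⟨hm1, hmK⟩))
    have h3 : (E.card : ℝ) * (γ / 2) ≤ ∑ w ∈ E, ∑ m ∈ Icc 1 K,
        |(cntk R P (s * m : ℕ) (fun i => x j i + s * w i) : ℝ) / (P : ℝ) ^ k -
          G (fun i => x j i + s * w i)| := by
      rw [← nsmul_eq_mul]
      exact Finset.card_nsmul_le_sum E _ _ h2
    have h4 : ∑ w ∈ E, ∑ m ∈ Icc 1 K,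
        |(cntk R P (s * m : ℕ) (fun i => x j i + s * w i) : ℝ) / (P : ℝ) ^ k -
          G (fun i => x j i + s * w i)| ≤ ∑ w ∈ ocube k L, ∑ m ∈ Icc 1 K,
        |(cntk R P (s * m : ℕ) (fun i => x j i + s * w i) : ℝ) / (P : ℝ) ^ k -
          G (fun i => x j i + s * w i)| :=
      Finset.sum_le_sum_of_subset_of_nonneg (Finset.filter_subset _ _)
        fun w _ _ => Finset.sum_nonneg fun m _ => abs_nonneg _
    refine le_trans ?_ (h3.trans h4)
    exact mul_le_mul_of_nonneg_right hm.le (by positivity)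
  have h5 : (Bad.card : ℝ) * (κ * (2 * (L : ℝ)) ^ k * (γ / 2)) ≤ X * (2 * (L : ℝ)) ^ k := by
    rw [← nsmul_eq_mul]
    refine (Finset.card_nsmul_le_sum Bad _ _ key).trans (le_trans ?_ hX)
    exact Finset.sum_le_sum_of_subset_of_nonneg (Finset.filter_subset _ _)
      fun j _ _ => Finset.sum_nonneg fun w _ => Finset.sum_nonneg fun m _ => abs_nonneg _
  rw [le_div_iff₀ (by positivity)]
  have h6 : (Bad.card : ℝ) * (γ * κ) * (2 * (L : ℝ)) ^ k ≤ 2 * X * (2 * (L : ℝ)) ^ k := by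
    nlinarith
  exact le_of_mul_le_mul_right h6 hL2

open Classical in
theorem pos (k : ℕ) (hk : 1 ≤ k) (K P L s t l l0 T B : ℕ) (hK : 1 ≤ K) (hP : 1 ≤ P) (hL : 1 ≤ L)
    (ht : t ∣ l) (hts : t ∣ s) (hl : l ∣ l0) (hl0 : 1 ≤ l0) (hT : 1 ≤ T) (κ η1 γ r0 : ℝ) (hκ : 0 < κ)
    (hη : 0 < η1) (hγ : 0 < γ) (hγ1 : γ ≤ 1) (R : Set (Fin k → ℤ)) (a : Fin k → ℤ)
    (h1 : ∑ m ∈ Icc 1 K, ∑ z ∈ acube l0 T a, |(cntk R P (s * m : ℕ) z : ℝ) / (P : ℝ) ^ k -
        ExL t l (List.finRange k) (indk R) z| ≤ η1 * (((l0 * T : ℕ)) : ℝ) ^ k)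
    (h2 : (r0 - γ / 4) * (((l0 * T : ℕ)) : ℝ) ^ k ≤ ∑ z ∈ acube l0 T a, indk R z)
    (h3 : 32 * k * (B + s * L) ≤ γ * l)
    (h4 : 16 * (k + k ^ 2) * (2 * (B + s * L) + 1) ≤ γ * (((l0 * T : ℕ)) : ℝ))
    (ι : Type) [Fintype ι] [Nonempty ι] (v : ι → Fin k → ℤ) (hv : ∀ j i, (t : ℤ) ∣ v j i)
    (hB : ∀ j i, |v j i| ≤ B) :
    ∃ z : Fin k → ℤ, (∀ i, (B + s * L : ℤ) < |z i|) ∧ (∀ i j, i ≠ j → (B + s * L : ℤ) < |z i - z j|) ∧
      (((univ : Finset ι).filter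
        (fun j => ¬ POKk R (r0 - γ) κ K P L s (fun i => z i + v j i))).card : ℝ) ≤
          16 * η1 / (γ ^ 2 * κ) * Fintype.card ι := by
  have hl1 : 1 ≤ l := Nat.pos_of_dvd_of_pos hl hl0
  set W := acube l0 T a with hW
  set G := ExL t l (List.finRange k) (indk R) with hGdef
  set Bs : ℕ := B + s * L with hBs
  have hWc : (W.card : ℝ) = (((l0 * T : ℕ)) : ℝ) ^ k := card_acube l0 T a
  have hY0 : (0 : ℝ) < ((l0 * T : ℕ) : ℝ) := by
    have : 0 < l0 * T := Nat.mul_pos hl0 hT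
    exact_mod_cast this
  have hW0 : (0 : ℝ) < W.card := by
    rw [hWc]
    positivity
  have hi0 : ∀ z : Fin k → ℤ, 0 ≤ indk R z := by
    intro z
    unfold indk
    split_ifs <;> norm_num
  have hi1 : ∀ z : Fin k → ℤ, indk R z ≤ 1 := by
    intro z
    unfold indk
    split_ifs <;> norm_num
  have hG0 : ∀ z, 0 ≤ G z := exl_nonneg t l _ _ hi0
  have hG1 : ∀ z, G z ≤ 1 := exl_le_one t l ht hl1 _ _ hi1
  -- many points with a large average
  have hF := card_large W G r0 γ hγ hγ1 hG0 hG1 (by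
    rw [hWc, hW, hGdef, exl_sum t l l0 T ht hl hl0 hT]
    exact h2)
  set F := W.filter (fun z => r0 - γ / 2 ≤ G z) with hFdef
  set B1 := W.filter (fun z => ∃ i, z i % l < (Bs : ℤ) ∨ (l : ℤ) ≤ z i % l + (Bs : ℤ)) with hB1
  set B2 := W.filter (fun z => (∃ i, |z i| ≤ (Bs : ℤ)) ∨
      ∃ i j, i ≠ j ∧ |z i - z j| ≤ (Bs : ℤ)) with hB2
  have hc1 : (B1.card : ℝ) ≤ γ / 16 * W.card := by
    have h5 := rare_blk l l0 T Bs hl hl0 hT a
    refine h5.trans ?_
    rw [hWc]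
    have hl' : (0 : ℝ) < l := by exact_mod_cast hl1
    rw [div_le_iff₀ hl']
    have h6 : (Bs : ℝ) = B + s * L := by rw [hBs]; push_cast; ring
    rw [h6]
    have h7 : (k : ℝ) * (2 * (B + s * L)) ≤ γ / 16 * l := by linarith
    calc (k : ℝ) * (2 * (B + s * L)) * (((l0 * T : ℕ)) : ℝ) ^ k
        ≤ γ / 16 * l * (((l0 * T : ℕ)) : ℝ) ^ k := mul_le_mul_of_nonneg_right h7 (by positivity)
      _ = γ / 16 * (((l0 * T : ℕ)) : ℝ) ^ k * l := by ring
  have hc2 : (B2.card : ℝ) ≤ γ / 16 * W.card := by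
    have h5 := rare_pos l0 T Bs hl0 hT a
    refine h5.trans ?_
    rw [hWc, div_le_iff₀ hY0]
    have h6 : (Bs : ℝ) = B + s * L := by rw [hBs]; push_cast; ring
    rw [h6]
    have h7 : ((k : ℝ) + k ^ 2) * (2 * (B + s * L) + 1) ≤ γ / 16 * ((l0 * T : ℕ) : ℝ) := by
      linarith
    calc ((k : ℝ) + k ^ 2) * (2 * (B + s * L) + 1) * (((l0 * T : ℕ)) : ℝ) ^ k
        ≤ γ / 16 * ((l0 * T : ℕ) : ℝ) * (((l0 * T : ℕ)) : ℝ) ^ k :=
          mul_le_mul_of_nonneg_right h7 (by positivity)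
      _ = γ / 16 * (((l0 * T : ℕ)) : ℝ) ^ k * ((l0 * T : ℕ) : ℝ) := by ring
  set Z := F.filter (fun z => z ∉ B1 ∧ z ∉ B2) with hZdef
  have hZc : γ / 8 * (W.card : ℝ) ≤ Z.card := by
    have h5 : F ⊆ Z ∪ (B1 ∪ B2) := by
      intro z hz
      rw [Finset.mem_union, Finset.mem_union, hZdef, Finset.mem_filter]
      by_cases hz1 : z ∈ B1
      · exact Or.inr (Or.inl hz1)
      · by_cases hz2 : z ∈ B2
        · exact Or.inr (Or.inr hz2)
        · exact Or.inl ⟨hz, hz1, hz2⟩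
    have h6 : F.card ≤ Z.card + (B1.card + B2.card) :=
      (Finset.card_le_card h5).trans ((Finset.card_union_le _ _).trans
        (Nat.add_le_add_left (Finset.card_union_le _ _) _))
    have h7 : (F.card : ℝ) ≤ Z.card + (B1.card + B2.card) := by exact_mod_cast h6
    linarith
  have hZ1 : ∀ z ∈ Z, z ∈ W ∧ r0 - γ / 2 ≤ G z ∧ (∀ i, (Bs : ℤ) ≤ z i % l ∧ z i % l + Bs < l) ∧
      (∀ i, (Bs : ℤ) < |z i|) ∧ ∀ i j, i ≠ j → (Bs : ℤ) < |z i - z j| := by
    intro z hz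
    rw [hZdef, Finset.mem_filter, hFdef, Finset.mem_filter] at hz
    obtain ⟨⟨hzW, hzG⟩, hz1, hz2⟩ := hz
    rw [hB1, Finset.mem_filter] at hz1
    rw [hB2, Finset.mem_filter] at hz2
    push Not at hz1 hz2
    have hz1' := hz1 hzW
    have hz2' := hz2 hzW
    exact ⟨hzW, hzG, hz1', hz2'.1, hz2'.2⟩
  -- shifts
  have hsh : ∀ z ∈ Z, ∀ u : Fin k → ℤ, (∀ i, |u i| ≤ Bs) → (∀ i, (t : ℤ) ∣ u i) →
      (fun i => z i + u i) ∈ W ∧ G (fun i => z i + u i) = G z := by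
    intro z hz u hu htu
    obtain ⟨hzW, -, hzb, -, -⟩ := hZ1 z hz
    have h5 : ∀ i, (z i + u i) / (l : ℤ) = z i / l := fun i =>
      blk_shift l hl1 (z i) (u i) Bs (hzb i).1 (hzb i).2 (hu i)
    refine ⟨mem_acube_of hl1 hl h5 hzW, ?_⟩
    refine exl_congr t l (indk R) z (fun i => z i + u i) fun i => ⟨h5 i, ?_⟩
    have h6 : z i + u i ≡ z i + 0 [ZMOD t] :=
      Int.ModEq.add_left _ ((Int.modEq_zero_iff_dvd).2 (htu i))
    rwa [add_zero] at h6
  have hshift : ∀ j : ι, ∀ w ∈ ocube k L, (∀ i, |v j i + s * w i| ≤ Bs) ∧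
      ∀ i, (t : ℤ) ∣ v j i + s * w i := by
    intro j w hw
    unfold ocube at hw
    rw [Fintype.mem_piFinset] at hw
    refine ⟨fun i => ?_, fun i => ?_⟩
    · have h5 := Finset.mem_Ioo.1 (hw i)
      have h6 : |w i| ≤ L := abs_le.2 ⟨h5.1.le, h5.2.le⟩
      have h7 : |(s : ℤ) * w i| ≤ s * L := by
        rw [abs_mul, Nat.abs_cast]
        exact mul_le_mul_of_nonneg_left h6 (by positivity)
      have h8 := abs_add_le (v j i) ((s : ℤ) * w i)
      have h9 := hB j i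
      rw [hBs]
      push_cast
      linarith
    · have h5 : (t : ℤ) ∣ (s : ℤ) := by exact_mod_cast hts
      exact dvd_add (hv j i) (Dvd.dvd.mul_right h5 _)
  set H : (Fin k → ℤ) → ℝ := fun z => ∑ m ∈ Icc 1 K,
    |(cntk R P (s * m : ℕ) z : ℝ) / (P : ℝ) ^ k - G z| with hH
  have hH0 : ∀ z, 0 ≤ H z := fun z => Finset.sum_nonneg fun m _ => abs_nonneg _
  have hHW : ∑ z ∈ W, H z ≤ η1 * W.card := by
    rw [hWc, hH, Finset.sum_comm]
    exact h1
  have hL2 : (0 : ℝ) < (2 * (L : ℝ)) ^ k := by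
    have : (0 : ℝ) < L := by exact_mod_cast hL
    positivity
  have hι : (0 : ℝ) < Fintype.card ι := by
    exact_mod_cast Fintype.card_pos
  have hsum : ∑ z ∈ Z, ∑ j : ι, ∑ w ∈ ocube k L, H (fun i => z i + (v j i + s * w i)) ≤
      Fintype.card ι * ((2 * (L : ℝ)) ^ k * (η1 * W.card)) := by
    rw [Finset.sum_comm]
    have h5 : ∀ j ∈ (univ : Finset ι), ∑ z ∈ Z, ∑ w ∈ ocube k L,
        H (fun i => z i + (v j i + s * w i)) ≤ (2 * (L : ℝ)) ^ k * (η1 * W.card) := by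
      intro j _
      rw [Finset.sum_comm]
      have h6 : ∀ w ∈ ocube k L, ∑ z ∈ Z, H (fun i => z i + (v j i + s * w i)) ≤
          η1 * W.card := by
        intro w hw
        refine (sum_shift Z W H hH0 (fun i => v j i + s * w i) fun z hz => ?_).trans hHW
        exact (hsh z hz _ (hshift j w hw).1 (hshift j w hw).2).1
      have h7 := Finset.sum_le_card_nsmul (ocube k L) _ _ h6
      rw [nsmul_eq_mul] at h7
      exact h7.trans (mul_le_mul_of_nonneg_right (card_ocube k L) (by positivity))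
    have h8 := Finset.sum_le_card_nsmul (univ : Finset ι) _ _ h5
    rw [nsmul_eq_mul] at h8
    exact h8
  obtain ⟨z, hzZ, hz⟩ := exists_avg Z
    (fun z => ∑ j : ι, ∑ w ∈ ocube k L, H (fun i => z i + (v j i + s * w i)))
    (8 * η1 / γ * Fintype.card ι * (2 * (L : ℝ)) ^ k) (γ / 8 * W.card) (by positivity)
    (by positivity) hZc (by
      refine hsum.trans (le_of_eq ?_)
      field_simp)
  obtain ⟨hzW, hzG, hzb, hz1, hz2⟩ := hZ1 z hzZ
  have hBc : ((Bs : ℕ) : ℤ) = B + s * L := by rw [hBs]; push_cast; ring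
  refine ⟨z, fun i => ?_, fun i j hij => ?_, ?_⟩
  · rw [← hBc]
    exact hz1 i
  · rw [← hBc]
    exact hz2 i j hij
  · have h5 := bad_count K P L s hL κ γ r0 (8 * η1 / γ * Fintype.card ι) hκ hγ R G hP ι
      (fun j i => z i + v j i) (by
        intro j w hw
        have h6 := (hsh z hzZ _ (hshift j w hw).1 (hshift j w hw).2).2
        have e : (fun i => z i + v j i + (s : ℤ) * w i) = fun i => z i + (v j i + s * w i) := by
          funext i
          ring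
        rw [e, h6]
        exact hzG) (by
        refine le_trans (le_of_eq ?_) hz
        refine Finset.sum_congr rfl fun j _ => Finset.sum_congr rfl fun w _ => ?_
        rw [hH]
        have e : (fun i => z i + v j i + (s : ℤ) * w i) = fun i => z i + (v j i + s * w i) := by
          funext i
          ring
        rw [e])
    refine h5.trans (le_of_eq ?_)
    field_simp
    ring

end Pool.Agent.H38.KT
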