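import Pool.Agent.H38.KT.Win
import Pool.Agent.H38.KT.Align
import Pool.Agent.H38.KT.Pos

/-!
[H38 KT STRUCT]  The uniform structure of a set of points of `ℤ^k` which is dense in arbitrarily large cubes.

Proof.  We may assume `γ ≤ 1` (replace `γ` by `min γ 1`: `POKk` for `r0 - min γ 1` implies `POKk` for `r0 - γ`).  `η1 = γ^2 κ η/16`; `P1, J` from `win k K` for `η1`.
For `P ≥ P1`, `L` (`≥ 1`; for `L = 0` use `L = 1`... `POKk` for `L = 0`, `k ≥ 1`: `ocube` is empty, trivially true; so assume `L ≥ 1`), let `N0 = (K P)!`, `N = N0^J`.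
Given `r0`, `R`, `v`, `B`: enlarge `B` such that `|v j i| ≤ B` (finite family), `B ≥ 1`.  If `ι` is empty apply the statement to a family with one element
(`v = 0`) and forget it.  Let `C ≥ C1`, `C ≥ B + 1`, `C ≥ 32 k (B + 2 N0^J L)/γ`-like: we need `32 k (B + s L) ≤ γ l_j` for
`s = N0^j d ≤ 2 N0^J D_j`, `l_j ≥ C D_j`, `D_j ≥ 1`: `C ≥ 32 k (B + 2 N0^J L)/γ` suffices.
Scales: `l j = C^(2 (J - j)) N0^J`, `D j = C l (j+1)` for `j < J`: `l (j+1) ∣ l j`, `C D j = l j`, `N0^J ∣ l J`, `D j ≥ C > B`.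
`align` with `l0 = l 0`, `τ = γ/4`, and `T0 ≥ 1` so large that `h4` of `pos` holds for all `s ≤ 2 N0^J max D`: gives `T`, `a`.  `win` gives `j`, `d`;
`pos` with `s = N0^j d` (`> B` because `d > D_j ≥ C > B`), `t = N0^j` (`∣ N`), `l = l j` gives `z`.  The step of the conclusion is `s`.
-/

namespace Pool.Agent.H38.KT

open Finset Pool.Agent.H11.HM

theorem pok_mono {k : ℕ} {R : Set (Fin k → ℤ)} {ρ ρ' κ : ℝ} {K P L : ℕ} {s : ℤ} {x : Fin k → ℤ}
    (h : ρ ≤ ρ') (hp : POKk R ρ' κ K P L s x) : POKk R ρ κ K P L s x := by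
  classical
  intro m hm hmK
  refine le_trans ?_ (hp m hm hmK)
  have h1 : (ocube k L).filter (fun w => (cntk R P (s * m) (fun i => x i + s * w i) : ℝ) <
      ρ * (P : ℝ) ^ k) ⊆ (ocube k L).filter (fun w =>
      (cntk R P (s * m) (fun i => x i + s * w i) : ℝ) < ρ' * (P : ℝ) ^ k) := by
    intro w hw
    rw [Finset.mem_filter] at hw ⊢
    exact ⟨hw.1, lt_of_lt_of_le hw.2 (mul_le_mul_of_nonneg_right h (by positivity))⟩
  have h2 := Finset.card_le_card h1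
  unfold POKk at *
  convert (Nat.cast_le (α := ℝ)).2 h2

/-- the scales -/
def lsc (C N J j : ℕ) : ℕ := C ^ (2 * (J - j)) * N ^ J

theorem lsc_pos {C N J j : ℕ} (hC : 1 ≤ C) (hN : 1 ≤ N) : 1 ≤ lsc C N J j :=
  Nat.mul_pos (Nat.pow_pos hC) (Nat.pow_pos hN)

theorem lsc_dvd {C N J i j : ℕ} (h : i ≤ j) : lsc C N J j ∣ lsc C N J i := by
  unfold lsc
  exact Nat.mul_dvd_mul (pow_dvd_pow _ (by omega)) (dvd_refl _)

theorem lsc_step {C N J j : ℕ} (h : j < J) : C * (C * lsc C N J (j + 1)) = lsc C N J j := by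
  unfold lsc
  have e : 2 * (J - j) = 2 * (J - (j + 1)) + 2 := by omega
  rw [e, pow_add]
  ring

theorem lsc_N {C N J j : ℕ} (h : j ≤ J) : N ^ j ∣ lsc C N J j := by
  unfold lsc
  exact Dvd.dvd.mul_left (pow_dvd_pow _ h) _

open Classical in
theorem struct1 (k K : ℕ) (hk : 1 ≤ k) (hK : 1 ≤ K) (κ η γ : ℝ) (hκ : 0 < κ) (hη : 0 < η)
    (hγ : 0 < γ) (hγ1 : γ ≤ 1) : ∃ P1 : ℕ, 1 ≤ P1 ∧ ∀ P L : ℕ, P1 ≤ P → 1 ≤ L → ∃ N : ℕ, 1 ≤ N ∧
      ∀ (r0 : ℝ) (R : Set (Fin k → ℤ)), (∀ X0 : ℕ, ∃ (X : ℕ) (M : Fin k → ℤ), X0 ≤ X ∧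
        r0 * (X : ℝ) ^ k ≤ ∑ z ∈ cube X M, indk R z) →
      ∀ (ι : Type) [Fintype ι] [Nonempty ι] (v : ι → Fin k → ℤ), (∀ j i, (N : ℤ) ∣ v j i) →
        ∀ B : ℕ, (∀ j i, |v j i| ≤ B) →
        ∃ (d : ℕ) (z : Fin k → ℤ), B < d ∧ (∀ i, (B + d * L : ℤ) < |z i|) ∧
          (∀ i j, i ≠ j → (B + d * L : ℤ) < |z i - z j|) ∧
          (((univ : Finset ι).filter
            (fun j => ¬ POKk R (r0 - γ) κ K P L d (fun i => z i + v j i))).card : ℝ) ≤
              η * Fintype.card ι := by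
  have hη1 : 0 < γ ^ 2 * κ * η / 16 := by positivity
  obtain ⟨P1, J, hP1, hJ, hwin⟩ := win k K hk hK (γ ^ 2 * κ * η / 16) hη1
  refine ⟨P1, hP1, fun P L hP hL => ?_⟩
  obtain ⟨C1, hC1, hwin⟩ := hwin P hP
  set N0 : ℕ := (K * P).factorial with hN0
  have hN01 : 1 ≤ N0 := Nat.factorial_pos _
  refine ⟨N0 ^ J, Nat.pow_pos hN01, ?_⟩
  intro r0 R hR ι _ _ v hv B hB
  obtain ⟨C2, hC2⟩ := exists_nat_ge (32 * k * (B + 2 * (N0 : ℝ) ^ J * L) / γ)
  set C : ℕ := C1 + (B + 1) + C2 with hC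
  have hCC1 : C1 ≤ C := by omega
  have hC1' : 1 ≤ C := by omega
  have hCB : B + 1 ≤ C := by omega
  have hCr : 32 * k * (B + 2 * (N0 : ℝ) ^ J * L) ≤ γ * C := by
    rw [div_le_iff₀ hγ] at hC2
    have h1 : (C2 : ℝ) ≤ C := by exact_mod_cast (by omega : C2 ≤ C)
    calc 32 * k * (B + 2 * (N0 : ℝ) ^ J * L) ≤ C2 * γ := hC2
      _ ≤ C * γ := mul_le_mul_of_nonneg_right h1 hγ.le
      _ = γ * C := mul_comm _ _
  set l : ℕ → ℕ := lsc C N0 J with hl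
  set D : ℕ → ℕ := fun j => C * l (j + 1) with hD
  have hl1 : ∀ j, 1 ≤ l j := fun j => lsc_pos hC1' hN01
  have hD1 : ∀ j, 1 ≤ D j := fun j => Nat.mul_pos hC1' (hl1 _)
  have hCD : ∀ j, j < J → C * D j = l j := fun j hj => lsc_step hj
  obtain ⟨T0, hT0⟩ := exists_nat_ge
    (16 * ((k : ℝ) + k ^ 2) * (2 * (B + 2 * (N0 : ℝ) ^ J * l 0 * L) + 1) / γ)
  obtain ⟨T, a, hT, hTa⟩ := align R r0 (γ / 4) (by positivity) hR (l 0) (hl1 0) (T0 + 1)
  have hT1 : 1 ≤ T := by omega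
  obtain ⟨j, hj, d, hd, hsum⟩ := hwin C hCC1 l D (hl1 0)
    (by rw [hl]; exact lsc_N le_rfl) (fun j _ => lsc_dvd (Nat.le_succ j)) (fun j _ => hD1 j)
    (fun j _ => le_rfl) (fun j hj => (hCD j hj).le) R T hT1 a
  have hd' := Finset.mem_Ioc.1 hd
  have hNj : N0 ^ j ≤ N0 ^ J := Nat.pow_le_pow_right hN01 hj.le
  have hNj1 : 1 ≤ N0 ^ j := Nat.pow_pos hN01
  set s : ℕ := N0 ^ j * d with hs
  have hsd : d ≤ s := Nat.le_mul_of_pos_left d hNj1
  have hs2 : s ≤ 2 * N0 ^ J * D j := by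
    calc s ≤ N0 ^ J * (2 * D j) := Nat.mul_le_mul hNj hd'.2
      _ = 2 * N0 ^ J * D j := by ring
  have hDl : D j ≤ l 0 := by
    have h1 : D j ≤ C * D j := Nat.le_mul_of_pos_left _ hC1'
    rw [hCD j hj] at h1
    exact h1.trans (Nat.le_of_dvd (hl1 0) (lsc_dvd (Nat.zero_le j)))
  have hs2r : (s : ℝ) ≤ 2 * (N0 : ℝ) ^ J * D j := by exact_mod_cast hs2
  have hDr : (1 : ℝ) ≤ D j := by exact_mod_cast hD1 j
  have hDlr : (D j : ℝ) ≤ l 0 := by exact_mod_cast hDl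
  have h3 : 32 * (k : ℝ) * (B + s * L) ≤ γ * l j := by
    have h5 : (B : ℝ) + s * L ≤ (B + 2 * (N0 : ℝ) ^ J * L) * D j := by
      have h6 : (s : ℝ) * L ≤ 2 * (N0 : ℝ) ^ J * D j * L :=
        mul_le_mul_of_nonneg_right hs2r (by positivity)
      have h7 : (B : ℝ) ≤ B * D j := le_mul_of_one_le_right (by positivity) hDr
      calc (B : ℝ) + s * L ≤ B * D j + 2 * (N0 : ℝ) ^ J * D j * L := add_le_add h7 h6
        _ = _ := by ring
    have h8 : (l j : ℝ) = C * D j := by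
      rw [← hCD j hj]
      push_cast
      ring
    calc 32 * (k : ℝ) * (B + s * L) ≤ 32 * k * ((B + 2 * (N0 : ℝ) ^ J * L) * D j) :=
          mul_le_mul_of_nonneg_left h5 (by positivity)
      _ = 32 * k * (B + 2 * (N0 : ℝ) ^ J * L) * D j := by ring
      _ ≤ γ * C * D j := mul_le_mul_of_nonneg_right hCr (by positivity)
      _ = γ * l j := by rw [h8]; ring
  have h4 : 16 * ((k : ℝ) + k ^ 2) * (2 * (B + s * L) + 1) ≤ γ * (((l 0 * T : ℕ)) : ℝ) := by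
    have h5 : (s : ℝ) * L ≤ 2 * (N0 : ℝ) ^ J * l 0 * L :=
      mul_le_mul_of_nonneg_right (hs2r.trans (mul_le_mul_of_nonneg_left hDlr (by positivity)))
        (by positivity)
    have h6 : 16 * ((k : ℝ) + k ^ 2) * (2 * (B + s * L) + 1) ≤
        16 * ((k : ℝ) + k ^ 2) * (2 * (B + 2 * (N0 : ℝ) ^ J * l 0 * L) + 1) :=
      mul_le_mul_of_nonneg_left (by linarith) (by positivity)
    rw [div_le_iff₀ hγ] at hT0
    have h7 : (T0 : ℝ) ≤ ((l 0 * T : ℕ) : ℝ) := by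
      have h8 : T0 ≤ l 0 * T := by
        have h9 : T ≤ l 0 * T := Nat.le_mul_of_pos_left _ (hl1 0)
        omega
      exact_mod_cast h8
    calc 16 * ((k : ℝ) + k ^ 2) * (2 * (B + s * L) + 1) ≤ T0 * γ := h6.trans hT0
      _ ≤ ((l 0 * T : ℕ) : ℝ) * γ := mul_le_mul_of_nonneg_right h7 hγ.le
      _ = _ := mul_comm _ _
  have htv : ∀ i' i, ((N0 ^ j : ℕ) : ℤ) ∣ v i' i := by
    intro i' i
    refine dvd_trans ?_ (hv i' i)
    exact_mod_cast pow_dvd_pow N0 hj.le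
  obtain ⟨z, hz1, hz2, hz3⟩ := pos k hk K P L s (N0 ^ j) (l j) (l 0) T B hK (hP1.trans hP) hL
    (lsc_N hj.le) (Nat.dvd_mul_right _ _) (lsc_dvd (Nat.zero_le j)) (hl1 0) hT1 κ
    (γ ^ 2 * κ * η / 16) γ r0 hκ hη1 hγ hγ1 R a hsum hTa h3 h4 ι v htv hB
  refine ⟨s, z, ?_, hz1, hz2, ?_⟩
  · have h5 : C ≤ D j := Nat.le_mul_of_pos_right _ (hl1 _)
    omega
  · refine hz3.trans (le_of_eq ?_)
    field_simp

open Classical in
theorem struct (k K : ℕ) (hk : 1 ≤ k) (hK : 1 ≤ K) (κ η γ : ℝ) (hκ : 0 < κ) (hη : 0 < η)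
    (hγ : 0 < γ) : ∃ P1 : ℕ, 1 ≤ P1 ∧ ∀ P L : ℕ, P1 ≤ P → 1 ≤ L → ∃ N : ℕ, 1 ≤ N ∧
      ∀ (r0 : ℝ) (R : Set (Fin k → ℤ)), (∀ X0 : ℕ, ∃ (X : ℕ) (M : Fin k → ℤ), X0 ≤ X ∧
        r0 * (X : ℝ) ^ k ≤ ∑ z ∈ cube X M, indk R z) →
      ∀ (ι : Type) [Fintype ι] (v : ι → Fin k → ℤ), (∀ j i, (N : ℤ) ∣ v j i) → ∀ B : ℕ,
        ∃ (d : ℕ) (z : Fin k → ℤ), B < d ∧ (∀ i, (B + d * L : ℤ) < |z i|) ∧
          (∀ i j, i ≠ j → (B + d * L : ℤ) < |z i - z j|) ∧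
          (((univ : Finset ι).filter
            (fun j => ¬ POKk R (r0 - γ) κ K P L d (fun i => z i + v j i))).card : ℝ) ≤
              η * Fintype.card ι := by
  obtain ⟨P1, hP1, h⟩ := struct1 k K hk hK κ η (min γ 1) hκ hη (lt_min hγ one_pos)
    (min_le_right _ _)
  refine ⟨P1, hP1, fun P L hP hL => ?_⟩
  obtain ⟨N, hN, h⟩ := h P L hP hL
  refine ⟨N, hN, ?_⟩
  intro r0 R hR ι _ v hv B
  -- a bound for the family
  set B' : ℕ := B + ∑ j : ι, ∑ i : Fin k, (v j i).natAbs with hB'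
  have hvB : ∀ j i, |v j i| ≤ B' := by
    intro j i
    have h1 : (v j i).natAbs ≤ ∑ i : Fin k, (v j i).natAbs :=
      Finset.single_le_sum (f := fun i : Fin k => (v j i).natAbs) (fun _ _ => Nat.zero_le _)
        (Finset.mem_univ i)
    have h2 : ∑ i : Fin k, (v j i).natAbs ≤ ∑ j : ι, ∑ i : Fin k, (v j i).natAbs :=
      Finset.single_le_sum (f := fun j : ι => ∑ i : Fin k, (v j i).natAbs)
        (fun _ _ => Nat.zero_le _) (Finset.mem_univ j)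
    have h3 : (v j i).natAbs ≤ B' := by omega
    rw [Int.abs_eq_natAbs]
    exact_mod_cast h3
  have hBB : (B : ℤ) ≤ B' := by
    have : B ≤ B' := Nat.le_add_right _ _
    exact_mod_cast this
  by_cases hι : Nonempty ι
  · obtain ⟨d, z, h1, h2, h3, h4⟩ := h r0 R hR ι v hv B' hvB
    refine ⟨d, z, by omega, fun i => ?_, fun i j hij => ?_, ?_⟩
    · have := h2 i
      linarith
    · have := h3 i j hij
      linarith
    · refine le_trans ?_ h4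
      have h5 : (univ : Finset ι).filter
          (fun j => ¬ POKk R (r0 - γ) κ K P L d (fun i => z i + v j i)) ⊆
          (univ : Finset ι).filter
          (fun j => ¬ POKk R (r0 - min γ 1) κ K P L d (fun i => z i + v j i)) := by
        intro j hj
        rw [Finset.mem_filter] at hj ⊢
        refine ⟨hj.1, fun h6 => hj.2 (pok_mono ?_ h6)⟩
        have := min_le_left γ 1
        linarith
      exact_mod_cast Finset.card_le_card h5
  · obtain ⟨d, z, h1, h2, h3, h4⟩ := h r0 R hR Unit (fun _ _ => 0) (fun _ _ => dvd_zero _) B'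
      (fun _ _ => by simp)
    refine ⟨d, z, by omega, fun i => ?_, fun i j hij => ?_, ?_⟩
    · have := h2 i
      linarith
    · have := h3 i j hij
      linarith
    · have h5 : (univ : Finset ι).filter
          (fun j => ¬ POKk R (r0 - γ) κ K P L d (fun i => z i + v j i)) = ∅ := by
        rw [Finset.filter_eq_empty_iff]
        intro j _
        exact absurd ⟨j⟩ hι
      rw [h5, Finset.card_empty, Nat.cast_zero]
      positivity

end Pool.Agent.H38.KT
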