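import Pool.Agent.H38.KT.Phi
import Pool.Agent.H38.KT.LZ
import Pool.Agent.H11.HM.LkA

/-!
[H38 KT UNS]  Unstable tuples (helper11).

`unst S0 S R q D`: the `(y0, y) ∈ S0 × ∏ S i` with `(y i - y0) + q 1_D ∈ R`.  If no `(y0, y)` has `(y i - y0) ∈ R`, there are at most
`∑_n |phi (n + q 1_D) - phi n|` of them (`uns_le`): for `n + q 1_D ∈ R` one has `phi (n + q 1_D) = 0`.

`wz`: for a point `(u0, u)` the `(v, z) ∈ ZMod P × (ZMod P)^k` such that `(u0 + m v, u + m z)` is unstable for some `D` (`q = m P`).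
`uns_sum`: the sum of `|wz|` over all `(u0, u) ∈ [0, L)^(k+1)` is at most `P^(k+1) ∑_D |unst D|`.
`fibre`: if at least `(ρ) P^k` of the `x` have `w + m x ∈ R`, `w = u - u0`, and `|A_0|, |A_i| ≥ a`, then by `lz`
`|wz| ≥ θ P (ρ P^k + (k+1) a^k - ε P^k - P^k)`.
-/

namespace Pool.Agent.H38.KT

open Finset Pool.Agent.H11.HM

open Classical in
/-- the unstable tuples -/
noncomputable def unst {k : ℕ} (S0 : Finset ℤ) (S : Fin k → Finset ℤ) (R : Set (Fin k → ℤ)) (q : ℤ)
    (D : Finset (Fin k)) : Finset (ℤ × (Fin k → ℤ)) :=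
  (S0 ×ˢ Fintype.piFinset S).filter (fun p => shf q D (fun i => p.2 i - p.1) ∈ R)

theorem uns_le {k : ℕ} (S0 : Finset ℤ) (S : Fin k → Finset ℤ) (R : Set (Fin k → ℤ)) (q : ℤ)
    (D : Finset (Fin k)) (L : ℕ) (hS0 : S0 ⊆ Ico 0 (L : ℤ)) (hS : ∀ i, S i ⊆ Ico 0 (L : ℤ))
    (hR : ∀ y0 ∈ S0, ∀ y : Fin k → ℤ, (∀ i, y i ∈ S i) → (fun i => y i - y0) ∉ R) :
    ((unst S0 S R q D).card : ℝ) ≤ ∑ n ∈ ocube k L, |(phi S0 S (shf q D n) : ℝ) - phi S0 S n| := by
  classical
  have hmap : ∀ p ∈ unst S0 S R q D, (fun p : ℤ × (Fin k → ℤ) => (fun i => p.2 i - p.1)) p ∈ ocube k L := by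
    intro p hp
    rw [unst, mem_filter, mem_product, Fintype.mem_piFinset] at hp
    rw [ocube, Fintype.mem_piFinset]
    intro i
    have h1 := mem_Ico.1 (hS0 hp.1.1)
    have h2 := mem_Ico.1 (hS i (hp.1.2 i))
    rw [mem_Ioo]
    constructor
    · show -(L : ℤ) < p.2 i - p.1
      linarith [h1.2, h2.1]
    · show p.2 i - p.1 < (L : ℤ)
      linarith [h1.1, h2.2]
  rw [card_eq_sum_card_fiberwise hmap]
  push_cast
  refine sum_le_sum fun n _ => ?_
  by_cases hn : shf q D n ∈ R
  · have hz : phi S0 S (shf q D n) = 0 := by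
      rw [phi, card_eq_zero, filter_eq_empty_iff]
      intro y hy hy'
      apply hR y hy (fun i => y + shf q D n i) hy'
      have e : (fun i => y + shf q D n i - y) = shf q D n := by
        funext i
        ring
      rw [e]
      exact hn
    rw [hz]
    have hle : ((unst S0 S R q D).filter (fun p : ℤ × (Fin k → ℤ) => (fun i => p.2 i - p.1) = n)).card ≤
        phi S0 S n := by
      rw [phi]
      apply card_le_card_of_injOn (fun p : ℤ × (Fin k → ℤ) => p.1)
      · intro p hp
        rw [mem_coe, mem_filter, unst, mem_filter, mem_product, Fintype.mem_piFinset] at hp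
        obtain ⟨⟨⟨h1, h2⟩, h4⟩, h5⟩ := hp
        rw [mem_coe, mem_filter]
        refine ⟨h1, fun i => ?_⟩
        have : p.1 + n i = p.2 i := by
          rw [← h5]
          ring
        rw [this]
        exact h2 i
      · intro a ha b hb hab
        rw [mem_coe, mem_filter] at ha hb
        have hab' : a.1 = b.1 := hab
        refine Prod.ext hab' ?_
        funext i
        have h1 := congrFun ha.2 i
        have h2 := congrFun hb.2 i
        linarith
    have hle' : (((unst S0 S R q D).filter (fun p : ℤ × (Fin k → ℤ) => (fun i => p.2 i - p.1) = n)).card : ℝ) ≤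
        phi S0 S n := by
      exact_mod_cast hle
    push_cast
    rw [zero_sub, abs_neg, abs_of_nonneg (Nat.cast_nonneg _)]
    exact hle'
  · have he : (unst S0 S R q D).filter (fun p : ℤ × (Fin k → ℤ) => (fun i => p.2 i - p.1) = n) = ∅ := by
      rw [filter_eq_empty_iff]
      intro p hp hp'
      rw [unst, mem_filter] at hp
      apply hn
      have h1 := hp.2
      rw [hp'] at h1
      exact h1
    rw [he, card_empty]
    push_cast
    exact abs_nonneg _

open Classical in
/-- the unstable tuples on a fibre -/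
noncomputable def wz {k : ℕ} (P : ℕ) [NeZero P] (m : ℕ) (S0 : Finset ℤ) (S : Fin k → Finset ℤ)
    (R : Set (Fin k → ℤ)) (p : ℤ × (Fin k → ℤ)) : Finset (ZMod P × (Fin k → ZMod P)) :=
  univ.filter (fun q => ∃ D : Finset (Fin k),
    (p.1 + m * (q.1.val : ℤ), fun i => p.2 i + m * ((q.2 i).val : ℤ)) ∈ unst S0 S R (m * P) D)

theorem uns_sum {k : ℕ} (P : ℕ) [NeZero P] (m : ℕ) (S0 : Finset ℤ) (S : Fin k → Finset ℤ)
    (R : Set (Fin k → ℤ)) (Z : Finset (ℤ × (Fin k → ℤ))) :
    ∑ p ∈ Z, ((wz P m S0 S R p).card : ℝ) ≤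
      (P : ℝ) ^ (k + 1) * ∑ D : Finset (Fin k), ((unst S0 S R (m * P) D).card : ℝ) := by
  classical
  have h1 : ∀ p : ℤ × (Fin k → ℤ), ((wz P m S0 S R p).card : ℝ) ≤
      ∑ q : ZMod P × (Fin k → ZMod P), ∑ D : Finset (Fin k),
        (if (p.1 + m * (q.1.val : ℤ), fun i => p.2 i + m * ((q.2 i).val : ℤ)) ∈ unst S0 S R (m * P) D
          then (1 : ℝ) else 0) := by
    intro p
    unfold wz
    rw [card_filter]
    push_cast
    apply sum_le_sum
    intro q _
    split_ifs with h
    · obtain ⟨D, hD⟩ := h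
      have h2 := single_le_sum (f := fun D : Finset (Fin k) =>
        (if (p.1 + m * (q.1.val : ℤ), fun i => p.2 i + m * ((q.2 i).val : ℤ)) ∈ unst S0 S R (m * P) D
          then (1 : ℝ) else 0)) (s := univ) (fun D _ => by positivity) (mem_univ D)
      rw [if_pos hD] at h2
      exact h2
    · exact sum_nonneg fun D _ => by positivity
  calc ∑ p ∈ Z, ((wz P m S0 S R p).card : ℝ) ≤ ∑ p ∈ Z, ∑ q : ZMod P × (Fin k → ZMod P),
        ∑ D : Finset (Fin k),
        (if (p.1 + m * (q.1.val : ℤ), fun i => p.2 i + m * ((q.2 i).val : ℤ)) ∈ unst S0 S R (m * P) D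
          then (1 : ℝ) else 0) := sum_le_sum fun p _ => h1 p
    _ = ∑ q : ZMod P × (Fin k → ZMod P), ∑ D : Finset (Fin k), ∑ p ∈ Z,
        (if (p.1 + m * (q.1.val : ℤ), fun i => p.2 i + m * ((q.2 i).val : ℤ)) ∈ unst S0 S R (m * P) D
          then (1 : ℝ) else 0) := by
        rw [sum_comm]
        refine sum_congr rfl fun q _ => sum_comm
    _ ≤ ∑ _q : ZMod P × (Fin k → ZMod P), ∑ D : Finset (Fin k), ((unst S0 S R (m * P) D).card : ℝ) := by
        refine sum_le_sum fun q _ => sum_le_sum fun D _ => ?_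
        rw [← sum_filter, sum_const, nsmul_eq_mul, mul_one]
        have : (Z.filter (fun p : ℤ × (Fin k → ℤ) =>
            (p.1 + m * (q.1.val : ℤ), fun i => p.2 i + m * ((q.2 i).val : ℤ)) ∈ unst S0 S R (m * P) D)).card ≤
            (unst S0 S R (m * P) D).card := by
          apply card_le_card_of_injOn (fun p : ℤ × (Fin k → ℤ) =>
            (p.1 + m * (q.1.val : ℤ), fun i => p.2 i + m * ((q.2 i).val : ℤ)))
          · intro p hp
            rw [mem_coe, mem_filter] at hp
            exact hp.2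
          · intro a _ b _ hab
            simp only [Prod.mk.injEq, add_left_inj] at hab
            refine Prod.ext hab.1 ?_
            funext i
            have := congrFun hab.2 i
            simp only [add_left_inj] at this
            exact this
        exact_mod_cast this
    _ = _ := by
        rw [sum_const, card_univ, Fintype.card_prod, Fintype.card_fun, ZMod.card, Fintype.card_fin, nsmul_eq_mul]
        push_cast
        rw [pow_succ]
        ring

theorem zfib_card (P : ℕ) [NeZero P] (S : Finset ℤ) (m : ℕ) (u : ℤ) :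
    (univ.filter (fun v : ZMod P => u + m * (v.val : ℤ) ∈ S)).card = (fib S P m u).card := by
  classical
  apply card_bij (fun v _ => v.val)
  · intro v hv
    rw [mem_filter] at hv
    rw [fib, mem_filter, mem_range]
    exact ⟨ZMod.val_lt v, hv.2⟩
  · intro a _ b _ h
    exact ZMod.val_injective P h
  · intro n hn
    rw [fib, mem_filter, mem_range] at hn
    refine ⟨(n : ZMod P), ?_, ?_⟩
    · rw [mem_filter, ZMod.val_natCast_of_lt hn.1]
      exact ⟨mem_univ _, hn.2⟩
    · exact ZMod.val_natCast_of_lt hn.1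

theorem zcnt_card {k : ℕ} (P : ℕ) [NeZero P] (R : Set (Fin k → ℤ)) (m : ℤ) (w : Fin k → ℤ) :
    ∃ Y : Finset (Fin k → ZMod P), Y.card = cntk R P m w ∧
      ∀ x ∈ Y, (fun i => w i + m * ((x i).val : ℤ)) ∈ R := by
  classical
  refine ⟨univ.filter (fun x : Fin k → ZMod P => (fun i => w i + m * ((x i).val : ℤ)) ∈ R), ?_, ?_⟩
  · rw [cntk]
    apply card_bij (fun x _ => fun i => (x i).val)
    · intro x hx
      rw [mem_filter] at hx
      rw [mem_filter, Fintype.mem_piFinset]
      exact ⟨fun i => mem_range.2 (ZMod.val_lt _), hx.2⟩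
    · intro a _ b _ h
      funext i
      exact ZMod.val_injective P (congrFun h i)
    · intro n hn
      rw [mem_filter, Fintype.mem_piFinset] at hn
      refine ⟨fun i => (n i : ZMod P), ?_, ?_⟩
      · rw [mem_filter]
        refine ⟨mem_univ _, ?_⟩
        have e : (fun i => w i + m * ((((n i : ZMod P)).val : ℕ) : ℤ)) = (fun i => w i + m * (n i : ℤ)) := by
          funext i
          rw [ZMod.val_natCast_of_lt (mem_range.1 (hn.1 i))]
        rw [e]
        exact hn.2
      · funext i
        exact ZMod.val_natCast_of_lt (mem_range.1 (hn.1 i))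
  · intro x hx
    exact (mem_filter.1 hx).2

theorem fibre {k : ℕ} (P : ℕ) [NeZero P] (m : ℕ) (S0 : Finset ℤ) (S : Fin k → Finset ℤ)
    (R : Set (Fin k → ℤ)) (u0 : ℤ) (u : Fin k → ℤ) (X Y : Finset (Fin k → ZMod P)) (T : ℝ)
    (hX : ∀ x ∈ X, T ≤ ((lzT (univ.filter (fun v : ZMod P => u0 + m * (v.val : ℤ) ∈ S0))
      (fun i => univ.filter (fun v : ZMod P => u i + m * (v.val : ℤ) ∈ S i)) x).card : ℝ))
    (hY : ∀ x ∈ Y, (fun i => u i - u0 + m * ((x i).val : ℤ)) ∈ R) :
    ((X ∩ Y).card : ℝ) * T ≤ ((wz P m S0 S R (u0, u)).card : ℝ) := by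
  classical
  obtain ⟨Tx, hTx⟩ : ∃ Tx : (Fin k → ZMod P) → Finset (ZMod P), ∀ x, Tx x =
      lzT (univ.filter (fun v : ZMod P => u0 + m * (v.val : ℤ) ∈ S0))
      (fun i => univ.filter (fun v : ZMod P => u i + m * (v.val : ℤ) ∈ S i)) x := ⟨_, fun _ => rfl⟩
  have h1 : ((X ∩ Y).card : ℝ) * T ≤ ∑ x ∈ X ∩ Y, ((Tx x).card : ℝ) := by
    have h2 := card_nsmul_le_sum (X ∩ Y) (fun x => ((Tx x).card : ℝ)) T (by
      intro x hx
      rw [hTx]
      exact hX x (mem_inter.1 hx).1)
    rw [nsmul_eq_mul] at h2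
    exact h2
  refine h1.trans ?_
  have h3 : ∑ x ∈ X ∩ Y, (Tx x).card = ((X ∩ Y).sigma Tx).card := (card_sigma _ _).symm
  have h4 : ((X ∩ Y).sigma Tx).card ≤ (wz P m S0 S R (u0, u)).card := by
    apply card_le_card_of_injOn (fun s => (s.2, fun i => s.2 + s.1 i))
    · rintro ⟨x, v⟩ hs
      rw [mem_coe, mem_sigma] at hs
      obtain ⟨hx, hv⟩ := hs
      simp only at hx hv
      rw [hTx] at hv
      unfold lzT at hv
      rw [mem_filter, mem_filter] at hv
      obtain ⟨⟨_, hv0⟩, hvi⟩ := hv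
      have hR := hY x (mem_inter.1 hx).2
      rw [mem_coe, wz, mem_filter]
      refine ⟨mem_univ _, univ.filter (fun i => (v + x i).val < v.val), ?_⟩
      simp only
      rw [unst, mem_filter, mem_product, Fintype.mem_piFinset]
      refine ⟨⟨hv0, fun i => (mem_filter.1 (hvi i)).2⟩, ?_⟩
      have e : shf ((m : ℤ) * P) (univ.filter (fun i => (v + x i).val < v.val))
          (fun i => u i + m * (((v + x i).val : ℕ) : ℤ) - (u0 + m * ((v.val : ℕ) : ℤ))) =
          (fun i => u i - u0 + m * ((x i).val : ℤ)) := by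
        funext i
        simp only [shf, mem_filter, mem_univ, true_and]
        have h5 := ZMod.val_add v (x i)
        have h6 := ZMod.val_lt v
        have h7 := ZMod.val_lt (x i)
        by_cases h8 : v.val + (x i).val < P
        · rw [Nat.mod_eq_of_lt h8] at h5
          rw [if_neg (by omega), h5]
          push_cast
          ring
        · push Not at h8
          have h9 : (v.val + (x i).val) % P = v.val + (x i).val - P := by
            rw [Nat.mod_eq_sub_mod h8, Nat.mod_eq_of_lt (by omega)]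
          rw [h9] at h5
          rw [if_pos (by omega), h5]
          rw [Nat.cast_sub h8]
          push_cast
          ring
      rw [e]
      exact hR
    · rintro ⟨x, v⟩ _ ⟨x', v'⟩ _ h
      simp only [Prod.mk.injEq] at h
      obtain ⟨h5, h6⟩ := h
      subst h5
      have : x = x' := by
        funext i
        have := congrFun h6 i
        simp only [add_right_inj] at this
        exact this
      subst this
      rfl
  have h5 : ((∑ x ∈ X ∩ Y, (Tx x).card : ℕ) : ℝ) ≤ ((wz P m S0 S R (u0, u)).card : ℝ) := by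
    rw [h3]
    exact_mod_cast h4
  push_cast at h5
  exact h5

end Pool.Agent.H38.KT
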