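import Pool.Agent.H38.KT.Kmom
import Pool.Agent.H38.KT.ExP
import Pool.Agent.H38.KT.AvCnt

/-!
[H38 KT WIN]  One aligned window: some scale `j` and some step `d` work for the boxes.

Proof.  `θ = η^2/(16 K^2 k^2)` (`k ≥ 1`), `P1 = ⌈1/θ⌉`, `J = ⌈1/θ^2⌉`, `N = (K P)!`, `C1` with `2/C ≤ θ`, `12 N^J K P/C ≤ θ` and
`4 k K^2 N^J P/C ≤ η/2` for `C ≥ C1`.  `kpig` gives `j`; `kmom` with `t = N^j`, `l = l j`, `l1 = l (j+1)` (`t N = N^(j+1) ∣ N^J ∣ l J ∣ l (j+1)`), `l0 = l 0`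
gives `d ∈ Ioc (D j) (2 D j)` with
`S := ∑_m ∑_i ∑_{z ∈ W} (Av - Ex)^2 ≤ K (k |W|/P + k |W|/√J + 2 k |W| l_{j+1}/D_j + 12 k N^j K P D_j |W|/l_j) ≤ 4 K k θ |W|`
(`l_{j+1}/D_j ≤ 1/C`, `D_j/l_j ≤ 1/C`).  Cauchy-Schwarz (`K k |W|` terms): `∑_m ∑_i ∑_z |Av - Ex| ≤ √(K k |W| S) ≤ 2 K k √θ |W| ≤ (η/2) |W|`.
By `comp_bound` (`D = List.finRange k`, `s = N^j d m ≤ 2 N^J D_j K`), `avl_cnt`: for each `m`
`∑_{z ∈ W} |cntk/P^k - ExL| ≤ ∑_i ∑_z |Av - Ex| + 2 k s P |W|/(l0 T)`, and `s P/(l0 T) ≤ 2 N^J D_j K P/l_j ≤ 2 N^J K P/C` (`l_j ≤ l_0 ≤ l_0 T`);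
sum over `m ≤ K`.
-/

namespace Pool.Agent.H38.KT

open Finset Pool.Agent.H11.HM

theorem win_cs {α : Type*} {k : ℕ} (K : ℕ) (W : Finset α) (f : ℕ → Fin k → α → ℝ) (B : ℝ)
    (h : ∑ m ∈ Icc 1 K, ∑ i : Fin k, ∑ z ∈ W, (f m i z) ^ 2 ≤ B) :
    (∑ m ∈ Icc 1 K, ∑ i : Fin k, ∑ z ∈ W, |f m i z|) ^ 2 ≤ (K * k * W.card : ℝ) * B := by
  have e1 : ∀ g : ℕ → Fin k → α → ℝ, ∑ m ∈ Icc 1 K, ∑ i : Fin k, ∑ z ∈ W, g m i z =
      ∑ p ∈ (Icc 1 K) ×ˢ ((univ : Finset (Fin k)) ×ˢ W), g p.1 p.2.1 p.2.2 := by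
    intro g
    rw [Finset.sum_product]
    refine Finset.sum_congr rfl fun m _ => ?_
    rw [Finset.sum_product]
  rw [e1 fun m i z => (f m i z) ^ 2] at h
  rw [e1 fun m i z => |f m i z|]
  refine (sq_sum_le_card_mul_sum_sq).trans ?_
  have hc : (((Icc 1 K) ×ˢ ((univ : Finset (Fin k)) ×ˢ W)).card : ℝ) = K * k * W.card := by
    simp [Finset.card_product, mul_assoc]
  rw [hc]
  refine mul_le_mul_of_nonneg_left ?_ (by positivity)
  refine le_trans (le_of_eq ?_) h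
  exact Finset.sum_congr rfl fun p _ => by rw [sq_abs]

theorem win_chain (l : ℕ → ℕ) (J : ℕ) (h : ∀ j, j < J → l (j + 1) ∣ l j) (i j : ℕ) (hij : i ≤ j)
    (hj : j ≤ J) : l j ∣ l i := by
  induction j, hij using Nat.le_induction with
  | base => exact dvd_rfl
  | succ n hn ih => exact (h n (by omega)).trans (ih (by omega))

theorem win (k K : ℕ) (hk : 1 ≤ k) (hK : 1 ≤ K) (η : ℝ) (hη : 0 < η) : ∃ P1 J : ℕ, 1 ≤ P1 ∧ 1 ≤ J ∧
    ∀ P : ℕ, P1 ≤ P → ∃ C1 : ℕ, 1 ≤ C1 ∧ ∀ C : ℕ, C1 ≤ C → ∀ l D : ℕ → ℕ, 1 ≤ l 0 →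
      ((K * P).factorial) ^ J ∣ l J → (∀ j, j < J → l (j + 1) ∣ l j) → (∀ j, j < J → 1 ≤ D j) →
      (∀ j, j < J → C * l (j + 1) ≤ D j) → (∀ j, j < J → C * D j ≤ l j) →
      ∀ (R : Set (Fin k → ℤ)) (T : ℕ), 1 ≤ T → ∀ a : Fin k → ℤ,
        ∃ j, j < J ∧ ∃ d ∈ Ioc (D j) (2 * D j), ∑ m ∈ Icc 1 K, ∑ z ∈ acube (l 0) T a,
          |(cntk R P (((K * P).factorial) ^ j * d * m : ℕ) z : ℝ) / (P : ℝ) ^ k -
            ExL (((K * P).factorial) ^ j) (l j) (List.finRange k) (indk R) z| ≤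
          η * (((l 0 * T : ℕ)) : ℝ) ^ k := by
  have hkr : (1 : ℝ) ≤ k := by exact_mod_cast hk
  have hKr : (1 : ℝ) ≤ K := by exact_mod_cast hK
  obtain ⟨θ, hθd⟩ : ∃ θ : ℝ, θ = η ^ 2 / (16 * K ^ 2 * k ^ 2) := ⟨_, rfl⟩
  have hθ : 0 < θ := by rw [hθd]; positivity
  have hθe : 4 * (K : ℝ) ^ 2 * k ^ 2 * θ = (η / 2) ^ 2 := by
    rw [hθd]; field_simp; ring
  refine ⟨⌈1 / θ⌉₊ + 1, ⌈1 / θ ^ 2⌉₊ + 1, by omega, by omega, ?_⟩
  intro P hP
  have hP1 : 1 ≤ P := by omega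
  have hPr : (1 : ℝ) ≤ P := by exact_mod_cast hP1
  have hPθ : 1 / (P : ℝ) ≤ θ := by
    have h1 : 1 / θ ≤ (P : ℝ) := (Nat.le_ceil _).trans (by exact_mod_cast (by omega : ⌈1 / θ⌉₊ ≤ P))
    rw [div_le_iff₀ (by linarith)]
    rw [div_le_iff₀ hθ] at h1
    linarith
  obtain ⟨J, hJd⟩ : ∃ J : ℕ, J = ⌈1 / θ ^ 2⌉₊ + 1 := ⟨_, rfl⟩
  rw [← hJd]
  have hJ1 : 1 ≤ J := by omega
  have hJr : (1 : ℝ) ≤ J := by exact_mod_cast hJ1
  have hJθ : 1 / Real.sqrt J ≤ θ := by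
    have h1 : 1 / θ ^ 2 ≤ (J : ℝ) := (Nat.le_ceil _).trans (by rw [hJd]; push_cast; linarith)
    have h2 : 1 / θ ≤ Real.sqrt J := by
      apply Real.le_sqrt_of_sq_le
      rw [div_pow, one_pow]
      exact h1
    rw [div_le_iff₀ hθ] at h2
    rw [div_le_iff₀ (Real.sqrt_pos.2 (by linarith))]
    linarith
  obtain ⟨N, hNd⟩ : ∃ N : ℕ, N = (K * P).factorial := ⟨_, rfl⟩
  rw [← hNd]
  have hN1 : 1 ≤ N := by rw [hNd]; exact Nat.factorial_pos _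
  have hNr : (1 : ℝ) ≤ N := by exact_mod_cast hN1
  have hNJ : (1 : ℝ) ≤ (N : ℝ) ^ J := one_le_pow₀ hNr
  refine ⟨⌈2 / θ⌉₊ + ⌈12 * (N : ℝ) ^ J * K * P / θ⌉₊ + ⌈8 * k * (K : ℝ) ^ 2 * (N : ℝ) ^ J * P / η⌉₊ + 1,
    by omega, ?_⟩
  intro C hC l D hl0 hNl hl hD hCl hCD R T hT a
  have hC1 : 1 ≤ C := by omega
  have hCr : (1 : ℝ) ≤ C := by exact_mod_cast hC1
  have hCa : 2 / (C : ℝ) ≤ θ := by
    have h1 : 2 / θ ≤ (C : ℝ) := (Nat.le_ceil _).trans (by exact_mod_cast (by omega : ⌈2 / θ⌉₊ ≤ C))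
    rw [div_le_iff₀ hθ] at h1
    rw [div_le_iff₀ (by linarith)]
    linarith
  have hCb : 12 * (N : ℝ) ^ J * K * P / C ≤ θ := by
    have h1 : 12 * (N : ℝ) ^ J * K * P / θ ≤ (C : ℝ) := (Nat.le_ceil _).trans
      (by exact_mod_cast (by omega : ⌈12 * (N : ℝ) ^ J * K * P / θ⌉₊ ≤ C))
    rw [div_le_iff₀ hθ] at h1
    rw [div_le_iff₀ (by linarith)]
    linarith
  have hCc : 4 * k * (K : ℝ) ^ 2 * (N : ℝ) ^ J * P / C ≤ η / 2 := by
    have h1 : 8 * k * (K : ℝ) ^ 2 * (N : ℝ) ^ J * P / η ≤ (C : ℝ) := (Nat.le_ceil _).trans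
      (by exact_mod_cast (by omega : ⌈8 * k * (K : ℝ) ^ 2 * (N : ℝ) ^ J * P / η⌉₊ ≤ C))
    rw [div_le_iff₀ hη] at h1
    rw [div_le_iff₀ (by linarith)]
    linarith
  clear hC
  -- the scale
  obtain ⟨j, hj, hS1⟩ := kpig R N J hJ1 l hl0 hNl hl T hT a
  have hl0j : l j ∣ l 0 := win_chain l J hl 0 j (by omega) hj.le
  have hljpos : 1 ≤ l j := Nat.pos_of_dvd_of_pos hl0j hl0
  have hlj1 : l (j + 1) ∣ l j := hl j hj
  have hlJ1 : l J ∣ l (j + 1) := win_chain l J hl (j + 1) J (by omega) le_rfl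
  have hNj1 : N ^ (j + 1) ∣ l (j + 1) := (pow_dvd_pow N (by omega)).trans (hNl.trans hlJ1)
  have hNj : N ^ j ∣ l j := (pow_dvd_pow N (by omega)).trans (hNj1.trans hlj1)
  obtain ⟨Y, hYd⟩ : ∃ Y : ℝ, Y = (((l 0 * T : ℕ)) : ℝ) ^ k := ⟨_, rfl⟩
  have hY0 : 0 < Y := by
    rw [hYd]
    have : 0 < l 0 * T := Nat.mul_pos hl0 hT
    positivity
  rw [← hYd] at hS1 ⊢
  obtain ⟨d, hd, hS2⟩ := kmom R (N ^ j) (l j) (l (j + 1)) (l 0) K P (D j) T (Nat.pow_pos hN1) hK hP1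
    (by rw [← hNd, ← pow_succ]; exact hNj1) hlj1 hl0j hl0 (hD j hj) hT a
  rw [← hNd, ← pow_succ, ← hYd] at hS2
  refine ⟨j, hj, d, hd, ?_⟩
  have hljr : (1 : ℝ) ≤ l j := by exact_mod_cast hljpos
  have hDr : (1 : ℝ) ≤ D j := by exact_mod_cast hD j hj
  have hq1 : (l (j + 1) : ℝ) / D j ≤ 1 / C := by
    rw [div_le_div_iff₀ (by linarith) (by linarith)]
    have : ((C * l (j + 1) : ℕ) : ℝ) ≤ D j := by exact_mod_cast hCl j hj
    push_cast at this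
    linarith
  have hq2 : (D j : ℝ) / l j ≤ 1 / C := by
    rw [div_le_div_iff₀ (by linarith) (by linarith)]
    have : ((C * D j : ℕ) : ℝ) ≤ l j := by exact_mod_cast hCD j hj
    push_cast at this
    linarith
  have hNjJ : (N : ℝ) ^ j ≤ (N : ℝ) ^ J := pow_le_pow_right₀ hNr hj.le
  -- the second moment
  have hS3 : ∑ m ∈ Icc 1 K, ∑ i : Fin k, ∑ z ∈ acube (l 0) T a,
      (Av P ((N ^ j : ℕ) * d * m) i (indk R) z - Ex (N ^ j) (l j) i (indk R) z) ^ 2 ≤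
      4 * K * k * θ * Y := by
    refine hS2.trans ?_
    have t1 : (k : ℝ) * Y / P ≤ k * θ * Y := by
      calc (k : ℝ) * Y / P = k * Y * (1 / P) := by ring
        _ ≤ k * Y * θ := mul_le_mul_of_nonneg_left hPθ (by positivity)
        _ = _ := by ring
    have t2 : (k : ℝ) * Y / Real.sqrt J ≤ k * θ * Y := by
      calc (k : ℝ) * Y / Real.sqrt J = k * Y * (1 / Real.sqrt J) := by ring
        _ ≤ k * Y * θ := mul_le_mul_of_nonneg_left hJθ (by positivity)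
        _ = _ := by ring
    have t3 : 2 * (k : ℝ) * Y * l (j + 1) / D j ≤ k * θ * Y := by
      calc 2 * (k : ℝ) * Y * l (j + 1) / D j = 2 * k * Y * (l (j + 1) / D j) := by ring
        _ ≤ 2 * k * Y * (1 / C) := mul_le_mul_of_nonneg_left hq1 (by positivity)
        _ = k * Y * (2 / C) := by ring
        _ ≤ k * Y * θ := mul_le_mul_of_nonneg_left hCa (by positivity)
        _ = _ := by ring
    have t4 : 12 * (k : ℝ) * ((N ^ j : ℕ) : ℝ) * K * P * D j * Y / l j ≤ k * θ * Y := by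
      calc 12 * (k : ℝ) * ((N ^ j : ℕ) : ℝ) * K * P * D j * Y / l j
          = 12 * k * (N : ℝ) ^ j * K * P * Y * (D j / l j) := by push_cast; ring
        _ ≤ 12 * k * (N : ℝ) ^ j * K * P * Y * (1 / C) := mul_le_mul_of_nonneg_left hq2 (by positivity)
        _ = (N : ℝ) ^ j * (12 * k * K * P * Y * (1 / C)) := by ring
        _ ≤ (N : ℝ) ^ J * (12 * k * K * P * Y * (1 / C)) := mul_le_mul_of_nonneg_right hNjJ (by positivity)
        _ = k * Y * (12 * (N : ℝ) ^ J * K * P / C) := by ring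
        _ ≤ k * Y * θ := mul_le_mul_of_nonneg_left hCb (by positivity)
        _ = _ := by ring
    calc _ ≤ (K : ℝ) * (k * θ * Y + k * θ * Y + k * θ * Y + k * θ * Y) := by
            apply mul_le_mul_of_nonneg_left _ (by linarith)
            have := hS1.trans t2
            linarith
      _ = _ := by ring
  -- Cauchy-Schwarz
  have hcard : ((acube (l 0) T a).card : ℝ) = Y := by
    rw [hYd, card_acube]
  have hS4 := win_cs K (acube (l 0) T a)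
    (fun m i z => Av P ((N ^ j : ℕ) * d * m) i (indk R) z - Ex (N ^ j) (l j) i (indk R) z) _ hS3
  rw [hcard] at hS4
  have hS5 : ∑ m ∈ Icc 1 K, ∑ i : Fin k, ∑ z ∈ acube (l 0) T a,
      |Av P ((N ^ j : ℕ) * d * m) i (indk R) z - Ex (N ^ j) (l j) i (indk R) z| ≤ η / 2 * Y := by
    have h0 : 0 ≤ ∑ m ∈ Icc 1 K, ∑ i : Fin k, ∑ z ∈ acube (l 0) T a,
      |Av P ((N ^ j : ℕ) * d * m) i (indk R) z - Ex (N ^ j) (l j) i (indk R) z| := by positivity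
    have h1 : 0 ≤ η / 2 * Y := by positivity
    refine (sq_le_sq₀ h0 h1).mp ?_
    refine hS4.trans (le_of_eq ?_)
    calc (K * k * Y : ℝ) * (4 * K * k * θ * Y) = (4 * (K : ℝ) ^ 2 * k ^ 2 * θ) * Y ^ 2 := by ring
      _ = (η / 2 * Y) ^ 2 := by rw [hθe]; ring
  -- composition
  have hcomp : ∀ m ∈ Icc 1 K, ∑ z ∈ acube (l 0) T a,
      |(cntk R P ((N ^ j * d * m : ℕ) : ℤ) z : ℝ) / (P : ℝ) ^ k -
        ExL (N ^ j) (l j) (List.finRange k) (indk R) z| ≤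
      ∑ i : Fin k, ∑ z ∈ acube (l 0) T a,
        |Av P ((N ^ j : ℕ) * d * m) i (indk R) z - Ex (N ^ j) (l j) i (indk R) z| +
      4 * k * K * (N : ℝ) ^ J * P / C * Y := by
    intro m hm
    have hm' := Finset.mem_Icc.1 hm
    have h1 := comp_bound P (N ^ j * d * m) (N ^ j) (l j) (l 0) T hP1 hNj hl0j hl0 hT a (indk R)
      (fun z => by unfold indk; split_ifs <;> simp) (List.finRange k) (List.nodup_finRange k)
    rw [← hYd, List.length_finRange] at h1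
    have e1 : ((List.finRange k).map (fun i => ∑ z ∈ acube (l 0) T a,
        |Av P ((N ^ j * d * m : ℕ) : ℤ) i (indk R) z - Ex (N ^ j) (l j) i (indk R) z|)).sum =
        ∑ i : Fin k, ∑ z ∈ acube (l 0) T a,
        |Av P ((N ^ j : ℕ) * d * m) i (indk R) z - Ex (N ^ j) (l j) i (indk R) z| := by
      rw [← List.ofFn_eq_map, List.sum_ofFn]
      refine Finset.sum_congr rfl fun i _ => Finset.sum_congr rfl fun z _ => ?_
      push_cast
      rfl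
    rw [e1] at h1
    have e2 : ∀ z, AvL P ((N ^ j * d * m : ℕ) : ℤ) (List.finRange k) (indk R) z =
        (cntk R P ((N ^ j * d * m : ℕ) : ℤ) z : ℝ) / (P : ℝ) ^ k := fun z => avl_cnt R P _ z
    simp only [e2] at h1
    refine h1.trans ?_
    refine add_le_add le_rfl ?_
    have hd2 : (d : ℝ) ≤ 2 * D j := by exact_mod_cast (Finset.mem_Ioc.1 hd).2
    have hmK : (m : ℝ) ≤ K := by exact_mod_cast hm'.2
    have hlT : (l j : ℝ) ≤ (l 0 : ℝ) * T := by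
      have h3 : l j ≤ l 0 * T := (Nat.le_of_dvd hl0 hl0j).trans (Nat.le_mul_of_pos_right _ hT)
      exact_mod_cast h3
    have hs : ((N ^ j * d * m : ℕ) : ℝ) ≤ (N : ℝ) ^ J * (2 * D j) * K := by
      push_cast
      exact mul_le_mul (mul_le_mul hNjJ hd2 (by positivity) (by positivity)) hmK (by positivity)
        (by positivity)
    have h5 : ((N ^ j * d * m : ℕ) : ℝ) * P * Y / (l 0 * T) ≤ 2 * (N : ℝ) ^ J * K * P / C * Y := by
      calc ((N ^ j * d * m : ℕ) : ℝ) * P * Y / (l 0 * T)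
          ≤ ((N : ℝ) ^ J * (2 * D j) * K) * P * Y / (l 0 * T) := by
            apply div_le_div_of_nonneg_right _ (by positivity)
            exact mul_le_mul_of_nonneg_right (mul_le_mul_of_nonneg_right hs (by positivity)) hY0.le
        _ ≤ ((N : ℝ) ^ J * (2 * D j) * K) * P * Y / l j :=
            div_le_div_of_nonneg_left (by positivity) (by linarith) hlT
        _ = 2 * (N : ℝ) ^ J * K * P * Y * (D j / l j) := by ring
        _ ≤ 2 * (N : ℝ) ^ J * K * P * Y * (1 / C) := mul_le_mul_of_nonneg_left hq2 (by positivity)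
        _ = _ := by ring
    calc (k : ℝ) * (2 * (((N ^ j * d * m : ℕ) : ℝ) * P * Y / (l 0 * T)))
        ≤ k * (2 * (2 * (N : ℝ) ^ J * K * P / C * Y)) := by
          apply mul_le_mul_of_nonneg_left _ (by linarith)
          linarith
      _ = _ := by ring
  calc _ ≤ ∑ m ∈ Icc 1 K, (∑ i : Fin k, ∑ z ∈ acube (l 0) T a,
        |Av P ((N ^ j : ℕ) * d * m) i (indk R) z - Ex (N ^ j) (l j) i (indk R) z| +
      4 * k * K * (N : ℝ) ^ J * P / C * Y) := Finset.sum_le_sum hcomp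
    _ = ∑ m ∈ Icc 1 K, ∑ i : Fin k, ∑ z ∈ acube (l 0) T a,
        |Av P ((N ^ j : ℕ) * d * m) i (indk R) z - Ex (N ^ j) (l j) i (indk R) z| +
        K * (4 * k * K * (N : ℝ) ^ J * P / C * Y) := by
      rw [Finset.sum_add_distrib, Finset.sum_const, Nat.card_Icc, nsmul_eq_mul]
      simp
    _ ≤ η / 2 * Y + η / 2 * Y := by
      refine add_le_add hS5 ?_
      calc (K : ℝ) * (4 * k * K * (N : ℝ) ^ J * P / C * Y)
          = (4 * k * (K : ℝ) ^ 2 * (N : ℝ) ^ J * P / C) * Y := by ring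
        _ ≤ η / 2 * Y := mul_le_mul_of_nonneg_right hCc hY0.le
    _ = η * Y := by ring

end Pool.Agent.H38.KT
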